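import Mathlib

set_option autoImplicit false

namespace Pool.Agent.Lib.MP_dfc315_mp

/-- Jet indices: `(0, i)` is the `i`-th `x`-derivative of `u`, `(1, i)` that of `v`. -/
abbrev Idx := Fin 2 × ℕ

/-- A class of functions of `u, v, u_x, v_x, ...`: a field `K` of characteristic zero with the
coordinate functions `x i` and commuting derivations `p i` (the derivatives with respect to the
coordinates), every function depending on finitely many coordinates. -/
structure Jets (K : Type) [Field K] [CharZero K] where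
  x : Idx → K
  p : Idx → Derivation ℚ K K
  p_x : ∀ i j, p i (x j) = if i = j then 1 else 0
  comm : ∀ i j f, p i (p j f) = p j (p i f)
  fin : ∀ f, {i | p i f ≠ 0}.Finite

namespace Jets

variable {K : Type} [Field K] [CharZero K] (J : Jets K)

/-- The vector field with components `ξ`, applied to `f`. -/
noncomputable def vf (ξ : Idx → K) (f : K) : K := ∑ᶠ i, ξ i * J.p i f

/-- The total derivative `D_x`. -/
noncomputable def D : K → K := J.vf fun i => J.x (i.1, i.2 + 1)

/-- The derivative of a function along the evolutionary system `u_τ = g 0`, `v_τ = g 1`. -/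
noncomputable def ev (g : Fin 2 → K) : K → K := J.vf fun i => J.D^[i.2] (g i.1)

/-- Constants: functions with all derivatives zero. -/
def IsConst (c : K) : Prop := ∀ i, J.p i c = 0

/-- The function `f` depends only on the coordinates in `s`. -/
def DependsOn (f : K) (s : Set Idx) : Prop := ∀ i, i ∉ s → J.p i f = 0

/-- The highest derivative present in `g` has order `n`. -/
def HasOrder (g : Fin 2 → K) (n : ℕ) : Prop :=
  (∀ a, J.DependsOn (g a) {i | i.2 ≤ n}) ∧ ∃ a b, J.p (b, n) (g a) ≠ 0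

end Jets

/-- A two-component evolutionary system `u_t = P 0`, `v_t = P 1` over a class of functions. -/
structure Evol where
  K : Type
  [field : Field K]
  [charZero : CharZero K]
  J : Jets K
  P : Fin 2 → K

attribute [instance] Evol.field Evol.charZero

namespace Evol

variable (S : Evol)

/-- The `i`-th derivative of `u`. -/
abbrev u (i : ℕ) : S.K := S.J.x (0, i)

/-- The `i`-th derivative of `v`. -/
abbrev v (i : ℕ) : S.K := S.J.x (1, i)

/-- The time derivative `D_t` on solutions of the system. -/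
noncomputable def Dt : S.K → S.K := S.J.ev S.P

/-- The system has the form (S). -/
def IsFormS : Prop :=
  S.J.DependsOn (S.P 0 - S.u 2) {i | i.2 ≤ 1} ∧ S.J.DependsOn (S.P 1 + S.v 2) {i | i.2 ≤ 1}

/-- The flow `u_τ = g 0`, `v_τ = g 1` commutes with the system. -/
def IsSymmetry (g : Fin 2 → S.K) : Prop := ∀ a, S.Dt (g a) = S.J.ev g (S.P a)

/-- `ρ` is a conserved density. -/
def IsConserved (ρ : S.K) : Prop := ∃ σ, S.Dt ρ = S.J.D σ

/-- The system becomes linear under a change `u ↦ Φ(u)`, `v ↦ Ψ(v)`. -/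
def IsPointLinear : Prop :=
  ∃ (Φ Ψ : S.K) (a b : Fin 5 → S.K), S.J.DependsOn Φ {(0, 0)} ∧ S.J.DependsOn Ψ {(1, 0)} ∧
    S.J.p (0, 0) Φ ≠ 0 ∧ S.J.p (1, 0) Ψ ≠ 0 ∧ (∀ k, S.J.IsConst (a k) ∧ S.J.IsConst (b k)) ∧
    S.Dt Φ - S.J.D (S.J.D Φ) = a 0 + a 1 * Φ + a 2 * Ψ + a 3 * S.J.D Φ + a 4 * S.J.D Ψ ∧
    S.Dt Ψ + S.J.D (S.J.D Ψ) = b 0 + b 1 * Φ + b 2 * Ψ + b 3 * S.J.D Φ + b 4 * S.J.D Ψ

/-- S-integrable: not linear after a change `u ↦ Φ(u)`, `v ↦ Ψ(v)`, symmetries of arbitrarily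
high order, and infinitely many conserved densities that are linearly independent over the
constants modulo the trivial densities (a constant plus a total derivative). -/
def IsSIntegrable : Prop :=
  ¬ S.IsPointLinear ∧ (∀ n, ∃ m g, n ≤ m ∧ S.IsSymmetry g ∧ S.J.HasOrder g m) ∧
    ∃ ρ : ℕ → S.K, (∀ n, S.IsConserved (ρ n)) ∧
      ∀ (s : Finset ℕ) (c : ℕ → S.K) (c₀ f : S.K), (∀ n, S.J.IsConst (c n)) → S.J.IsConst c₀ →
        ∑ n ∈ s, c n * ρ n = c₀ + S.J.D f → ∀ n ∈ s, c n = 0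

/-- An S-integrable system of the form (S) with a symmetry of order three. -/
def IsNLSType : Prop := S.IsFormS ∧ S.IsSIntegrable ∧ ∃ g, S.IsSymmetry g ∧ S.J.HasOrder g 3

/-- The system is a member of the family (LL). -/
def IsLL : Prop :=
  ∃ c : Fin 5 → S.K, (∀ k, S.J.IsConst (c k)) ∧
    let r : S.K → S.K := fun y => c 0 + c 1 * y + c 2 * y ^ 2 + c 3 * y ^ 3 + c 4 * y ^ 4
    let q : S.K := 2 * c 4 * S.u 0 ^ 2 * S.v 0 ^ 2 + c 3 * S.u 0 * S.v 0 * (S.v 0 - S.u 0)
      - 2 * c 2 * S.u 0 * S.v 0 + c 1 * (S.u 0 - S.v 0) + 2 * c 0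
    S.P 0 = S.u 2 - 2 * S.u 1 ^ 2 / (S.u 0 + S.v 0)
        - 4 * (q * S.u 1 + r (S.u 0) * S.v 1) / (S.u 0 + S.v 0) ^ 2 ∧
      S.P 1 = -S.v 2 + 2 * S.v 1 ^ 2 / (S.u 0 + S.v 0)
        - 4 * (q * S.v 1 + r (-S.v 0) * S.u 1) / (S.u 0 + S.v 0) ^ 2

/-- The fully anisotropic spin system in stereographic coordinates, with quartic `1 + y ^ 4`. -/
def IsXYZ : Prop :=
  S.P 0 = S.u 2 - 2 * (S.u 1 ^ 2 + 1 + S.u 0 ^ 4) / (S.u 0 + S.v 0) + 2 * S.u 0 ^ 3 ∧
    S.P 1 = -S.v 2 + 2 * (S.v 1 ^ 2 + 1 + S.v 0 ^ 4) / (S.u 0 + S.v 0) - 2 * S.v 0 ^ 3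

end Evol

/-- A differential substitution `u = φ`, `v = ψ` from the system `B` to the system `A`.  The map
`σ` composes a function with the substitution, so `φ = σ u`, `ψ = σ v`, the `i`-th derivatives go
to `D^i φ`, `D^i ψ`, and the chain rule holds; the differentials of all `D^i φ`, `D^i ψ` are
linearly independent; and `φ, ψ` satisfy `A` on solutions of `B`. -/
def Subst (B A : Evol) : Prop :=
  ∃ σ : A.K →+* B.K, (∀ a i, σ (A.J.x (a, i)) = B.J.D^[i] (σ (A.J.x (a, 0)))) ∧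
    (∀ j f, B.J.p j (σ f) = ∑ᶠ i, σ (A.J.p i f) * B.J.p j (σ (A.J.x i))) ∧
    LinearIndependent B.K (fun i j : Idx => B.J.p j (σ (A.J.x i))) ∧
    ∀ a, B.Dt (σ (A.J.x (a, 0))) = σ (A.P a)

/-- Linked by a chain of differential substitutions, each in one direction or the other. -/
def Linked : Evol → Evol → Prop := Relation.EqvGen Subst

end Pool.Agent.Lib.MP_dfc315_mp
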