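import Mathlib

set_option autoImplicit false

namespace Pool.Agent.Lib.MP_dfc315_mp

/-- Derivations along a ring map, with values in a module. -/
structure DerM {K L : Type*} [CommRing K] [CommRing L] (φ : K →+* L) (M : Type*)
    [AddCommGroup M] [Module L M] extends K →+ M where
  leib : ∀ a b, toFun (a * b) = φ a • toFun b + φ b • toFun a

/-- Derivations of a ring. -/
abbrev Der (R : Type*) [CommRing R] := DerM (RingHom.id R) R

namespace DerM

section

variable {K L : Type*} [CommRing K] [CommRing L] {φ : K →+* L} {M : Type*}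
  [AddCommGroup M] [Module L M]

instance : FunLike (DerM φ M) K M where
  coe d := d.toFun
  coe_injective := by
    rintro ⟨d, _⟩ ⟨e, _⟩ h
    congr
    exact DFunLike.coe_injective h

instance : AddMonoidHomClass (DerM φ M) K M where
  map_add d := d.map_add'
  map_zero d := d.map_zero'

variable (d : DerM φ M)

@[simp] theorem coe_hom : ⇑d.toAddMonoidHom = d := rfl

theorem mul (a b : K) : d (a * b) = φ a • d b + φ b • d a := d.leib a b

@[simp] theorem one : d 1 = 0 := by
  have := d.mul 1 1
  simpa using this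

@[simp] theorem natCast (n : ℕ) : d n = 0 := by
  rw [← nsmul_one, map_nsmul, d.one, smul_zero]

@[simp] theorem intCast (n : ℤ) : d n = 0 := by
  rw [← zsmul_one, map_zsmul, d.one, smul_zero]

@[simp] theorem ofNat (n : ℕ) [n.AtLeastTwo] : d (ofNat(n) : K) = 0 := d.natCast n

theorem pow_succ (a : K) (n : ℕ) : d (a ^ (n + 1)) = ((n + 1 : L) * φ a ^ n) • d a := by
  induction n with
  | zero => simp
  | succ n ih =>
    rw [_root_.pow_succ, d.mul, ih, map_pow, smul_smul, ← add_smul]
    congr 1
    push_cast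
    ring

theorem pow (a : K) (n : ℕ) : d (a ^ n) = ((n : L) * φ a ^ (n - 1)) • d a := by
  cases n with
  | zero => simp
  | succ n => simpa using d.pow_succ a n

theorem inv_of {a b : K} (h : a * b = 1) : d b = -(φ b ^ 2) • d a := by
  have h1 := d.mul a b
  rw [h, d.one] at h1
  have h2 : φ b * φ a = 1 := by rw [← map_mul, mul_comm, h, map_one]
  calc d b = φ b • (φ a • d b) := by rw [smul_smul, h2, one_smul]
    _ = _ := by rw [eq_neg_of_add_eq_zero_left h1.symm, smul_neg, smul_smul, neg_smul, sq]

/-- Composition with a linear map. -/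
def lin {N : Type*} [AddCommGroup N] [Module L N] (f : M →ₗ[L] N) : DerM φ N where
  toFun a := f (d a)
  map_zero' := by simp
  map_add' := by simp
  leib a b := by simp [d.mul]

@[simp] theorem lin_apply {N : Type*} [AddCommGroup N] [Module L N] (f : M →ₗ[L] N) (a : K) :
    d.lin f a = f (d a) := rfl

/-- Composition with a ring map. -/
def comap {K' : Type*} [CommRing K'] (σ : K' →+* K) : DerM (φ.comp σ) M where
  toFun a := d (σ a)
  map_zero' := by simp
  map_add' := by simp
  leib a b := by simp [d.mul]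

@[simp] theorem comap_apply {K' : Type*} [CommRing K'] (σ : K' →+* K) (a : K') :
    d.comap σ a = d (σ a) := rfl

/-- Difference of derivations. -/
def sub (e : DerM φ M) : DerM φ M where
  toFun a := d a - e a
  map_zero' := by simp
  map_add' a b := by simp only [map_add]; abel
  leib a b := by simp only [mul, smul_sub]; abel

@[simp] theorem sub_apply (e : DerM φ M) (a : K) : d.sub e a = d a - e a := rfl

/-- The kernel of a derivation. -/
def kerSubring : Subring K where
  carrier := {a | d a = 0}
  mul_mem' {a b} ha hb := by simp_all [mul]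
  one_mem' := d.one
  add_mem' {a b} ha hb := by simp_all
  zero_mem' := map_zero d
  neg_mem' {a} ha := by simp_all

end

section

variable {K L : Type*} [Field K] [CommRing L] {φ : K →+* L} {M : Type*}
  [AddCommGroup M] [Module L M] (d : DerM φ M)

theorem inv (a : K) : d a⁻¹ = -(φ a⁻¹ ^ 2) • d a := by
  rcases eq_or_ne a 0 with rfl | h
  · simp
  · exact d.inv_of (mul_inv_cancel₀ h)

/-- The kernel of a derivation of a field. -/
def ker : Subfield K where
  __ := d.kerSubring
  inv_mem' a (ha : d a = 0) := by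
    change d a⁻¹ = 0
    rw [d.inv, ha, smul_zero]

@[simp] theorem mem_ker {a : K} : a ∈ d.ker ↔ d a = 0 := Iff.rfl

end

section

variable {R S : Type*} [CommRing R] [CommRing S]

theorem mul' (d : Der R) (a b : R) : d (a * b) = a * d b + b * d a := d.mul a b

/-- A derivation followed by a ring map. -/
def map (d : Der R) (φ : R →+* S) : DerM φ S where
  toFun a := φ (d a)
  map_zero' := by simp
  map_add' := by simp
  leib a b := by simp [d.mul']

@[simp] theorem map_apply (d : Der R) (φ : R →+* S) (a : R) : d.map φ a = φ (d a) := rfl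

/-- The commutator of two derivations. -/
def lie (d e : Der R) : Der R where
  toFun a := d (e a) - e (d a)
  map_zero' := by simp
  map_add' a b := by simp only [map_add]; abel
  leib a b := by simp only [mul', map_add, RingHom.id_apply, smul_eq_mul]; ring

@[simp] theorem lie_apply (d e : Der R) (a : R) : d.lie e a = d (e a) - e (d a) := rfl

/-- The ring map to dual numbers given by a derivation. -/
def toHom {φ : R →+* S} (d : DerM φ S) : R →+* DualNumber S where
  toFun a := (φ a, d a)
  map_one' := by ext <;> simp [TrivSqZeroExt.fst_mk, TrivSqZeroExt.snd_mk]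
  map_zero' := by ext <;> simp [TrivSqZeroExt.fst_mk, TrivSqZeroExt.snd_mk]
  map_mul' a b := by
    ext
    · simp [TrivSqZeroExt.fst_mk]
    · rw [DualNumber.snd_mul]
      simp [TrivSqZeroExt.fst_mk, TrivSqZeroExt.snd_mk, d.mul, mul_comm]
  map_add' a b := by ext <;> simp [TrivSqZeroExt.fst_mk, TrivSqZeroExt.snd_mk]

@[simp] theorem toHom_fst {φ : R →+* S} (d : DerM φ S) (a : R) : (d.toHom a).fst = φ a := rfl

@[simp] theorem toHom_snd {φ : R →+* S} (d : DerM φ S) (a : R) : (d.toHom a).snd = d a := rfl

/-- The derivation given by a ring map to dual numbers. -/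
def ofHom (F : R →+* DualNumber R) (h : ∀ a, (F a).fst = a) : Der R where
  toFun a := (F a).snd
  map_zero' := by simp
  map_add' := by simp
  leib a b := by simp [h, mul_comm]

@[simp] theorem ofHom_apply (F : R →+* DualNumber R) (h : ∀ a, (F a).fst = a) (a : R) :
    ofHom F h a = (F a).snd := rfl

end

end DerM

theorem exists_der_frac {R F : Type*} [CommRing R] [Field F] [Algebra R F] [IsFractionRing R F]
    (d : DerM (algebraMap R F) F) : ∃ e : Der F, ∀ a, e (algebraMap R F a) = d a := by
  have hu : ∀ y : nonZeroDivisors R, IsUnit (d.toHom y) := fun y => by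
    rw [TrivSqZeroExt.isUnit_iff_isUnit_fst]
    exact IsLocalization.map_units F y
  have h : (TrivSqZeroExt.fstHom F F F).toRingHom.comp (IsLocalization.lift (S := F) hu) =
      RingHom.id F := by
    refine IsLocalization.ringHom_ext (nonZeroDivisors R) ?_
    ext a
    simp
  exact ⟨DerM.ofHom (IsLocalization.lift (S := F) hu) fun a => RingHom.congr_fun h a,
    fun a => by simp⟩

theorem der_frac_zero {R F L M : Type*} [CommRing R] [Field F] [Algebra R F] [IsFractionRing R F]
    [Field L] [AddCommGroup M] [Module L M] {φ : F →+* L} (d : DerM φ M)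
    (h : ∀ a, d (algebraMap R F a) = 0) (x : F) : d x = 0 := by
  obtain ⟨a, b, -, rfl⟩ := IsFractionRing.div_surjective R x
  exact d.ker.div_mem (h a) (h b)

theorem exists_der_mvPoly {σ R : Type*} [CommRing R] (d : Der R) (α : σ → MvPolynomial σ R) :
    ∃ e : Der (MvPolynomial σ R), (∀ a, e (MvPolynomial.C a) = MvPolynomial.C (d a)) ∧
      ∀ i, e (MvPolynomial.X i) = α i := by
  let F : MvPolynomial σ R →+* DualNumber (MvPolynomial σ R) :=
    MvPolynomial.eval₂Hom (d.map MvPolynomial.C).toHom fun i => (MvPolynomial.X i, α i)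
  have h : (TrivSqZeroExt.fstHom ℤ _ _).toRingHom.comp F = RingHom.id _ := by
    refine MvPolynomial.ringHom_ext (fun a => ?_) fun i => ?_ <;> simp [F, TrivSqZeroExt.fst_mk]
  exact ⟨DerM.ofHom F fun a => RingHom.congr_fun h a, fun a => by simp [F],
    fun i => by simp [F, TrivSqZeroExt.snd_mk]⟩

theorem der_mvPoly_zero {σ R L M : Type*} [CommRing R] [CommRing L] [AddCommGroup M] [Module L M]
    {φ : MvPolynomial σ R →+* L} (d : DerM φ M) (h : ∀ a, d (MvPolynomial.C a) = 0)
    (h' : ∀ i, d (MvPolynomial.X i) = 0) (x : MvPolynomial σ R) : d x = 0 := by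
  induction x using MvPolynomial.induction_on with
  | C a => exact h a
  | add p q hp hq => simp [hp, hq]
  | mul_X p i hp => simp [d.mul, hp, h']

theorem minPrime_stable {R : Type*} [CommRing R] (hR : ∀ n : ℕ, IsUnit ((n + 1 : ℕ) : R))
    (d : Der R) {p : Ideal R} (hp : p ∈ minimalPrimes R) {x : R} (hx : x ∈ p) : d x ∈ p := by
  classical
  have := hp.isPrime
  have H : ∃ n, ∃ s, s ∉ p ∧ s * x ^ n = 0 := by
    have h1 : algebraMap R (Localization.AtPrime p) x ∈ (Ideal.map (algebraMap R
      (Localization.AtPrime p)) ⊥).radical := by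
      rw [IsLocalization.AtPrime.radical_map_of_mem_minimalPrimes (Localization.AtPrime p) p ⊥ hp]
      exact Ideal.mem_map_of_mem _ hx
    obtain ⟨n, hn⟩ := h1
    rw [Ideal.map_bot, Ideal.mem_bot, ← map_pow,
      IsLocalization.map_eq_zero_iff p.primeCompl] at hn
    obtain ⟨s, hs⟩ := hn
    exact ⟨n, s, s.2, hs⟩
  obtain ⟨s, hs, h0⟩ := Nat.find_spec H
  by_contra hd
  rcases hn : Nat.find H with _ | n
  · rw [hn, pow_zero, mul_one] at h0
    exact hs (h0 ▸ p.zero_mem)
  · rw [hn] at h0
    refine Nat.find_min H (m := n) (by omega) ⟨s * s * d x, fun h => ?_, ?_⟩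
    · rcases this.mem_or_mem h with h | h
      · exact hs (by simpa using this.mem_or_mem h)
      · exact hd h
    · have h1 := congrArg d h0
      rw [d.mul', d.pow_succ, map_zero] at h1
      refine (hR n).mul_right_eq_zero.1 ?_
      simp only [RingHom.id_apply, smul_eq_mul] at h1
      push_cast
      linear_combination s * h1 - d s * h0

/-- A field of characteristic zero with two commuting derivations. -/
structure DF where
  L : Type
  [field : Field L]
  [charZero : CharZero L]
  d : Der L
  t : Der L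
  comm : ∀ a, d (t a) = t (d a)

attribute [instance] DF.field DF.charZero

/-- Maps of differential fields. -/
structure DHom (A B : DF) where
  f : A.L →+* B.L
  hd : ∀ a, B.d (f a) = f (A.d a)
  ht : ∀ a, B.t (f a) = f (A.t a)

/-- Composition. -/
def DHom.comp {A B C : DF} (g : DHom B C) (f : DHom A B) : DHom A C :=
  ⟨g.f.comp f.f, fun a => by simp [g.hd, f.hd], fun a => by simp [g.ht, f.ht]⟩

/-- Identity. -/
def DHom.id (A : DF) : DHom A A := ⟨RingHom.id _, fun _ => rfl, fun _ => rfl⟩

theorem exists_DF {K R : Type} [Field K] [CharZero K] [CommRing R] [Nontrivial R] (i : K →+* R)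
    (d t : Der R) (h : ∀ a, d (t a) = t (d a)) :
    ∃ (B : DF) (φ : R →+* B.L), (∀ a, B.d (φ a) = φ (d a)) ∧ ∀ a, B.t (φ a) = φ (t a) := by
  obtain ⟨m, hm⟩ := Ideal.exists_maximal R
  obtain ⟨p, hp, -⟩ := Ideal.exists_minimalPrimes_le (I := ⊥) (J := m) bot_le
  have := hp.isPrime
  have hR : ∀ n : ℕ, IsUnit ((n + 1 : ℕ) : R) := fun n => by
    simpa using (IsUnit.mk0 ((n + 1 : ℕ) : K) (Nat.cast_ne_zero.2 n.succ_ne_zero)).map i
  let F := FractionRing (R ⧸ p)
  let φ : R →+* F := (algebraMap (R ⧸ p) F).comp (Ideal.Quotient.mk p)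
  have key : ∀ e : Der R, ∃ e' : Der F, ∀ a, e' (φ a) = φ (e a) := fun e => by
    have h1 : ∀ a ∈ p, (e.map φ).toHom a = 0 := fun a ha => by
      ext <;> simp [φ, Ideal.Quotient.eq_zero_iff_mem, ha, minPrime_stable hR e hp ha]
    let G := Ideal.Quotient.lift p _ h1
    have h2 : ∀ a, (G a).fst = algebraMap (R ⧸ p) F a := fun a => by
      obtain ⟨a, rfl⟩ := Ideal.Quotient.mk_surjective a
      rfl
    obtain ⟨e', he⟩ := exists_der_frac (R := R ⧸ p) (F := F)
      { toFun := fun a => (G a).snd
        map_zero' := by simp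
        map_add' := by simp
        leib := fun a b => by simp [h2, mul_comm] }
    exact ⟨e', fun a => he _⟩
  obtain ⟨d', hd⟩ := key d
  obtain ⟨t', ht⟩ := key t
  have : CharZero F := charZero_of_injective_ringHom (φ.comp i).injective
  refine ⟨⟨F, d', t', fun a => sub_eq_zero.1 (der_frac_zero (R := R ⧸ p) (d'.lie t') ?_ a)⟩, φ,
    hd, ht⟩
  intro a
  obtain ⟨a, rfl⟩ := Ideal.Quotient.mk_surjective a
  change d' (t' (φ a)) - t' (d' (φ a)) = 0
  rw [ht, hd, hd, ht, h, sub_self]

open TensorProduct in
theorem exists_amalgam {K A B : DF} (f : DHom K A) (g : DHom K B) :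
    ∃ (C : DF) (f' : DHom A C) (g' : DHom B C), ∀ k, f'.f (f.f k) = g'.f (g.f k) := by
  let := f.f.toAlgebra
  let := g.f.toAlgebra
  have key : ∀ (k : Der K.L) (a : Der A.L) (b : Der B.L), (∀ x, a (f.f x) = f.f (k x)) →
      (∀ x, b (g.f x) = g.f (k x)) → ∃ e : Der (A.L ⊗[K.L] B.L),
        ∀ x y, e (x ⊗ₜ y) = a x ⊗ₜ y + x ⊗ₜ b y := fun k a b ha hb => by
    let e : A.L ⊗[K.L] B.L →+ A.L ⊗[K.L] B.L := TensorProduct.liftAddHom
      (AddMonoidHom.mk' (fun x => AddMonoidHom.mk' (fun y => a x ⊗ₜ y + x ⊗ₜ b y)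
        fun y y' => by simp only [map_add, tmul_add]; abel)
        fun x x' => by ext y; simp only [map_add, add_tmul, AddMonoidHom.mk'_apply,
          AddMonoidHom.add_apply]; abel) fun r x y => by
        have h1 : a (r • x) = r • a x + k r • x := by
          rw [Algebra.smul_def, a.mul', Algebra.smul_def, Algebra.smul_def, mul_comm x]
          exact congrArg (_ + · * x) (ha r)
        have h2 : b (r • y) = r • b y + k r • y := by
          rw [Algebra.smul_def, b.mul', Algebra.smul_def, Algebra.smul_def, mul_comm y]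
          exact congrArg (_ + · * y) (hb r)
        simp only [AddMonoidHom.mk'_apply, h1, h2, add_tmul, tmul_add, smul_tmul]
        abel
    have he : ∀ x y, e (x ⊗ₜ y) = a x ⊗ₜ y + x ⊗ₜ b y := fun x y => rfl
    refine ⟨⟨e, fun z w => ?_⟩, he⟩
    change e (z * w) = z * e w + w * e z
    induction z with
    | zero => simp
    | add z z' hz hz' => simp only [add_mul, map_add, hz, hz', mul_add]; abel
    | tmul x y =>
      induction w with
      | zero => simp
      | add z z' hz hz' => simp only [add_mul, map_add, hz, hz', mul_add]; abel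
      | tmul x' y' =>
        simp only [Algebra.TensorProduct.tmul_mul_tmul, he, a.mul', b.mul', add_tmul, tmul_add,
          mul_add, mul_comm x' x, mul_comm y' y]
        abel
  obtain ⟨d, hd⟩ := key K.d A.d B.d f.hd g.hd
  obtain ⟨t, ht⟩ := key K.t A.t B.t f.ht g.ht
  obtain ⟨C, φ, h1, h2⟩ := exists_DF (algebraMap K.L (A.L ⊗[K.L] B.L)) d t fun z => by
    induction z with
    | zero => simp
    | add z z' hz hz' => simp only [map_add, hz, hz']
    | tmul x y => simp only [hd, ht, map_add, A.comm, B.comm]; abel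
  refine ⟨C, ⟨φ.comp Algebra.TensorProduct.includeLeftRingHom, fun a => ?_, fun a => ?_⟩,
    ⟨φ.comp Algebra.TensorProduct.includeRight.toRingHom, fun a => ?_, fun a => ?_⟩, fun k => ?_⟩
  · simp [h1, hd]
  · simp [h2, ht]
  · simp [h1, hd]
  · simp [h2, ht]
  · exact congrArg φ (Algebra.TensorProduct.tmul_one_eq_one_tmul k)

theorem exists_potentials (A : DF) {σ : Type} (a b : σ → A.L) (h : ∀ i, A.d (b i) = A.t (a i)) :
    ∃ (B : DF) (f : DHom A B) (θ : σ → B.L),
      (∀ i, B.d (θ i) = f.f (a i)) ∧ ∀ i, B.t (θ i) = f.f (b i) := by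
  obtain ⟨d, hd, hd'⟩ := exists_der_mvPoly A.d fun i => MvPolynomial.C (a i)
  obtain ⟨t, ht, ht'⟩ := exists_der_mvPoly A.t fun i => MvPolynomial.C (b i)
  obtain ⟨B, φ, h1, h2⟩ := exists_DF (MvPolynomial.C : A.L →+* MvPolynomial σ A.L) d t fun z =>
    sub_eq_zero.1 (der_mvPoly_zero (d.lie t) (fun c => by simp [hd, ht, A.comm])
      (fun i => by simp [hd, ht, hd', ht', h]) z)
  exact ⟨B, ⟨φ.comp MvPolynomial.C, fun c => by simp [h1, hd], fun c => by simp [h2, ht]⟩,
    fun i => φ (MvPolynomial.X i), fun i => by simp [h1, hd'], fun i => by simp [h2, ht']⟩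

end Pool.Agent.Lib.MP_dfc315_mp
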