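import Mathlib
import Pool.Agent.Lib.MP_dfc315_mp.Defs
import Pool.Agent.Lib.MP_dfc315_mp.Der

set_option autoImplicit false

namespace Pool.Agent.Lib.MP_dfc315_mp

open Finset

/-- `∇` is a connection over the derivation `e`. -/
def IsConn {L M : Type*} [CommRing L] [AddCommGroup M] [Module L M] (e : Der L) (D : M →+ M) :
    Prop := ∀ (f : L) (x : M), D (f • x) = e f • x + f • D x

theorem Der.isConn {L : Type*} [CommRing L] (e : Der L) : IsConn e e.toAddMonoidHom :=
  fun f x => by simp [e.mul', mul_comm, add_comm]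

namespace Jets

variable {K : Type} [Field K] [CharZero K] (J : Jets K)

/-- The coordinate derivations. -/
def pD (i : Idx) : Der K where
  toFun := J.p i
  map_zero' := by simp
  map_add' := by simp
  leib a b := by simp

@[simp] theorem pD_apply (i : Idx) (f : K) : J.pD i f = J.p i f := rfl

/-- The coordinates a function depends on. -/
noncomputable def supp (f : K) : Finset Idx := (J.fin f).toFinset

theorem p_eq_zero {f : K} {i : Idx} (h : i ∉ J.supp f) : J.p i f = 0 := by
  simpa [supp] using h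

theorem supp_p (f : K) (j : Idx) : J.supp (J.p j f) ⊆ J.supp f := fun i hi => by
  by_contra h
  simp [supp, J.comm i j, J.p_eq_zero h] at hi

section

variable {L M : Type*} [CommRing L] [AddCommGroup M] [Module L M] (φ : K →+* L) (m : Idx → M)

theorem dif_aux {f : K} {s : Finset Idx} (h : J.supp f ⊆ s) :
    ∑ᶠ i, φ (J.p i f) • m i = ∑ i ∈ s, φ (J.p i f) • m i :=
  finsum_eq_sum_of_support_subset _ fun i hi => h (by
    by_contra h1
    simp [J.p_eq_zero h1] at hi)

open Classical in
/-- The differential with `d x_i = m i`. -/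
noncomputable def dif : DerM φ M where
  toFun f := ∑ᶠ i, φ (J.p i f) • m i
  map_zero' := by simp
  map_add' a b := by
    rw [J.dif_aux φ m (s := J.supp (a + b) ∪ (J.supp a ∪ J.supp b)) subset_union_left,
      J.dif_aux φ m (s := J.supp (a + b) ∪ (J.supp a ∪ J.supp b)) (by grind),
      J.dif_aux φ m (s := J.supp (a + b) ∪ (J.supp a ∪ J.supp b)) (by grind), ← sum_add_distrib]
    simp [add_smul]
  leib a b := by
    rw [J.dif_aux φ m (s := J.supp (a * b) ∪ (J.supp a ∪ J.supp b)) subset_union_left,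
      J.dif_aux φ m (s := J.supp (a * b) ∪ (J.supp a ∪ J.supp b)) (by grind),
      J.dif_aux φ m (s := J.supp (a * b) ∪ (J.supp a ∪ J.supp b)) (by grind), smul_sum, smul_sum,
      ← sum_add_distrib]
    simp [add_smul, mul_smul]

theorem dif_eq {f : K} {s : Finset Idx} (h : J.supp f ⊆ s) :
    J.dif φ m f = ∑ i ∈ s, φ (J.p i f) • m i := J.dif_aux φ m h

@[simp] theorem dif_x (j : Idx) : J.dif φ m (J.x j) = m j := by
  classical
  rw [J.dif_eq φ m (s := insert j (J.supp (J.x j))) (subset_insert _ _)]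
  simp [J.p_x, apply_ite φ]

theorem dif_const {c : K} (h : J.IsConst c) : J.dif φ m c = 0 := by
  rw [J.dif_eq φ m Subset.rfl]
  simp [h _]

theorem lin_dif {N : Type*} [AddCommGroup N] [Module L N] (g : M →ₗ[L] N) (f : K) :
    g (J.dif φ m f) = J.dif φ (fun i => g (m i)) f := by
  simp [J.dif_eq φ _ Subset.rfl]

theorem vf_eq (ξ : Idx → K) (f : K) : J.vf ξ f = J.dif (RingHom.id K) ξ f := by
  simp only [vf, mul_comm (ξ _)]
  rfl

theorem conn_dif {e : Der L} {D : M →+ M} (hD : IsConn e D) (ξ : Idx → K)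
    (he : ∀ f, e (φ f) = φ (J.vf ξ f)) (f : K) :
    D (J.dif φ m f) = J.dif φ m (J.vf ξ f) + J.dif φ (fun i => D (m i) - J.dif φ m (ξ i)) f := by
  simp only [vf_eq] at he ⊢
  rw [J.dif_eq φ m Subset.rfl, J.dif_eq _ ξ Subset.rfl, J.dif_eq φ (fun i => _ - _) Subset.rfl]
  simp only [map_sum, hD _, he, J.dif_eq _ _ (J.supp_p f _), smul_eq_mul, DerM.mul, sum_add_distrib,
    RingHom.id_apply, smul_sub, sum_sub_distrib, map_mul, sum_smul, smul_sum]
  rw [sum_comm]
  simp only [smul_smul, J.comm _ _ f, mul_comm]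
  abel

theorem conn_dif' {e : Der L} {D : M →+ M} (hD : IsConn e D) (ξ : Idx → K)
    (he : ∀ f, e (φ f) = φ (J.vf ξ f)) (hm : ∀ i, D (m i) = J.dif φ m (ξ i)) (f : K) :
    D (J.dif φ m f) = J.dif φ m (J.vf ξ f) := by
  rw [J.conn_dif φ m hD ξ he, J.dif_eq φ (fun i => _ - _) Subset.rfl]
  simp [hm]

end

/-- The total derivative as a derivation. -/
noncomputable def DD : Der K := J.dif (RingHom.id K) fun i => J.x (i.1, i.2 + 1)

/-- Evolutionary derivations. -/
noncomputable def evD (g : Fin 2 → K) : Der K := J.dif (RingHom.id K) fun i => J.D^[i.2] (g i.1)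

theorem D_eq : J.D = J.DD := funext (J.vf_eq _)

theorem ev_eq (g : Fin 2 → K) : J.ev g = J.evD g := funext (J.vf_eq _)

@[simp] theorem DD_x (a : Fin 2) (i : ℕ) : J.DD (J.x (a, i)) = J.x (a, i + 1) := J.dif_x _ _ _

theorem evD_x (g : Fin 2 → K) (a : Fin 2) (i : ℕ) : J.evD g (J.x (a, i)) = J.DD^[i] (g a) := by
  rw [← D_eq]
  exact J.dif_x _ _ _

theorem DD_evD (g : Fin 2 → K) (f : K) : J.DD (J.evD g f) = J.evD g (J.DD f) := by
  refine (J.conn_dif' (RingHom.id K) _ J.DD.isConn (fun i => J.x (i.1, i.2 + 1))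
    (fun f => (J.vf_eq _ f).symm) (fun i => ?_) f).trans (by rw [vf_eq]; rfl)
  simp [D_eq, Function.iterate_succ_apply']

theorem p_DD (j : Idx) (f : K) : J.p j (J.DD f) =
    J.DD (J.p j f) + if j.2 = 0 then 0 else J.p (j.1, j.2 - 1) f := by
  classical
  have h : ∀ (j : Idx) f, J.vf (fun i => if i = j then 1 else 0) f = J.p j f := fun j f => by
    rw [vf_eq, J.dif_eq _ _ (s := insert j (J.supp f)) (subset_insert _ _)]
    simp
  have := J.conn_dif (RingHom.id K) (fun i => J.x (i.1, i.2 + 1)) (J.pD j).isConn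
    (fun i => if i = j then 1 else 0) (fun f => (h j f).symm) f
  rw [h] at this
  refine this.trans (congrArg (J.DD (J.p j f) + ·) ?_)
  obtain ⟨a, _ | n⟩ := j
  · rw [J.dif_eq _ _ Subset.rfl]
    simp [J.p_x, apply_ite (J.dif _ _), Prod.ext_iff]
  · rw [if_neg (by simp), ← h, vf_eq]
    congr 2
    ext i
    simp [J.p_x, apply_ite (J.dif _ _), Prod.ext_iff, eq_comm]

theorem const_of_DD {f : K} (h : J.IsConst (J.DD f)) : J.IsConst f := by
  rintro ⟨a, i⟩
  obtain ⟨n, hn⟩ : ∃ n, ∀ j ∈ J.supp f, j.2 < n :=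
    ⟨(J.supp f).sup Prod.snd + 1, fun j hj => Nat.lt_succ_of_le (le_sup hj)⟩
  have key : ∀ k i, n ≤ i + k → J.p (a, i) f = 0 := fun k => by
    induction k with
    | zero => exact fun i hi => J.p_eq_zero fun h => by simpa using (hn _ h).trans_le hi
    | succ k ih =>
      intro i hi
      simpa [h _, ih (i + 1) (by omega), eq_comm] using J.p_DD (a, i + 1) f
  exact key n i (by omega)

theorem DD_const {c : K} (h : J.IsConst c) : J.DD c = 0 := J.dif_const _ _ h

theorem isConst_iff {c : K} : J.IsConst c ↔ J.DD c = 0 :=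
  ⟨J.DD_const, fun h => J.const_of_DD fun i => by simp [h]⟩

theorem DD_ne_one (f : K) : J.DD f ≠ 1 := fun h => by
  rw [J.DD_const (J.const_of_DD fun i => by simp [h])] at h
  exact zero_ne_one h

theorem uv_ne : J.x (0, 0) + J.x (1, 0) ≠ 0 := fun h => by
  simpa [J.p_x] using congrArg (J.p (0, 0)) h

end Jets

/-- The differential field of a system. -/
noncomputable abbrev Evol.df (S : Evol) : DF := ⟨S.K, S.J.DD, S.J.evD S.P, S.J.DD_evD S.P⟩

section

variable {K K' : Type} [Field K] [CharZero K] [Field K'] [CharZero K'] {A : Jets K} {B : Jets K'}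
  {σ : K →+* K'} (h : ∀ j f, B.p j (σ f) = ∑ᶠ i, σ (A.p i f) * B.p j (σ (A.x i)))

include h

theorem dif_chain {L M : Type*} [CommRing L] [AddCommGroup M] [Module L M] (φ : K' →+* L)
    (m : Idx → M) (f : K) :
    B.dif φ m (σ f) = A.dif (φ.comp σ) (fun i => B.dif φ m (σ (A.x i))) f := by
  classical
  let s := B.supp (σ f) ∪ (A.supp f).biUnion fun i => B.supp (σ (A.x i))
  have h1 : ∀ j, B.p j (σ f) = ∑ i ∈ A.supp f, σ (A.p i f) * B.p j (σ (A.x i)) := fun j =>
    (h j f).trans (A.dif_aux σ (fun i => B.p j (σ (A.x i))) Subset.rfl)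
  rw [B.dif_eq φ m (s := s) subset_union_left, A.dif_eq _ _ Subset.rfl,
    sum_congr (s₁ := A.supp f) rfl fun i hi => by rw [B.dif_eq φ m (s := s)
      ((subset_biUnion_of_mem (fun i => B.supp (σ (A.x i))) hi).trans subset_union_right)]]
  simp only [h1, map_sum, map_mul, sum_smul, smul_sum, smul_smul, RingHom.comp_apply]
  exact sum_comm

theorem vf_chain {ξ : Idx → K} {η : Idx → K'}
    (hx : ∀ i, B.dif (RingHom.id _) η (σ (A.x i)) = σ (ξ i)) (f : K) :
    B.dif (RingHom.id _) η (σ f) = σ (A.dif (RingHom.id _) ξ f) := by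
  rw [dif_chain h, A.dif_eq _ _ Subset.rfl, A.dif_eq _ _ Subset.rfl]
  simp [hx]

end

theorem Subst.exists_hom {B A : Evol} (h : Subst B A) : ∃ σ : DHom A.df B.df,
    (∀ j f, B.J.p j (σ.f f) = ∑ᶠ i, σ.f (A.J.p i f) * B.J.p j (σ.f (A.J.x i))) ∧
    LinearIndependent B.K (fun i j : Idx => B.J.p j (σ.f (A.J.x i))) := by
  obtain ⟨σ, h1, h2, h3, h4⟩ := h
  have hd : ∀ f, B.J.DD (σ f) = σ (A.J.DD f) := vf_chain h2 fun ⟨a, i⟩ => by
    rw [h1 a (i + 1), Function.iterate_succ_apply', ← h1, B.J.D_eq]
    rfl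
  refine ⟨⟨σ, hd, vf_chain h2 fun ⟨a, i⟩ => ?_⟩, h2, h3⟩
  change B.J.evD B.P _ = σ (A.J.D^[i] (A.P a))
  rw [h1, A.J.D_eq, B.J.D_eq, (Function.Semiconj.iterate_right
    (f := σ) (fun f => (hd f).symm) i).eq, ← h4, Evol.Dt, Jets.ev_eq]
  exact (Function.Commute.iterate_right (fun f => (B.J.DD_evD _ f).symm) i).eq _

open MvPolynomial in
theorem mvPoly_eq_C {σ C : Type*} [Field C] [CharZero C] {p : MvPolynomial σ C}
    (h : ∀ i, pderiv i p = 0) : p = MvPolynomial.C (coeff 0 p) := by
  classical
  ext m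
  rw [coeff_C]
  split_ifs with hm
  · rw [hm]
  obtain ⟨i, hi⟩ : ∃ i, m i ≠ 0 := by
    by_contra h1
    exact hm (Finsupp.ext fun i => by simpa [eq_comm] using not_exists.1 h1 i)
  have h1 := congrArg (coeff (m - Finsupp.single i 1)) (h i)
  rw [coeff_pderiv, tsub_add_cancel_of_le (by simpa [Finsupp.single_le_iff, Nat.one_le_iff_ne_zero]),
    coeff_zero] at h1
  exact (mul_eq_zero.1 h1).resolve_right (Nat.cast_add_one_ne_zero _)

open MvPolynomial in
theorem Jets.monomials_indep {K : Type} [Field K] [CharZero K] (J : Jets K) :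
    LinearIndependent J.DD.ker fun m : Idx →₀ ℕ => m.prod fun i k => J.x i ^ k := by
  have h1 : ∀ i (p : MvPolynomial Idx J.DD.ker), J.p i (aeval J.x p) = aeval J.x (pderiv i p) :=
    fun i p => by
      induction p using MvPolynomial.induction_on with
      | C a => rw [pderiv_C, map_zero, aeval_C]; exact J.isConst_iff.2 a.2 i
      | add p q hp hq => simp [hp, hq]
      | mul_X p j hp => simp [hp, J.p_x, Pi.single_apply, eq_comm, apply_ite (aeval J.x)]
  have h2 : ∀ n (p : MvPolynomial Idx J.DD.ker), (∀ m ∈ p.support, m.degree < n) →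
      aeval J.x p = 0 → p = 0 := fun n => by
    induction n with
    | zero => exact fun p hp _ => support_eq_empty.1 (eq_empty_of_forall_notMem fun m hm => by
        simpa using hp m hm)
    | succ n ih =>
      intro p hp h0
      have h3 := mvPoly_eq_C fun i => ih (pderiv i p) (fun m hm => by
        have := hp (m + Finsupp.single i 1) (by
          rw [mem_support_iff] at hm ⊢
          rw [coeff_pderiv] at hm
          exact left_ne_zero_of_mul hm)
        simpa using this) (by rw [← h1, h0, map_zero])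
      rw [h3] at h0 ⊢
      simpa using h0
  have h3 : Function.Injective (aeval J.x : MvPolynomial Idx J.DD.ker →ₐ[_] K) :=
    (injective_iff_map_eq_zero _).2 fun p => h2 (p.support.sup Finsupp.degree + 1) p
      fun m hm => Nat.lt_succ_of_le (le_sup hm)
  have := (basisMonomials Idx J.DD.ker).linearIndependent.map' (aeval J.x).toLinearMap
    (LinearMap.ker_eq_bot.2 h3)
  simpa [Function.comp_def, aeval_monomial] using this

theorem indep_const {K L ι : Type*} [Field K] [Field L] {d : Der K} {e : Der L} {φ : K →+* L}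
    (h : ∀ a, e (φ a) = φ (d a)) {v : ι → K} (hv : LinearIndependent d.ker v) :
    LinearIndependent e.ker fun i => φ (v i) := by
  classical
  rw [linearIndependent_iff'] at hv ⊢
  intro s
  replace hv := hv s
  induction s using Finset.induction_on generalizing v with
  | empty => simp
  | insert j s hj ih =>
    intro c hc
    have hu : ∀ (k : d.ker) (c : ι → d.ker), k • v j + ∑ i ∈ s, c i • v i = 0 →
        k = 0 ∧ ∀ i ∈ s, c i = 0 := fun k c h0 => by
      have := hv (Function.update c j k) (by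
        rw [sum_insert hj, Function.update_self, ← h0]
        exact congrArg _ (sum_congr rfl fun i hi => by
          rw [Function.update_of_ne (ne_of_mem_of_not_mem hi hj)]))
      exact ⟨by simpa using this j (mem_insert_self _ _), fun i hi => by
        simpa [ne_of_mem_of_not_mem hi hj] using this i (mem_insert_of_mem hi)⟩
    have hj0 : v j ≠ 0 := fun h0 => by simpa using (hu 1 0 (by simp [h0])).1
    have hj1 : φ (v j) ≠ 0 := (map_ne_zero φ).2 hj0
    rw [sum_insert hj] at hc
    have h1 : ∀ i ∈ s, c i = 0 := by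
      refine ih (v := fun i => d (v i / v j)) (fun a ha => ?_) c ?_
      · refine (hu ⟨-∑ i ∈ s, a i * (v i / v j), neg_mem ?_⟩ a ?_).2
        · rw [DerM.mem_ker, map_sum, ← ha]
          exact sum_congr rfl fun i _ => by
            rw [d.mul', DerM.mem_ker _ |>.1 (a i).2, mul_zero, add_zero]; rfl
        · simp only [Subfield.smul_def, smul_eq_mul, neg_mul, sum_mul, mul_assoc,
            div_mul_cancel₀ _ hj0, neg_add_cancel]
      · have h2 : (c j : L) + ∑ i ∈ s, c i * φ (v i / v j) = 0 := by
          refine mul_right_cancel₀ hj1 ?_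
          simp only [map_div₀, add_mul, sum_mul, mul_assoc, div_mul_cancel₀ _ hj1, zero_mul]
          exact hc
        have h3 := congrArg e h2
        rw [map_add, map_sum, map_zero, DerM.mem_ker _ |>.1 (c j).2, zero_add] at h3
        rw [← h3]
        exact sum_congr rfl fun i _ => by
          rw [e.mul', DerM.mem_ker _ |>.1 (c i).2, mul_zero, add_zero, h]; rfl
    rw [sum_eq_zero fun i hi => by rw [h1 i hi, zero_smul], add_zero] at hc
    simpa [(smul_eq_zero.1 hc).resolve_right hj1] using h1

open MvPolynomial in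
theorem Jets.aeval_injective {K L : Type} [Field K] [CharZero K] [Field L] (J : Jets K) {e : Der L}
    {φ : K →+* L} (h : ∀ a, e (φ a) = φ (J.DD a)) :
    Function.Injective (aeval (fun i => φ (J.x i)) : MvPolynomial Idx e.ker →ₐ[_] L) := by
  have h1 := indep_const h J.monomials_indep
  rw [linearIndependent_iff] at h1
  refine (injective_iff_map_eq_zero _).2 fun p hp => ?_
  have := h1 ((basisMonomials Idx e.ker).repr p) (by
    rw [← hp, aeval_def, eval₂_eq]
    simp [Finsupp.linearCombination_apply, Finsupp.sum, Finsupp.prod, Algebra.smul_def]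
    rfl)
  simpa using this

open MvPolynomial in
theorem exists_ratJets (C F : Type) [Field C] [Field F] [CharZero F]
    [Algebra (MvPolynomial Idx C) F] [IsFractionRing (MvPolynomial Idx C) F] :
    ∃ J : Jets F, (∀ i, J.x i = algebraMap (MvPolynomial Idx C) _ (X i)) ∧
      ∀ c, J.IsConst (algebraMap (MvPolynomial Idx C) _ (MvPolynomial.C c)) := by
  classical
  let R := MvPolynomial Idx C
  choose e he using fun i : Idx => exists_der_frac (R := R) (F := F)
    { toFun := fun a => algebraMap R F (pderiv i a)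
      map_zero' := by simp
      map_add' := by simp
      leib := fun a b => by simp }
  replace he : ∀ i a, e i (algebraMap R F a) = algebraMap R F (pderiv i a) := he
  refine ⟨⟨fun i => algebraMap R F (X i), fun i => Derivation.mk'
    (e i).toAddMonoidHom.toRatLinearMap (e i).mul, fun i j => ?_, fun i j f => ?_, fun f => ?_⟩,
    fun _ => rfl, fun c i => ?_⟩
  · exact (he i _).trans (by simp [Pi.single_apply, eq_comm, apply_ite (algebraMap R F)])
  · refine sub_eq_zero.1 (der_frac_zero (R := R) ((e i).lie (e j)) (fun a => ?_) f)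
    refine der_mvPoly_zero (((e i).lie (e j)).comap (algebraMap R F)) (fun c => ?_) (fun k => ?_) a
    · simp [he]
    · simp [he, Pi.single_apply, apply_ite (algebraMap R F), apply_ite (e _)]
  · obtain ⟨a, b, -, rfl⟩ := IsFractionRing.div_surjective R f
    refine (a.vars ∪ b.vars).finite_toSet.subset fun i hi => ?_
    by_contra h
    simp only [coe_union, Set.mem_union, mem_coe, not_or] at h
    refine hi ((e i).ker.div_mem ?_ ?_) <;>
      simp [he, pderiv_eq_zero_of_notMem_vars h.1, pderiv_eq_zero_of_notMem_vars h.2]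
  · exact (he i _).trans (by simp)

end Pool.Agent.Lib.MP_dfc315_mp
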