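import Mathlib
import Pool.Agent.Lib.MP_dfc315_mp.Jets

set_option autoImplicit false

namespace Pool.Agent.Lib.MP_dfc315_mp

open Finset Submodule

theorem indep_of_spec {B L k ι σ : Type*} [CommRing B] [Field L] [Field k] {φ : B →+* L}
    (hφ : Function.Injective φ) (ε : B →+* k) {w : ι → σ → B}
    (h : LinearIndependent k fun i c => ε (w i c)) : LinearIndependent L fun i c => φ (w i c) := by
  classical
  rw [linearIndependent_iff'] at h ⊢
  intro s
  replace h := h s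
  induction s using Finset.induction_on generalizing w with
  | empty => simp
  | insert j s hj ih =>
    intro g hg
    have hu : ∀ (a : k) (b : ι → k), (∀ c, a * ε (w j c) + ∑ i ∈ s, b i * ε (w i c) = 0) →
        a = 0 ∧ ∀ i ∈ s, b i = 0 := fun a b h0 => by
      have := h (Function.update b j a) (by
        ext c
        rw [sum_insert hj, Function.update_self, Pi.zero_apply, ← h0 c, Pi.add_apply, Finset.sum_apply]
        exact congrArg _ (sum_congr rfl fun i hi => by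
          rw [Function.update_of_ne (ne_of_mem_of_not_mem hi hj)]; rfl))
      exact ⟨by simpa using this j (mem_insert_self _ _), fun i hi => by
        simpa [ne_of_mem_of_not_mem hi hj] using this i (mem_insert_of_mem hi)⟩
    obtain ⟨c, hc⟩ : ∃ c, ε (w j c) ≠ 0 := by
      by_contra h0
      push Not at h0
      simpa using (hu 1 0 (by simp [h0])).1
    have hc' : φ (w j c) ≠ 0 := fun h0 => hc (by rw [hφ (h0.trans (map_zero φ).symm), map_zero])
    rw [sum_insert hj] at hg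
    have hg' : ∀ c, g j * φ (w j c) + ∑ i ∈ s, g i * φ (w i c) = 0 := fun c => by
      simpa using congrFun hg c
    have h1 : ∀ i ∈ s, g i = 0 := by
      refine ih (w := fun i e => w j c * w i e - w i c * w j e) (fun a ha i hi => ?_) g ?_
      · refine (mul_eq_zero.1 ((hu (-∑ i ∈ s, a i * ε (w i c)) (fun i => a i * ε (w j c))
          fun e => ?_).2 i hi)).resolve_right hc
        have := congrFun ha e
        simp only [Finset.sum_apply, Pi.smul_apply, smul_eq_mul, map_sub, map_mul, mul_sub,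
          sum_sub_distrib, ← mul_assoc, ← sum_mul, Pi.zero_apply] at this ⊢
        linear_combination this
      · ext e
        have h2 : ∀ i, g i * (φ (w j c) * φ (w i e) - φ (w i c) * φ (w j e)) =
          φ (w j c) * (g i * φ (w i e)) - φ (w j e) * (g i * φ (w i c)) := fun i => by ring
        simp only [Finset.sum_apply, Pi.smul_apply, smul_eq_mul, map_sub, map_mul, h2,
          sum_sub_distrib, ← mul_sum, Pi.zero_apply]
        linear_combination φ (w j c) * hg' e - φ (w j e) * hg' c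
    have h2 := hg' c
    rw [sum_eq_zero fun i hi => by rw [h1 i hi, zero_mul], add_zero] at h2
    simpa [(mul_eq_zero.1 h2).resolve_right hc'] using h1

section

variable {L V W : Type*} [Field L] [AddCommGroup V] [Module L V] [AddCommGroup W] [Module L W]

/-- `A` lies in `B` up to a finite dimensional space. -/
def Alm (A B : Submodule L V) : Prop := ∃ F : Submodule L V, F.FG ∧ A ≤ B ⊔ F

namespace Alm

variable {A B C : Submodule L V}

theorem of_le (h : A ≤ B) : Alm A B := ⟨⊥, fg_bot, by simpa⟩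

theorem trans (h : Alm A B) (h' : Alm B C) : Alm A C := by
  obtain ⟨F, h1, h2⟩ := h
  obtain ⟨F', h3, h4⟩ := h'
  exact ⟨F' ⊔ F, h3.sup h1, h2.trans (by rw [← sup_assoc]; exact sup_le_sup_right h4 _)⟩

theorem map (h : Alm A B) (f : V →ₗ[L] W) : Alm (A.map f) (B.map f) := by
  obtain ⟨F, h1, h2⟩ := h
  exact ⟨F.map f, h1.map f, by rw [← Submodule.map_sup]; exact map_mono h2⟩

theorem fg_map (h : Alm A B) {f : V →ₗ[L] W} (hf : B ≤ LinearMap.ker f) : (A.map f).FG := by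
  obtain ⟨F, h1, h2⟩ := h
  refine (h1.map f).of_le ?_
  rw [map_le_iff_le_comap]
  exact h2.trans (sup_le (fun x hx => by simp [LinearMap.mem_ker.1 (hf hx)]) (le_comap_map _ _))

theorem of_fg_map {f : V →ₗ[L] W} (h : (A.map f).FG) : Alm A (A ⊓ LinearMap.ker f) := by
  obtain ⟨s, hs⟩ := h
  have : ∀ y : s, ∃ x ∈ A, f x = y := fun y => by
    have : (y : W) ∈ A.map f := hs ▸ subset_span y.2
    simpa using this
  choose g h1 h2 using this
  refine ⟨span L (Set.range g), fg_span (Set.finite_range g), fun x hx => ?_⟩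
  obtain ⟨y, hy, h3⟩ : f x ∈ (span L (Set.range g)).map f := by
    refine (?_ : span L (s : Set W) ≤ _) (hs ▸ mem_map_of_mem hx)
    exact span_le.2 fun y hy => ⟨_, subset_span ⟨⟨y, hy⟩, rfl⟩, h2 _⟩
  have h4 : y ∈ A := (span_le.2 (Set.range_subset_iff.2 h1)) hy
  exact mem_sup.2 ⟨x - y, ⟨sub_mem hx h4, by simp [h3]⟩, y, hy, by simp⟩

theorem comap_inf {B : Submodule L W} (h : Alm ⊤ B) (f : V →ₗ[L] W) (A : Submodule L V) :
    Alm A (A ⊓ B.comap f) := by
  have := of_fg_map (A := A) (f := B.mkQ.comp f)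
    ((h.fg_map (f := B.mkQ) (by simp)).of_le (by simp))
  rwa [LinearMap.ker_comp, ker_mkQ] at this

theorem exists_comb (h : Alm A B) (v : ℕ → V) (hv : ∀ k, v k ∈ A) :
    ∃ c : ℕ →₀ L, c ≠ 0 ∧ Finsupp.linearCombination L v c ∈ B := by
  have h1 := h.fg_map (f := B.mkQ) (by simp)
  rw [← Module.Finite.iff_fg] at h1
  have h2 : ¬ LinearIndependent L fun k => (⟨B.mkQ (v k), mem_map_of_mem (hv k)⟩ : A.map B.mkQ) :=
    Module.Finite.not_linearIndependent_of_infinite _
  rw [linearIndependent_iff] at h2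
  push Not at h2
  obtain ⟨c, h3, h4⟩ := h2
  refine ⟨c, h4, ?_⟩
  rw [← Quotient.mk_eq_zero, ← mkQ_apply, Finsupp.apply_linearCombination]
  simpa [Finsupp.apply_linearCombination, Function.comp_def] using
    congrArg (A.map B.mkQ).subtype h3

end Alm

/-- The defect of a linear map with respect to two connections. -/
def IsConn.diff {e : Der L} {D : V →+ V} {D' : W →+ W} (h : IsConn e D) (h' : IsConn e D')
    (Φ : V →ₗ[L] W) : V →ₗ[L] W where
  toFun x := Φ (D x) - D' (Φ x)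
  map_add' x y := by simp only [map_add]; abel
  map_smul' c x := by simp [h _, h' _, smul_sub]

@[simp] theorem IsConn.diff_apply {e : Der L} {D : V →+ V} {D' : W →+ W} (h : IsConn e D)
    (h' : IsConn e D') (Φ : V →ₗ[L] W) (x : V) : h.diff h' Φ x = Φ (D x) - D' (Φ x) := rfl

theorem IsConn.span_stable {e : Der L} {D : V →+ V} (h : IsConn e D) {s : Set V}
    (hs : ∀ x ∈ s, D x ∈ span L s) {x : V} (hx : x ∈ span L s) : D x ∈ span L s := by
  induction hx using span_induction with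
  | mem x hx => exact hs x hx
  | zero => simp
  | add x y _ _ hx hy => simpa using add_mem hx hy
  | smul c x h1 h2 => exact h c x ▸ add_mem (smul_mem _ _ h1) (smul_mem _ _ h2)

end

/-- The module of differentials. -/
abbrev PP (L : Type) [Field L] := Idx →₀ L

section

variable {L : Type} [Field L]

/-- The basis differentials. -/
noncomputable abbrev bs (i : Idx) : PP L := Finsupp.single i 1

/-- The connection with prescribed values on the basis. -/
noncomputable def lieP (e : Der L) (ξ : Idx → PP L) : PP L →+ PP L :=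
  Finsupp.mapRange.addMonoidHom e.toAddMonoidHom + (Finsupp.linearCombination L ξ).toAddMonoidHom

theorem lieP_conn (e : Der L) (ξ : Idx → PP L) : IsConn e (lieP e ξ) := fun f x => by
  ext i
  simp [lieP, e.mul']
  ring

@[simp] theorem lieP_bs (e : Der L) (ξ : Idx → PP L) (i : Idx) : lieP e ξ (bs i) = ξ i := by
  simp [lieP]

theorem conn_ext {W : Type*} [AddCommGroup W] [Module L W] {e : Der L} {D : PP L →+ PP L}
    {D' : W →+ W} (h : IsConn e D) (h' : IsConn e D') {Φ : PP L →ₗ[L] W}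
    (H : ∀ i, Φ (D (bs i)) = D' (Φ (bs i))) (x : PP L) : Φ (D x) = D' (Φ x) := by
  have : h.diff h' Φ = 0 := Finsupp.lhom_ext' fun i => LinearMap.ext_ring (by simp [H])
  simpa [sub_eq_zero] using LinearMap.congr_fun this x

/-- The action of the total derivative on differentials. -/
noncomputable def DP (e : Der L) : PP L →+ PP L := lieP e fun i => bs (i.1, i.2 + 1)

theorem DP_conn (e : Der L) : IsConn e (DP e) := lieP_conn _ _

@[simp] theorem DP_bs (e : Der L) (a : Fin 2) (i : ℕ) : DP e (bs (a, i)) = bs (a, i + 1) :=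
  lieP_bs _ _ _

/-- Differentials of order less than `n`. -/
noncomputable def Low (L : Type) [Field L] (n : ℕ) : Submodule L (PP L) := span L (bs '' {i | i.2 < n})

theorem bs_mem_low {i : Idx} {n : ℕ} (h : i.2 < n) : bs i ∈ Low L n := subset_span ⟨i, h, rfl⟩

theorem low_mono {m n : ℕ} (h : m ≤ n) : Low L m ≤ Low L n :=
  span_mono (Set.image_mono fun _ hi => lt_of_lt_of_le hi h)

theorem low_fg (n : ℕ) : (Low L n).FG :=
  fg_span (((Set.finite_univ.prod (Set.finite_lt_nat n)).subset fun _ hi => ⟨trivial, hi⟩).image _)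

theorem exists_low (x : PP L) : ∃ n, x ∈ Low L n := by
  refine ⟨x.support.sup Prod.snd + 1, ?_⟩
  rw [Low, ← Finsupp.supported_eq_span_single]
  exact fun i hi => Nat.lt_succ_of_le (le_sup (f := Prod.snd) hi)

theorem DP_low (e : Der L) {n : ℕ} {x : PP L} (hx : x ∈ Low L n) : DP e x ∈ Low L (n + 1) := by
  induction hx using span_induction with
  | mem x hx =>
    obtain ⟨⟨a, i⟩, hi, rfl⟩ := hx
    simpa using bs_mem_low (by simpa using hi)
  | zero => simp
  | add x y _ _ hx hy => simpa using add_mem hx hy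
  | smul c x h1 h2 =>
    exact DP_conn e c x ▸ add_mem (smul_mem _ _ (low_mono n.le_succ h1)) (smul_mem _ _ h2)

variable {e : Der L} {Γ : Submodule L (PP L)}

theorem monic_up (hΓ : ∀ x ∈ Γ, DP e x ∈ Γ) {a : Fin 2} {n m : ℕ} (h : n ≤ m)
    (hn : ∃ x ∈ Γ, x - bs (a, n) ∈ Low L n) : ∃ x ∈ Γ, x - bs (a, m) ∈ Low L m := by
  induction h with
  | refl => exact hn
  | step _ ih =>
    obtain ⟨x, h1, h2⟩ := ih
    exact ⟨_, hΓ x h1, by simpa using DP_low e h2⟩

theorem monic_of_comb {a : Fin 2} {c : ℕ →₀ L} (hc : c ≠ 0)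
    (h : Finsupp.linearCombination L (fun k => bs (a, k)) c ∈ Γ) :
    ∃ n, ∃ x ∈ Γ, x - bs (a, n) ∈ Low L n := by
  obtain ⟨n, h1, h2⟩ := c.support.exists_max_image id (Finsupp.support_nonempty_iff.2 hc)
  refine ⟨n, _, Γ.smul_mem (c n)⁻¹ h, ?_⟩
  rw [Finsupp.linearCombination_apply, Finsupp.sum, ← add_sum_erase _ _ h1, smul_add,
    inv_smul_smul₀ (by simpa using h1), add_sub_cancel_left]
  exact smul_mem _ _ (sum_mem fun k hk => smul_mem _ _ (bs_mem_low
    (lt_of_le_of_ne (h2 k (mem_of_mem_erase hk)) (ne_of_mem_erase hk))))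

theorem monic_unif (hΓ : ∀ x ∈ Γ, DP e x ∈ Γ) (h : ∀ a, ∃ n, ∃ x ∈ Γ, x - bs (a, n) ∈ Low L n) :
    ∃ n, ∀ a, ∃ x ∈ Γ, x - bs (a, n) ∈ Low L n := by
  choose n hn using h
  exact ⟨univ.sup n, fun a => monic_up hΓ (le_sup (mem_univ a)) (hn a)⟩

theorem monic_of_alm (hΓ : ∀ x ∈ Γ, DP e x ∈ Γ) (h : Alm ⊤ Γ) :
    ∃ n, ∀ a, ∃ x ∈ Γ, x - bs (a, n) ∈ Low L n := monic_unif hΓ fun a => by
  obtain ⟨c, h1, h2⟩ := h.exists_comb (fun k => bs (a, k)) fun _ => trivial
  exact monic_of_comb h1 h2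

theorem alm_of_monic (hΓ : ∀ x ∈ Γ, DP e x ∈ Γ)
    (h : ∀ a, ∃ n, ∃ x ∈ Γ, x - bs (a, n) ∈ Low L n) : Alm ⊤ Γ := by
  obtain ⟨n, hn⟩ := monic_unif hΓ h
  have key : ∀ k, Low L k ≤ Γ ⊔ Low L n := fun k => by
    induction k using Nat.strong_induction_on with
    | _ k ih =>
      refine span_le.2 ?_
      rintro _ ⟨⟨a, i⟩, hi, rfl⟩
      rcases lt_or_ge i n with h1 | h1
      · exact mem_sup_right (bs_mem_low h1)
      · obtain ⟨x, h2, h3⟩ := monic_up hΓ h1 (hn a)
        simpa using sub_mem (mem_sup_left h2) (ih i hi h3)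
  exact ⟨_, low_fg n, fun x _ => (exists_low x).elim fun k hk => key k hk⟩

theorem alm_range {Φ : PP L →ₗ[L] PP L} (h : Function.Injective Φ)
    (hD : ∀ x, Φ (DP e x) = DP e (Φ x)) : Alm ⊤ (LinearMap.range Φ) := by
  classical
  refine alm_of_monic (e := e) (by rintro _ ⟨x, rfl⟩; exact ⟨_, hD x⟩) fun a => ?_
  obtain ⟨n, hn⟩ : ∃ n, ∀ b, Φ (bs (b, 0)) ∈ Low L n := by
    choose n hn using fun b => exists_low (Φ (bs (b, 0)))
    exact ⟨univ.sup n, fun b => low_mono (le_sup (mem_univ b)) (hn b)⟩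
  have h1 : ∀ k b, Φ (bs (b, k)) ∈ Low L (n + k) := fun k b => by
    induction k with
    | zero => exact hn b
    | succ k ih => simpa [← hD, add_assoc] using DP_low e ih
  by_contra h0
  let v : Fin (2 * n + 1) ⊕ Fin 2 × Fin (n + 1) → PP L :=
    Sum.elim (fun k => bs (a, k)) fun i => Φ (bs (i.1, i.2))
  have h2 : LinearIndependent L v := by
    refine LinearIndependent.sum_type ?_ ?_ ?_
    · exact (Finsupp.basisSingleOne (ι := Idx) (R := L)).linearIndependent.comp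
        (fun k : Fin (2 * n + 1) => (a, k)) fun k l hk => Fin.ext (by simpa using hk)
    · exact ((Finsupp.basisSingleOne (ι := Idx) (R := L)).linearIndependent.comp
        (fun i : Fin 2 × Fin (n + 1) => (i.1, i.2)) fun k l hk => Prod.ext (by simp_all)
          (Fin.ext (by simp_all))).map' Φ (LinearMap.ker_eq_bot.2 h)
    · rw [disjoint_def]
      intro x hx hx'
      obtain ⟨c, rfl⟩ := (Finsupp.mem_span_range_iff_exists_finsupp.1
        (span_mono (t := Set.range fun k : ℕ => bs (a, k)) (by rintro _ ⟨k, rfl⟩; simp) hx))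
      by_contra hc
      refine h0 (monic_of_comb (c := c) (by rintro rfl; simp at hc) ?_)
      exact span_le.2 (by rintro _ ⟨k, rfl⟩; simp) hx'
  let w : Fin 2 × Fin (2 * n + 1) → PP L := fun i => bs (i.1, i.2)
  have h3 : Low L (2 * n + 1) ≤ span L (Set.range w) := span_le.2 (by
    rintro _ ⟨⟨b, i⟩, hi, rfl⟩
    exact subset_span ⟨(b, ⟨i, hi⟩), rfl⟩)
  have h4 := linearIndependent_le_span' v h2 (Set.range w) (by
    rintro _ ⟨k | ⟨b, k⟩, rfl⟩
    · exact h3 (bs_mem_low k.2)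
    · exact h3 (low_mono (by omega) (h1 k b)))
  have h5 := Fintype.card_range_le w
  simp only [Cardinal.mk_fintype, Fintype.card_sum, Fintype.card_prod, Fintype.card_fin,
    Nat.cast_le] at h4 h5
  omega

end

/-- Two evolutions of differentials that agree up to finite codimension. -/
def Comm (L : DF) (T T' : PP L.L →+ PP L.L) : Prop :=
  ∃ Γ : Submodule L.L (PP L.L × PP L.L), (∀ x y, (x, y) ∈ Γ → (DP L.d x, DP L.d y) ∈ Γ) ∧
    (∀ x y, (x, y) ∈ Γ → (T x, T' y) ∈ Γ) ∧ (∀ y, (0, y) ∈ Γ → y = 0) ∧ (∀ x, (x, 0) ∈ Γ → x = 0) ∧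
    Alm ⊤ (Γ.map (LinearMap.fst _ _ _)) ∧ Alm ⊤ (Γ.map (LinearMap.snd _ _ _))

namespace Comm

variable {L : DF} {T T' T'' : PP L.L →+ PP L.L}

theorem of_map {Φ : PP L.L →ₗ[L.L] PP L.L} (h : Function.Injective Φ)
    (hD : ∀ x, Φ (DP L.d x) = DP L.d (Φ x)) (hT : ∀ x, Φ (T x) = T' (Φ x)) : Comm L T T' := by
  refine ⟨Φ.graph, by simp +contextual [hD], by simp +contextual [hT], by simp,
    fun x hx => h (by simpa [eq_comm] using hx), .of_le fun x _ => ⟨(x, Φ x), rfl, rfl⟩,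
    (alm_range h hD).trans (.of_le ?_)⟩
  rintro _ ⟨x, rfl⟩
  exact ⟨(x, Φ x), rfl, rfl⟩

theorem symm (h : Comm L T T') : Comm L T' T := by
  obtain ⟨Γ, h1, h2, h3, h4, h5, h6⟩ := h
  refine ⟨Γ.comap (LinearEquiv.prodComm _ _ _).toLinearMap, fun x y => h1 y x,
    fun x y => h2 y x, h4, h3, h6.trans (.of_le ?_), h5.trans (.of_le ?_)⟩ <;>
  · rintro _ ⟨p, hp, rfl⟩
    exact ⟨p.swap, hp, rfl⟩

theorem trans (h : Comm L T T') (h' : Comm L T' T'') : Comm L T T'' := by
  obtain ⟨Γ, h1, h2, h3, h4, h5, h6⟩ := h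
  obtain ⟨Δ, k1, k2, k3, k4, k5, k6⟩ := h'
  refine ⟨⟨⟨⟨{p | ∃ y, (p.1, y) ∈ Γ ∧ (y, p.2) ∈ Δ}, ?_⟩, 0, Γ.zero_mem, Δ.zero_mem⟩, ?_⟩,
    ?_, ?_, ?_, ?_, h5.trans (((k5.comap_inf (LinearMap.snd _ _ _) Γ).map _).trans (.of_le ?_)),
    k6.trans (((h6.comap_inf (LinearMap.fst _ _ _) Δ).map _).trans (.of_le ?_))⟩
  · rintro p q ⟨y, a1, a2⟩ ⟨z, b1, b2⟩
    exact ⟨y + z, Γ.add_mem a1 b1, Δ.add_mem a2 b2⟩
  · rintro c p ⟨y, a1, a2⟩
    exact ⟨c • y, Γ.smul_mem c a1, Δ.smul_mem c a2⟩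
  · rintro x z ⟨y, a1, a2⟩
    exact ⟨_, h1 _ _ a1, k1 _ _ a2⟩
  · rintro x z ⟨y, a1, a2⟩
    exact ⟨_, h2 _ _ a1, k2 _ _ a2⟩
  · rintro z ⟨y, a1, a2⟩
    exact k3 z (h3 y a1 ▸ a2)
  · rintro z ⟨y, a1, a2⟩
    exact h4 z (k4 y a2 ▸ a1)
  · rintro _ ⟨⟨x, y⟩, ⟨a1, ⟨y', z⟩, a2, rfl : y' = y⟩, rfl⟩
    exact ⟨(x, z), ⟨y', a1, a2⟩, rfl⟩
  · rintro _ ⟨⟨y, z⟩, ⟨a1, ⟨x, y'⟩, a2, rfl : y' = y⟩, rfl⟩
    exact ⟨(x, z), ⟨y', a2, a1⟩, rfl⟩

end Comm

/-- The differential of a function. -/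
noncomputable def dP (S : Evol) {L : Type} [Field L] (φ : S.K →+* L) : DerM φ (PP L) :=
  S.J.dif φ bs

/-- The linearised evolution acting on differentials. -/
noncomputable def TP (S : Evol) {L : DF} (φ : S.K →+* L.L) : PP L.L →+ PP L.L :=
  lieP L.t fun i => dP S φ (S.J.D^[i.2] (S.P i.1))

theorem DP_dP {S : Evol} {L : DF} (ι : DHom S.df L) (f : S.K) :
    DP L.d (dP S ι.f f) = dP S ι.f (S.J.DD f) :=
  (S.J.conn_dif' ι.f bs (DP_conn L.d) (fun i => S.J.x (i.1, i.2 + 1))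
    (fun f => by rw [S.J.vf_eq]; exact ι.hd f) (fun i => by simp [DP]) f).trans
    (by rw [S.J.vf_eq]; rfl)

theorem TP_dP {S : Evol} {L : DF} (ι : DHom S.df L) (f : S.K) :
    TP S ι.f (dP S ι.f f) = dP S ι.f (S.J.evD S.P f) :=
  (S.J.conn_dif' ι.f bs (lieP_conn L.t _) (fun i => S.J.D^[i.2] (S.P i.1))
    (fun f => by rw [S.J.vf_eq]; exact ι.ht f) (fun i => lieP_bs _ _ _) f).trans
    (by rw [S.J.vf_eq]; rfl)

theorem Subst.comm {B A : Evol} (h : Subst B A) : ∃ σ : DHom A.df B.df,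
    ∀ (L : DF) (ι : DHom B.df L), Comm L (TP A (ι.comp σ).f) (TP B ι.f) := by
  obtain ⟨σ, h1, h2⟩ := h.exists_hom
  refine ⟨σ, fun L ι => ?_⟩
  let Φ := Finsupp.linearCombination L.L fun i => dP B ι.f (σ.f (A.J.x i))
  have h3 : ∀ f, Φ (dP A (ι.comp σ).f f) = dP B ι.f (σ.f f) := fun f => by
    rw [dP, A.J.lin_dif, dP, dif_chain h1]
    simp only [Φ, dP, Finsupp.linearCombination_single, one_smul]
    rfl
  have h4 : ∀ i, bs i = dP A (ι.comp σ).f (A.J.x i) := fun i => (A.J.dif_x _ _ i).symm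
  refine .of_map (Φ := Φ) ?_ (conn_ext (DP_conn _) (DP_conn _) fun i => ?_)
    (conn_ext (lieP_conn _ _) (lieP_conn _ _) fun i => ?_)
  · refine LinearIndependent.of_comp (Finsupp.lcoeFun : PP L.L →ₗ[L.L] _) ?_
    classical
    convert indep_of_spec ι.f.injective (RingHom.id _) h2 using 1
    ext i j
    rw [Function.comp_apply, dP, B.J.dif_eq _ _ (s := insert j _) (subset_insert _ _)]
    simp [Finsupp.single_apply]
  · rw [h4, DP_dP, h3, h3, DP_dP, σ.hd]
  · rw [h4]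
    exact (congrArg Φ (TP_dP _ _)).trans (by rw [h3, h3, ← σ.ht]; exact (TP_dP _ _).symm)

theorem Linked.comm {S T : Evol} (h : Linked S T) :
    ∃ (L : DF) (f : DHom S.df L) (g : DHom T.df L), ∀ (L' : DF) (ι : DHom L L'),
      Comm L' (TP S (ι.comp f).f) (TP T (ι.comp g).f) := by
  induction h with
  | rel B A h =>
    obtain ⟨σ, h⟩ := h.comm
    exact ⟨B.df, .id _, σ, fun L' ι => (h L' ι).symm⟩
  | refl S => exact ⟨S.df, .id _, .id _, fun L' ι =>
      .of_map (Φ := LinearMap.id) Function.injective_id (fun _ => rfl) fun _ => rfl⟩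
  | symm S T _ ih =>
    obtain ⟨L, f, g, h⟩ := ih
    exact ⟨L, g, f, fun L' ι => (h L' ι).symm⟩
  | trans S T U _ _ ih ih' =>
    obtain ⟨L, f, g, h⟩ := ih
    obtain ⟨M, f', g', h'⟩ := ih'
    obtain ⟨N, a, b, hab⟩ := exists_amalgam g f'
    refine ⟨N, a.comp f, b.comp g', fun L' ι => (h L' (ι.comp a)).trans ?_⟩
    have : ((ι.comp a).comp g).f = ((ι.comp b).comp f').f :=
      RingHom.ext fun k => congrArg ι.f (hab k)
    rw [this]
    exact h' L' (ι.comp b)

end Pool.Agent.Lib.MP_dfc315_mp
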