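import Mathlib
import Pool.Agent.Lib.MP_dfc315_mp.Comm

set_option autoImplicit false

namespace Pool.Agent.Lib.MP_dfc315_mp

open Finset HahnSeries

theorem graded_ind {M : Type*} [AddCommGroup M] (P : ℤ → M → Prop) (T : AddSubgroup M) {j K : ℤ}
    (hK : j ≤ K) (step : ∀ k, j ≤ k → ∀ x, P k x → ∃ y ∈ T, P (k + 1) (x - y))
    (fin : ∀ x, P K x → x ∈ T) : ∀ x, P j x → x ∈ T := by
  have : ∀ n : ℕ, j ≤ K - n → ∀ x, P (K - n) x → x ∈ T := fun n => by
    induction n with
    | zero => simpa using fun _ => fin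
    | succ n ih =>
      intro hn x hx
      obtain ⟨y, h1, h2⟩ := step _ hn x hx
      rw [show K - (n + 1 : ℕ) + 1 = K - n by omega] at h2
      exact sub_add_cancel x y ▸ T.add_mem (ih (by omega) _ h2) h1
  obtain ⟨n, hn⟩ := Int.eq_ofNat_of_zero_le (sub_nonneg.2 hK)
  simpa [← hn] using this n

/-- Laurent series. -/
abbrev Ser (R : Type*) [Zero R] := HahnSeries ℤ R

section

variable {R R' : Type*} [CommRing R] [CommRing R']

/-- The series is divisible by `t ^ k`. -/
def O (k : ℤ) (x : Ser R) : Prop := ∀ n < k, x.coeff n = 0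

/-- Powers of the variable. -/
noncomputable def tt (k : ℤ) : Ser R := single k 1

theorem exists_O (x : Ser R) : ∃ k, O k x := ⟨x.order, fun _ h => coeff_eq_zero_of_lt_order h⟩

theorem O_succ {k : ℤ} {x : Ser R} : O (k + 1) x ↔ O k x ∧ x.coeff k = 0 :=
  ⟨fun h => ⟨fun n hn => h n (by omega), h k (by omega)⟩, fun h n hn =>
    (lt_or_eq_of_le (Int.lt_add_one_iff.1 hn)).elim (h.1 n) fun e => e ▸ h.2⟩

theorem O_single (k : ℤ) (a : R) : O k (single k a : Ser R) := fun _ h => coeff_single_of_ne h.ne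

theorem O_tt (k : ℤ) : O k (tt k : Ser R) := O_single k 1

theorem O_C (a : R) : O 0 (C a : Ser R) := O_single 0 a

@[simp] theorem coeff_tt (k : ℤ) : (tt k : Ser R).coeff k = 1 := coeff_single_same _ _

theorem coeff_tt_mul (k n : ℤ) (x : Ser R) : (tt k * x).coeff n = x.coeff (n - k) := by
  simp [tt, coeff_single_mul]

theorem tt_mul (k l : ℤ) : (tt k * tt l : Ser R) = tt (k + l) := by simp [tt, single_mul_single]

theorem tt_zero : (tt 0 : Ser R) = 1 := rfl

theorem tt_inv : (tt 1 * tt (-1) : Ser R) = 1 := tt_mul _ _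

theorem C_mul (a : R) (x : Ser R) : C a * x = a • x := single_zero_mul_eq_smul

theorem coeff_C_mul (a : R) (x : Ser R) (n : ℤ) : (C a * x).coeff n = a * x.coeff n :=
  coeff_single_zero_mul

theorem single_eq (k : ℤ) (a : R) : (single k a : Ser R) = a • tt k := by
  rw [← C_mul, tt, C_apply, single_mul_single, zero_add, mul_one]

namespace O

variable {k l : ℤ} {x y : Ser R}

theorem mono (h : O k x) (hl : l ≤ k) : O l x := fun n hn => h n (hn.trans_le hl)

theorem zero : O k (0 : Ser R) := fun _ _ => rfl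

theorem add (h : O k x) (h' : O k y) : O k (x + y) := fun n hn => by simp [h n hn, h' n hn]

theorem neg (h : O k x) : O k (-x) := fun n hn => by simp [h n hn]

theorem sub (h : O k x) (h' : O k y) : O k (x - y) := fun n hn => by simp [h n hn, h' n hn]

theorem smul (h : O k x) (a : R) : O k (a • x) := fun n hn => by simp [h n hn]

theorem sum {ι : Type*} {s : Finset ι} {f : ι → Ser R} (h : ∀ i ∈ s, O k (f i)) :
    O k (∑ i ∈ s, f i) := sum_induction f _ (fun _ _ => add) zero h

theorem coeff_mul (h : O k x) (h' : O l y) (n : ℤ) :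
    (x * y).coeff n = ∑ i ∈ Icc k (n - l), x.coeff i * y.coeff (n - i) := by
  rw [HahnSeries.coeff_mul]
  refine sum_bij_ne_zero (fun p _ _ => p.1) (fun p hp _ => ?_) (fun p hp _ q hq _ e => ?_)
    (fun i _ hi => ⟨(i, n - i), ?_, hi, rfl⟩) fun p hp _ => ?_
  · rw [Finset.mem_antidiagonal] at hp
    have h1 := mt (h p.1) hp.1
    have h2 := mt (h' p.2) hp.2.1
    rw [mem_Icc]
    omega
  · rw [Finset.mem_antidiagonal] at hp hq
    exact Prod.ext e (by omega)
  · simpa [Finset.mem_antidiagonal] using ⟨left_ne_zero_of_mul hi, right_ne_zero_of_mul hi⟩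
  · rw [Finset.mem_antidiagonal] at hp
    rw [← hp.2.2, add_sub_cancel_left]

theorem mul (h : O k x) (h' : O l y) : O (k + l) (x * y) := fun n hn => by
  rw [h.coeff_mul h', Icc_eq_empty (by omega), sum_empty]

theorem mul' {m : ℤ} (h : O k x) (h' : O l y) (hm : m ≤ k + l) : O m (x * y) := (h.mul h').mono hm

theorem lead (h : O k x) (h' : O l y) : (x * y).coeff (k + l) = x.coeff k * y.coeff l := by
  simp [h.coeff_mul h']

theorem lead' {m : ℤ} (h : O k x) (h' : O l y) (hm : m = k + l) :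
    (x * y).coeff m = x.coeff k * y.coeff l := hm ▸ h.lead h'

theorem sub_single (h : O k x) : O (k + 1) (x - single k (x.coeff k)) :=
  O_succ.2 ⟨h.sub (O_single _ _), by simp⟩

end O

theorem O_of_lead {ι : Type*} [Finite ι] {x : ι → Ser R} {l : ℤ}
    (h : ∀ k < l, (∀ i, O k (x i)) → ∀ i, (x i).coeff k = 0) : ∀ i, O l (x i) := by
  choose r hr using fun i => exists_O (x i)
  obtain ⟨m, hm⟩ := (Set.finite_range r).bddBelow
  have : ∀ k, m ≤ k → k ≤ l → ∀ i, O k (x i) := fun k hk => by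
    induction k, hk using Int.leInduction with
    | base => exact fun _ i => (hr i).mono (hm ⟨i, rfl⟩)
    | succ k _ ih => exact fun hl i => O_succ.2 ⟨ih (by omega) i, h k hl (ih (by omega)) i⟩
  rcases le_total m l with h1 | h1
  · exact this l h1 le_rfl
  · exact fun i => (hr i).mono (h1.trans (hm ⟨i, rfl⟩))

theorem exists_OV {ι : Type*} [Finite ι] (x : ι → Ser R) : ∃ k, ∀ i, O k (x i) := by
  choose r hr using fun i => exists_O (x i)
  obtain ⟨m, hm⟩ := (Set.finite_range r).bddBelow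
  exact ⟨m, fun i => (hr i).mono (hm ⟨i, rfl⟩)⟩

theorem O_of_lead' {x : Ser R} {l : ℤ} (h : ∀ k < l, O k x → x.coeff k = 0) : O l x :=
  O_of_lead (x := fun _ : Unit => x) (fun k hl hk _ => h k hl (hk ())) ()

theorem eq_zero_of_O {ι : Type*} [Finite ι] {x : ι → Ser R}
    (h : ∀ k, (∀ i, O k (x i)) → ∀ i, (x i).coeff k = 0) : x = 0 := by
  ext i n
  exact O_of_lead (l := n + 1) (fun k _ => h k) i n (by omega)

theorem eq_zero_of_O' {x : Ser R} (h : ∀ k, O k x → x.coeff k = 0) : x = 0 :=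
  congrFun (eq_zero_of_O (x := fun _ : Unit => x) fun k hk _ => h k (hk ())) ()

theorem exists_lead {x : Ser R} (h : x ≠ 0) : ∃ k, O k x ∧ x.coeff k ≠ 0 := by
  by_contra h0
  push Not at h0
  exact h (eq_zero_of_O' h0)

theorem exists_fix {ι : Type*} (r : ℤ) (Φ : (ι → Ser R) → ι → Ser R)
    (h0 : ∀ x, (∀ i, O r (x i)) → ∀ i, O r (Φ x i))
    (h1 : ∀ k x y, (∀ i, O r (x i)) → (∀ i, O r (y i)) → (∀ i, O k (x i - y i)) →
      ∀ i, O (k + 1) (Φ x i - Φ y i)) : ∃ x, (∀ i, O r (x i)) ∧ Φ x = x := by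
  have h2 : ∀ n : ℕ, ∀ i, O r (Φ^[n] 0 i) := fun n => by
    induction n with
    | zero => exact fun _ => O.zero
    | succ n ih => simpa only [Function.iterate_succ_apply'] using h0 _ ih
  have h3 : ∀ n : ℕ, ∀ m, n ≤ m → ∀ i, O (r + n) (Φ^[m] 0 i - Φ^[n] 0 i) := fun n => by
    induction n with
    | zero => simpa using fun m => h2 m
    | succ n ih =>
      intro m hm
      obtain ⟨m, rfl⟩ : ∃ m', m = m' + 1 := ⟨m - 1, by omega⟩
      simpa only [Function.iterate_succ_apply', Nat.cast_succ, ← add_assoc] using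
        h1 _ _ _ (h2 m) (h2 n) (ih m (by omega))
  let x : ι → Ser R := fun i => ofSuppBddBelow (fun n => (Φ^[(n - r + 1).toNat] 0 i).coeff n)
    ⟨r, fun n hn => not_lt.1 fun h => hn (h2 _ i n h)⟩
  have h4 : ∀ n : ℕ, ∀ i, O (r + n) (x i - Φ^[n] 0 i) := fun n i m hm => by
    have := h3 (m - r + 1).toNat n (by omega) i m (by omega)
    simp only [coeff_sub, x, coeff_ofSuppBddBelow] at this ⊢
    linear_combination -this
  have h5 : ∀ i, O r (x i) := by simpa using h4 0
  refine ⟨x, h5, funext fun i => sub_eq_zero.1 (HahnSeries.ext (funext fun m => ?_))⟩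
  have := (h1 _ _ _ h5 (h2 _) (h4 (m - r).toNat) i).sub (by
    simpa only [Function.iterate_succ_apply', Nat.cast_succ, ← add_assoc] using
      h4 ((m - r).toNat + 1) i)
  simpa using this m (by omega)

theorem exists_fix' (r : ℤ) (Φ : Ser R → Ser R) (h0 : ∀ x, O r x → O r (Φ x))
    (h1 : ∀ k x y, O r x → O r y → O k (x - y) → O (k + 1) (Φ x - Φ y)) :
    ∃ x, O r x ∧ Φ x = x := by
  obtain ⟨x, h2, h3⟩ := exists_fix (ι := Unit) r (fun x _ => Φ (x ()))
    (fun x h _ => h0 _ (h ())) fun k x y a b c _ => h1 k _ _ (a ()) (b ()) (c ())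
  exact ⟨x (), h2 (), congrFun h3 ()⟩

/-- Coefficientwise maps. -/
def cw (δ : ℤ → R →+ R') : Ser R →+ Ser R' where
  toFun x := ⟨fun n => δ n (x.coeff n), x.isPWO_support'.mono fun n hn h => hn (by simp [h])⟩
  map_zero' := by ext; simp
  map_add' x y := by ext; simp

@[simp] theorem coeff_cw (δ : ℤ → R →+ R') (x : Ser R) (n : ℤ) :
    (cw δ x).coeff n = δ n (x.coeff n) := rfl

theorem O.cw {k : ℤ} {x : Ser R} (h : O k x) (δ : ℤ → R →+ R') : O k (cw δ x) :=
  fun n hn => by simp [h n hn]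

/-- Graded derivations of the ring of series. -/
def gder (δ : ℤ → R →+ R) (h : ∀ i j a b, δ (i + j) (a * b) = a * δ j b + b * δ i a) :
    Der (Ser R) where
  toAddMonoidHom := cw δ
  leib x y := by
    ext n
    obtain ⟨k, hk⟩ := exists_O x
    obtain ⟨l, hl⟩ := exists_O y
    change δ n _ = (x * cw δ y + y * cw δ x).coeff n
    rw [mul_comm y, coeff_add, hk.coeff_mul hl, hk.coeff_mul (hl.cw δ), (hk.cw δ).coeff_mul hl,
      map_sum, ← sum_add_distrib]
    exact sum_congr rfl fun i _ => by simpa [mul_comm] using h i (n - i) _ _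

/-- A derivation acting on the coefficients. -/
def sder (d : Der R) : Der (Ser R) := gder (fun _ => d.toAddMonoidHom) fun _ _ => d.mul'

/-- The Euler operator. -/
def eul : Der (Ser R) :=
  gder (fun n => AddMonoidHom.mulLeft (n : R)) fun i j a b => by simp; ring

@[simp] theorem coeff_sder (d : Der R) (x : Ser R) (n : ℤ) :
    (sder d x).coeff n = d (x.coeff n) := rfl

@[simp] theorem coeff_eul (x : Ser R) (n : ℤ) : (eul x).coeff n = n * x.coeff n := rfl

theorem O.sder {k : ℤ} {x : Ser R} (h : O k x) (d : Der R) : O k (sder d x) := h.cw _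

@[simp] theorem sder_C (d : Der R) (a : R) : sder d (C a) = C (d a) := by
  ext n
  simp [coeff_single, apply_ite d]

@[simp] theorem sder_tt (d : Der R) (k : ℤ) : sder d (tt k) = 0 := by
  ext n
  simp [tt, coeff_single, apply_ite d]

theorem sder_smul (d : Der R) (a : R) (x : Ser R) : sder d (a • x) = d a • x + a • sder d x := by
  ext n
  simp [d.mul', mul_comm, add_comm]

/-- A ring map acting on the coefficients. -/
noncomputable def lmap (φ : R →+* R') : Ser R →+* Ser R' where
  toFun := cw fun _ => φ.toAddMonoidHom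
  map_zero' := map_zero _
  map_add' := map_add _
  map_one' := by ext n; simp [apply_ite φ]
  map_mul' x y := HahnSeries.map_mul φ.toNonUnitalRingHom

@[simp] theorem coeff_lmap (φ : R →+* R') (x : Ser R) (n : ℤ) :
    (lmap φ x).coeff n = φ (x.coeff n) := rfl

theorem O.lmap {k : ℤ} {x : Ser R} (h : O k x) (φ : R →+* R') : O k (lmap φ x) := h.cw _

@[simp] theorem lmap_C (φ : R →+* R') (a : R) : lmap φ (C a) = C (φ a) := by
  ext n
  simp [coeff_single, apply_ite φ]

@[simp] theorem lmap_tt (φ : R →+* R') (k : ℤ) : lmap φ (tt k) = tt k := by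
  ext n
  simp [tt, coeff_single, apply_ite φ]

theorem lmap_smul (φ : R →+* R') (a : R) (x : Ser R) : lmap φ (a • x) = φ a • lmap φ x := by
  ext n
  simp

theorem tt_succ (k : ℤ) : (tt (-1) * tt (k + 1) : Ser R) = tt k := by simp [tt_mul]

theorem sder_lmap {d : Der R} {e : Der R'} {φ : R →+* R'} (h : ∀ a, e (φ a) = φ (d a))
    (x : Ser R) : sder e (lmap φ x) = lmap φ (sder d x) := by
  ext n
  simp [h]

theorem sder_comm {d e : Der R} (h : ∀ a, d (e a) = e (d a)) (x : Ser R) :
    sder d (sder e x) = sder e (sder d x) := by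
  ext n
  simp [h]

/-- Series with coefficients in a subring. -/
def inS (E : Subring R) : Subring (Ser R) where
  carrier := {x | ∀ n, x.coeff n ∈ E}
  mul_mem' {x y} hx hy n := by
    rw [HahnSeries.coeff_mul]
    exact sum_mem fun _ _ => mul_mem (hx _) (hy _)
  one_mem' n := by
    rw [coeff_one]
    split_ifs
    exacts [one_mem _, zero_mem _]
  add_mem' hx hy n := add_mem (hx n) (hy n)
  zero_mem' _ := zero_mem E
  neg_mem' hx n := neg_mem (hx n)

theorem single_mem {E : Subring R} {a : R} (h : a ∈ E) (k : ℤ) : single k a ∈ inS E := fun n => by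
  rw [coeff_single]
  split_ifs
  exacts [h, zero_mem _]

theorem tt_mem {E : Subring R} (k : ℤ) : tt k ∈ inS E := single_mem (one_mem E) k

theorem C_mem {E : Subring R} {a : R} (h : a ∈ E) : C a ∈ inS E := single_mem h 0

theorem smul_mem_inS {E : Subring R} {a : R} (h : a ∈ E) {x : Ser R} (hx : x ∈ inS E) :
    a • x ∈ inS E := fun n => mul_mem h (hx n)

theorem inS_mono {E E' : Subring R} (h : E ≤ E') : inS E ≤ inS E' := fun _ hx n => h (hx n)

end

section

variable {L : Type*} [Field L]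

theorem mem_of_tri {E : Subfield L} {A : Ser L →+ Ser L} {d r : ℤ} {α : ℤ → L}
    (hα : ∀ k, r ≤ k → α k ∈ E ∧ α k ≠ 0)
    (hA : ∀ k, r ≤ k → ∀ x, O k x → (A x).coeff (k + d) = α k * x.coeff k)
    (hE : ∀ k, r ≤ k → ∀ a ∈ E, A (single k a) ∈ inS E.toSubring) {x : Ser L} (hx : O r x)
    (h : A x ∈ inS E.toSubring) : x ∈ inS E.toSubring := fun n => by
  refine graded_ind (fun k x => O k x ∧ A x ∈ inS E.toSubring)
    (E.toAddSubgroup.comap (coeff.addMonoidHom n)) (le_max_left r (n + 1)) ?_ ?_ x ⟨hx, h⟩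
  · rintro k hk x ⟨h1, h2⟩
    have h3 : x.coeff k ∈ E := by
      have := E.mul_mem (E.inv_mem (hα k hk).1) (h2 (k + d))
      rwa [hA k hk x h1, inv_mul_cancel_left₀ (hα k hk).2] at this
    exact ⟨_, single_mem (E := E.toSubring) h3 k n, h1.sub_single,
      map_sub A _ _ ▸ sub_mem h2 (hE k hk _ h3)⟩
  · rintro x ⟨h1, -⟩
    simp [h1 n (by omega)]

theorem mem_of_mul {E : Subfield L} {a x : Ser L} (ha : a ∈ inS E.toSubring) (h0 : a ≠ 0)
    (h : a * x ∈ inS E.toSubring) : x ∈ inS E.toSubring := by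
  obtain ⟨k, h1, h2⟩ := exists_lead h0
  obtain ⟨r, hr⟩ := exists_O x
  exact mem_of_tri (A := AddMonoidHom.mulLeft a) (d := k) (fun _ _ => ⟨ha k, h2⟩)
    (fun l _ x hx => h1.lead' hx (add_comm _ _)) (fun _ _ _ hx => mul_mem ha (single_mem hx _)) hr h

theorem O_of_mul {a x : Ser L} {k l : ℤ} (ha : O k a) (h0 : a.coeff k ≠ 0)
    (h : O (k + l) (a * x)) : O l x :=
  O_of_lead' fun m hm hx => by simpa [h0, h (k + m) (by omega)] using ha.lead hx

end

end Pool.Agent.Lib.MP_dfc315_mp
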