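import Mathlib
import Pool.Agent.Lib.MP_dfc315_mp.Ser

set_option autoImplicit false

namespace Pool.Agent.Lib.MP_dfc315_mp

open Finset HahnSeries Submodule

section

variable {R : Type*} [CommRing R]

/-- The scalar connection `∂ + κ`. -/
noncomputable def cn (d : Der R) (κ : Ser R) : Ser R →+ Ser R :=
  (sder d).toAddMonoidHom + AddMonoidHom.mulLeft κ

theorem cn_apply (d : Der R) (κ x : Ser R) : cn d κ x = sder d x + κ * x := rfl

theorem cn_smul (d : Der R) (κ : Ser R) : IsConn d (cn d κ) := fun a x => by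
  rw [cn_apply, cn_apply, sder_smul]
  simp only [← C_mul]
  ring

theorem cn_mul (d : Der R) (κ a x : Ser R) : cn d κ (a * x) = sder d a * x + a * cn d κ x := by
  simp only [cn_apply, DerM.mul']
  ring

/-- `κ` has a simple pole with residue `c`. -/
def Pole (c : R) (κ : Ser R) : Prop := O 0 (κ - C c * tt (-1))

variable {d : Der R} {c : R} {κ x : Ser R} {k : ℤ}

theorem Pole.O_neg (h : Pole c κ) : O (-1) κ := by
  simpa using (O.mono h (by omega)).add ((O_C c).mul' (O_tt (-1)) (m := -1) (by omega))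

theorem Pole.coeff (h : Pole c κ) : κ.coeff (-1) = c := by
  simpa [coeff_C_mul, sub_eq_zero] using h (-1) (by omega)

theorem O.cn {m : ℤ} (hx : O k x) (h : O (-m) κ) (hm : 0 ≤ m) : O (k - m) (cn d κ x) :=
  ((hx.sder d).mono (by omega)).add (h.mul' hx (by omega))

theorem cn_lead {m : ℤ} (hx : O k x) (h : O (-m) κ) (hm : 0 < m) :
    (cn d κ x).coeff (k - m) = κ.coeff (-m) * x.coeff k := by
  rw [cn_apply, coeff_add, hx.sder d _ (by omega), zero_add, h.lead' hx (by omega)]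

theorem Pole.lead (h : Pole c κ) (hx : O k x) : (cn d κ x).coeff (k - 1) = c * x.coeff k := by
  rw [cn_lead hx h.O_neg one_pos, h.coeff]

theorem Pole.iter (h : Pole c κ) (hx : O k x) (n : ℕ) : O (k - n) ((cn d κ)^[n] x) ∧
    ((cn d κ)^[n] x).coeff (k - n) = c ^ n * x.coeff k := by
  induction n with
  | zero => simpa
  | succ n ih =>
    rw [Function.iterate_succ_apply', Nat.cast_succ, ← sub_sub, h.lead ih.1, ih.2]
    exact ⟨ih.1.cn h.O_neg zero_le_one, by ring⟩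

/-- A polynomial in the connection. -/
noncomputable def pcn (d : Der R) (κ : Ser R) (p : ℕ →₀ R) : Ser R →+ Ser R where
  toFun x := ∑ i ∈ p.support, p i • (cn d κ)^[i] x
  map_zero' := by simp
  map_add' x y := by simp [iterate_map_add, sum_add_distrib]

theorem Pole.pcn_lead (h : Pole c κ) {p : ℕ →₀ R} {n : ℕ} (hn : n ∈ p.support)
    (hp : ∀ i ∈ p.support, i ≤ n) (hx : O k x) :
    (pcn d κ p x).coeff (k + -n) = p n * c ^ n * x.coeff k := by
  change (∑ i ∈ p.support, p i • (cn d κ)^[i] x).coeff _ = _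
  rw [← add_sum_erase _ _ hn, coeff_add, O.sum (k := k - n + 1) (fun i hi => by
    have := lt_of_le_of_ne (hp i (mem_of_mem_erase hi)) (ne_of_mem_erase hi)
    exact ((h.iter hx i).1.smul _).mono (by omega)) _ (by omega), ← sub_eq_add_neg]
  simp [(h.iter hx n).2, mul_assoc]

end

section

variable {L : Type*} [Field L] {d : Der L} {c : L} {κ x : Ser L} {k : ℤ}

theorem Pole.O_of_cn (h : Pole c κ) (hc : c ≠ 0) (hx : O k (cn d κ x)) : O (k + 1) x :=
  O_of_lead' fun l hl h1 => by simpa [hc, hx (l - 1) (by omega)] using h.lead (d := d) h1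

theorem Pole.eq_zero (h : Pole c κ) (hc : c ≠ 0) (hx : cn d κ x = 0) : x = 0 := by
  ext n
  exact h.O_of_cn hc (hx ▸ O.zero) n (lt_add_one n)

theorem Pole.surj (h : Pole c κ) (hc : c ≠ 0) (y : Ser L) : ∃ x, cn d κ x = y := by
  obtain ⟨r, hr⟩ := exists_O y
  have h1 : ∀ k x, O k x → O (k + 1) (c⁻¹ • (tt 1 * x : Ser L)) := fun k x hx =>
    ((O_tt 1).mul' hx (by omega)).smul _
  obtain ⟨x, -, hx⟩ := exists_fix' r (fun x => c⁻¹ • (tt 1 * (y - cn d (κ - C c * tt (-1)) x)))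
    (fun x hx => (h1 _ _ (hr.sub (by simpa using hx.cn (m := 0) h le_rfl))).mono (by omega))
    fun k x y _ _ hx => by
      rw [← smul_sub, ← mul_sub, sub_sub_sub_cancel_left, ← map_sub]
      exact h1 _ _ (by simpa using hx.neg.cn (m := 0) h le_rfl)
  refine ⟨x, ?_⟩
  rw [inv_smul_eq_iff₀ hc, ← C_mul, cn_apply] at hx
  rw [cn_apply]
  linear_combination (-tt (-1)) * hx + (y - sder d x - (κ - C c * tt (-1)) * x) * tt_inv (R := L)

end

/-- Pairs of series. -/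
abbrev GG (L : Type) [Field L] := Fin 2 → Ser L

section

variable {L : Type} [Field L]

/-- Linear maps that shift the order by a bounded amount. -/
def Bdd (Φ : GG L → GG L) : Prop := ∃ N : ℤ, ∀ k x, (∀ j, O k (x j)) → ∀ j, O (k - N) (Φ x j)

theorem Bdd.comp {Φ Ψ : GG L → GG L} (h : Bdd Φ) (h' : Bdd Ψ) : Bdd fun x => Φ (Ψ x) := by
  obtain ⟨N, h⟩ := h
  obtain ⟨M, h'⟩ := h'
  exact ⟨M + N, fun k x hx j => (h _ _ (h' k x hx) j).mono (by omega)⟩

theorem Bdd.sub {Φ Ψ : GG L → GG L} (h : Bdd Φ) (h' : Bdd Ψ) : Bdd fun x => Φ x - Ψ x := by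
  obtain ⟨N, h⟩ := h
  obtain ⟨M, h'⟩ := h'
  exact ⟨max M N, fun k x hx j => ((h k x hx j).mono (by omega)).sub
    ((h' k x hx j).mono (by omega))⟩

theorem Bdd.mul (a : GG L) : Bdd fun x => a * x := by
  obtain ⟨r, hr⟩ := exists_OV a
  exact ⟨-r, fun k x hx j => (hr j).mul' (hx j) (by omega)⟩

theorem Bdd.id : Bdd fun x : GG L => x := ⟨0, by simp⟩

/-- The leading term is a nonzero multiple of `t ^ k` in the component `a`. -/
def Lead (k : ℤ) (a : Fin 2) (x : GG L) : Prop :=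
  (∀ j, O k (x j)) ∧ ∀ j, (x j).coeff k = 0 ↔ j ≠ a

theorem lead_step {k : ℤ} {β : Fin 2 → GG L} (h : ∀ a, Lead k a (β a)) {x : GG L}
    (hx : ∀ j, O k (x j)) : ∃ c : Fin 2 → L, ∀ j, O (k + 1) ((x - ∑ a, c a • β a) j) := by
  refine ⟨fun a => (x a).coeff k / (β a a).coeff k, fun j => O_succ.2 ⟨?_, ?_⟩⟩
  · rw [Pi.sub_apply, Finset.sum_apply]
    exact (hx j).sub (O.sum fun a _ => ((h a).1 j).smul _)
  · have h1 : ∀ a, (β a a).coeff k ≠ 0 := fun a => by simp [(h a).2]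
    have h2 := ((h 0).2 1).2 (by simp)
    have h3 := ((h 1).2 0).2 (by simp)
    fin_cases j <;> simp [h1, h2, h3]

theorem Bdd.eq_zero {Ψ : GG L →ₗ[L] GG L} (h : Bdd Ψ) {β : ℤ → Fin 2 → GG L}
    (hβ : ∀ k a, Lead k a (β k a)) (h0 : ∀ k a, Ψ (β k a) = 0) (x : GG L) : Ψ x = 0 := by
  obtain ⟨N, h⟩ := h
  obtain ⟨r, hr⟩ := exists_OV x
  ext j n
  refine graded_ind (fun k x => ∀ j, O k (x j)) (AddMonoidHom.mk' (fun x => (Ψ x j).coeff n)
    (by simp)).ker (le_max_left r (n + N + 1)) (fun k _ x hx => ?_) (fun x hx => ?_) x hr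
  · obtain ⟨c, hc⟩ := lead_step (hβ k) hx
    exact ⟨_, by simp [h0], hc⟩
  · exact h _ _ hx j n (by omega)

theorem syn_aux {β : ℤ → Fin 2 → GG L} {N : ℤ} (h : ∀ k a j, O (k - N) (β k a j)) {f : GG L}
    {r : ℤ} (hr : ∀ a, O r (f a)) (j : Fin 2) (n : ℤ) :
    ∑ᶠ k, ∑ a, (f a).coeff k * (β k a j).coeff n =
      ∑ k ∈ Icc r (n + N), ∑ a, (f a).coeff k * (β k a j).coeff n :=
  finsum_eq_sum_of_support_subset _ fun k hk => by
    by_contra h1
    refine hk (sum_eq_zero fun a _ => ?_)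
    rcases lt_or_ge k r with h2 | h2
    · simp [hr a k h2]
    · simp [h k a j n (by simp at h1; omega)]

theorem exists_syn {β : ℤ → Fin 2 → GG L} {N : ℤ} (h : ∀ k a j, O (k - N) (β k a j)) :
    ∃ Φ : GG L →ₗ[L] GG L, (∀ r f, (∀ a, O r (f a)) → ∀ j n, (Φ f j).coeff n =
      ∑ k ∈ Icc r (n + N), ∑ a, (f a).coeff k * (β k a j).coeff n) ∧
      (∀ k x, (∀ j, O k (x j)) → ∀ j, O (k - N) (Φ x j)) ∧
      ∀ k a, Φ (Pi.single a (tt k)) = β k a := by
  let F : GG L → GG L := fun f j => ofSuppBddBelow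
    (fun n => ∑ᶠ k, ∑ a, (f a).coeff k * (β k a j).coeff n) (by
      obtain ⟨r, hr⟩ := exists_OV f
      exact ⟨r - N, fun n hn => not_lt.1 fun h1 => hn ((syn_aux h hr j n).trans (by
        rw [Icc_eq_empty (by omega), sum_empty]))⟩)
  have hF : ∀ r f, (∀ a, O r (f a)) → ∀ j n, (F f j).coeff n =
      ∑ k ∈ Icc r (n + N), ∑ a, (f a).coeff k * (β k a j).coeff n := fun r f hr => syn_aux h hr
  refine ⟨⟨⟨F, fun x y => ?_⟩, fun c x => ?_⟩, hF, fun k x hx j n hn => ?_, fun k a => ?_⟩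
  · obtain ⟨r, hr⟩ := exists_OV (Sum.elim x y)
    ext j n
    rw [Pi.add_apply, coeff_add, hF r x fun a => hr (.inl a), hF r y fun a => hr (.inr a),
      hF r (x + y) fun a => (hr (.inl a)).add (hr (.inr a))]
    simp [add_mul, sum_add_distrib]
  · obtain ⟨r, hr⟩ := exists_OV x
    ext j n
    rw [Pi.smul_apply, coeff_smul, hF r x hr, hF r (c • x) fun a => (hr a).smul c]
    simp [mul_sum, mul_add, mul_assoc]
  · exact (hF k x hx j n).trans (by rw [Icc_eq_empty (by omega), sum_empty])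
  · ext j n
    refine (hF (min k (n + N)) _ (fun b => ?_) j n).trans ?_
    · rw [Pi.single_apply]
      split_ifs
      exacts [(O_tt k).mono (min_le_left _ _), O.zero]
    · rw [sum_eq_single k]
      · fin_cases a <;> simp
      · intro l _ hl
        fin_cases a <;> simp [tt, coeff_single_of_ne hl]
      · intro hk
        simp [h k _ j n (by simp at hk; omega)]

theorem exists_ext {β β' : ℤ → Fin 2 → GG L} {N : ℤ} (h : ∀ k a, Lead k a (β k a))
    (h' : ∀ k a j, O (k - N) (β' k a j)) :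
    ∃ Φ : GG L →ₗ[L] GG L, Bdd Φ ∧ ∀ k a, Φ (β k a) = β' k a := by
  obtain ⟨S, h1, h2, h3⟩ := exists_syn (β := β) (N := 0) (by simpa using fun k a => (h k a).1)
  obtain ⟨S', -, h4, h5⟩ := exists_syn h'
  have h6 : ∀ k a, (β k a a).coeff k ≠ 0 := fun k a => by simp [(h k a).2]
  have h7 : ∀ k f, (∀ a, O k (f a)) → ∀ j, (S f j).coeff k = (f j).coeff k * (β k j j).coeff k :=
    fun k f hf j => by
      have h2 := ((h k 0).2 1).2 (by simp)
      have h3 := ((h k 1).2 0).2 (by simp)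
      fin_cases j <;> simp [h1 k f hf, h2, h3]
  have h8 : ∀ k f, (∀ j, O k (S f j)) → ∀ j, O k (f j) := fun k f hf =>
    O_of_lead fun l hl h9 j => by simpa [h6, hf j l hl] using h7 l f h9 j
  have h9 : Function.Bijective S := by
    refine ⟨(injective_iff_map_eq_zero _).2 fun f hf => ?_, fun y => ?_⟩
    · ext j n
      exact h8 (n + 1) f (fun j => hf ▸ O.zero) j n (by omega)
    obtain ⟨r, hr⟩ := exists_OV y
    obtain ⟨x, -, hx⟩ := exists_fix r (fun x j => x j + cw (fun k => AddMonoidHom.mulLeft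
      ((β k j j).coeff k)⁻¹) (y j - S x j))
      (fun x hx j => (hx j).add (((hr j).sub (by simpa using h2 r x hx j)).cw _))
      fun k x y _ _ hx j => by
        rw [add_sub_add_comm, ← map_sub, sub_sub_sub_cancel_left, ← Pi.sub_apply (S y), ← map_sub]
        have hx' : ∀ j, O k ((y - x) j) := fun j => by simpa using (hx j).neg
        refine O_succ.2 ⟨(hx j).add (O.cw (by simpa using h2 k _ hx' j) _), ?_⟩
        rw [coeff_add, coeff_cw, h7 k _ hx']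
        simp [h6, mul_comm]
    refine ⟨x, ?_⟩
    ext j n
    have := congrArg (fun z => (z j).coeff n) hx
    simp only [coeff_add, add_eq_left, coeff_cw, AddMonoidHom.coe_mulLeft, mul_eq_zero, inv_eq_zero,
      h6, false_or, coeff_sub, sub_eq_zero] at this
    exact this.symm
  let E := LinearEquiv.ofBijective S h9
  refine ⟨S'.comp E.symm.toLinearMap, ⟨N, fun k x hx => h4 _ _ (h8 _ _ fun j => ?_)⟩,
    fun k a => ?_⟩
  · exact (congrFun (E.apply_symm_apply x) j).symm ▸ hx j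
  · rw [← h3, ← h5]
    exact congrArg S' (E.symm_apply_apply _)

end

/-- A diagonal model of the linearisation. -/
structure Diag (L : DF) where
  κ : GG L.L
  ω : GG L.L
  e : Fin 2 → GG L.L
  c : Fin 2 → L.L
  hc : ∀ j, c j ≠ 0
  hκ : ∀ j, Pole (c j) (κ j)
  hω : ∀ j, O (-2) (ω j)
  comm : ∀ j, sder L.d (ω j) = sder L.t (κ j)
  he : ∀ a, Lead 0 a (e a)

/-- The diagonal connection. -/
noncomputable def cnV {L : Type} [Field L] (d : Der L) (κ : GG L) : GG L →+ GG L :=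
  AddMonoidHom.mk' (fun x j => cn d (κ j) (x j)) fun x y => by ext j; simp

theorem cnV_conn {L : Type} [Field L] (d : Der L) (κ : GG L) : IsConn d (cnV d κ) :=
  fun a x => funext fun j => cn_smul d (κ j) a (x j)

namespace Diag

variable {L : DF} (X : Diag L)

/-- The action of `D_x`. -/
noncomputable def D : GG L.L →+ GG L.L := cnV L.d X.κ

/-- The action of `D_t`. -/
noncomputable def T : GG L.L →+ GG L.L := cnV L.t X.ω

theorem D_apply (x : GG L.L) (j : Fin 2) : X.D x j = cn L.d (X.κ j) (x j) := rfl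

theorem T_apply (x : GG L.L) (j : Fin 2) : X.T x j = cn L.t (X.ω j) (x j) := rfl

theorem D_iter (n : ℕ) (x : GG L.L) (j : Fin 2) : X.D^[n] x j = (cn L.d (X.κ j))^[n] (x j) :=
  (Function.Semiconj.iterate_right (f := fun x : GG L.L => x j) (fun _ => rfl) n).eq x

theorem D_T (x : GG L.L) : X.D (X.T x) = X.T (X.D x) := funext fun j => by
  simp only [D_apply, T_apply, cn_apply, map_add, DerM.mul', X.comm, sder_comm L.comm]
  ring

theorem T_bdd : Bdd X.T := ⟨2, fun _ _ hx j => (hx j).cn (X.hω j) (by omega)⟩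

theorem D_bdd : Bdd X.D := ⟨1, fun _ _ hx j => (hx j).cn (X.hκ j).O_neg (by omega)⟩

theorem D_bij : Function.Bijective X.D :=
  ⟨(injective_iff_map_eq_zero _).2 fun _ h => funext fun j =>
    (X.hκ j).eq_zero (X.hc j) (congrFun h j), fun y => by
    choose x hx using fun j => (X.hκ j).surj (d := L.d) (X.hc j) (y j)
    exact ⟨x, funext hx⟩⟩

theorem O_D {k : ℤ} {x : GG L.L} : (∀ j, O k (X.D x j)) ↔ ∀ j, O (k + 1) (x j) :=
  forall_congr' fun j => ⟨(X.hκ j).O_of_cn (X.hc j), fun h => by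
    simpa [D_apply] using h.cn (d := L.d) (X.hκ j).O_neg zero_le_one⟩

theorem lead_D {k : ℤ} {a : Fin 2} {x : GG L.L} : Lead k a (X.D x) ↔ Lead (k + 1) a x := by
  rw [Lead, Lead, O_D]
  refine and_congr_right fun h => forall_congr' fun j => ?_
  have := (X.hκ j).lead (d := L.d) (h j)
  rw [add_sub_cancel_right] at this
  simp [D_apply, this, X.hc]

/-- The two-sided orbit of `D`. -/
noncomputable def orb (x : GG L.L) (k : ℤ) : GG L.L :=
  ((Equiv.ofBijective _ X.D_bij : Equiv.Perm (GG L.L)) ^ (-k)) x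

theorem orb_zero (x : GG L.L) : X.orb x 0 = x := rfl

theorem D_orb (x : GG L.L) (k : ℤ) : X.D (X.orb x (k + 1)) = X.orb x k := by
  rw [orb, orb, show -k = 1 + -(k + 1) by ring, zpow_one_add]
  rfl

theorem orb_ind {P : ℤ → GG L.L → Prop} (h : ∀ k x, P k (X.D x) ↔ P (k + 1) x) {x : GG L.L}
    {r : ℤ} (hx : P r x) (k : ℤ) : P (r + k) (X.orb x k) := by
  induction k with
  | zero => simpa [orb_zero]
  | succ k ih => rw [← add_assoc, ← h, D_orb]; exact ih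
  | pred k ih => rw [← D_orb, h]; simpa [← add_sub_assoc] using ih

/-- The embedding of the differentials. -/
noncomputable def ι : PP L.L →ₗ[L.L] GG L.L :=
  Finsupp.linearCombination L.L fun i => X.D^[i.2] (X.e i.1)

theorem ι_bs (a : Fin 2) (i : ℕ) : X.ι (bs (a, i)) = X.D^[i] (X.e a) := by simp [ι]

theorem ι_DP (x : PP L.L) : X.ι (DP L.d x) = X.D (X.ι x) :=
  conn_ext (DP_conn _) (cnV_conn _ _) (fun ⟨a, i⟩ => by
    rw [DP_bs, ι_bs, ι_bs, Function.iterate_succ_apply']; rfl) x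

theorem lead_iter (a : Fin 2) (n : ℕ) : Lead (-n) a (X.D^[n] (X.e a)) := by
  induction n with
  | zero => exact X.he a
  | succ n ih => rw [Function.iterate_succ_apply', lead_D]; simpa using ih

theorem O_low {n : ℕ} {y : PP L.L} (hy : y ∈ Low L.L n) : ∀ j, O (-n + 1) (X.ι y j) := by
  induction hy using span_induction with
  | mem x hx =>
    obtain ⟨⟨a, i⟩, hi : i < n, rfl⟩ := hx
    exact fun j => X.ι_bs a i ▸ ((X.lead_iter a i).1 j).mono (by omega)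
  | zero => simpa using O.zero
  | add x y _ _ hx hy => simpa using fun j => (hx j).add (hy j)
  | smul c x _ h2 => simpa using fun j => (h2 j).smul c

theorem ι_eq_zero {y : PP L.L} (h : X.ι y = 0) : y = 0 := by
  obtain ⟨n, hn⟩ := exists_low y
  induction n with
  | zero => simpa [Low] using hn
  | succ n ih =>
    have h1 : y - ∑ a, y (a, n) • bs (a, n) ∈ Low L.L n := by
      rw [Low, ← Finsupp.supported_eq_span_single, Finsupp.mem_supported'] at hn ⊢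
      rintro ⟨a, i⟩ hi
      rcases (show n ≤ i by simpa using hi).eq_or_lt with rfl | hi
      · fin_cases a <;> simp
      · simp [hn (a, i) (by simpa using hi), (ne_of_lt hi : n ≠ i)]
    have h2 : ∀ a, y (a, n) = 0 := fun a => by
      have h3 := X.O_low h1 a (-n) (by omega)
      have h5 := ((X.lead_iter 0 n).2 1).2 (by simp)
      have h6 := ((X.lead_iter 1 n).2 0).2 (by simp)
      simp only [map_sub, map_sum, map_smul, ι_bs, h] at h3
      fin_cases a <;> simpa [(X.lead_iter _ n).2, h5, h6] using h3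
    exact ih (by simpa [h2] using h1)

theorem lead_monic {a : Fin 2} {n : ℕ} {x : PP L.L} (h : x - bs (a, n) ∈ Low L.L n) :
    Lead (-n) a (X.ι x) := by
  have h2 := X.lead_iter a n
  rw [← sub_add_cancel x (bs (a, n)), map_add, ι_bs]
  exact ⟨fun j => (O_succ.1 (X.O_low h j)).1.add (h2.1 j), fun j => by
    rw [Pi.add_apply, coeff_add, (O_succ.1 (X.O_low h j)).2, zero_add, h2.2]⟩

theorem eq_bot {W : Submodule L.L (GG L.L)} (h : W.FG) (hD : ∀ x ∈ W, X.D x ∈ W) {x : GG L.L}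
    (hx : x ∈ W) : x = 0 := by
  obtain ⟨p, h1, h2⟩ := Alm.exists_comb (A := W) (B := ⊥) ⟨W, h, by simp⟩ (fun k => X.D^[k] x)
    fun k => Set.MapsTo.iterate hD k hx
  obtain ⟨n, h3, h4⟩ := p.support.exists_max_image id (Finsupp.support_nonempty_iff.2 h1)
  refine funext fun j => eq_zero_of_O' fun k hk => ?_
  have h5 : pcn L.d (X.κ j) p (x j) = 0 := by
    simpa [Finsupp.linearCombination_apply, Finsupp.sum, D_iter, pcn] using congrFun h2 j
  have := (X.hκ j).pcn_lead (d := L.d) h3 h4 hk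
  simpa [h5, X.hc, Finsupp.mem_support_iff.1 h3] using this

variable {X} {Y Z : Diag L}

theorem unique {Ψ : GG L.L →ₗ[L.L] GG L.L} (h : Bdd Ψ) (hD : ∀ x, Ψ (X.D x) = Y.D (Ψ x))
    {Γ : Submodule L.L (PP L.L)} (hΓ : Alm ⊤ Γ) (h0 : ∀ x ∈ Γ, Ψ (X.ι x) = 0) (x : GG L.L) :
    Ψ x = 0 := by
  have h1 : ∀ y, Ψ (X.ι y) = 0 := fun y => Y.eq_bot (hΓ.fg_map (f := Ψ.comp X.ι) h0) (by
    rintro _ ⟨y, -, rfl⟩
    exact ⟨DP L.d y, trivial, by simp [ι_DP, hD]⟩) ⟨y, trivial, rfl⟩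
  refine h.eq_zero (β := fun k a => X.orb (X.e a) k) (fun k a => ?_) (fun k a => ?_) x
  · simpa using X.orb_ind (P := fun k => Lead k a) (fun _ _ => X.lead_D) (X.he a) k
  · refine X.orb_ind (P := fun _ x => Ψ x = 0) (r := 0) (fun _ x => ?_) ?_ k
    · rw [hD, map_eq_zero_iff _ Y.D_bij.1]
    · simpa [ι_bs] using h1 (bs (a, 0))

theorem exists_mor {Γ : Submodule L.L (PP L.L × PP L.L)}
    (hD : ∀ x y, (x, y) ∈ Γ → (DP L.d x, DP L.d y) ∈ Γ) (h0 : ∀ y, (0, y) ∈ Γ → y = 0)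
    (hΓ : Alm ⊤ (Γ.map (LinearMap.fst _ _ _))) : ∃ Φ : GG L.L →ₗ[L.L] GG L.L, Bdd Φ ∧
      (∀ x, Φ (X.D x) = Y.D (Φ x)) ∧ ∀ x y, (x, y) ∈ Γ → Φ (X.ι x) = Y.ι y := by
  obtain ⟨n, hn⟩ := monic_of_alm (e := L.d) (by
    rintro _ ⟨⟨x, y⟩, h, rfl⟩
    exact ⟨_, hD x y h, rfl⟩) hΓ
  have : ∀ a, ∃ x y, (x, y) ∈ Γ ∧ x - bs (a, n) ∈ Low L.L n := fun a => by
    obtain ⟨_, ⟨⟨x, y⟩, h, rfl⟩, h'⟩ := hn a
    exact ⟨x, y, h, h'⟩
  choose x y h1 h2 using this
  obtain ⟨r, hr⟩ := exists_OV fun i : Fin 2 × Fin 2 => Y.ι (y i.1) i.2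
  have h3 : ∀ k a, Lead k a (X.orb (X.ι (x a)) (k + n)) := fun k a => by
    simpa using X.orb_ind (P := fun k => Lead k a) (fun _ _ => X.lead_D) (X.lead_monic (h2 a))
      (k + n)
  obtain ⟨Φ, h4, h5⟩ := exists_ext (β' := fun k a => Y.orb (Y.ι (y a)) (k + n)) (N := -(r + n)) h3
    fun k a j => (Y.orb_ind (P := fun k x => ∀ j, O k (x j)) (fun _ _ => Y.O_D)
      (fun j => hr (a, j)) (k + n) j).mono (by omega)
  have h6 : ∀ z, Φ (X.D z) = Y.D (Φ z) := fun z => sub_eq_zero.1 <|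
    Bdd.eq_zero (Ψ := (cnV_conn L.d X.κ).diff (cnV_conn L.d Y.κ) Φ)
      ((h4.comp X.D_bdd).sub (Y.D_bdd.comp h4)) h3 (fun k a => by
      have h7 := h5 (k - 1) a
      rw [← X.D_orb, ← Y.D_orb, show k - 1 + n + 1 = k + n by ring, ← h5] at h7
      exact sub_eq_zero.2 h7) z
  refine ⟨Φ, h4, h6, fun p q hpq => sub_eq_zero.1 ?_⟩
  let Δ := (Φ.comp X.ι).comp (LinearMap.fst _ _ _) - Y.ι.comp (LinearMap.snd _ (PP L.L) _)
  have h7 : ∀ p q, Δ (DP L.d p, DP L.d q) = Y.D (Δ (p, q)) := fun p q => by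
    simp [Δ, ι_DP, h6]
  have h8 : Alm ⊤ ((Γ ⊓ LinearMap.ker Δ).map (LinearMap.fst _ _ _)) := by
    refine alm_of_monic (e := L.d) ?_ fun a => ⟨n, _, ⟨(x a, y a), ⟨h1 a, ?_⟩, rfl⟩, h2 a⟩
    · rintro _ ⟨⟨p, q⟩, ⟨a1, a2 : Δ _ = 0⟩, rfl⟩
      exact ⟨(_, _), ⟨hD p q a1, (h7 p q).trans (by rw [a2, map_zero])⟩, rfl⟩
    · simpa [Δ, sub_eq_zero, orb_zero] using h5 (-n) a
  refine Y.eq_bot ((h8.comap_inf (LinearMap.fst _ _ _) Γ).fg_map (f := Δ) ?_) ?_ ⟨(p, q), hpq, rfl⟩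
  · rintro ⟨p, q⟩ ⟨a1, ⟨p', q'⟩, ⟨a2, a3⟩, rfl : p' = p⟩
    obtain rfl : q = q' := sub_eq_zero.1 (h0 _ (by simpa using Γ.sub_mem a1 a2))
    exact a3
  · rintro _ ⟨⟨p, q⟩, a1, rfl⟩
    exact ⟨_, hD p q a1, h7 p q⟩

/-- Rational morphisms. -/
structure Mor (X Y : Diag L) (Φ : GG L.L →ₗ[L.L] GG L.L) : Prop where
  bdd : Bdd Φ
  hD : ∀ x, Φ (X.D x) = Y.D (Φ x)
  hT : ∀ x, Φ (X.T x) = Y.T (Φ x)
  rat : Alm ((LinearMap.range X.ι).map Φ) (LinearMap.range Y.ι)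

theorem Mor.comp {Φ Ψ : GG L.L →ₗ[L.L] GG L.L} (h : Mor Y Z Φ) (h' : Mor X Y Ψ) :
    Mor X Z (Φ.comp Ψ) :=
  ⟨h.bdd.comp h'.bdd, fun x => by simp [h.hD, h'.hD], fun x => by simp [h.hT, h'.hT],
    by rw [Submodule.map_comp]; exact (h'.rat.map Φ).trans h.rat⟩

theorem exists_mor' {T T' : PP L.L →+ PP L.L} (hX : ∀ x, X.ι (T x) = X.T (X.ι x))
    (hY : ∀ x, Y.ι (T' x) = Y.T (Y.ι x)) {Γ : Submodule L.L (PP L.L × PP L.L)}
    (hD : ∀ x y, (x, y) ∈ Γ → (DP L.d x, DP L.d y) ∈ Γ) (hT : ∀ x y, (x, y) ∈ Γ → (T x, T' y) ∈ Γ)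
    (h0 : ∀ y, (0, y) ∈ Γ → y = 0) (hΓ : Alm ⊤ (Γ.map (LinearMap.fst _ _ _))) :
    ∃ Φ, Mor X Y Φ ∧ ∀ x y, (x, y) ∈ Γ → Φ (X.ι x) = Y.ι y := by
  obtain ⟨Φ, h1, h2, h3⟩ := exists_mor (X := X) (Y := Y) hD h0 hΓ
  refine ⟨Φ, ⟨h1, h2, fun z => sub_eq_zero.1 ?_, ?_⟩, h3⟩
  · refine unique (X := X) (Y := Y) (Ψ := (cnV_conn L.t X.ω).diff (cnV_conn L.t Y.ω) Φ)
      ((h1.comp X.T_bdd).sub (Y.T_bdd.comp h1)) (fun x => ?_) hΓ ?_ z
    · change Φ (X.T _) - Y.T _ = Y.D (Φ (X.T x) - Y.T _)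
      rw [← D_T, h2, h2, ← D_T, map_sub]
    · rintro _ ⟨⟨p, q⟩, a1, rfl⟩
      change Φ (X.T (X.ι p)) - Y.T (Φ (X.ι p)) = 0
      rw [← hX, h3 _ _ (hT _ _ a1), h3 _ _ a1, hY, sub_self]
  · rw [LinearMap.range_eq_map]
    refine ((hΓ.map X.ι).map Φ).trans (.of_le ?_)
    rintro _ ⟨_, ⟨_, ⟨⟨p, q⟩, a1, rfl⟩, rfl⟩, rfl⟩
    exact ⟨q, (h3 _ _ a1).symm⟩

theorem exists_iso {T T' : PP L.L →+ PP L.L} (hX : ∀ x, X.ι (T x) = X.T (X.ι x))
    (hY : ∀ x, Y.ι (T' x) = Y.T (Y.ι x)) (h : Comm L T T') :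
    ∃ Φ Ψ, Mor X Y Φ ∧ Mor Y X Ψ ∧ (∀ x, Ψ (Φ x) = x) ∧ ∀ x, Φ (Ψ x) = x := by
  obtain ⟨Γ, h1, h2, h3, h4, h5, h6⟩ := h
  obtain ⟨Φ, a1, a2⟩ := exists_mor' hX hY h1 h2 h3 h5
  obtain ⟨Ψ, b1, b2⟩ := exists_mor' hY hX (Γ := Γ.comap (LinearEquiv.prodComm _ _ _).toLinearMap)
    (fun x y => h1 y x) (fun x y => h2 y x) h4 (h6.trans (.of_le (by
      rintro _ ⟨p, hp, rfl⟩
      exact ⟨p.swap, hp, rfl⟩)))
  refine ⟨Φ, Ψ, a1, b1, fun x => sub_eq_zero.1 ?_, fun x => sub_eq_zero.1 ?_⟩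
  · refine unique (X := X) (Y := X) (Ψ := Ψ.comp Φ - LinearMap.id)
      ((b1.bdd.comp a1.bdd).sub Bdd.id) (fun x => by simp [a1.hD, b1.hD]) h5 ?_ x
    rintro _ ⟨⟨p, q⟩, hpq, rfl⟩
    simp [a2 p q hpq, b2 q p hpq]
  · refine unique (X := Y) (Y := Y) (Ψ := Φ.comp Ψ - LinearMap.id)
      ((a1.bdd.comp b1.bdd).sub Bdd.id) (fun x => by simp [a1.hD, b1.hD]) h6 ?_ x
    rintro _ ⟨⟨p, q⟩, hpq, rfl⟩
    simp [a2 p q hpq, b2 q p hpq]

end Diag

end Pool.Agent.Lib.MP_dfc315_mp
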