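import Mathlib
import Pool.Agent.Lib.MP_dfc315_mp.Defs

set_option autoImplicit false

namespace Pool.Agent.Lib.MP_dfc315_mp

namespace Evol

variable (S : Evol)

/-- The anisotropic Landau-Lifschitz spin system in stereographic coordinates, with an arbitrary
quartic `r` with constant coefficients and its derivative `r'`. -/
def IsSpin : Prop :=
  ∃ c : Fin 5 → S.K, (∀ k, S.J.IsConst (c k)) ∧
    let r : S.K → S.K := fun y => c 0 + c 1 * y + c 2 * y ^ 2 + c 3 * y ^ 3 + c 4 * y ^ 4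
    let r' : S.K → S.K := fun y => c 1 + 2 * c 2 * y + 3 * c 3 * y ^ 2 + 4 * c 4 * y ^ 3
    S.P 0 = S.u 2 - 2 * (S.u 1 ^ 2 + r (S.u 0)) / (S.u 0 + S.v 0) + r' (S.u 0) / 2 ∧
      S.P 1 = -S.v 2 + 2 * (S.v 1 ^ 2 + r (-S.v 0)) / (S.u 0 + S.v 0) + r' (-S.v 0) / 2

/-- The system `u_t = u_xx + 2 u (u v)_x - u ^ 3 v ^ 2`, `v_t = - v_xx + 2 v (u v)_x + u ^ 2 v ^ 3`
of the derivative nonlinear Schroedinger family. -/
def IsGauge : Prop :=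
  S.P 0 = S.u 2 + 2 * S.u 0 * (S.u 1 * S.v 0 + S.u 0 * S.v 1) - S.u 0 ^ 3 * S.v 0 ^ 2 ∧
    S.P 1 = -S.v 2 + 2 * S.v 0 * (S.u 1 * S.v 0 + S.u 0 * S.v 1) + S.u 0 ^ 2 * S.v 0 ^ 3

end Evol

end Pool.Agent.Lib.MP_dfc315_mp
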