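import Mathlib
import Pool.Agent.Lib.MP_dfc315_mp.H72Defs

set_option autoImplicit false

namespace Pool.Agent.Lib.MP_dfc315_mp

/-- The fully anisotropic spin system with quartic `1 + y ^ 4` and the drift terms `u_x`, `v_x`. -/
def Evol.IsDrift (S : Evol) : Prop :=
  S.P 0 = S.u 2 + S.u 1 - 2 * (S.u 1 ^ 2 + 1 + S.u 0 ^ 4) / (S.u 0 + S.v 0) + 2 * S.u 0 ^ 3 ∧
    S.P 1 = -S.v 2 + S.v 1 + 2 * (S.v 1 ^ 2 + 1 + S.v 0 ^ 4) / (S.u 0 + S.v 0) - 2 * S.v 0 ^ 3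

end Pool.Agent.Lib.MP_dfc315_mp
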