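import Mathlib
import Pool.Agent.Lib.MP_dfc315_mp.Comm

set_option autoImplicit false

namespace Pool.Agent.Lib.MP_dfc315_mp

open Finset Submodule

section

variable {L : Type} [Field L]

theorem DP_succ (e : Der L) (x : PP L) (a : Fin 2) (i : ℕ) :
    DP e x (a, i + 1) = e (x (a, i + 1)) + x (a, i) := by
  classical
  induction x using Finsupp.induction_linear with
  | zero => simp
  | add f g hf hg => simp only [map_add, Finsupp.add_apply, hf, hg]; ring
  | single j c =>
    obtain ⟨b, k⟩ := j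
    have : (Finsupp.single (b, k) c : PP L) = c • bs (b, k) := by simp
    rw [this, DP_conn, DP_bs]
    simp only [Finsupp.add_apply, Finsupp.smul_apply, Finsupp.single_apply, Prod.mk.injEq,
      smul_eq_mul, add_left_inj, mul_ite, mul_one, mul_zero, apply_ite e, map_zero]

theorem mem_low {x : PP L} {n : ℕ} : x ∈ Low L n ↔ ∀ a i, n ≤ i → x (a, i) = 0 := by
  rw [Low, ← Finsupp.supported_eq_span_single, Finsupp.mem_supported']
  exact ⟨fun h a i hi => h (a, i) (by simpa using hi), fun h j hj => h j.1 j.2 (by simpa using hj)⟩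

theorem low_of_DP (e : Der L) {x : PP L} {n : ℕ} (h : DP e x ∈ Low L (n + 1)) : x ∈ Low L n := by
  obtain ⟨N, hN⟩ := exists_low x
  rw [mem_low] at h hN ⊢
  have key : ∀ k a i, n ≤ i → N ≤ i + k → x (a, i) = 0 := fun k => by
    induction k with
    | zero => exact fun a i _ hi => hN a i hi
    | succ k ih =>
      intro a i h1 h2
      simpa [DP_succ, ih a (i + 1) (by omega) (by omega)] using h a (i + 1) (by omega)
  exact fun a i hi => key N a i hi (by omega)

/-- The span of the first iterates. -/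
noncomputable def Kr (e : Der L) (z : PP L) (n : ℕ) : Submodule L (PP L) :=
  span L ((fun k => (DP e)^[k] z) '' Set.Iio n)

variable {e : Der L} {z : PP L}

theorem it_mem {k n : ℕ} (h : k < n) : (DP e)^[k] z ∈ Kr e z n := subset_span ⟨k, h, rfl⟩

theorem kr_mono {m n : ℕ} (h : m ≤ n) : Kr e z m ≤ Kr e z n :=
  span_mono (Set.image_mono (Set.Iio_subset_Iio h))

theorem kr_succ {n : ℕ} {w : PP L} (h : w ∈ Kr e z (n + 1)) :
    ∃ a : L, w - a • (DP e)^[n] z ∈ Kr e z n := by
  have : Set.Iio (n + 1) = insert n (Set.Iio n) := by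
    ext k
    simp only [Set.mem_Iio, Set.mem_insert_iff]
    omega
  rw [Kr, this, Set.image_insert_eq, mem_span_insert] at h
  obtain ⟨a, y, h1, rfl⟩ := h
  exact ⟨a, by rwa [add_sub_cancel_left]⟩

theorem conn_kr {t : Der L} {T : PP L →+ PP L} (hT : IsConn t T) {n m : ℕ} (hm : n ≤ m)
    (h : ∀ k < n, T ((DP e)^[k] z) ∈ Kr e z m) {w : PP L} (hw : w ∈ Kr e z n) :
    T w ∈ Kr e z m := by
  induction hw using span_induction with
  | mem x hx =>
    obtain ⟨k, hk, rfl⟩ := hx
    exact h k hk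
  | zero => simp
  | add x y _ _ hx hy => simpa using add_mem hx hy
  | smul c x h1 h2 => exact hT c x ▸ add_mem (smul_mem _ _ (kr_mono hm h1)) (smul_mem _ _ h2)

theorem DP_kr {n : ℕ} {w : PP L} (hw : w ∈ Kr e z n) : DP e w ∈ Kr e z (n + 1) :=
  conn_kr (DP_conn e) n.le_succ (fun k hk => by
    rw [← Function.iterate_succ_apply' (f := DP e)]
    exact it_mem (by omega)) hw

theorem it_not_mem (hz : z ≠ 0) (n : ℕ) : (DP e)^[n] z ∉ Kr e z n := by
  classical
  have h0 := exists_low z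
  obtain ⟨m, h1, h2⟩ : ∃ m, z ∈ Low L (m + 1) ∧ z ∉ Low L m := by
    have h1 := Nat.find_spec h0
    rcases h3 : Nat.find h0 with _ | m
    · rw [h3] at h1
      exact absurd (by simpa [Low] using h1) hz
    · exact ⟨m, h3 ▸ h1, Nat.find_min h0 (by omega)⟩
  have h3 : ∀ k, (DP e)^[k] z ∈ Low L (m + k + 1) ∧ (DP e)^[k] z ∉ Low L (m + k) := fun k => by
    induction k with
    | zero => exact ⟨h1, h2⟩
    | succ k ih =>
      rw [Function.iterate_succ_apply']
      exact ⟨DP_low e ih.1, fun h => ih.2 (low_of_DP e h)⟩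
  refine fun h => (h3 n).2 ((span_le.2 ?_ : Kr e z n ≤ _) h)
  rintro _ ⟨k, hk : k < n, rfl⟩
  exact low_mono (by omega) (h3 k).1

end

/-- The linearised evolution has a nonzero solution of a scalar equation of heat type. -/
def Heat (L : DF) (T : PP L.L →+ PP L.L) : Prop :=
  ∃ z : PP L.L, z ≠ 0 ∧ ∃ q p : L.L, T z = DP L.d (DP L.d z) + q • DP L.d z + p • z

theorem Heat.comm {L : DF} {T T' : PP L.L →+ PP L.L} (hz : Heat L T) (h : Comm L T T')
    (hT : IsConn L.t T) (hD : ∀ x, T (DP L.d x) = DP L.d (T x)) : Heat L T' := by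
  classical
  obtain ⟨z, hz, q, p, hq⟩ := hz
  obtain ⟨Γ, h1, h2, h3, h4, h5, -⟩ := h
  have a1 : ∀ k, T ((DP L.d)^[k] z) - (DP L.d)^[k + 2] z ∈ Kr L.d z (k + 2) := fun k => by
    induction k with
    | zero =>
      change T z - DP L.d (DP L.d z) ∈ _
      rw [hq, add_assoc, add_sub_cancel_left]
      exact add_mem (smul_mem _ _ (it_mem (k := 1) (by omega))) (smul_mem _ _ (it_mem (k := 0)
        (by omega)))
    | succ k ih =>
      rw [show k + 1 + 2 = k + 2 + 1 by ring, Function.iterate_succ_apply',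
        Function.iterate_succ_apply', hD, ← map_sub]
      exact DP_kr ih
  have a2 : ∀ n w, w ∈ Kr L.d z n → T w ∈ Kr L.d z (n + 2) := fun n w =>
    conn_kr hT (by omega) fun k hk => by
      simpa using add_mem (kr_mono (by omega) (a1 k)) (it_mem (k := k + 2) (by omega))
  have a3 : ∃ n, ∃ x y, (x, y) ∈ Γ ∧ x ≠ 0 ∧ x ∈ Kr L.d z (n + 1) := by
    obtain ⟨c, b1, ⟨x, y⟩, b2, b3 : x = _⟩ := h5.exists_comb (fun k => (DP L.d)^[k] z)
      fun _ => trivial
    obtain ⟨n, b4, b5⟩ := c.support.exists_max_image id (Finsupp.support_nonempty_iff.2 b1)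
    rw [Finsupp.linearCombination_apply, Finsupp.sum, ← add_sum_erase _ _ b4] at b3
    have b6 : ∑ k ∈ c.support.erase n, c k • (DP L.d)^[k] z ∈ Kr L.d z n :=
      sum_mem fun k hk => smul_mem _ _ (it_mem
        (lt_of_le_of_ne (b5 k (mem_of_mem_erase hk)) (ne_of_mem_erase hk)))
    refine ⟨n, x, y, b2, fun h0 => it_not_mem (e := L.d) hz n ?_, b3 ▸
      add_mem (smul_mem _ _ (it_mem (by omega))) (kr_mono (by omega) b6)⟩
    rw [← smul_mem_iff _ (Finsupp.mem_support_iff.1 b4), eq_neg_of_add_eq_zero_left (b3.symm.trans h0)]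
    exact neg_mem b6
  obtain ⟨x, y, b1, b2, b3⟩ := Nat.find_spec a3
  have b4 : ∀ x y, (x, y) ∈ Γ → x ∈ Kr L.d z (Nat.find a3) → x = 0 := fun x y c1 c2 => by
    by_contra c3
    have c5 := fun m => Nat.find_min a3 (m := m)
    generalize Nat.find a3 = n at c2 c5
    rcases n with _ | m
    · exact c3 (by simpa [Kr] using c2)
    · exact c5 m (by omega) ⟨x, y, c1, c3, c2⟩
  generalize Nat.find a3 = n at b3 b4
  obtain ⟨a, b5⟩ := kr_succ b3
  have b6 : a ≠ 0 := by
    rintro rfl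
    exact b2 (b4 x y b1 (by simpa using b5))
  obtain ⟨x, y, c1, c2⟩ : ∃ x y, (x, y) ∈ Γ ∧ x - (DP L.d)^[n] z ∈ Kr L.d z n :=
    ⟨a⁻¹ • x, a⁻¹ • y, Γ.smul_mem a⁻¹ b1, by
      simpa [smul_sub, smul_smul, b6] using smul_mem _ a⁻¹ b5⟩
  have c3 := DP_kr c2
  rw [map_sub, ← Function.iterate_succ_apply' (f := DP L.d)] at c3
  have c4 := DP_kr c3
  rw [map_sub, ← Function.iterate_succ_apply' (f := DP L.d)] at c4
  obtain ⟨q', c5⟩ := kr_succ (w := T x - DP L.d (DP L.d x)) (n := n + 1) (by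
    convert sub_mem (add_mem (a2 _ _ c2) (a1 n)) c4 using 1
    rw [map_sub]
    abel)
  obtain ⟨p', c6⟩ := kr_succ (w := T x - DP L.d (DP L.d x) - q' • DP L.d x) (n := n) (by
    convert sub_mem c5 (smul_mem _ q' c3) using 1
    rw [smul_sub]
    abel)
  have c7 : (T x - DP L.d (DP L.d x) - q' • DP L.d x - p' • x,
      T' y - DP L.d (DP L.d y) - q' • DP L.d y - p' • y) ∈ Γ :=
    Γ.sub_mem (Γ.sub_mem (Γ.sub_mem (h2 _ _ c1) (h1 _ _ (h1 _ _ c1))) (Γ.smul_mem q' (h1 _ _ c1)))
      (Γ.smul_mem p' c1)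
  have c8 := b4 _ _ c7 (by
    convert sub_mem c6 (smul_mem _ p' c2) using 1
    rw [smul_sub]
    abel)
  rw [c8] at c7
  refine ⟨y, fun h0 => it_not_mem (e := L.d) hz n ?_, q', p', ?_⟩
  · simpa [h4 x (h0 ▸ c1)] using c2
  · rw [← sub_eq_zero, ← h3 _ c7]
    abel

theorem TP_DP {S : Evol} {L : DF} (ι : DHom S.df L) (x : PP L.L) :
    TP S ι.f (DP L.d x) = DP L.d (TP S ι.f x) := by
  have hT : IsConn L.t (TP S ι.f) := lieP_conn _ _
  have hD := DP_conn L.d
  induction x using Finsupp.induction_linear with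
  | zero => simp
  | add f g hf hg => simp only [map_add, hf, hg]
  | single j c =>
    have h1 : (Finsupp.single j c : PP L.L) = c • bs j := by simp
    have h2 : TP S ι.f (DP L.d (bs j)) = DP L.d (TP S ι.f (bs j)) := by
      have h3 : bs j = dP S ι.f (S.J.x j) := (S.J.dif_x ι.f bs j).symm
      rw [h3, DP_dP, TP_dP, TP_dP, DP_dP, S.J.DD_evD]
    simp only [h1, hT _, hD _, map_add, h2, L.comm]
    abel

theorem dP_apply (S : Evol) {L : Type} [Field L] (φ : S.K →+* L) (f : S.K) (j : Idx) :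
    dP S φ f j = φ (S.J.p j f) := by
  classical
  rw [dP, S.J.dif_eq _ _ (s := insert j _) (subset_insert _ _)]
  simp [Finsupp.single_apply]

end Pool.Agent.Lib.MP_dfc315_mp
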