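import Mathlib
import Pool.Agent.Lib.MP_dfc315_mp.Der

set_option autoImplicit false

namespace Pool.Agent.Lib.MP_dfc315_mp

open Finset Polynomial

theorem exists_coprime {k : Type*} [Field k] (r : k[X]) {s : k[X]} (hs : s ≠ 0) :
    ∃ p q : k[X], IsCoprime p q ∧ q.Monic ∧ p * s = r * q :=
  ⟨_, _, RatFunc.isCoprime_num_denom _, RatFunc.monic_denom _,
    (RatFunc.num_mul_eq_mul_denom_iff hs).2 rfl⟩

theorem exists_frac {k L : Type*} [Field k] [Field L] [Algebra k L] {w f : L}
    (hw : Transcendental k w) (hf : f ∈ IntermediateField.adjoin k {w}) :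
    ∃ p q : k[X], IsCoprime p q ∧ q.Monic ∧ f * aeval w q = aeval w p := by
  obtain ⟨r, s, rfl⟩ := (IntermediateField.mem_adjoin_simple_iff k f).1 hf
  rcases eq_or_ne s 0 with rfl | hs
  · exact ⟨0, 1, isCoprime_one_right, monic_one, by simp⟩
  obtain ⟨p, q, h1, h2, h3⟩ := exists_coprime r hs
  have h4 : aeval w s ≠ 0 := fun h => hw ⟨s, hs, h⟩
  refine ⟨p, q, h1, h2, ?_⟩
  rw [div_mul_eq_mul_div, ← map_mul, ← h3, map_mul, mul_div_cancel_right₀ _ h4]

variable {L : Type*} [Field L] (d : Der L)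

theorem closure_stable {s : Set L} (h : ∀ a ∈ s, d a ∈ Subfield.closure s) {a : L}
    (ha : a ∈ Subfield.closure s) : d a ∈ Subfield.closure s := by
  induction ha using Subfield.closure_induction with
  | mem x hx => exact h x hx
  | one => simp
  | add x y _ _ hx hy => simpa using add_mem hx hy
  | neg x _ hx => simpa using hx
  | inv x h1 hx => exact d.inv x ▸ mul_mem (neg_mem (pow_mem (inv_mem h1) 2)) hx
  | mul x y h1 h2 hx hy => exact d.mul' x y ▸ add_mem (mul_mem h1 hy) (mul_mem h2 hx)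

variable [CharZero L]

theorem ostro_step {E : Subfield L} (hE : ∀ a ∈ E, d a ∈ E) (hC : ∀ a, d a = 0 → a ∈ E) {w f : L}
    (hw : d w ∈ E) (hf : f ∈ Subfield.closure (E ∪ {w} : Set L)) (hd : d f ∈ E) :
    ∃ c, d c = 0 ∧ f - c * w ∈ E := by
  by_cases h0 : w ∈ E
  · exact ⟨0, by simp, by simpa using (Subfield.closure_le (t := E)).2 (by simpa [Set.insert_subset_iff]) hf⟩
  have hδ : ∀ p : E[X], ∃ q : E[X], aeval w q = d (aeval w p) ∧ ∀ n, (q.coeff n : L) =
      d (p.coeff n) + (n + 1) * p.coeff (n + 1) * d w := fun p => by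
    induction p using Polynomial.induction_on' with
    | add p q hp hq =>
      obtain ⟨p', h1, h2⟩ := hp
      obtain ⟨q', h3, h4⟩ := hq
      exact ⟨p' + q', by simp [h1, h3], fun n => by simp [h2, h4]; ring⟩
    | monomial n a =>
      refine ⟨monomial n ⟨d a, hE _ a.2⟩ + derivative (monomial n a) * C ⟨d w, hw⟩, ?_,
        fun m => ?_⟩
      · simp only [derivative_monomial, map_add, map_mul, aeval_monomial, aeval_C, d.mul', d.pow,
          map_natCast]
        change d a * _ + (a : L) * _ * _ * d w = (a : L) * (_ * d w) + _ * d a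
        simp only [RingHom.id_apply]
        ring
      · rw [coeff_add, coeff_mul_C, coeff_derivative]
        simp only [coeff_monomial]
        split_ifs <;> simp [mul_comm]
  have K : ∀ (p q : E[X]) n, (∀ n, (q.coeff n : L) =
      d (p.coeff n) + (n + 1) * p.coeff (n + 1) * d w) → d (p.coeff (n + 1)) = 0 →
      p.coeff (n + 1) ≠ 0 → q.coeff n ≠ 0 := fun p q n h1 h2 h3 h4 => by
    have h5 := hC (p.coeff n + (n + 1) * p.coeff (n + 1) * w) (by
      simpa [d.mul', h2, h4, eq_comm] using h1 n)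
    have h6 : ((n + 1 : L) * p.coeff (n + 1)) ≠ 0 :=
      mul_ne_zero (Nat.cast_add_one_ne_zero n) (by simpa using h3)
    refine h0 ?_
    convert div_mem (sub_mem h5 (p.coeff n).2) (mul_mem (add_mem (natCast_mem E n) (one_mem E))
      (p.coeff (n + 1)).2) using 1
    rw [add_sub_cancel_left, mul_div_cancel_left₀ _ h6]
  have K' : ∀ p q : E[X], p.Monic → (∀ n, (q.coeff n : L) =
      d (p.coeff n) + (n + 1) * p.coeff (n + 1) * d w) → p ≠ 1 → q ≠ 0 ∧ q.degree < p.degree :=
    fun p q hp h1 h2 => by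
      obtain ⟨n, hn⟩ : ∃ n, p.natDegree = n + 1 :=
        Nat.exists_eq_succ_of_ne_zero (mt hp.natDegree_eq_zero.1 h2)
      have h3 : p.coeff (n + 1) = 1 := hn ▸ hp.coeff_natDegree
      refine ⟨fun h => K p q n h1 (by simp [h3]) (by simp [h3]) (by simp [h]), ?_⟩
      rw [degree_eq_natDegree hp.ne_zero, degree_lt_iff_coeff_zero]
      intro m hm
      rw [← Subtype.coe_inj, h1, coeff_eq_zero_of_natDegree_lt (n := m + 1) (by omega)]
      rcases hm.eq_or_lt with rfl | hm
      · simp [hn, h3]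
      · simp [coeff_eq_zero_of_natDegree_lt hm]
  have ht : Transcendental E w := fun h => by
    obtain ⟨q, h1, h2⟩ := hδ (minpoly E w)
    obtain ⟨h3, h4⟩ := K' _ q (minpoly.monic h.isIntegral) h2 (minpoly.ne_one E w)
    exact h4.not_ge (minpoly.degree_le_of_ne_zero E w h3 (by simp [h1]))
  have hi := transcendental_iff_injective.1 ht
  obtain ⟨p, q, h1, h2, h3⟩ := exists_frac ht (f := f) (by
    rw [← IntermediateField.mem_toSubfield, IntermediateField.adjoin_toSubfield]
    convert hf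
    exact Subtype.range_coe)
  obtain ⟨p', h4, h5⟩ := hδ p
  obtain ⟨q', h6, h7⟩ := hδ q
  have h8 := congrArg d h3
  rw [d.mul', ← h4, ← h6] at h8
  obtain rfl : q = 1 := by
    by_contra h9
    obtain ⟨a1, a2⟩ := K' q q' h2 h7 h9
    refine a2.not_ge (degree_le_of_dvd (h1.symm.dvd_of_dvd_mul_left
      ⟨p' - q * C ⟨d f, hd⟩, hi ?_⟩) a1)
    simp only [map_mul, map_sub, aeval_C]
    change _ = _ * (_ - _ * d f)
    linear_combination aeval w q * h8 - aeval w q' * h3
  have h9 : p' = C ⟨d f, hd⟩ := hi (by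
    rw [aeval_C, h4, ← h3]
    simp only [map_one, mul_one]
    rfl)
  have h10 : p.natDegree ≤ 1 := by
    by_contra h
    obtain ⟨n, hn⟩ : ∃ n, p.natDegree = n + 2 := ⟨p.natDegree - 2, by omega⟩
    refine K p p' (n + 1) h5 ?_ (hn ▸ mt leadingCoeff_eq_zero.1 (by rintro rfl; simp at hn))
      (by simp [h9])
    simpa [h9, coeff_C, coeff_eq_zero_of_natDegree_lt (p := p) (n := n + 3) (by omega), eq_comm]
      using h5 (n + 2)
  refine ⟨p.coeff 1, by simpa [h9, coeff_C, eq_comm,
    coeff_eq_zero_of_natDegree_lt (p := p) (n := 2) (by omega)] using h5 1, ?_⟩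
  rw [eq_X_add_C_of_natDegree_le_one h10] at h3
  simp only [map_one, mul_one, map_add, map_mul, aeval_C, aeval_X] at h3
  rw [h3]
  exact (add_sub_cancel_left (p.coeff 1 * w : L) (p.coeff 0)).symm ▸ (p.coeff 0).2

theorem ostro {ι : Type*} {E : Subfield L} (hE : ∀ a ∈ E, d a ∈ E) (hC : ∀ a, d a = 0 → a ∈ E)
    {w : ι → L} (hw : ∀ i, d (w i) ∈ E) (s : Finset ι) {f : L}
    (hf : f ∈ Subfield.closure (E ∪ w '' s : Set L)) (hd : d f ∈ E) :
    ∃ c : ι → L, (∀ i, d (c i) = 0) ∧ f - ∑ i ∈ s, c i * w i ∈ E := by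
  classical
  induction s using Finset.induction_on generalizing f with
  | empty => exact ⟨0, by simp, by simpa using hf⟩
  | insert j s hj ih =>
    have h1 : E ≤ Subfield.closure (E ∪ w '' s : Set L) := fun a ha =>
      Subfield.subset_closure (Or.inl ha)
    obtain ⟨c, h2, h3⟩ := ostro_step d (E := Subfield.closure (E ∪ w '' s : Set L))
      (fun a => closure_stable d (by
        rintro _ (h | ⟨i, -, rfl⟩)
        exacts [h1 (hE _ h), h1 (hw i)])) (fun a ha => h1 (hC a ha)) (h1 (hw j))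
      (Subfield.closure_mono (by
        rintro _ (h | ⟨i, hi, rfl⟩)
        · exact Or.inl (h1 h)
        · rcases mem_insert.1 hi with rfl | hi
          exacts [Or.inr rfl, Or.inl (Subfield.subset_closure (Or.inr ⟨i, hi, rfl⟩))]) hf) (h1 hd)
    obtain ⟨c', h4, h5⟩ := ih h3 (by
      simpa [d.mul', h2] using sub_mem hd (mul_mem (hC c h2) (hw j)))
    refine ⟨Function.update c' j c, fun i => ?_, ?_⟩
    · rcases eq_or_ne i j with rfl | h <;> simp [*]
    · rw [sum_insert hj, Function.update_self, ← sub_sub, sum_congr rfl fun i hi => by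
        rw [Function.update_of_ne (ne_of_mem_of_not_mem hi hj)]]
      exact h5

open UniqueFactorizationMonoid in
theorem elliptic_const {k F : Type*} [Field k] [CharZero k] [Field F] [Algebra k F] {τ f g : F}
    (hτ : Transcendental k τ) (hf : f ∈ IntermediateField.adjoin k {τ})
    (hg : g ∈ IntermediateField.adjoin k {τ}) (h : g ^ 2 = f ^ 3 - 4 * f) :
    ∃ c, f = algebraMap k F c := by
  classical
  obtain ⟨p, q, h1, h2, h3⟩ := exists_frac hτ hf
  obtain ⟨a, b, h4, h5, h6⟩ := exists_frac hτ hg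
  have hi := transcendental_iff_injective.1 hτ
  have h7 : (a * q ^ 2) ^ 2 = b ^ 2 * (p * q * (p ^ 2 - 4 * q ^ 2)) := hi (by
    simp only [map_mul, map_pow, map_sub, ← h3, ← h6, map_ofNat]
    linear_combination aeval τ b ^ 2 * aeval τ q ^ 4 * h)
  obtain ⟨w, hw⟩ : b ∣ a * q ^ 2 :=
    (IsIntegrallyClosed.pow_dvd_pow_iff two_ne_zero).1 ⟨_, h7⟩
  have h8 : w ^ 2 = p * q * (p ^ 2 - 4 * q ^ 2) :=
    mul_left_cancel₀ (pow_ne_zero 2 h5.ne_zero) (by rw [← h7, hw, mul_pow])
  have hq : aeval τ q ≠ 0 := fun h => hτ ⟨q, h2.ne_zero, h⟩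
  have key : ∀ c : k, p = C c * q → ∃ c, f = algebraMap k F c := fun c hc =>
    ⟨c, mul_right_cancel₀ hq (by simp [h3, hc])⟩
  rcases eq_or_ne w 0 with rfl | hw0
  · have h9 : p * q * ((p - 2 * q) * (p + 2 * q)) = 0 := by linear_combination -h8
    simp only [mul_eq_zero, h2.ne_zero, or_false] at h9
    rcases h9 with h9 | h9 | h9
    · exact key 0 (by simpa using h9)
    · exact key 2 (by rw [C_ofNat]; linear_combination h9)
    · exact key (-2) (by rw [C_neg, C_ofNat]; linear_combination h9)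
  have h9 := pow_ne_zero 2 hw0
  rw [h8] at h9
  simp only [ne_eq, mul_eq_zero, not_or] at h9
  have h4' : IsUnit (-4 : k[X]) := by
    rw [← C_ofNat, ← C_neg]
    exact isUnit_C.2 (IsUnit.mk0 _ (by norm_num))
  rcases Polynomial.abc (a := p ^ 2) (b := -4 * q ^ 2) (c := -(p ^ 2 - 4 * q ^ 2))
    (pow_ne_zero 2 h9.1.1) (mul_ne_zero h4'.ne_zero (pow_ne_zero 2 h9.1.2)) (neg_ne_zero.2 h9.2)
    ((isCoprime_mul_unit_left_right h4' _ _).2 h1.pow) (by ring) with ⟨a1, a2, -⟩ | ⟨a1, a2, -⟩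
  · have a3 : radical (p ^ 2 * (-4 * q ^ 2) * -(p ^ 2 - 4 * q ^ 2)) ∣ w := by
      refine (radical_dvd_iff_primeFactors_subset hw0).2 ?_
      rw [← primeFactors_pow' w (n := 4)]
      refine (radical_dvd_iff_primeFactors_subset (pow_ne_zero 4 hw0)).1 ?_
      obtain ⟨u, hu⟩ := h4'.exists_right_inv
      refine radical_dvd_self.trans ⟨-u * (p ^ 2 - 4 * q ^ 2), ?_⟩
      linear_combination (w ^ 2 + p * q * (p ^ 2 - 4 * q ^ 2)) * h8 -
        (p * q * (p ^ 2 - 4 * q ^ 2)) ^ 2 * hu
    have a4 := natDegree_le_of_dvd a3 hw0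
    have a5 := congrArg natDegree h8
    have a6 : (-4 * q ^ 2).natDegree = 2 * q.natDegree := by
      rw [natDegree_mul h4'.ne_zero (pow_ne_zero 2 h9.1.2), natDegree_eq_zero_of_isUnit h4',
        natDegree_pow, zero_add]
    have a7 := natDegree_add_le (p ^ 2) (-4 * q ^ 2)
    rw [neg_mul, ← sub_eq_add_neg, ← neg_mul, a6] at a7
    rw [natDegree_mul (mul_ne_zero h9.1.1 h9.1.2) h9.2, natDegree_mul h9.1.1 h9.1.2] at a5
    rw [natDegree_pow] at a1 a5 a7
    omega
  · have a3 : q = 1 := by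
      refine h2.natDegree_eq_zero.1 ?_
      have := Polynomial.derivative_eq_zero.1 a2
      rw [natDegree_mul h4'.ne_zero (pow_ne_zero 2 h9.1.2), natDegree_pow] at this
      omega
    have := Polynomial.derivative_eq_zero.1 a1
    rw [natDegree_pow] at this
    exact key (p.coeff 0) (by rw [a3, mul_one]; exact eq_C_of_natDegree_eq_zero (by omega))

end Pool.Agent.Lib.MP_dfc315_mp
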