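import Mathlib
import Pool.Agent.Lib.MP_dfc315_mp.Diag

set_option autoImplicit false

namespace Pool.Agent.Lib.MP_dfc315_mp

open HahnSeries

/-- Quadratic polynomials, given by their coefficients. -/
abbrev Q (A : Type*) := Fin 3 → A

theorem vext {A : Type*} {f g : Q A} (h0 : f 0 = g 0) (h1 : f 1 = g 1) (h2 : f 2 = g 2) :
    f = g := funext fun i => by fin_cases i <;> assumption

section

variable {A : Type*} [CommRing A]

/-- The bracket of vector fields on the line. -/
def br (f : Q A) : Q A →ₗ[A] Q A where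
  toFun h := ![f 0 * h 1 - f 1 * h 0, 2 * (f 0 * h 2 - f 2 * h 0), f 1 * h 2 - f 2 * h 1]
  map_add' x y := by apply vext <;> simp <;> ring
  map_smul' c x := by apply vext <;> simp <;> ring

@[simp] theorem br_0 (f h : Q A) : br f h 0 = f 0 * h 1 - f 1 * h 0 := rfl
@[simp] theorem br_1 (f h : Q A) : br f h 1 = 2 * (f 0 * h 2 - f 2 * h 0) := rfl
@[simp] theorem br_2 (f h : Q A) : br f h 2 = f 1 * h 2 - f 2 * h 1 := rfl

/-- The invariant form. -/
def fm (f : Q A) : Q A →ₗ[A] A where
  toFun h := f 1 * h 1 - 2 * f 0 * h 2 - 2 * f 2 * h 0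
  map_add' x y := by simp; ring
  map_smul' c x := by simp; ring

theorem fm_apply (f h : Q A) : fm f h = f 1 * h 1 - 2 * f 0 * h 2 - 2 * f 2 * h 0 := rfl

/-- Evaluation at a point. -/
def ev (z : A) : Q A →ₗ[A] A where
  toFun f := f 0 + z * f 1 + z ^ 2 * f 2
  map_add' x y := by simp; ring
  map_smul' c x := by simp; ring

theorem ev_apply (z : A) (f : Q A) : ev z f = f 0 + z * f 1 + z ^ 2 * f 2 := rfl

/-- The spin vector with roots `a, b`. -/
def Sv (a b g : A) : Q A := ![g * a * b, -(g * (a + b)), g]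

@[simp] theorem Sv_0 (a b g : A) : Sv a b g 0 = g * a * b := rfl
@[simp] theorem Sv_1 (a b g : A) : Sv a b g 1 = -(g * (a + b)) := rfl
@[simp] theorem Sv_2 (a b g : A) : Sv a b g 2 = g := rfl

/-- The square of a linear factor. -/
def sq (b : A) : Q A := ![b ^ 2, -(2 * b), 1]

@[simp] theorem sq_0 (b : A) : sq b 0 = b ^ 2 := rfl
@[simp] theorem sq_1 (b : A) : sq b 1 = -(2 * b) := rfl
@[simp] theorem sq_2 (b : A) : sq b 2 = 1 := rfl

/-- The symmetric operator attached to a quartic, shifted by `s`. -/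
def Bm (s : A) (c : Fin 5 → A) : Q A →ₗ[A] Q A where
  toFun f := ![s * f 0 + c 1 * f 1 - 4 * c 0 * f 2,
    s * f 1 - 2 * c 3 * f 0 + 2 * c 2 * f 1 - 2 * c 1 * f 2, s * f 2 - 4 * c 4 * f 0 + c 3 * f 1]
  map_add' x y := by apply vext <;> simp <;> ring
  map_smul' c x := by apply vext <;> simp <;> ring

@[simp] theorem Bm_0 (s : A) (c : Fin 5 → A) (f : Q A) :
  Bm s c f 0 = s * f 0 + c 1 * f 1 - 4 * c 0 * f 2 := rfl
@[simp] theorem Bm_1 (s : A) (c : Fin 5 → A) (f : Q A) :
  Bm s c f 1 = s * f 1 - 2 * c 3 * f 0 + 2 * c 2 * f 1 - 2 * c 1 * f 2 := rfl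
@[simp] theorem Bm_2 (s : A) (c : Fin 5 → A) (f : Q A) :
  Bm s c f 2 = s * f 2 - 4 * c 4 * f 0 + c 3 * f 1 := rfl

theorem Bm_one (f : Q A) : Bm 1 0 f = f := by apply vext <;> simp

/-- The connection of a Lax operator. -/
def lax (d : Der A) (s : A) (c : Fin 5 → A) (U : Q A) : Q A →+ Q A :=
  AddMonoidHom.mk' (fun x i => d (x i) - Bm s c (br U x) i) fun x y => by
    ext i
    simp only [Pi.add_apply, map_add]
    ring

theorem lax_apply (d : Der A) (s : A) (c : Fin 5 → A) (U x : Q A) (i : Fin 3) :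
    lax d s c U x i = d (x i) - Bm s c (br U x) i := rfl

theorem lax_conn (d : Der A) (s : A) (c : Fin 5 → A) (U : Q A) : IsConn d (lax d s c U) :=
  fun a x => funext fun i => by
    simp only [lax_apply, map_smul, Pi.smul_apply, Pi.add_apply, smul_eq_mul, d.mul']
    ring

theorem lax_comm {d e : Der A} (h : ∀ a, d (e a) = e (d a)) {s : A} {c : Fin 5 → A}
    (hs : d s = 0) (hs' : e s = 0) (hc : ∀ i, d (c i) = 0) (hc' : ∀ i, e (c i) = 0) {U V : Q A}
    (hz : ∀ i, e (U i) = d (V i) - Bm s c (br U V) i) (x : Q A) :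
    lax d s c U (lax e s c V x) = lax e s c V (lax d s c U x) := by
  apply vext <;>
  · simp only [lax_apply, Bm_0, Bm_1, Bm_2, br_0, br_1, br_2, map_add, map_sub, DerM.mul', hs, hs',
      hc, hc', h, hz, DerM.ofNat]
    ring

/-- The normalising functional. -/
def nf (a g : A) : Q A →ₗ[A] A := g ^ 2 • ev a

/-- The inverse of the leading part of the Riccati equation. -/
def JJ (a b g c h : A) : Q A →ₗ[A] Q A :=
  (c • (LinearMap.id - h • br (Sv a b g))).comp (LinearMap.id - (nf a g).smulRight (sq b))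

variable {a b g c h : A} (hg : g * (a - b) = 1)

include hg

theorem nf_sq : nf a g (sq b) = 1 := by simp [nf, ev_apply]; grind

theorem nf_br (x : Q A) : nf a g (br (Sv a b g) x + x) = 0 := by simp [nf, ev_apply]; grind

theorem br_sq : br (Sv a b g) (sq b) + sq b = 0 := by apply vext <;> simp <;> grind

theorem br_br (x : Q A) : br (Sv a b g) (br (Sv a b g) x) + fm (Sv a b g) x • Sv a b g = x := by
  apply vext <;> simp [fm_apply] <;> grind

theorem br_Sv (x : Q A) : br (Sv a b g) x = (g ^ 2 * ev b x) • sq a - (g ^ 2 * ev a x) • sq b := by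
  apply vext <;> simp [ev_apply] <;> grind

theorem ev_br (x : Q A) : ev a (br (Sv a b g) x) = -ev a x := by simp [ev_apply]; grind

theorem ev_br' (x : Q A) : ev b (br (Sv a b g) x) = ev b x := by simp [ev_apply]; grind

theorem nf_JJ (x : Q A) : nf a g (JJ a b g c h x) = 0 := by simp [JJ, nf, ev_apply]; grind

variable (hc : c * c = 1) (hh : 2 * h = 1)

include hc hh

theorem br_JJ (x : Q A) : c • (br (Sv a b g) (JJ a b g c h x) + JJ a b g c h x) =
    x - nf a g x • sq b := by
  apply vext <;> simp [JJ, nf, ev_apply] <;> grind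

theorem JJ_br (x : Q A) : JJ a b g c h (c • (br (Sv a b g) x + x)) = x - nf a g x • sq b := by
  apply vext <;> simp [JJ, nf, ev_apply] <;> grind

end

end Pool.Agent.Lib.MP_dfc315_mp
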