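import Mathlib
import Pool.Agent.Lib.MP_dfc315_mp.Sl2

set_option autoImplicit false

namespace Pool.Agent.Lib.MP_dfc315_mp

open HahnSeries

attribute [-simp] HahnSeries.C_apply

variable {R : Type*} [CommRing R]

/-- Linear maps that do not lower the order. -/
def Reg {ι ι' : Type*} (M : (ι → Ser R) → ι' → Ser R) : Prop :=
  ∀ k x, (∀ i, O k (x i)) → ∀ i, O k (M x i)

theorem O.ofNat (n : ℕ) [n.AtLeastTwo] : O 0 (ofNat(n) : Ser R) := by
  rw [← map_ofNat (C : R →+* Ser R)]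
  exact O_C _

theorem O.pow {x : Ser R} (h : O 0 x) (n : ℕ) : O 0 (x ^ n) := by
  induction n with
  | zero => simpa [tt_zero] using O_tt (R := R) 0
  | succ n ih => simpa [pow_succ] using ih.mul h

theorem O.zmul {k : ℤ} {x y : Ser R} (h : O 0 x) (h' : O k y) : O k (x * y) :=
  h.mul' h' (by omega)

section

variable {k l : ℤ} {f x : Q (Ser R)} {z : Ser R}

theorem O_br (hf : ∀ i, O k (f i)) (hx : ∀ i, O l (x i)) (i : Fin 3) : O (k + l) (br f x i) := by
  fin_cases i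
  · exact ((hf 0).mul (hx 1)).sub ((hf 1).mul (hx 0))
  · exact (O.ofNat 2).zmul (((hf 0).mul (hx 2)).sub ((hf 2).mul (hx 0)))
  · exact ((hf 1).mul (hx 2)).sub ((hf 2).mul (hx 1))

theorem O_fm (hf : ∀ i, O k (f i)) (hx : ∀ i, O l (x i)) : O (k + l) (fm f x) :=
  (((hf 1).mul (hx 1)).sub (((O.ofNat 2).zmul (hf 0)).mul (hx 2))).sub
    (((O.ofNat 2).zmul (hf 2)).mul (hx 0))

theorem O_ev (hz : O 0 z) (hx : ∀ i, O k (x i)) : O k (ev z x) :=
  ((hx 0).add (hz.zmul (hx 1))).add ((hz.pow 2).zmul (hx 2))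

theorem O_vsmul (hz : O k z) (hx : ∀ i, O l (x i)) (i : Fin 3) : O (k + l) ((z • x) i) :=
  hz.mul (hx i)

theorem O_Bm {c : Fin 5 → Ser R} (hz : O k z) (hc : ∀ i, O k (c i)) (hx : ∀ i, O l (x i))
    (i : Fin 3) : O (k + l) (Bm z c x i) := by
  fin_cases i
  · exact ((hz.mul (hx 0)).add ((hc 1).mul (hx 1))).sub (((O.ofNat 4).zmul (hc 0)).mul (hx 2))
  · exact (((hz.mul (hx 1)).sub (((O.ofNat 2).zmul (hc 3)).mul (hx 0))).add
      (((O.ofNat 2).zmul (hc 2)).mul (hx 1))).sub (((O.ofNat 2).zmul (hc 1)).mul (hx 2))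
  · exact ((hz.mul (hx 2)).sub (((O.ofNat 4).zmul (hc 4)).mul (hx 0))).add ((hc 3).mul (hx 1))

theorem O_Sv (a b g : R) (i : Fin 3) : O 0 (Sv (C a) (C b) (C g : Ser R) i) := by
  fin_cases i
  · exact ((O_C g).zmul (O_C a)).zmul (O_C b)
  · exact ((O_C g).zmul ((O_C a).add (O_C b))).neg
  · exact O_C g

theorem O_sq (b : R) (i : Fin 3) : O 0 (sq (C b : Ser R) i) := by
  fin_cases i
  · exact (O_C b).pow 2
  · exact ((O.ofNat 2).zmul (O_C b)).neg
  · exact O_tt 0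

theorem O_nf (a g : R) (hx : ∀ i, O k (x i)) : O k (nf (C a) (C g) x) :=
  ((O_C g).pow 2).zmul (O_ev (O_C a) hx)

theorem O_JJ (a b g c h : R) (hx : ∀ i, O k (x i)) (i : Fin 3) :
    O k (JJ (C a) (C b) (C g) (C c) (C h) x i) := by
  have h1 : ∀ i, O k ((x - nf (C a) (C g) x • sq (C b) : Q (Ser R)) i) := fun i =>
    (hx i).sub (by simpa using O_vsmul (O_nf a g hx) (O_sq b) i)
  exact (O_C c).zmul ((h1 i).sub ((O_C h).zmul (by simpa using O_br (O_Sv a b g) h1 i)))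

end

theorem eig_alg {A : Type*} [CommRing A] {a b g c h t t' : A} (hg : g * (a - b) = 1)
    (hc : c * c = 1) (hh : 2 * h = 1) (ht : t * t' = 1) {ρ n : Q A}
    (h4 : t • JJ a b g c h (n + (c * t') • br (Sv a b g) (sq b + ρ) - nf a g
      (n + (c * t') • br (Sv a b g) (sq b + ρ)) • (sq b + ρ)) = ρ) :
    nf a g (sq b + ρ) = 1 ∧ n + (-c * t' - nf a g
      (n + (c * t') • br (Sv a b g) (sq b + ρ))) • (sq b + ρ) = 0 := by
  have h5 : nf a g (sq b + ρ) = 1 := by
    rw [map_add, nf_sq hg, ← h4, map_smul, nf_JJ hg, smul_zero, add_zero]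
  refine ⟨h5, ?_⟩
  generalize hν : nf a g (n + (c * t') • br (Sv a b g) (sq b + ρ)) = ν at h4 ⊢
  have h6 := br_JJ hg hc hh (n + (c * t') • br (Sv a b g) (sq b + ρ) - ν • (sq b + ρ))
  have h8 := congrArg (t' • ·) h4
  simp only [smul_smul, mul_comm t', ht, one_smul] at h8
  rw [h8, map_sub, map_smul _ ν, h5, hν, smul_eq_mul, mul_one, sub_self, zero_smul, sub_zero] at h6
  funext i
  have a1 := congrFun h6 i
  have a2 := congrFun (br_sq hg) i
  simp only [map_add, map_smul, Pi.add_apply, Pi.sub_apply, Pi.smul_apply, smul_eq_mul,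
    Pi.zero_apply] at a1 a2 ⊢
  linear_combination -a1 - c * t' * a2

/-- A normalised formal eigenvector of the operator `N`. -/
structure Eig (N : Q (Ser R) →+ Q (Ser R)) (a b g c : R) (η : Q (Ser R)) (κ : Ser R) : Prop where
  lead : ∀ i, O 1 (η i - sq (C b) i)
  pole : Pole (-c) κ
  eq : N η + κ • η = 0
  norm : nf (C a) (C g) η = 1

variable {N : Q (Ser R) →+ Q (Ser R)} {a b g c : R} {η : Q (Ser R)} {κ : Ser R}

theorem Eig.O_zero (h : Eig N a b g c η κ) (i : Fin 3) : O 0 (η i) := by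
  simpa using ((h.lead i).mono zero_le_one).add (O_sq b i)

variable (hg : g * (a - b) = 1) (hc : c * c = 1) {h : R} (hh : 2 * h = 1)
  (hN : Reg fun x => N x + (C c * tt (-1) : Ser R) • br (Sv (C a) (C b) (C g)) x)

include hg in
theorem C_hg : (C g : Ser R) * (C a - C b) = 1 := by rw [← map_sub, ← map_mul, hg, map_one]

include hc in
theorem C_hc : (C c : Ser R) * C c = 1 := by rw [← map_mul, hc, map_one]

include hh in
theorem C_hh : (2 : Ser R) * C h = 1 := by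
  rw [← map_ofNat (C : R →+* Ser R), ← map_mul, hh, map_one]

include hg hc hh hN

theorem exists_eig : ∃ η κ, Eig N a b g c η κ := by
  obtain ⟨M, hM'⟩ : ∃ M : Q (Ser R) →+ Q (Ser R),
      ∀ x, M x = N x + (C c * tt (-1) : Ser R) • br (Sv (C a) (C b) (C g)) x :=
    ⟨N + ((C c * tt (-1) : Ser R) • br (Sv (C a) (C b) (C g))).toAddMonoidHom, fun _ => rfl⟩
  have hM : Reg M := by rw [funext hM']; exact hN
  let y : Q (Ser R) → Q (Ser R) := fun x => M x - nf (C a) (C g) (M x) • x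
  have h1 : ∀ k x, (∀ i, O k (x i)) → ∀ i,
      O (k + 1) (((tt 1 : Ser R) • JJ (C a) (C b) (C g) (C c) (C h) x) i) :=
    fun k x hx i => add_comm k 1 ▸ O_vsmul (O_tt 1) (O_JJ a b g c h hx) i
  have h2 : ∀ x : Q (Ser R), (∀ i, O 1 (x i)) → ∀ i, O 0 ((sq (C b) + x : Q (Ser R)) i) := fun x hx i =>
    (O_sq b i).add ((hx i).mono zero_le_one)
  obtain ⟨ρ, h3, h4⟩ := exists_fix 1
    (fun ρ => (tt 1 : Ser R) • JJ (C a) (C b) (C g) (C c) (C h) (y (sq (C b) + ρ)))
    (fun x hx => h1 0 _ fun i => (hM _ _ (h2 x hx) i).sub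
      (O_vsmul (O_nf a g (hM _ _ (h2 x hx))) (h2 x hx) i))
    fun k x x' hx hx' hk i => by
      rw [← Pi.sub_apply, ← smul_sub, ← map_sub]
      refine h1 k _ (fun i => ?_) i
      have : y (sq (C b) + x) - y (sq (C b) + x') = M (x - x') - nf (C a) (C g) (M (x - x')) •
          (sq (C b) + x) - nf (C a) (C g) (M (sq (C b) + x')) • (x - x') := by
        funext i
        simp only [y, map_add, map_sub, Pi.add_apply, Pi.sub_apply, Pi.smul_apply, smul_eq_mul]
        ring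
      rw [this]
      exact ((hM k (x - x') hk i).sub ((O_nf a g (hM k (x - x') hk)).mul' (h2 x hx i)
        (by omega))).sub ((O_nf a g (hM _ _ (h2 x' hx'))).zmul (hk i))
  simp only [y, hM'] at h4
  have h5 := eig_alg (t := tt 1) (t' := tt (-1)) (ρ := ρ) (n := N (sq (C b) + ρ))
    (C_hg hg) (C_hc hc) (C_hh hh) tt_inv (by convert h4)
  exact ⟨sq (C b) + ρ, C (-c) * tt (-1) - nf (C a) (C g) (M (sq (C b) + ρ)),
    fun i => by rw [Pi.add_apply, add_sub_cancel_left]; exact h3 i,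
    by rw [Pole, sub_sub_cancel_left]; exact (O_nf a g (hM _ _ (h2 ρ h3))).neg,
    by rw [map_neg, hM']; exact h5.2, h5.1⟩

theorem eig_rigid (h0 : ∀ i, O 0 (η i)) (h1 : nf (C a) (C g) η = 1) (h2 : Pole (-c) κ)
    {ζ : Q (Ser R)} {ν : Ser R} (h3 : nf (C a) (C g) ζ = 0) (h4 : N ζ + κ • ζ = ν • η) :
    ζ = 0 ∧ ν = 0 := by
  have a1 := JJ_br (C_hg hg) (C_hc hc) (C_hh hh) ζ
  have a2 := nf_br (C_hg hg) ζ
  generalize br (Sv (C a) (C b) (C g : Ser R)) = S at a1 a2 hN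
  have h5 : (C c : Ser R) • (S ζ + ζ) = (tt 1 : Ser R) • (N ζ + (C c * tt (-1) : Ser R) • S ζ +
      (κ - C (-c) * tt (-1)) • ζ - ν • η) := by
    funext i
    simp only [← h4, map_neg, Pi.add_apply, Pi.sub_apply, Pi.smul_apply, smul_eq_mul]
    linear_combination (-C c * (S ζ i + ζ i)) * tt_inv (R := R)
  have h6 : ν = nf (C a) (C g) (N ζ + (C c * tt (-1) : Ser R) • S ζ) := by
    have a1 := congrArg (nf (C a) (C g)) h4
    simp only [map_add, map_smul, h1, h3, smul_eq_mul] at a1 a2 ⊢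
    linear_combination -a1 - C c * tt (-1) * a2
  have h7 : ζ = 0 := eq_zero_of_O fun k hk i => by
    rw [h3, zero_smul, sub_zero, h5] at a1
    rw [← congrFun a1 i]
    refine O_JJ a b g c h (fun i => ?_) i k (lt_add_one k)
    rw [add_comm k 1]
    have a2 : O k ν := by rw [h6]; exact O_nf a g (hN k ζ hk)
    exact O_vsmul (O_tt 1) (fun i => ((hN k ζ hk i).add (O.zmul h2 (hk i))).sub
      (a2.mul' (h0 i) (by omega))) i
  exact ⟨h7, by rw [h6, h7, map_zero, map_zero, smul_zero, add_zero, map_zero]⟩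

theorem Eig.unique {η' : Q (Ser R)} {κ' : Ser R} (h1 : Eig N a b g c η κ)
    (h2 : Eig N a b g c η' κ') : η = η' ∧ κ = κ' := by
  have := eig_rigid hg hc hh hN h2.O_zero h2.norm h1.pole (ζ := η - η') (ν := κ' - κ)
    (by simp [h1.norm, h2.norm]) (by
      funext i
      have a1 := congrFun h1.eq i
      have a2 := congrFun h2.eq i
      simp only [map_sub, Pi.add_apply, Pi.sub_apply, Pi.smul_apply, smul_eq_mul] at a1 a2 ⊢
      linear_combination a1 - a2)
  exact ⟨sub_eq_zero.1 this.1, (sub_eq_zero.1 this.2).symm⟩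

theorem Eig.compat (h1 : Eig N a b g c η κ) {d e : Der (Ser R)} {N' : Q (Ser R) →+ Q (Ser R)}
    (h2 : IsConn d N) (h3 : IsConn e N') (h4 : ∀ x, N (N' x) = N' (N x)) :
    N' η + (-nf (C a) (C g) (N' η)) • η = 0 ∧ d (-nf (C a) (C g) (N' η)) = e κ := by
  have := eig_rigid hg hc hh hN h1.O_zero h1.norm h1.pole
    (ζ := N' η + (-nf (C a) (C g) (N' η)) • η) (ν := d (-nf (C a) (C g) (N' η)) - e κ)
    (by simp [h1.norm]) (by
      rw [map_add, h2, h4, eq_neg_of_add_eq_zero_left h1.eq, map_neg, h3]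
      funext i
      have a1 := congrFun h1.eq i
      simp only [Pi.add_apply, Pi.neg_apply, Pi.smul_apply, smul_eq_mul] at a1 ⊢
      ring)
  exact ⟨this.1, sub_eq_zero.1 this.2⟩

end Pool.Agent.Lib.MP_dfc315_mp
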