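import Mathlib
import Pool.Agent.Lib.MP_dfc315_mp.Ricc

set_option autoImplicit false

namespace Pool.Agent.Lib.MP_dfc315_mp

variable {K A : Type*} [CommRing K] [CommRing A]

/-- The quartic. -/
def rr (c : Fin 5 → A) (y : A) : A := c 0 + c 1 * y + c 2 * y ^ 2 + c 3 * y ^ 3 + c 4 * y ^ 4

/-- The polar form. -/
def qq (c : Fin 5 → A) (u v : A) : A :=
  2 * c 4 * u ^ 2 * v ^ 2 + c 3 * u * v * (v - u) - 2 * c 2 * u * v + c 1 * (u - v) + 2 * c 0

/-- The right hand sides of the first system. -/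
def P1 (c : Fin 5 → A) (x : Idx → A) (g : A) : Fin 2 → A :=
  ![x (0, 2) - 2 * x (0, 1) ^ 2 * g -
      4 * (qq c (x (0, 0)) (x (1, 0)) * x (0, 1) + rr c (x (0, 0)) * x (1, 1)) * g ^ 2,
    -x (1, 2) + 2 * x (1, 1) ^ 2 * g -
      4 * (qq c (x (0, 0)) (x (1, 0)) * x (1, 1) + rr c (-x (1, 0)) * x (0, 1)) * g ^ 2]

/-- The spin vector. -/
def SS (x : Idx → A) (g : A) : Q A := Sv (x (0, 0)) (-x (1, 0)) g

/-- Its derivative. -/
def SS' (x : Idx → A) (g : A) : Q A :=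
  -((g ^ 2 * x (0, 1)) • sq (-x (1, 0)) + (g ^ 2 * x (1, 1)) • sq (x (0, 0)))

/-- The time part of the first Lax pair. -/
def V1 (s : A) (c : Fin 5 → A) (x : Idx → A) (g : A) : Q A :=
  -br (SS x g) (SS' x g) - (s + 2 * g ^ 2 * qq c (x (0, 0)) (x (1, 0))) • SS x g

/-- The two components of a solution of the linearised system. -/
def ee (x : Idx → A) (ψ : Q A) : Fin 2 → A := ![ev (x (0, 0)) ψ, -ev (-x (1, 0)) ψ]

theorem der_g {M : Type*} [AddCommGroup M] [Module A M] {φ : K →+* A} (δ : DerM φ M) {u v g : K}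
    (hg : g * (u + v) = 1) : δ g = -(φ g ^ 2) • (δ u + δ v) := by
  rw [← map_add]
  exact δ.inv_of (by rw [mul_comm, hg])

theorem ZC1 {d t : Der A} {x : Idx → A} {g s : A} {c : Fin 5 → A}
    (hg : g * (x (0, 0) + x (1, 0)) = 1) (hx : ∀ a i, d (x (a, i)) = x (a, i + 1))
    (ht : ∀ a, t (x (a, 0)) = P1 c x g a) (hs : d s = 0) (hc : ∀ i, d (c i) = 0) (i : Fin 3) :
    t (SS x g i) = d (V1 s c x g i) - Bm s c (br (SS x g) (V1 s c x g)) i := by
  have h1 := der_g d hg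
  have h2 := der_g t hg
  revert i
  rw [← funext_iff]
  apply vext <;>
  · simp only [SS, SS', V1, P1, qq, rr, Bm_0, Bm_1, Bm_2, br_0, br_1, br_2, Sv_0, Sv_1, Sv_2, sq_0, sq_1,
      sq_2, Pi.sub_apply, Pi.add_apply, Pi.neg_apply, Pi.smul_apply, smul_eq_mul, map_add, map_sub,
      map_neg, DerM.mul', DerM.pow, h1, h2, hx, ht, hs, hc, DerM.ofNat, DerM.one, RingHom.id_apply,
      Matrix.cons_val_zero, Matrix.cons_val_one, Nat.cast_ofNat, Nat.add_one_sub_one, zero_add,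
      Nat.reduceAdd]
    grind

theorem LIN1 {d t : Der A} {φ : K →+* A} {x : Idx → K} {g : K} {s : A} {c : Fin 5 → K}
    (hg : g * (x (0, 0) + x (1, 0)) = 1) (hx : ∀ a i, d (φ (x (a, i))) = φ (x (a, i + 1)))
    (ht : ∀ a, t (φ (x (a, 0))) = φ (P1 c x g a)) (hs : d s = 0) (hc : ∀ i, d (φ (c i)) = 0)
    {D T : A →+ A} (hD : IsConn d D) (hT : IsConn t T) {ψ : Q A}
    {x' : Idx → A} {g' : A} {c' : Fin 5 → A} (h1 : ∀ i, D (ψ i) = Bm s c' (br (SS x' g') ψ) i)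
    (h2 : ∀ i, T (ψ i) = Bm s c' (br (V1 s c' x' g') ψ) i)
    {δ : DerM φ A} (h3 : ∀ a i, δ (x (a, i)) = D^[i] (ee x' ψ a)) (h4 : ∀ i, δ (c i) = 0)
    (e1 : φ ∘ x = x') (e2 : φ g = g') (e3 : φ ∘ c = c') (a : Fin 2) :
    T (ee x' ψ a) = δ (P1 c x g a) := by
  subst e1 e2 e3
  have hg' := congrArg φ hg
  rw [map_mul, map_add, map_one] at hg'
  have a1 := der_g d hg'
  have a2 := der_g δ hg
  have a3 : ∀ f x, D (f * x) = d f * x + f * D x := hD
  have a4 : ∀ f x, T (f * x) = t f * x + f * T x := hT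
  fin_cases a <;>
  · simp only [ee, ev_apply, SS, SS', V1, P1, qq, rr, Bm_0, Bm_1, Bm_2, br_0, br_1, br_2, Sv_0, Sv_1,
      Sv_2, sq_0, sq_1, sq_2, Pi.sub_apply, Pi.add_apply, Pi.neg_apply, Pi.smul_apply, smul_eq_mul,
      map_add, map_sub, map_neg, DerM.mul, DerM.pow, a1, a2, a3, a4, hx, ht, hs, hc, h1, h2, h3, h4,
      DerM.ofNat, RingHom.id_apply, Matrix.cons_val_zero, Matrix.cons_val_one,
      Nat.cast_ofNat, Nat.add_one_sub_one, zero_add, Nat.reduceAdd, Function.comp_apply, map_mul,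
      map_pow, map_ofNat, Function.iterate_succ_apply', Function.iterate_zero_apply, Fin.zero_eta,
      Fin.mk_one]
    grind

end Pool.Agent.Lib.MP_dfc315_mp
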