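import Mathlib
import Pool.Agent.Lib.MP_dfc315_mp.Id1

set_option autoImplicit false

namespace Pool.Agent.Lib.MP_dfc315_mp

variable {K A : Type*} [CommRing K] [CommRing A]

/-- The right hand sides of the second system. -/
def P2 (x : Idx → A) (g : A) : Fin 2 → A :=
  ![x (0, 2) - 2 * (x (0, 1) ^ 2 + 1 + x (0, 0) ^ 4) * g + 2 * x (0, 0) ^ 3,
    -x (1, 2) + 2 * (x (1, 1) ^ 2 + 1 + x (1, 0) ^ 4) * g - 2 * x (1, 0) ^ 3]

/-- The anisotropy operator. -/
def WW (p q w : A) : Q A →ₗ[A] Q A where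
  toFun f := ![p * f 0 + q * f 2, w * f 1, q * f 0 + p * f 2]
  map_add' x y := by apply vext <;> simp <;> ring
  map_smul' c x := by apply vext <;> simp <;> ring

@[simp] theorem WW_0 (p q w : A) (f : Q A) : WW p q w f 0 = p * f 0 + q * f 2 := rfl
@[simp] theorem WW_1 (p q w : A) (f : Q A) : WW p q w f 1 = w * f 1 := rfl
@[simp] theorem WW_2 (p q w : A) (f : Q A) : WW p q w f 2 = q * f 0 + p * f 2 := rfl

/-- The adjugate operator. -/
abbrev WA (p q w : A) : Q A →ₗ[A] Q A := WW (w * p) (-(w * q)) (p ^ 2 - q ^ 2)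

/-- The time part of the second Lax pair. -/
def V2 (p q w : A) (x : Idx → A) (g : A) : Q A :=
  -WW p q w (br (SS x g) (SS' x g)) - WA p q w (SS x g)

theorem ZC2 {d t : Der A} {x : Idx → A} {g p q w : A}
    (hg : g * (x (0, 0) + x (1, 0)) = 1) (hx : ∀ a i, d (x (a, i)) = x (a, i + 1))
    (ht : ∀ a, t (x (a, 0)) = P2 x g a) (hpq : q * p = 1) (hw : w ^ 2 = p ^ 2 + q ^ 2)
    (hp : d p = 0) (hq : d q = 0) (hw1 : d w = 0) (hp' : t p = 0) (hq' : t q = 0) (hw2 : t w = 0)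
    (i : Fin 3) : t (WW p q w (SS x g) i) = d (V2 p q w x g i) -
      Bm 1 0 (br (WW p q w (SS x g)) (V2 p q w x g)) i := by
  have h1 := der_g d hg
  have h2 := der_g t hg
  revert i
  rw [← funext_iff, Bm_one]
  apply vext <;>
  · simp only [SS, SS', V2, P2, WW_0, WW_1, WW_2, br_0, br_1, br_2, Sv_0, Sv_1, Sv_2, sq_0, sq_1,
      sq_2, Pi.sub_apply, Pi.add_apply, Pi.neg_apply, Pi.smul_apply, smul_eq_mul, map_add, map_sub,
      map_neg, DerM.mul', DerM.pow, h1, h2, hx, ht, hp, hq, hw1, hp', hq', hw2, DerM.ofNat, DerM.one,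
      RingHom.id_apply, Matrix.cons_val_zero, Matrix.cons_val_one, Nat.cast_ofNat,
      Nat.add_one_sub_one, zero_add, Nat.reduceAdd]
    grind

theorem LIN2 {d t : Der A} {φ : K →+* A} {x : Idx → K} {g : K} {p q w : A}
    (hg : g * (x (0, 0) + x (1, 0)) = 1) (hx : ∀ a i, d (φ (x (a, i))) = φ (x (a, i + 1)))
    (ht : ∀ a, t (φ (x (a, 0))) = φ (P2 x g a)) (hpq : q * p = 1) (hw : w ^ 2 = p ^ 2 + q ^ 2)
    (hp : d p = 0) (hq : d q = 0) (hw1 : d w = 0) (hp' : t p = 0) (hq' : t q = 0) (hw2 : t w = 0)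
    {D T : A →+ A} (hD : IsConn d D) (hT : IsConn t T) {ψ : Q A}
    {x' : Idx → A} {g' : A} (h1 : ∀ i, D (ψ i) = br (WW p q w (SS x' g')) ψ i)
    (h2 : ∀ i, T (ψ i) = br (V2 p q w x' g') ψ i)
    {δ : DerM φ A} (h3 : ∀ a i, δ (x (a, i)) = D^[i] (ee x' (q • WW p q w ψ) a))
    (e1 : φ ∘ x = x') (e2 : φ g = g') (a : Fin 2) :
    T (ee x' (q • WW p q w ψ) a) = δ (P2 x g a) := by
  subst e1 e2
  have hg' := congrArg φ hg
  rw [map_mul, map_add, map_one] at hg'
  have a1 := der_g d hg'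
  have a2 := der_g δ hg
  have a3 : ∀ f x, D (f * x) = d f * x + f * D x := hD
  have a4 : ∀ f x, T (f * x) = t f * x + f * T x := hT
  fin_cases a <;>
  · simp only [ee, ev_apply, SS, SS', V2, P2, WW_0, WW_1, WW_2, br_0, br_1, br_2, Sv_0, Sv_1,
      Sv_2, sq_0, sq_1, sq_2, Pi.sub_apply, Pi.add_apply, Pi.neg_apply, Pi.smul_apply, smul_eq_mul,
      map_add, map_sub, map_neg, DerM.mul, DerM.pow, a1, a2, a3, a4, hx, ht, h1, h2, h3,
      hp, hq, hw1, hp', hq', hw2, map_one, DerM.one,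
      DerM.ofNat, RingHom.id_apply, Matrix.cons_val_zero, Matrix.cons_val_one,
      Nat.cast_ofNat, Nat.add_one_sub_one, zero_add, Nat.reduceAdd, Function.comp_apply, map_mul,
      map_pow, map_ofNat, Function.iterate_succ_apply', Function.iterate_zero_apply, Fin.zero_eta,
      Fin.mk_one]
    grind

theorem WW_br (p q w : A) (S ψ : Q A) :
    WW p q w (br (WW p q w S) ψ) = br S (WA p q w ψ) := by
  apply vext <;> simp <;> ring

theorem WA_br {p q w : A} (hpq : q * p = 1) (hw : w ^ 2 = p ^ 2 + q ^ 2) (S ψ : Q A) :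
    WA p q w (br (WW p q w S) ψ) =
      (p ^ 2 + q ^ 2) • br S (WW p q w ψ) + br (WW 0 2 0 S) (WW p q w ψ) := by
  apply vext <;> simp <;> grind

theorem WW_WA {p q w : A} (hpq : q * p = 1) (hw : w ^ 2 = p ^ 2 + q ^ 2) (ψ : Q A) :
    (w * (p ^ 2 - q ^ 2)) • WW p q w ψ =
      (p ^ 2 + q ^ 2) • WA p q w ψ + WW 0 2 0 (WA p q w ψ) := by
  apply vext <;> simp <;> grind

theorem fm_swap (f h : Q A) : fm f h = fm h f := by simp [fm_apply]; ring

theorem br_swap (f h : Q A) : br f h = -br h f := by apply vext <;> simp <;> ring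

theorem Bm_split (s : A) (c : Fin 5 → A) (f : Q A) : Bm s c f = s • f + Bm 0 c f := by
  apply vext <;> simp <;> ring

theorem der_fm (d : Der A) (f h : Q A) : d (fm f h) = fm (d ∘ f) h + fm f (d ∘ h) := by
  simp [fm_apply, d.mul']
  ring

theorem der_br (d : Der A) (f h : Q A) : d ∘ br f h = br (d ∘ f) h + br f (d ∘ h) := by
  apply vext <;> simp [d.mul'] <;> ring

theorem fm_br (U f h : Q A) : fm (br U f) h + fm f (br U h) = 0 := by simp [fm_apply]; ring

theorem jacobi (U f h : Q A) : br U (br f h) = br (br U f) h + br f (br U h) := by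
  apply vext <;> simp <;> ring

section

variable {d : Der A} {U η η' : Q A} {κ κ' n : A} (h : d ∘ η = br U η - κ • η)
  (h' : d ∘ η' = br U η' - κ' • η') (hn : n * fm η η' = 1)

include h h' hn

theorem der_n : d n = (κ + κ') * n := by
  have h1 := d.inv_of (mul_comm n _ ▸ hn)
  have h2 := fm_br U η η'
  rw [der_fm, h, h', fm_swap _ η', map_sub, map_sub, map_smul, map_smul, fm_swap η',
    fm_swap η'] at h1
  simp only [smul_eq_mul, RingHom.id_apply] at h1
  linear_combination h1 - n ^ 2 * h2 + (κ + κ') * n * hn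

theorem der_Q : d ∘ (n • br η η') = br U (n • br η η') := by
  funext i
  have h1 := congrFun (der_br d η η') i
  rw [h, h', br_swap (_ - _) η', map_sub, map_sub, map_smul, map_smul, br_swap η',
    br_swap η'] at h1
  have h2 := congrFun (jacobi U η η') i
  simp only [map_smul, Function.comp_apply, Pi.smul_apply, smul_eq_mul, d.mul', der_n h h' hn,
    Pi.add_apply, Pi.sub_apply, Pi.neg_apply] at h1 h2 ⊢
  linear_combination n * h1 - n * h2

theorem var_kappa {δ : Der A} (hδ : ∀ a, d (δ a) = δ (d a)) :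
    δ κ = fm (δ ∘ U) (n • br η η') - d (n * fm η' (δ ∘ η)) := by
  have h1 : d ∘ δ ∘ η = br (δ ∘ U) η + br U (δ ∘ η) - δ κ • η - κ • δ ∘ η := by
    rw [← der_br]
    funext i
    have := congrFun h i
    simp only [Function.comp_apply, Pi.smul_apply, smul_eq_mul, Pi.sub_apply, hδ] at this ⊢
    rw [this, map_sub, δ.mul']
    ring
  rw [d.mul', der_n h h' hn, der_fm, h1, h']
  simp only [fm_apply, Pi.add_apply, Pi.sub_apply, Pi.smul_apply, smul_eq_mul, br_0, br_1,
    br_2] at hn ⊢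
  linear_combination (-δ κ) * hn

end

theorem fm_var {δ : Der A} {x : Idx → A} {g p q w : A} (hg : g * (x (0, 0) + x (1, 0)) = 1)
    (hpq : q * p = 1) (hp : δ p = 0) (hq : δ q = 0) (hw : δ w = 0) (y : Q A) :
    fm (δ ∘ WW p q w (SS x g)) y = p * (2 * g ^ 2 * (δ (x (1, 0)) * ee x (q • WW p q w y) 0 -
      δ (x (0, 0)) * ee x (q • WW p q w y) 1)) := by
  simp [fm_apply, SS, ee, ev_apply, δ.mul', hp, hq, hw, der_g δ hg]
  grind

end Pool.Agent.Lib.MP_dfc315_mp
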