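import Mathlib
import Pool.Agent.Lib.MP_dfc315_mp.Id2

set_option autoImplicit false

namespace Pool.Agent.Lib.MP_dfc315_mp

open HahnSeries Submodule

attribute [-simp] HahnSeries.C_apply

section

variable {A B : Type*} [CommRing A] [CommRing B] (φ : A →+* B)

theorem map_br (f h : Q A) : φ ∘ br f h = br (φ ∘ f) (φ ∘ h) := by apply vext <;> simp [map_ofNat]

theorem map_Bm (s : A) (c : Fin 5 → A) (f : Q A) : φ ∘ Bm s c f = Bm (φ s) (φ ∘ c) (φ ∘ f) := by
  apply vext <;> simp [map_ofNat]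

theorem map_WW (p q w : A) (f : Q A) : φ ∘ WW p q w f = WW (φ p) (φ q) (φ w) (φ ∘ f) := by
  apply vext <;> simp

theorem map_sq (b : A) : φ ∘ sq b = sq (φ b) := by apply vext <;> simp [map_ofNat]

theorem map_SS (x : Idx → A) (g : A) : φ ∘ SS x g = SS (φ ∘ x) (φ g) := by
  apply vext <;> simp [SS]

theorem map_SS' (x : Idx → A) (g : A) : φ ∘ SS' x g = SS' (φ ∘ x) (φ g) := by
  apply vext <;> simp [SS', map_ofNat]

theorem map_ev (z : A) (f : Q A) : φ (ev z f) = ev (φ z) (φ ∘ f) := by simp [ev_apply]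

theorem map_ee (x : Idx → A) (f : Q A) (a : Fin 2) : φ (ee x f a) = ee (φ ∘ x) (φ ∘ f) a := by
  fin_cases a <;> simp [ee, map_ev]

theorem map_P1 (c : Fin 5 → A) (x : Idx → A) (g : A) (a : Fin 2) :
    φ (P1 c x g a) = P1 (φ ∘ c) (φ ∘ x) (φ g) a := by
  fin_cases a <;> simp [P1, qq, rr, map_ofNat]

theorem map_P2 (x : Idx → A) (g : A) (a : Fin 2) : φ (P2 x g a) = P2 (φ ∘ x) (φ g) a := by
  fin_cases a <;> simp [P2, map_ofNat]

theorem map_lax {d : Der A} {e : Der B} (h : ∀ a, e (φ a) = φ (d a)) (s : A) (c : Fin 5 → A)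
    (U y : Q A) : φ ∘ lax d s c U y = lax e (φ s) (φ ∘ c) (φ ∘ U) (φ ∘ y) := funext fun i => by
  simp only [Function.comp_apply, lax_apply, map_sub, h, ← map_br, ← map_Bm]

theorem ee_add (x : Idx → A) (f h : Q A) (a : Fin 2) : ee x (f + h) a = ee x f a + ee x h a := by
  fin_cases a <;> simp [ee, add_comm]

theorem ee_smul (x : Idx → A) (z : A) (f : Q A) (a : Fin 2) : ee x (z • f) a = z * ee x f a := by
  fin_cases a <;> simp [ee]

/-- The roots of the spin vector, in both orders. -/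
def aa (x : Idx → A) : Fin 2 → A := ![x (0, 0), -x (1, 0)]

/-- The other root. -/
def bb (x : Idx → A) : Fin 2 → A := ![-x (1, 0), x (0, 0)]

/-- The signs. -/
def sg : Fin 2 → A := ![1, -1]

theorem sg_mul (j : Fin 2) : (sg j : A) * sg j = 1 := by fin_cases j <;> simp [sg]

@[simp] theorem map_sg (j : Fin 2) : φ (sg j) = sg j := by fin_cases j <;> simp [sg]

@[simp] theorem map_aa (x : Idx → A) (j : Fin 2) : φ (aa x j) = aa (φ ∘ x) j := by
  fin_cases j <;> simp [aa]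

@[simp] theorem map_bb (x : Idx → A) (j : Fin 2) : φ (bb x j) = bb (φ ∘ x) j := by
  fin_cases j <;> simp [bb]

theorem hg_j {x : Idx → A} {g : A} (hg : g * (x (0, 0) + x (1, 0)) = 1) (j : Fin 2) :
    sg j * g * (aa x j - bb x j) = 1 := by
  fin_cases j <;> simp [sg, aa, bb] <;> linear_combination hg

theorem Sv_j (x : Idx → A) (g s : A) (j : Fin 2) (y : Q A) :
    (sg j * s) • br (Sv (aa x j) (bb x j) (sg j * g)) y = s • br (SS x g) y := by
  fin_cases j <;> apply vext <;> simp [sg, aa, bb, SS] <;> ring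

theorem ee_sq {x : Idx → A} {g : A} [Nontrivial A] (hg : g * (x (0, 0) + x (1, 0)) = 1)
    (a j : Fin 2) : ee x (sq (bb x j)) a = 0 ↔ j ≠ a := by
  have h : (x (0, 0) + x (1, 0)) ^ 2 ≠ 0 := fun h => zero_ne_one (α := A) (by
    linear_combination (g * (x (0, 0) + x (1, 0)) + 1) * hg - g ^ 2 * h)
  fin_cases a <;> fin_cases j <;> simp [ee, ev_apply, bb]
  · exact fun h' => h (by linear_combination h')
  · ring
  · ring
  · exact fun h' => h (by linear_combination -h')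

end

section

variable {R R' : Type*} [CommRing R] [CommRing R'] {k l : ℤ}

theorem O_WW {p q w : Ser R} {f : Q (Ser R)} (hp : O k p) (hq : O k q) (hw : O k w)
    (hf : ∀ i, O l (f i)) (i : Fin 3) : O (k + l) (WW p q w f i) := by
  fin_cases i
  · exact (hp.mul (hf 0)).add (hq.mul (hf 2))
  · exact hw.mul (hf 1)
  · exact (hq.mul (hf 0)).add (hp.mul (hf 2))

theorem O_ee (x : Idx → R) {f : Q (Ser R)} (hf : ∀ i, O k (f i)) (a : Fin 2) :
    O k (ee (C ∘ x) f a) := by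
  fin_cases a
  · exact O_ev (O_C _) hf
  · exact (O_ev (O_C _).neg hf).neg

theorem lmap_comp_C {ι : Type*} (φ : R →+* R') (x : ι → R) :
    lmap φ ∘ C ∘ x = C ∘ φ ∘ x := funext fun _ => lmap_C _ _

theorem Eig.map {N : Q (Ser R) →+ Q (Ser R)} {N' : Q (Ser R') →+ Q (Ser R')} {a b g c : R}
    {η : Q (Ser R)} {κ : Ser R} (h : Eig N a b g c η κ) (φ : R →+* R')
    (hN : lmap φ ∘ N η = N' (lmap φ ∘ η)) :
    Eig N' (φ a) (φ b) (φ g) (φ c) (lmap φ ∘ η) (lmap φ κ) where
  lead i := by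
    rw [← lmap_C, ← map_sq]
    simpa only [map_sub, Function.comp_apply] using (h.lead i).lmap φ
  pole := by simpa only [Pole, map_sub, map_mul, lmap_C, lmap_tt, map_neg] using O.lmap h.pole φ
  eq := funext fun i => by
    simpa only [← hN, Pi.add_apply, map_add, Pi.smul_apply, smul_eq_mul, map_mul, Pi.zero_apply,
      map_zero, Function.comp_apply] using congrArg (lmap φ) (congrFun h.eq i)
  norm := by
    simpa only [nf, LinearMap.smul_apply, smul_eq_mul, map_mul, map_pow, map_ev, lmap_C, map_one]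
      using congrArg (lmap φ) h.norm

/-- A pair of formal eigenvectors. -/
def Eigs (N : Q (Ser R) →+ Q (Ser R)) (x : Idx → R) (g : R) (η : Fin 2 → Q (Ser R))
    (κ : Fin 2 → Ser R) : Prop := ∀ j, Eig N (aa x j) (bb x j) (sg j * g) (sg j) (η j) (κ j)

variable {N N' : Q (Ser R) →+ Q (Ser R)} {x : Idx → R} {g : R} {η η' : Fin 2 → Q (Ser R)}
  {κ κ' : Fin 2 → Ser R}

theorem Eigs.map {N' : Q (Ser R') →+ Q (Ser R')} (h : Eigs N x g η κ) (φ : R →+* R')
    (hN : ∀ y, lmap φ ∘ N y = N' (lmap φ ∘ y)) :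
    Eigs N' (φ ∘ x) (φ g) (fun j => lmap φ ∘ η j) fun j => lmap φ (κ j) := fun j => by
  simpa only [map_aa, map_bb, map_mul, map_sg] using (h j).map φ (hN _)

variable (hg : g * (x (0, 0) + x (1, 0)) = 1) {h : R} (hh : 2 * h = 1)
  (hN : Reg fun y => N y + (tt (-1) : Ser R) • br (SS (C ∘ x) (C g)) y)

include hN in
theorem reg_j (j : Fin 2) : Reg fun y => N y + (C (sg j) * tt (-1) : Ser R) •
    br (Sv (C (aa x j)) (C (bb x j)) (C (sg j * g))) y := by
  simpa only [map_mul, map_sg, map_aa, map_bb, Sv_j] using hN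

include hg hh hN

theorem exists_eigs : ∃ η κ, Eigs N x g η κ := by
  choose η κ h using fun j => exists_eig (hg_j hg j) (sg_mul j) hh (reg_j hN j)
  exact ⟨η, κ, h⟩

theorem Eigs.unique (h1 : Eigs N x g η κ) (h2 : Eigs N x g η' κ') : η = η' ∧ κ = κ' :=
  ⟨funext fun j => ((h1 j).unique (hg_j hg j) (sg_mul j) hh (reg_j hN j) (h2 j)).1,
    funext fun j => ((h1 j).unique (hg_j hg j) (sg_mul j) hh (reg_j hN j) (h2 j)).2⟩

theorem Eigs.compat (h1 : Eigs N x g η κ) {d e : Der (Ser R)} (h2 : IsConn d N) (h3 : IsConn e N')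
    (h4 : ∀ x, N (N' x) = N' (N x)) (h5 : ∀ k y, (∀ i, O k (y i)) →
      ∀ i, O (k - 1) ((N' y - (tt (-2) : Ser R) • br (SS (C ∘ x) (C g)) y) i)) :
    ∃ ω : Fin 2 → Ser R, ∀ j, N' (η j) + ω j • η j = 0 ∧ d (ω j) = e (κ j) ∧
      O (-1) (ω j - C (sg j) * tt (-2)) := by
  refine ⟨_, fun j => ⟨((h1 j).compat (hg_j hg j) (sg_mul j) hh (reg_j hN j) h2 h3 h4).1,
    ((h1 j).compat (hg_j hg j) (sg_mul j) hh (reg_j hN j) h2 h3 h4).2, ?_⟩⟩
  have a1 := nf_br (C_hg (hg_j hg j)) (η j)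
  rw [map_add, (h1 j).norm] at a1
  convert (O_nf (aa x j) (sg j * g) (h5 0 _ (h1 j).O_zero)).neg using 1
  · rfl
  rw [← Sv_j _ _ _ j]
  simp only [map_sub, map_smul, map_mul, map_sg, map_aa, map_bb, smul_eq_mul] at a1 ⊢
  linear_combination (-sg j * tt (-2)) * a1

end

theorem Eigs.lead {L : Type} [Field L] {N : Q (Ser L) →+ Q (Ser L)} {x : Idx → L} {g : L}
    {η : Fin 2 → Q (Ser L)} {κ : Fin 2 → Ser L} (h : Eigs N x g η κ)
    (hg : g * (x (0, 0) + x (1, 0)) = 1) {ψ : Fin 2 → Q (Ser L)} (hψ : ∀ j i, O 1 (ψ j i - η j i))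
    (a : Fin 2) : Lead 0 a fun j => ee (C ∘ x) (ψ j) a := by
  have h1 : ∀ j, O 1 (ee (C ∘ x) (ψ j) a - C (ee x (sq (bb x j)) a)) := fun j => by
    rw [map_ee, map_sq, ← sub_add_cancel (ψ j) (sq (C (bb x j))), ee_add, add_sub_cancel_right]
    exact O_ee x (fun i => by simpa using (hψ j i).add ((h j).lead i)) a
  refine ⟨fun j => by simpa using ((h1 j).mono zero_le_one).add (O_C (ee x (sq (bb x j)) a)),
    fun j => ?_⟩
  have h2 := h1 j 0 one_pos
  rw [coeff_sub, sub_eq_zero] at h2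
  rw [← ee_sq hg, h2, C_apply, coeff_single_same]

/-- The diagonal model given by a pair of eigenvectors. -/
noncomputable def Eigs.diag {L : DF} {N : Q (Ser L.L) →+ Q (Ser L.L)} {x : Idx → L.L} {g : L.L}
    {η : Fin 2 → Q (Ser L.L)} {κ : Fin 2 → Ser L.L} (h : Eigs N x g η κ)
    (hg : g * (x (0, 0) + x (1, 0)) = 1) (ψ : Fin 2 → Q (Ser L.L))
    (hψ : ∀ j i, O 1 (ψ j i - η j i)) (ω : Fin 2 → Ser L.L) (h1 : ∀ j, O (-2) (ω j))
    (h2 : ∀ j, sder L.d (ω j) = sder L.t (κ j)) : Diag L :=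
  ⟨κ, ω, fun a j => ee (C ∘ x) (ψ j) a, fun j => -sg j,
    fun j => neg_ne_zero.2 (left_ne_zero_of_mul_eq_one (sg_mul j)), fun j => (h j).pole, h1, h2,
    h.lead hg hψ⟩

theorem Alm.sup {L V : Type*} [Field L] [AddCommGroup V] [Module L V] {A B C : Submodule L V}
    (h : Alm A C) (h' : Alm B C) : Alm (A ⊔ B) C := by
  obtain ⟨F, h1, h2⟩ := h
  obtain ⟨F', h3, h4⟩ := h'
  exact ⟨F ⊔ F', h1.sup h3, sup_le (h2.trans (sup_le_sup_left le_sup_left _))
    (h4.trans (sup_le_sup_left le_sup_right _))⟩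

/-- Multiplication operators. -/
noncomputable def mulV {L : Type} [Field L] (F : GG L) : GG L →ₗ[L] GG L where
  toFun y := F * y
  map_add' := mul_add F
  map_smul' c y := funext fun j => by simp [← C_mul, mul_left_comm]

@[simp] theorem mulV_apply {L : Type} [Field L] (F y : GG L) : mulV F y = F * y := rfl

namespace Diag

variable {L : DF} (X : Diag L)

/-- The components of the differential in the diagonal model. -/
noncomputable def δ {S : Evol} (f : S.K →+* L.L) (j : Fin 2) :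
    DerM ((C : L.L →+* Ser L.L).comp f) (Ser L.L) where
  toFun a := X.ι (dP S f a) j
  map_zero' := by simp
  map_add' := by simp
  leib a b := by simp [DerM.mul, C_mul]

theorem δ_apply {S : Evol} (f : S.K →+* L.L) (j : Fin 2) (a : S.K) :
    X.δ f j a = X.ι (dP S f a) j := rfl

theorem δ_x {S : Evol} (f : S.K →+* L.L) (j a : Fin 2) (i : ℕ) :
    X.δ f j (S.J.x (a, i)) = (cn L.d (X.κ j))^[i] (X.e a j) := by
  rw [δ_apply, dP, Jets.dif_x, ι_bs, D_iter]

theorem intertwine {S : Evol} (f : DHom S.df L) (h : ∀ a j, X.T (X.e a) j = X.δ f.f j (S.P a))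
    (x : PP L.L) : X.ι (TP S f.f x) = X.T (X.ι x) := by
  refine conn_ext (lieP_conn _ _) (cnV_conn _ _) (fun ⟨a, i⟩ => ?_) x
  rw [lieP_bs, ι_bs, S.J.D_eq]
  refine Eq.trans ?_ ((Function.Commute.iterate_left X.D_T i).eq _)
  rw [funext (h a)]
  exact (Function.Semiconj.iterate_right (f := fun a => X.ι (dP S f.f a))
    (fun a => by rw [← ι_DP, DP_dP]) i).eq _

theorem range_D {y : GG L.L} (h : y ∈ LinearMap.range X.ι) : X.D y ∈ LinearMap.range X.ι := by
  obtain ⟨y, rfl⟩ := h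
  exact ⟨_, X.ι_DP y⟩

theorem e_mem (a : Fin 2) : X.e a ∈ LinearMap.range X.ι := ⟨bs (a, 0), X.ι_bs a 0⟩

theorem D_mul {F : GG L.L} (h : ∀ j, sder L.d (F j) = 0) (y : GG L.L) :
    X.D (F * y) = F * X.D y := funext fun j => by simp [D_apply, cn_mul, h]

theorem mor_mul {F : GG L.L} (h1 : ∀ j, sder L.d (F j) = 0) (h2 : ∀ j, sder L.t (F j) = 0)
    {W : Submodule L.L (GG L.L)} (h3 : ∀ y ∈ W, X.D y ∈ W) (h4 : Alm W (LinearMap.range X.ι))
    (h5 : ∀ a, F * X.e a ∈ W) : X.Mor X (mulV F) := by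
  refine ⟨Bdd.mul F, fun y => (X.D_mul h1 y).symm, fun y => funext fun j => by
    simp [T_apply, cn_mul, h2], (Alm.of_le ?_).trans h4⟩
  rw [map_le_iff_le_comap, ι, Finsupp.range_linearCombination, span_le]
  rintro _ ⟨⟨a, i⟩, rfl⟩
  change F * X.D^[i] (X.e a) ∈ W
  rw [← (Function.Commute.iterate_left (g := (F * ·)) (X.D_mul h1) i).eq]
  exact Set.MapsTo.iterate h3 i (h5 a)

theorem mul_of_comm {Z : GG L.L →ₗ[L.L] GG L.L} (hb : Bdd Z) (hD : ∀ y, Z (X.D y) = X.D (Z y))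
    (hc : ∀ j a, j ≠ a → X.c j ≠ X.c a)
    (h : ∀ y, Z ((fun _ => tt (-1)) * y) = (fun _ => tt (-1)) * Z y) :
    ∃ F : GG L.L, (∀ j, sder L.d (F j) = 0) ∧ ∀ y, Z y = F * y := by
  have h1 : ∀ (k : ℤ) y, Z ((fun _ => tt k) * y) = (fun _ => tt k) * Z y := fun k => by
    have a1 : ∀ (k : ℤ) (y : GG L.L), (fun _ => tt (-1)) * ((fun _ => tt (k + 1)) * y) =
        (fun _ => tt k) * y := fun k y => funext fun j => by simp [← mul_assoc, tt_succ]
    induction k with
    | zero => exact fun y => (congrArg Z (one_mul y)).trans (one_mul _).symm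
    | succ k ih =>
      intro y
      have a2 := h ((fun _ => tt (k + 1)) * y)
      rw [a1, ih, ← a1] at a2
      exact funext fun j => (mul_left_cancel₀ (right_ne_zero_of_mul_eq_one tt_inv)
        (congrFun a2 j)).symm
    | pred k ih =>
      intro y
      rw [← a1 _ y, ← a1 _ (Z y), sub_add_cancel, h, ih]
  let M : GG L.L →ₗ[L.L] GG L.L := ∑ a, (mulV (Z (Pi.single a 1))).comp
    (LinearMap.pi fun _ => LinearMap.proj a)
  have hM : ∀ y j, M y j = ∑ a, Z (Pi.single a 1) j * y a := fun y j => by simp [M]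
  have h2 : ∀ y, Z y = M y := fun y => sub_eq_zero.1 <| Bdd.eq_zero (Ψ := Z - M)
    (β := fun k a => Pi.single a (tt k)) (hb.sub ?_) (fun k a => ⟨fun j => ?_, fun j => ?_⟩)
    (fun k a => sub_eq_zero.2 (funext fun j => ?_)) y
  · refine ⟨fun j => Z (Pi.single j 1) j, fun j => ?_, fun y => funext fun j => ?_⟩
    · have a1 := congrFun (hD (Pi.single j 1)) j
      rw [h2, hM, Finset.sum_eq_single j (fun a _ ha => by simp [D_apply, ha]) (by simp)] at a1
      simpa [D_apply, cn_apply, mul_comm] using a1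
    rw [h2, hM, Finset.sum_eq_single j (fun a _ ha => ?_) (by simp), Pi.mul_apply]
    have a1 := congrFun (hD (Pi.single a 1)) j
    rw [h2, hM, Finset.sum_eq_single a (fun b _ hb => by simp [D_apply, hb]) (by simp)] at a1
    have a2 : Pole (X.c j - X.c a) (X.κ j - X.κ a) := by
      rw [Pole, map_sub]
      convert O.sub (X.hκ j) (X.hκ a) using 1
      ring
    rw [a2.eq_zero (d := L.d) (x := Z (Pi.single a 1) j) (sub_ne_zero.2 (hc j a ha.symm)) (by
      simp only [D_apply, cn_apply, Pi.single_eq_same, DerM.one] at a1 ⊢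
      linear_combination -a1), zero_mul]
  · obtain ⟨r, hr⟩ := exists_OV fun i : Fin 2 × Fin 2 => Z (Pi.single i.1 1) i.2
    exact ⟨-r, fun k y hy j => hM y j ▸ O.sum fun a _ => (hr (a, j)).mul' (hy a) (by omega)⟩
  · rcases eq_or_ne j a with rfl | hj
    · simpa using O_tt k
    · simpa [hj] using O.zero
  · rcases eq_or_ne j a with rfl | hj <;> simp [*]
  · rw [hM, Finset.sum_eq_single a (fun b _ hb => by simp [hb]) (by simp), Pi.single_eq_same,
      mul_comm]
    refine Eq.trans (congrArg (Z · j) (funext fun b => ?_)) (congrFun (h1 k (Pi.single a 1)) j)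
    simp [Pi.single_apply]

end Diag

end Pool.Agent.Lib.MP_dfc315_mp
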