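import Mathlib
import Pool.Agent.Lib.MP_dfc315_mp.Model

set_option autoImplicit false

namespace Pool.Agent.Lib.MP_dfc315_mp

open Submodule

variable {L A : Type*} [CommRing L] [CommRing A] [Module L A] {φ : L →+* A}
  {W : Submodule L A} {d : Der L} {D : A →+ A} {x : Idx → L} {g : L} {y z w : Q A}

/-- The elements of `W` that stay in `W`. -/
def IsConn.core (hD : IsConn d D) (W : Submodule L A) : Submodule L A where
  carrier := {y | y ∈ W ∧ D y ∈ W}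
  add_mem' ha hb := ⟨add_mem ha.1 hb.1, map_add D _ _ ▸ add_mem ha.2 hb.2⟩
  zero_mem' := ⟨zero_mem _, by simp⟩
  smul_mem' c y h := ⟨smul_mem _ c h.1, hD c y ▸ add_mem (smul_mem _ _ h.1) (smul_mem _ _ h.2)⟩

theorem ee_br {x : Idx → A} {g : A} (hg : g * (x (0, 0) + x (1, 0)) = 1) (y : Q A) (a : Fin 2) :
    -sg a * ee x (br (SS x g) y) a = ee x y a := by
  fin_cases a <;> simp [ee, sg, SS, ev_apply] <;> grind

theorem br_SS {x : Idx → A} {g : A} (hg : g * (x (0, 0) + x (1, 0)) = 1) (y : Q A) :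
    br (SS x g) y = -((g ^ 2 * ee x y 1) • sq (x (0, 0)) + (g ^ 2 * ee x y 0) • sq (-x (1, 0))) := by
  apply vext <;> simp [ee, SS, ev_apply] <;> grind

variable (hφ : ∀ a y, φ a * y = a • y)

include hφ

theorem mulc_mem (a : L) {y : A} (h : y ∈ W) : φ a * y ∈ W := hφ a y ▸ smul_mem _ a h

theorem lin_mem (h : ∀ i, y i ∈ W) (a b c : L) : φ a * y 0 + φ b * y 1 + φ c * y 2 ∈ W :=
  add_mem (add_mem (mulc_mem hφ a (h 0)) (mulc_mem hφ b (h 1))) (mulc_mem hφ c (h 2))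

theorem br_mem (f : Q L) (h : ∀ i, y i ∈ W) (i : Fin 3) : br (φ ∘ f) y i ∈ W := by
  fin_cases i
  · convert lin_mem hφ h (-f 1) (f 0) 0 using 1
    simp; ring
  · convert lin_mem hφ h (-(2 * f 2)) 0 (2 * f 0) using 1
    simp [map_ofNat]; ring
  · convert lin_mem hφ h 0 (-f 2) (f 1) using 1
    simp; ring

theorem Bm_mem (c : Fin 5 → L) (h : ∀ i, y i ∈ W) (i : Fin 3) : Bm 0 (φ ∘ c) y i ∈ W := by
  fin_cases i
  · convert lin_mem hφ h 0 (c 1) (-(4 * c 0)) using 1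
    simp [map_ofNat]; ring
  · convert lin_mem hφ h (-(2 * c 3)) (2 * c 2) (-(2 * c 1)) using 1
    simp [map_ofNat]; ring
  · convert lin_mem hφ h (-(4 * c 4)) (c 3) 0 using 1
    simp [map_ofNat]

omit hφ in
theorem WW_mem (h : ∀ i, y i ∈ W) (i : Fin 3) : WW 0 2 0 y i ∈ W := by
  fin_cases i
  · simpa [two_mul] using add_mem (h 2) (h 2)
  · simp
  · simpa [two_mul] using add_mem (h 0) (h 0)

theorem ee_mem (h : ∀ i, y i ∈ W) (a : Fin 2) : ee (φ ∘ x) y a ∈ W := by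
  fin_cases a
  · convert lin_mem hφ h 1 (x (0, 0)) (x (0, 0) ^ 2) using 1
    simp [ee, ev_apply]
  · convert lin_mem hφ h (-1) (x (1, 0)) (-x (1, 0) ^ 2) using 1
    simp [ee, ev_apply]; ring

theorem D_ee (hD : IsConn d D) (h : ∀ i, y i ∈ W) (a : Fin 2) :
    D (ee (φ ∘ x) y a) - ee (φ ∘ x) (D ∘ y) a ∈ W := by
  have h1 : ∀ a y, D (φ a * y) = φ (d a) * y + φ a * D y := fun a y => by simp only [hφ, hD a y]
  fin_cases a
  · convert lin_mem hφ h 0 (d (x (0, 0))) (d (x (0, 0) ^ 2)) using 1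
    simp [ee, ev_apply, ← map_pow, h1]; ring
  · convert lin_mem hφ h 0 (d (x (1, 0))) (-d (x (1, 0) ^ 2)) using 1
    simp [ee, ev_apply, ← map_pow, h1]; ring

variable (hg : g * (x (0, 0) + x (1, 0)) = 1)

include hg

theorem brS_mem (h : ∀ a, ee (φ ∘ x) y a ∈ W) (i : Fin 3) : br (SS (φ ∘ x) (φ g)) y i ∈ W := by
  rw [br_SS (by simpa using congrArg φ hg)]
  convert neg_mem (add_mem (mulc_mem hφ (g ^ 2 * sq (x (0, 0)) i) (h 1))
    (mulc_mem hφ (g ^ 2 * sq (-x (1, 0)) i) (h 0))) using 1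
  simp only [Pi.neg_apply, Pi.add_apply, Pi.smul_apply, Function.comp_apply, ← map_neg, ← map_sq,
    map_mul, map_pow, smul_eq_mul]
  ring

theorem ee_key (hD : IsConn d D) (h : ∀ i, y i ∈ W) (h1 : ∀ a, D (ee (φ ∘ x) y a) ∈ W)
    (h2 : D ∘ y = br (SS (φ ∘ x) (φ g)) z + w) (h3 : ∀ i, w i ∈ W) (a : Fin 2) :
    ee (φ ∘ x) z a ∈ W := by
  have h4 := sub_mem (sub_mem (h1 a) (D_ee (x := x) hφ hD h a)) (ee_mem (x := x) hφ h3 a)
  rw [h2, ee_add, sub_sub_cancel, add_sub_cancel_right] at h4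
  rw [← ee_br (g := φ g) (by simpa using congrArg φ hg), ← map_sg φ, ← map_neg]
  exact mulc_mem hφ _ h4

theorem rat1 (hD : IsConn d D) {s : A} {c : Fin 5 → L} (h : ∀ i, y i ∈ W)
    (h1 : ∀ a, D (ee (φ ∘ x) y a) ∈ W) (h2 : D ∘ y = Bm s (φ ∘ c) (br (SS (φ ∘ x) (φ g)) y)) :
    (∀ a, s * ee (φ ∘ x) y a ∈ W) ∧ ∀ i, D (y i) ∈ W := by
  rw [Bm_split, ← map_smul] at h2
  have h3 := Bm_mem hφ c (br_mem hφ (SS x g) h)
  rw [map_SS] at h3
  have h4 := ee_key hφ hg hD h h1 h2 h3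
  exact ⟨by simpa only [ee_smul] using h4, fun i =>
    Set.mem_of_eq_of_mem (congrFun h2 i) (add_mem (brS_mem hφ hg h4 i) (h3 i))⟩

theorem rat2 (hD : IsConn d D) {s : A} (h : ∀ i, y i ∈ W) (h' : ∀ i, z i ∈ W)
    (h1 : ∀ a, D (ee (φ ∘ x) y a) ∈ W) (h1' : ∀ a, D (D (ee (φ ∘ x) y a)) ∈ W)
    (h2 : D ∘ y = br (SS (φ ∘ x) (φ g)) z)
    (h3 : D ∘ z = s • br (SS (φ ∘ x) (φ g)) y + br (WW 0 2 0 (SS (φ ∘ x) (φ g))) y) :
    (∀ a, s * ee (φ ∘ x) y a ∈ W) ∧ (∀ i, D (y i) ∈ W) ∧ ∀ i, D (z i) ∈ W := by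
  have h4 : ∀ i, D (y i) ∈ W := fun i =>
    Set.mem_of_eq_of_mem (congrFun h2 i) (map_SS φ x g ▸ br_mem hφ _ h' i)
  have h5 := ee_key (W := hD.core W) hφ hg hD (fun i => ⟨h i, h4 i⟩) (fun a => ⟨h1 a, h1' a⟩)
    (h2.trans (add_zero _).symm) fun _ => zero_mem _
  have h6 := br_mem hφ (WW 0 2 0 (SS x g)) h
  rw [map_WW, map_SS, map_zero, map_ofNat] at h6
  rw [← map_smul] at h3
  have h7 := ee_key hφ hg hD h' (fun a => (h5 a).2) h3 h6
  exact ⟨by simpa only [ee_smul] using h7, h4, fun i =>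
    Set.mem_of_eq_of_mem (congrFun h3 i) (add_mem (brS_mem hφ hg h7 i) (h6 i))⟩

end Pool.Agent.Lib.MP_dfc315_mp
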