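import Mathlib
import Pool.Agent.Lib.MP_dfc315_mp.Diag

set_option autoImplicit false

namespace Pool.Agent.Lib.MP_dfc315_mp

open Finset HahnSeries Submodule Finsupp

theorem dep_iff {k V ι ι' : Type*} [Field k] [AddCommGroup V] [Module k V] (u : ι → V)
    (v : ι' → V) : ¬ LinearIndependent k (Sum.elim u v) ↔
      ∃ p q, (p ≠ 0 ∨ q ≠ 0) ∧ linearCombination k u p = linearCombination k v q := by
  rw [linearIndependent_sum, Sum.elim_comp_inl, Sum.elim_comp_inr, linearIndependent_iff,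
    linearIndependent_iff, disjoint_def]
  simp only [mem_span_range_iff_exists_finsupp]
  constructor
  · intro h
    by_contra h0
    push Not at h0
    have h1 : ∀ p q, linearCombination k u p = linearCombination k v q → p = 0 ∧ q = 0 :=
      fun p q h => by simpa using mt (h0 p q) (not_not.2 h)
    refine h ⟨fun p hp => (h1 p 0 (by simpa)).1, fun q hq => (h1 0 q (by simp [hq])).2, ?_⟩
    rintro _ ⟨p, rfl⟩ ⟨q, hq⟩
    simp [(h1 p q hq.symm).1]
  · rintro ⟨p, q, h1, h2⟩ ⟨h3, h4, h5⟩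
    have := h5 _ ⟨p, rfl⟩ ⟨q, h2.symm⟩
    exact h1.elim (· (h3 p this)) (· (h4 q (h2.symm.trans this)))

theorem spec_dep {B L k ι ι' : Type} [CommRing B] [Field L] [Field k] {φ : B →+* L}
    (hφ : Function.Injective φ) (ε : B →+* k) (u : ι → Fin 2 → Ser B) (v : ι' → Fin 2 → Ser B)
    (h : ∃ p q, (p ≠ 0 ∨ q ≠ 0) ∧ linearCombination L (fun i j => lmap φ (u i j)) p =
      linearCombination L (fun i j => lmap φ (v i j)) q) :
    ∃ p q, (p ≠ 0 ∨ q ≠ 0) ∧ linearCombination k (fun i j => lmap ε (u i j)) p =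
      linearCombination k (fun i j => lmap ε (v i j)) q := by
  have key : ∀ (F : Type) [Field F] (ψ : B →+* F), LinearIndependent F (Sum.elim
      (fun i j => lmap ψ (u i j)) fun i j => lmap ψ (v i j)) ↔ LinearIndependent F
      fun i (s : Fin 2 × ℤ) => ψ ((Sum.elim u v i s.1).coeff s.2) := fun F _ ψ => by
    let co : GG F →ₗ[F] Fin 2 × ℤ → F := ⟨⟨fun x s => (x s.1).coeff s.2, fun _ _ => rfl⟩,
      fun _ _ => rfl⟩
    rw [← co.linearIndependent_iff_of_injOn fun x _ y _ h => by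
      ext j n; exact congrFun h (j, n)]
    congr! 1
    ext (i | i) s <;> rfl
  rw [← dep_iff, key] at h ⊢
  exact mt (indep_of_spec hφ ε) h

theorem lmap_lc {k L ι : Type} [Field k] [Field L] (φ : k →+* L) (f : ι → GG k) (p : ι →₀ k)
    (j : Fin 2) : lmap φ (linearCombination k f p j) =
      linearCombination L (fun i j => lmap φ (f i j)) (p.mapRange φ (map_zero φ)) j := by
  rw [linearCombination_apply, linearCombination_apply, sum_mapRange_index (by simp)]
  simp [Finsupp.sum, lmap_smul]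

theorem exists_lift {L : Type*} [Field L] {E : Subfield L} {x : Ser L} (h : x ∈ inS E.toSubring) :
    ∃ y : Ser E, lmap E.subtype y = x :=
  ⟨⟨fun n => ⟨x.coeff n, h n⟩, x.isPWO_support'.mono fun _ hn h =>
    hn (Subtype.ext h)⟩, rfl⟩

theorem Diag.Mor.dep {L : DF} {X : Diag L} {Z : GG L.L →ₗ[L.L] GG L.L} (h : X.Mor X Z) (a : Fin 2) :
    ∃ p q, (p ≠ 0 ∨ q ≠ 0) ∧ linearCombination L.L (fun k => X.D^[k] (Z (X.e a))) p =
      linearCombination L.L (fun i : Idx => X.D^[i.2] (X.e i.1)) q := by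
  obtain ⟨p, h1, q, h2⟩ := h.rat.exists_comb (fun k => X.D^[k] (Z (X.e a))) fun k =>
    ⟨_, ⟨bs (a, k), rfl⟩, by
      rw [X.ι_bs]; exact (Function.Semiconj.iterate_right (f := Z) h.hD k).eq _⟩
  exact ⟨p, q, Or.inl h1, h2.symm⟩

section

variable {L : Type*} [Field L] {d : Der L} {E : Subfield L}

theorem sder_mem (hE : ∀ a ∈ E, d a ∈ E) {x : Ser L} (h : x ∈ inS E.toSubring) :
    sder d x ∈ inS E.toSubring := fun n => hE _ (h n)

theorem cn_mem (hE : ∀ a ∈ E, d a ∈ E) {κ x : Ser L} (hκ : κ ∈ inS E.toSubring)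
    (h : x ∈ inS E.toSubring) : cn d κ x ∈ inS E.toSubring :=
  add_mem (sder_mem hE h) (mul_mem hκ h)

theorem cn_iter_mem (hE : ∀ a ∈ E, d a ∈ E) {κ x : Ser L} (hκ : κ ∈ inS E.toSubring)
    (h : x ∈ inS E.toSubring) (n : ℕ) : (cn d κ)^[n] x ∈ inS E.toSubring := by
  induction n with
  | zero => exact h
  | succ n ih => exact Function.iterate_succ_apply' (cn d κ) n x ▸ cn_mem hE hκ ih

theorem pole_self (c : L) : Pole c (C c * tt (-1)) := by simpa [Pole] using O.zero

variable [CharZero L]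

theorem mem_of_pde {t : Der L} (hdt : ∀ a, d (t a) = t (d a)) (hC : ∀ a, d a = 0 → a ∈ E) {x : L}
    (hx : d x = 1) (hx' : t x = 0) (hx0 : x ∈ E) {a b c : L} (ha : d a = 0) (hb : d b = 0)
    (hc : d c = 0) (h0 : c ≠ 0) {χ : Ser L} (h : sder t χ = C a * sder d (sder d χ) +
      C b * sder d χ + C c * (tt (-1) * sder d χ)) : χ ∈ inS E.toSubring := by
  let A := AddSubgroup.closure {y | ∃ (a : L) (n : ℕ), d a = 0 ∧ y = a * x ^ n}
  have h1 : ∀ {a : L} (n : ℕ), d a = 0 → a * x ^ n ∈ A := fun n h =>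
    AddSubgroup.subset_closure ⟨_, n, h, rfl⟩
  have h2 : ∀ f : L →+ L, (∀ a (n : ℕ), d a = 0 → f (a * x ^ n) ∈ A) → ∀ y ∈ A, f y ∈ A :=
    fun f hf => (AddSubgroup.closure_le (A.comap f)).2 (by
      rintro _ ⟨a, n, h, rfl⟩
      exact hf a n h)
  have hd := h2 d.toAddMonoidHom fun a n h => by
    simpa [d.mul', h, d.pow, hx, mul_assoc] using h1 (a := a * n) (n - 1) (by simp [d.mul', h])
  have ht := h2 t.toAddMonoidHom fun a n h => by
    simpa [t.mul', t.pow, hx', mul_comm] using h1 (a := t a) n (by simp [hdt, h])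
  have hm : ∀ {b : L}, d b = 0 → ∀ y ∈ A, b * y ∈ A := fun hb =>
    h2 (AddMonoidHom.mulLeft _) fun a n h => by
      simpa [mul_assoc] using h1 (a := _ * a) n (by simp [d.mul', h, hb])
  have h3 : A ≤ A.map d.toAddMonoidHom := (AddSubgroup.closure_le _).2 (by
    rintro _ ⟨a, n, h, rfl⟩
    have h4 : (n + 1 : L) ≠ 0 := Nat.cast_add_one_ne_zero n
    have h5 : d (a * (n + 1 : L)⁻¹) = 0 := by simp [d.mul', h, d.inv]
    refine ⟨_, h1 (n + 1) h5, ?_⟩
    rw [DerM.coe_hom, d.mul', h5, d.pow_succ]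
    simp [hx]
    field_simp)
  have h4 : ∀ n, χ.coeff n ∈ A := fun n => by
    obtain ⟨r, hr⟩ := exists_O χ
    rcases lt_or_ge n (r - 1) with h5 | h5
    · simp [hr n (by omega)]
    induction n, h5 using Int.leInduction with
    | base => simp [hr (r - 1) (by omega)]
    | succ n _ ih =>
      have h6 := congrArg (·.coeff n) h
      simp only [coeff_sder, coeff_add, coeff_C_mul, coeff_tt_mul, sub_neg_eq_add] at h6
      obtain ⟨z, h7, h8⟩ := h3 (hm (b := c⁻¹) (by simp [d.inv, hc]) _ (A.sub_mem (A.sub_mem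
        (ht _ ih) (hm ha _ (hd _ (hd _ ih)))) (hm hb _ (hd _ ih))))
      simp only [DerM.coe_hom] at h8
      simpa using A.add_mem (h1 (a := χ.coeff (n + 1) - z) 0 (by
        rw [map_sub, h8, h6]; field_simp; ring)) h7
  exact fun n => (AddSubgroup.closure_le E.toAddSubgroup).2 (by
    rintro _ ⟨a, n, h, rfl⟩
    exact E.mul_mem (hC a h) (pow_mem hx0 n)) (h4 n)

variable {Ψ : Ser L →ₗ[L] Ser L} {N : ℤ} (hN : ∀ k x, O k x → O (k - N) (Ψ x)) {c : L}
  (hc : c * c = 1) (hΨ : ∀ k, cn d (C c * tt (-1)) (Ψ (tt (k + 1))) = c • Ψ (tt k))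

include hΨ hc

omit [CharZero L] in
theorem scal_tt (h : sder d (Ψ 1) = 0) (k : ℤ) : Ψ (tt k) = tt k * Ψ 1 := by
  have h0 := left_ne_zero_of_mul_eq_one hc
  have h1 : ∀ k, cn d (C c * tt (-1)) (tt (k + 1) * Ψ 1) = c • (tt k * Ψ 1) := fun k => by
    rw [cn_apply, DerM.mul', h, sder_tt, ← C_mul, ← tt_succ k]
    ring
  induction k with
  | zero => simp [tt_zero]
  | succ k ih =>
    exact sub_eq_zero.1 ((pole_self c).eq_zero (d := d) h0 (by rw [map_sub, h1, hΨ, ih, sub_self]))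
  | pred k ih =>
    refine smul_right_injective _ h0 ?_
    simp only [← h1, ← hΨ, sub_add_cancel, ih]

include hN

omit [CharZero L] in
theorem scal_mem (hE : ∀ a ∈ E, d a ∈ E) (hcE : c ∈ E) (h1 : Ψ 1 ∈ inS E.toSubring) {f : Ser L}
    (hf : O 0 f) (hf' : f ∈ inS E.toSubring) : Ψ f ∈ inS E.toSubring := by
  have h0 := left_ne_zero_of_mul_eq_one hc
  have h2 : ∀ k, 0 ≤ k → Ψ (tt k) ∈ inS E.toSubring := fun k hk => by
    induction k, hk using Int.leInduction with
    | base => exact h1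
    | succ k _ ih =>
      obtain ⟨r, hr⟩ := exists_O (Ψ (tt (k + 1)))
      exact mem_of_tri (A := cn d (C c * tt (-1))) (d := -1) (fun _ _ => ⟨hcE, h0⟩)
        (fun _ _ _ hx => (pole_self c).lead hx) (fun _ _ _ ha => cn_mem hE
          (mul_mem (C_mem hcE) (tt_mem _)) (single_mem ha _)) hr (hΨ k ▸ smul_mem_inS hcE ih)
  intro n
  refine graded_ind (fun k f => O k f ∧ f ∈ inS E.toSubring) (E.toAddSubgroup.comap
    ((coeff.addMonoidHom n).comp Ψ.toAddMonoidHom)) (le_max_left 0 (n + N + 1)) ?_ ?_ f ⟨hf, hf'⟩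
  · rintro k hk f ⟨h3, h4⟩
    refine ⟨_, ?_, h3.sub_single, sub_mem h4 (single_mem (h4 k) k)⟩
    simpa [single_eq] using smul_mem_inS (h4 k) (h2 k hk) n
  · rintro f ⟨h3, -⟩
    simp [hN _ _ h3 n (by omega)]

theorem scal_rigid (hE : ∀ a ∈ E, d a ∈ E) (hcE : c ∈ E) (h1 : Ψ 1 ∈ inS E.toSubring)
    (h2 : sder d (Ψ 1) ≠ 0) {f χ : Ser L} (hf : O 0 f) (hf0 : f.coeff 0 ≠ 0)
    (hf1 : f.coeff 0 ∈ E) (hχ : χ ∈ inS E.toSubring) (h : Ψ f = f * χ) :
    f ∈ inS E.toSubring := by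
  have h0 := left_ne_zero_of_mul_eq_one hc
  obtain ⟨n, h3, h4⟩ := exists_lead h2
  have h5 : ∀ k, 0 ≤ k → O (k + (n + 1)) (Ψ (tt k) - tt k * Ψ 1) ∧
      (Ψ (tt k) - tt k * Ψ 1).coeff (k + (n + 1)) = -k * c * (sder d (Ψ 1)).coeff n :=
    fun k hk => by
    induction k, hk using Int.leInduction with
    | base => simpa [tt_zero] using O.zero
    | succ k _ ih =>
      have h6 : cn d (C c * tt (-1)) (Ψ (tt (k + 1)) - tt (k + 1) * Ψ 1) =
          c • (Ψ (tt k) - tt k * Ψ 1) - tt (k + 1) * sder d (Ψ 1) := by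
        rw [map_sub, hΨ, cn_apply, DerM.mul', sder_tt, ← C_mul, ← C_mul]
        linear_combination (-C c * Ψ 1) * tt_succ (R := L) k
      have h7 := (pole_self c).O_of_cn (d := d) h0 (h6 ▸ (ih.1.smul c).sub
        ((O_tt _).mul' h3 (by omega)))
      rw [add_right_comm] at h7
      refine ⟨h7, mul_left_cancel₀ h0 ?_⟩
      rw [← (pole_self c).lead (d := d) h7, h6, show k + 1 + (n + 1) - 1 = k + (n + 1) by ring,
        coeff_sub, HahnSeries.coeff_smul, ih.2, (O_tt _).lead' h3 (by ring)]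
      simp only [smul_eq_mul, coeff_tt]
      push_cast
      linear_combination (sder d (Ψ 1)).coeff n * hc
  have h6 : ∀ j, 0 ≤ j → ∀ f, O j f → O (j + (n + 1)) (Ψ f - f * Ψ 1) := fun j hj f hf m hm => by
    obtain ⟨r, hr⟩ := exists_O (Ψ 1)
    refine graded_ind O (AddMonoidHom.mk' (fun f => (Ψ f - f * Ψ 1).coeff m)
      (by simp [add_mul]; intros; ring)).ker (le_max_left j (m + max N (-r) + 1))
      (fun k hk f hf => ⟨_, ?_, hf.sub_single⟩) (fun f hf => ?_) f hf
    · rw [AddMonoidHom.mem_ker, AddMonoidHom.mk'_apply, single_eq, map_smul, ← C_mul, ← C_mul,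
        mul_assoc, ← mul_sub, coeff_C_mul, (h5 k (by omega)).1 m (by omega), mul_zero]
    · exact ((hN _ _ hf).mono (l := m + 1) (by omega)).sub (hf.mul' hr (by omega)) m (by omega)
  have h7 : O 1 (f - C (f.coeff 0)) := hf.sub_single
  have h8 : Ψ (C (f.coeff 0)) = C (f.coeff 0) * Ψ 1 := by
    rw [C_mul, ← map_smul, ← C_mul, mul_one]
  have h9 : O (n + 2) (χ - Ψ 1) := O_of_mul hf hf0 (by
    convert h6 1 zero_le_one _ h7 using 1
    · ring
    · rw [map_sub, h8, h]
      ring)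
  have := mem_of_tri (E := E) (A := Ψ.toAddMonoidHom - AddMonoidHom.mulRight χ) (d := n + 1)
    (r := 1) (α := fun k => -k * c * (sder d (Ψ 1)).coeff n) (fun k hk => ⟨mul_mem (mul_mem
      (neg_mem (intCast_mem E k)) hcE) (sder_mem hE h1 n),
        mul_ne_zero (by simpa [h0] using (by omega : k ≠ 0)) h4⟩)
    (fun k hk x hx => ?_) (fun k hk a ha => sub_mem (scal_mem hN hc hΨ hE hcE h1
      ((O_single k a).mono (by omega)) (single_mem ha k)) (mul_mem (single_mem ha k) hχ)) h7 ?_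
  · simpa using add_mem this (C_mem (E := E.toSubring) hf1)
  · have h10 := (h6 (k + 1) (by omega) _ hx.sub_single).sub ((hx.mul' h9 (by omega)))
      (k + (n + 1)) (by omega)
    rw [single_eq, map_sub, map_smul, ← C_mul, ← C_mul] at h10
    rw [← (h5 k (by omega)).2, mul_comm, ← coeff_C_mul, ← sub_eq_zero, ← coeff_sub, ← h10]
    congr 1
    simp only [AddMonoidHom.sub_apply, LinearMap.toAddMonoidHom_coe, AddMonoidHom.coe_mulRight]
    ring
  · convert mul_mem (C_mem (E := E.toSubring) hf1) (sub_mem hχ h1) using 1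
    simp only [AddMonoidHom.sub_apply, LinearMap.toAddMonoidHom_coe, AddMonoidHom.coe_mulRight,
      map_sub, h8, h]
    ring

end

theorem Diag.Mor.descend {L : DF} {X : Diag L} {Z : GG L.L →ₗ[L.L] GG L.L} (hZ : X.Mor X Z)
    {E : ℕ → Subfield L.L} (mono : Monotone E) (hE : ∀ n, ∀ a ∈ E n, L.d a ∈ E n)
    (hκ : ∀ j, X.κ j ∈ inS (E 0).toSubring) (he : ∀ a j, X.e a j ∈ inS (E 0).toSubring)
    {a : Fin 2} (h : ∀ j, Z (X.e a) j ∈ inS (⨆ n, E n).toSubring) :
    ∃ n, Z (X.e a) a ∈ inS (E n).toSubring := by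
  have h1 : ∀ {x}, x ∈ ⨆ n, E n ↔ ∃ n, x ∈ E n :=
    Subfield.mem_iSup_of_directed mono.directed_le
  have h2 : ∀ x ∈ ⨆ n, E n, L.d x ∈ ⨆ n, E n := fun x hx => by
    obtain ⟨n, hn⟩ := h1.1 hx
    exact h1.2 ⟨n, hE n x hn⟩
  have h3 : ∀ n, inS (E 0).toSubring ≤ inS (E n).toSubring := fun n => inS_mono (mono n.zero_le)
  have h4 : inS (E 0).toSubring ≤ inS (⨆ n, E n).toSubring := inS_mono (le_iSup E 0)
  choose u hu using fun k j => exists_lift (X.D_iter k _ j ▸ cn_iter_mem h2 (h4 (hκ j)) (h j) k)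
  choose v hv using fun (i : Idx) j =>
    exists_lift (X.D_iter i.2 _ j ▸ cn_iter_mem h2 (h4 (hκ j)) (h4 (he i.1 j)) i.2)
  obtain ⟨p, q, h5, h6⟩ := spec_dep (⨆ n, E n).subtype.injective (RingHom.id _) u v
    (by simpa only [hu, hv] using hZ.dep a)
  have h7 := funext fun j => (lmap_lc (⨆ n, E n).subtype _ p j).symm.trans
    ((congrArg (fun z => lmap _ (z j)) h6).trans (lmap_lc (⨆ n, E n).subtype _ q j))
  have h8 : ∀ x : Ser (⨆ n, E n : Subfield L.L), lmap (RingHom.id _) x = x := fun _ => rfl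
  simp only [h8, hu, hv] at h7
  set p' := p.mapRange (⨆ n, E n).subtype (map_zero _) with hp
  set q' := q.mapRange (⨆ n, E n).subtype (map_zero _) with hq
  have h9 : p' ≠ 0 := fun h0 => by
    have h9 := X.ι_eq_zero (h7.symm.trans (by rw [h0, map_zero]))
    refine h5.elim (fun h => h ?_) fun h => h ?_
    · ext i
      simpa [p'] using DFunLike.congr_fun h0 i
    · ext i
      simpa [q'] using DFunLike.congr_fun h9 i
  choose f hf using fun i => h1.1 (p i).2
  choose g hg using fun i => h1.1 (q i).2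
  let n := p'.support.sup f ⊔ q'.support.sup g
  have h10 : ∀ i ∈ p'.support, p' i ∈ E n := fun i hi =>
    mono ((le_sup hi).trans le_sup_left) (hf i)
  have h11 : ∀ i ∈ q'.support, q' i ∈ E n := fun i hi =>
    mono ((le_sup hi).trans le_sup_right) (hg i)
  obtain ⟨m, h12, h13⟩ := p'.support.exists_max_image id (Finsupp.support_nonempty_iff.2 h9)
  obtain ⟨r, hr⟩ := exists_O (Z (X.e a) a)
  refine ⟨n, mem_of_tri (A := pcn L.d (X.κ a) p') (d := -m) (fun _ _ => ⟨mul_mem (h10 m h12)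
    (pow_mem ((X.hκ a).coeff ▸ h3 n (hκ a) (-1)) m), mul_ne_zero (mem_support_iff.1 h12)
    (pow_ne_zero m (X.hc a))⟩) (fun _ _ _ hx => (X.hκ a).pcn_lead h12 h13 hx)
    (fun k _ b hb => sum_mem fun i hi => smul_mem_inS (h10 i hi)
      (cn_iter_mem (hE n) (h3 n (hκ a)) (single_mem hb k) i)) hr ?_⟩
  convert sum_mem (S := inS (E n).toSubring) fun i hi => smul_mem_inS (h11 i hi)
    (cn_iter_mem (hE n) (h3 n (hκ a)) (h3 n (he i.1 a)) i.2) using 1
  simpa [linearCombination_apply, Finsupp.sum, X.D_iter, pcn] using congrFun h7 a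

theorem Diag.Mor.rigid {L : DF} {X : Diag L} {Z : GG L.L →ₗ[L.L] GG L.L} (hZ : X.Mor X Z)
    {E : ℕ → Subfield L.L} (mono : Monotone E) (hE : ∀ n, ∀ a ∈ E n, L.d a ∈ E n)
    (hC : ∀ a, L.d a = 0 → a ∈ E 0) {x : L.L} (hx : L.d x = 1) (hx' : L.t x = 0) (hx0 : x ∈ E 0)
    (hκ : ∀ j, X.κ j ∈ inS (E 0).toSubring) (he : ∀ a j, X.e a j ∈ inS (E 0).toSubring)
    (hc : ∀ j, X.c j * X.c j = 1) (hε : ∀ j, (X.ω j).coeff (-2) = -X.c j)
    (hε' : ∀ j a, j ≠ a → X.c j ≠ X.c a) {h : GG L.L} (h1 : ∀ j, O 1 (h j - 1))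
    (h2 : ∀ j, h j ∈ inS (⨆ n, E n).toSubring) {k l o : Fin 2 → L.L} (hl : ∀ j, L.d (l j) = 0)
    (h3 : ∀ j, cn L.d (X.κ j) (h j) = (C (X.c j) * tt (-1) + C (k j)) * h j)
    (h4 : ∀ j, cn L.t (X.ω j) (h j) = (C (-X.c j) * tt (-2) + C (l j) * tt (-1) + C (o j)) * h j)
    (h5 : ∀ n j, h j ∉ inS (E n).toSubring) : ∃ χ : GG L.L, ∀ y, Z y = χ * y := by
  have hc0 : ∀ j, L.d (X.c j) = 0 := fun j => by
    have := congrArg L.d (hc j)
    rw [L.d.mul', L.d.one, ← two_mul] at this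
    simpa [X.hc] using this
  have h6 : ∀ j, O 0 (h j) ∧ (h j).coeff 0 = 1 := fun j =>
    ⟨by simpa [tt_zero] using ((h1 j).mono zero_le_one).add (O_tt 0), by
      simpa [sub_eq_zero] using h1 j 0 one_pos⟩
  have h7 : ∀ j, h j ≠ 0 := fun j h0 => by simpa [h0] using (h6 j).2
  let β : ℤ → Fin 2 → GG L.L := fun n a => Pi.single a (h a * tt n)
  have hβ : ∀ n a, Lead n a (β n a) := fun n a => ⟨fun j => by
    rcases eq_or_ne j a with rfl | hj
    · simpa [β] using (h6 j).1.mul (O_tt n)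
    · simpa [β, hj] using O.zero, fun j => by
    rcases eq_or_ne j a with rfl | hj
    · simp [β, (h6 j).1.lead' (O_tt n) (zero_add n).symm, (h6 j).2]
    · simp [β, hj]⟩
  have hD : ∀ n a j, cn L.d (X.κ j - C (k a)) (Z (β (n + 1) a) j) = X.c a • Z (β n a) j :=
    fun n a j => by
      have h8 : X.D (β (n + 1) a) = X.c a • β n a + k a • β (n + 1) a := funext fun j => by
        rcases eq_or_ne j a with rfl | hj
        · simp only [X.D_apply, β, Pi.single_eq_same, Pi.add_apply, Pi.smul_apply, ← C_mul,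
            mul_comm (h j), cn_mul, h3, sder_tt, ← tt_succ n]
          ring
        · simp [X.D_apply, β, hj]
      have h9 := congrFun (hZ.hD (β (n + 1) a)) j
      simp only [h8, map_add, map_smul, X.D_apply, Pi.add_apply, Pi.smul_apply, ← C_mul,
        cn_apply] at h9 ⊢
      linear_combination -h9
  have hT : ∀ a j, cn L.t (X.ω j) (Z (β 0 a) j) =
      (-X.c a) • Z (β (-2) a) j + l a • Z (β (-1) a) j + o a • Z (β 0 a) j := fun a j => by
    have h8 : X.T (β 0 a) = (-X.c a) • β (-2) a + l a • β (-1) a + o a • β 0 a :=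
      funext fun j => by
        rcases eq_or_ne j a with rfl | hj
        · simp only [X.T_apply, β, Pi.single_eq_same, Pi.add_apply, Pi.smul_apply, ← C_mul,
            h4, tt_zero, mul_one]
          ring
        · simp [X.T_apply, β, hj]
    simpa only [h8, map_add, map_smul, X.T_apply, Pi.add_apply, Pi.smul_apply, eq_comm] using
      congrFun (hZ.hT (β 0 a)) j
  have hP : ∀ a j, Pole (X.c j) (X.κ j - C (k a)) := fun a j => by
    simpa only [Pole, sub_right_comm] using O.sub (X.hκ j) (O_C (k a))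
  have hoff : ∀ a j, j ≠ a → ∀ n, Z (β n a) j = 0 := fun a j hj n => by
    have h8 : Z (β 0 a) j = 0 := eq_zero_of_O' fun m hm => by
      have a1 := hD (-1) a j
      have a2 := hD (-2) a j
      rw [show (-1 : ℤ) + 1 = 0 from rfl] at a1
      rw [show (-2 : ℤ) + 1 = -1 from rfl] at a2
      have a3 : O (m - 1) (Z (β (-1) a) j) := by
        have := (hm.cn (d := L.d) (hP a j).O_neg zero_le_one).smul (X.c a)
        rwa [a1, smul_smul, hc, one_smul] at this
      have a4 := (hP a j).lead (d := L.d) hm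
      have a5 := (hP a j).lead (d := L.d) a3
      have a6 := cn_lead (d := L.t) hm (X.hω j) two_pos
      rw [a1] at a4
      rw [a2, show m - 1 - 1 = m - 2 by ring] at a5
      simp only [hT, hε, coeff_add, HahnSeries.coeff_smul, a3 (m - 2) (by omega),
        hm (m - 2) (by omega), smul_eq_mul] at a4 a5 a6
      refine (mul_eq_zero.1 ?_).resolve_left (sub_ne_zero.2 (hε' j a hj))
      linear_combination a6 + a5 + X.c j * X.c a * a4 +
        (X.c a * (Z (β 0 a) j).coeff m) * hc j - X.c j * (Z (β (-1) a) j).coeff (m - 1) * hc a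
    induction n with
    | zero => exact h8
    | succ n ih => exact (hP a j).eq_zero (X.hc j) (by rw [hD, ih, smul_zero])
    | pred n ih =>
      have := hD (-n - 1) a j
      rw [sub_add_cancel, ih, map_zero, ← C_mul] at this
      exact (mul_eq_zero.1 this.symm).resolve_left (by simp [X.hc])
  obtain ⟨N, hN⟩ := hZ.bdd
  let Ψ : Fin 2 → Ser L.L →ₗ[L.L] Ser L.L := fun a =>
    { toFun := fun f => (h a)⁻¹ * Z (Pi.single a (h a * f)) a
      map_add' := fun f g => by simp [mul_add, Pi.single_add]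
      map_smul' := fun c f => by
        rw [← C_mul, mul_left_comm, C_mul, Pi.single_smul, map_smul, Pi.smul_apply, ← C_mul,
          mul_left_comm, C_mul, RingHom.id_apply] }
  have hΨ : ∀ a f, h a * Ψ a f = Z (Pi.single a (h a * f)) a := fun a f =>
    mul_inv_cancel_left₀ (h7 a) _
  have hΨN : ∀ a k f, O k f → O (k - N) (Ψ a f) := fun a k f hf =>
    O_of_mul (h6 a).1 (by simp [h6]) (by
      rw [hΨ, zero_add]
      refine hN k _ (fun j => ?_) a
      rcases eq_or_ne j a with rfl | hj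
      · simpa using (h6 j).1.mul hf
      · simpa [hj] using O.zero)
  have hΨD : ∀ a n, cn L.d (C (X.c a) * tt (-1)) (Ψ a (tt (n + 1))) = X.c a • Ψ a (tt n) :=
    fun a n => mul_left_cancel₀ (h7 a) (by
      have h8 := hD n a a
      have h9 := h3 a
      simp only [β, ← hΨ, ← C_mul, cn_apply, DerM.mul'] at h8 h9 ⊢
      linear_combination h8 - Ψ a (tt (n + 1)) * h9)
  have hχ : ∀ a, Ψ a 1 ∈ inS (E 0).toSubring := fun a => by
    refine mem_of_pde L.comm hC hx hx' hx0 (a := -X.c a) (b := l a * X.c a) (c := -2)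
      (by simp [hc0]) (by simp [L.d.mul', hc0, hl]) (by simp) (by simp) (mul_left_cancel₀ (h7 a) ?_)
    have a1 := hΨD a (-1)
    have a2 := hΨD a (-2)
    have a3 := hT a a
    have a4 := h4 a
    have a5 : (C (X.c a) : Ser L.L) * C (X.c a) = 1 := by rw [← map_mul, hc, map_one]
    have a6 := congrArg (sder L.d) a1
    have a7 : (tt (-1) * tt (-1) : Ser L.L) = tt (-2) := tt_mul _ _
    simp only [β, ← hΨ, ← C_mul, cn_apply, DerM.mul', neg_add_cancel, tt_zero, map_add, sder_C,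
      hc0, sder_tt, map_zero, map_neg, map_mul, map_ofNat, show (-2 : ℤ) + 1 = -1 from rfl]
      at a1 a2 a3 a4 a6 ⊢
    grind
  have hdiag : ∀ y j, Z y j = Z (Pi.single j (y j)) j := fun y j => by
    let P : GG L.L →ₗ[L.L] GG L.L := (LinearMap.single _ _ j).comp (LinearMap.proj j)
    have hPb : Bdd P := ⟨0, fun k x hx i => by
      rcases eq_or_ne i j with rfl | hi
      · simpa [P] using hx i
      · simpa [P, hi] using O.zero⟩
    have := Bdd.eq_zero (Ψ := P.comp (Z - Z.comp P)) (hPb.comp (hZ.bdd.sub (hZ.bdd.comp hPb))) hβ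
      (fun n a => by
        rcases eq_or_ne j a with rfl | hj
        · simp [P, β]
        · simpa [P, β, hj] using hoff a j hj n) y
    simpa [P, sub_eq_zero] using congrFun this j
  have h4' : inS (E 0).toSubring ≤ inS (⨆ n, E n).toSubring := inS_mono (le_iSup E 0)
  have hE' : ∀ x ∈ ⨆ n, E n, L.d x ∈ ⨆ n, E n := fun x hx => by
    obtain ⟨n, hn⟩ := (Subfield.mem_iSup_of_directed mono.directed_le).1 hx
    exact le_iSup E n (hE n x hn)
  have hcE : ∀ j, X.c j ∈ E 0 := fun j => hC _ (hc0 j)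
  have hf : ∀ a j, h j * ((h j)⁻¹ * X.e a j) = X.e a j := fun a j => mul_inv_cancel_left₀ (h7 j) _
  have hf0 : ∀ a j, O 0 ((h j)⁻¹ * X.e a j) := fun a j =>
    O_of_mul (h6 j).1 (by simp [h6]) (by rw [hf]; exact (X.he a).1 j)
  have key : ∀ a, sder L.d (Ψ a 1) = 0 := fun a => by
    by_contra h0
    obtain ⟨n, hn⟩ := hZ.descend mono hE hκ he (a := a) fun j => by
      rw [hdiag, ← hf, ← hΨ]
      exact mul_mem (h2 j) (scal_mem (hΨN j) (hc j) (hΨD j) hE' (le_iSup E 0 (hcE j)) (h4' (hχ j))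
        (hf0 a j) (mem_of_mul (h2 j) (h7 j) (by rw [hf]; exact h4' (he a j))))
    have a1 : inS (E 0).toSubring ≤ inS (E n).toSubring := inS_mono (mono n.zero_le)
    have a2 : ((h a)⁻¹ * X.e a a).coeff 0 = (X.e a a).coeff 0 := by
      simpa [hf, h6] using ((h6 a).1.lead (hf0 a a)).symm
    have a3 : (X.e a a).coeff 0 ≠ 0 := by simp [(X.he a).2]
    have a4 : X.e a a ≠ 0 := fun h => by simp [h] at a3
    have a5 := scal_rigid (E := E n) (hΨN a) (hc a) (hΨD a) (hE n) (mono n.zero_le (hcE a))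
      (a1 (hχ a)) h0 (hf0 a a) (a2 ▸ a3) (a2 ▸ a1 (he a a) 0)
      (χ := (X.e a a)⁻¹ * Z (X.e a) a) (mem_of_mul (a1 (he a a)) a4
        (by rwa [mul_inv_cancel_left₀ a4])) (mul_left_cancel₀ (h7 a) (by
          rw [hΨ, hf, ← mul_assoc, hf, mul_inv_cancel_left₀ a4, ← hdiag]))
    exact h5 n a (mem_of_mul a5 (mul_ne_zero (inv_ne_zero (h7 a)) a4)
      (by rw [mul_comm, hf]; exact a1 (he a a)))
  let M : GG L.L →ₗ[L.L] GG L.L := ⟨⟨fun y => (fun a => Ψ a 1) * y, mul_add _⟩, fun c y =>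
    funext fun j => by simp only [Pi.mul_apply, Pi.smul_apply, ← C_mul, RingHom.id_apply]; ring⟩
  refine ⟨fun a => Ψ a 1, fun y => sub_eq_zero.1 (Bdd.eq_zero (Ψ := Z - M)
    (hZ.bdd.sub (Bdd.mul _)) hβ (fun n a => sub_eq_zero.2 (funext fun j => ?_)) y)⟩
  change _ = Ψ j 1 * β n a j
  rcases eq_or_ne j a with rfl | hj
  · simp only [β, ← hΨ, scal_tt (hc j) (hΨD j) (key j), Pi.single_eq_same]
    ring
  · simp [hoff a j hj, β, hj]

end Pool.Agent.Lib.MP_dfc315_mp
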