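import Mathlib
import Pool.Agent.Lib.MP_dfc315_mp.Rat
import Pool.Agent.Lib.MP_dfc315_mp.Rigid
import Pool.Agent.Lib.MP_dfc315_mp.Ostro

set_option autoImplicit false

namespace Pool.Agent.Lib.MP_dfc315_mp

open HahnSeries

attribute [-simp] HahnSeries.C_apply

theorem exists_der_loc {R S : Type*} [CommRing R] [CommRing S] [Algebra R S] (M : Submonoid R)
    [IsLocalization M S] (d : DerM (algebraMap R S) S) :
    ∃ e : Der S, ∀ a, e (algebraMap R S a) = d a := by
  have hu : ∀ y : M, IsUnit (d.toHom y) := fun y => by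
    rw [TrivSqZeroExt.isUnit_iff_isUnit_fst]
    exact IsLocalization.map_units S y
  have h : (TrivSqZeroExt.fstHom S S S).toRingHom.comp (IsLocalization.lift (S := S) hu) =
      RingHom.id S := by
    refine IsLocalization.ringHom_ext M ?_
    ext a
    simp
  exact ⟨DerM.ofHom (IsLocalization.lift (S := S) hu) fun a => RingHom.congr_fun h a,
    fun a => by simp⟩

theorem der_loc_zero {R S L : Type*} [CommRing R] [CommRing S] [Algebra R S] (M : Submonoid R)
    [IsLocalization M S] [CommRing L] {φ : S →+* L} (d : DerM φ L)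
    (h : ∀ a, d (algebraMap R S a) = 0) (x : S) : d x = 0 := by
  obtain ⟨⟨a, b⟩, hx⟩ := IsLocalization.surj M x
  have := congrArg d hx
  rw [d.mul, h, h, smul_zero, zero_add, smul_eq_mul] at this
  exact ((IsLocalization.map_units S b).map φ).mul_right_eq_zero.1 this

/-- The zero derivation. -/
def Der.zero (R : Type*) [CommRing R] : Der R := ⟨0, by simp⟩

open MvPolynomial in
theorem exists_spec {L : Type} [Field L] (d : Der L) {x : Idx → L}
    (hx : ∀ a i, d (x (a, i)) = x (a, i + 1)) (hu : x (0, 0) + x (1, 0) ≠ 0)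
    (hi : Function.Injective (aeval x : MvPolynomial Idx d.ker →ₐ[_] L)) :
    ∃ (Γ : Type) (_ : CommRing Γ) (φ : Γ →+* L) (ε : Γ →+* d.ker) (ι : d.ker →+* Γ) (e : Der Γ)
      (y : Idx → Γ) (g : Γ), Function.Injective φ ∧ (∀ a, d (φ a) = φ (e a)) ∧
      (∀ a, ε (e a) = 0) ∧ φ ∘ y = x ∧ (∀ c, φ (ι c) = c) ∧ (∀ c, ε (ι c) = c) ∧
      g * (y (0, 0) + y (1, 0)) = 1 := by
  let r : MvPolynomial Idx d.ker := X (0, 0) + X (1, 0)
  let Γ := Localization.Away r
  obtain ⟨φ₀, a1, a2, a3⟩ : ∃ φ₀ : MvPolynomial Idx d.ker →+* L, Function.Injective φ₀ ∧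
      (∀ i, φ₀ (X i) = x i) ∧ ∀ c, φ₀ (C c) = c := ⟨_, hi, aeval_X x, aeval_C x⟩
  let ε₀ : MvPolynomial Idx d.ker →+* d.ker := eval fun i => if i = (1, 0) then 1 else 0
  have h1 : IsUnit (φ₀ r) := by simpa [a2, r] using hu
  have h2 : IsUnit (ε₀ r) := by simp [ε₀, r]
  let φ : Γ →+* L := IsLocalization.Away.lift r h1
  let ε : Γ →+* d.ker := IsLocalization.Away.lift r h2
  have h3 : ∀ a, φ (algebraMap (MvPolynomial Idx d.ker) Γ a) = φ₀ a :=
    IsLocalization.Away.lift_eq r h1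
  have h4 : ∀ a, ε (algebraMap (MvPolynomial Idx d.ker) Γ a) = ε₀ a :=
    IsLocalization.Away.lift_eq r h2
  obtain ⟨e₀, h5, h6⟩ := exists_der_mvPoly (Der.zero d.ker) fun i : Idx => X (i.1, i.2 + 1)
  replace h5 : ∀ a, e₀ (C a) = 0 := fun a => (h5 a).trans (map_zero _)
  obtain ⟨e, h7⟩ := exists_der_loc (.powers r) (e₀.map (algebraMap _ Γ))
  refine ⟨Γ, inferInstance, φ, ε, (algebraMap _ Γ).comp C, e,
    fun i => algebraMap (MvPolynomial Idx d.ker) Γ (X i),
    IsLocalization.Away.invSelf r, IsLocalization.injective_of_map_algebraMap_zero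
    (M := .powers r) Γ φ fun a ha => ?_, fun a => sub_eq_zero.1 (der_loc_zero (.powers r)
      ((d.comap φ).sub (e.map φ)) (fun a => ?_) a), der_loc_zero (.powers r) (e.map ε) fun a => ?_,
    funext fun i => by simp [h3, a2], fun c => (h3 _).trans (a3 c),
    fun c => (h4 _).trans (eval_C c), ?_⟩
  · rw [a1 ((h3 a).symm.trans ha |>.trans (map_zero _).symm), map_zero]
  · simp only [DerM.sub_apply, DerM.comap_apply, DerM.map_apply, h3, h7]
    exact der_mvPoly_zero ((d.comap φ₀).sub (e₀.map φ₀))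
      (fun c => by simpa [h5, a3] using d.mem_ker.1 c.2) (fun i => by simp [h6, a2, ← hx]) a
  · simp only [DerM.map_apply, h4, h7]
    exact der_mvPoly_zero (e₀.map ε₀) (fun c => by simp [h5]) (fun i => by simp [h6, ε₀]) a
  · rw [← map_add, mul_comm]
    exact IsLocalization.Away.mul_invSelf r

theorem cn_zero {R : Type*} [CommRing R] (κ x : Ser R) (n : ℕ) :
    (cn (Der.zero R) κ)^[n] x = κ ^ n * x := by
  induction n with
  | zero => simp
  | succ n ih =>
    rw [Function.iterate_succ_apply', ih, cn_apply, pow_succ', mul_assoc, add_eq_right]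
    rfl

theorem lmap_cn {R R' : Type*} [CommRing R] [CommRing R'] {d : Der R} {e : Der R'} {φ : R →+* R'}
    (h : ∀ a, e (φ a) = φ (d a)) (κ x : Ser R) (n : ℕ) :
    lmap φ ((cn d κ)^[n] x) = (cn e (lmap φ κ))^[n] (lmap φ x) :=
  (Function.Semiconj.iterate_right (fun x => by simp [cn_apply, sder_lmap h]) n).eq x

theorem Pole.sum_ne {k : Type*} [Field k] {c : k} {τ : Ser k} (h : Pole c τ) (hc : c ≠ 0)
    {p : ℕ →₀ k} (hp : p ≠ 0) : ∑ i ∈ p.support, C (p i) * τ ^ i ≠ 0 := fun h0 => by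
  obtain ⟨n, h3, h4⟩ := p.support.exists_max_image id (Finsupp.support_nonempty_iff.2 hp)
  have h5 : pcn (Der.zero k) τ p 1 = 0 := by simpa [pcn, cn_zero, C_mul] using h0
  have := h.pcn_lead (d := Der.zero k) h3 h4 (O_tt 0)
  simp [tt_zero, h5, hc, Finsupp.mem_support_iff.1 h3] at this

theorem spec_id {k A : Type*} [CommRing k] [CommRing A] (φ : k →+* A) {x : Idx → k} {g : k}
    (hg : g * (x (0, 0) + x (1, 0)) = 1) (c : Fin 5 → k) : ∃ α m n : k, ∀ (s κ : A) (η : Q A),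
      κ • η = Bm s (φ ∘ c) (br (SS (φ ∘ x) (φ g)) η) →
      (κ + (s + φ α)) * ee (φ ∘ x) η 0 = φ m * ee (φ ∘ x) η 1 ∧
        (s + φ α - κ) * ee (φ ∘ x) η 1 = φ n * ee (φ ∘ x) η 0 := by
  refine ⟨g ^ 2 * ev (x (0, 0)) (Bm 0 c (sq (-x (1, 0)))),
    -(g ^ 2 * ev (x (0, 0)) (Bm 0 c (sq (x (0, 0))))),
    -(g ^ 2 * ev (-x (1, 0)) (Bm 0 c (sq (-x (1, 0))))), fun s κ η h => ?_⟩
  have h3 := congrArg φ hg
  rw [add_mul, sub_mul, ← ee_smul _ κ, ← ee_smul _ κ, h]
  simp [ee, ev_apply, SS, map_ofNat] at h3 ⊢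
  constructor <;> grind

theorem elliptic_ser {k : Type*} [Field k] [CharZero k] {κ : Ser k} {e : Fin 2 → Ser k}
    (hκ : Pole (-1) κ) (ha : e 0 ≠ 0) {α m n : k} (h1 : (κ + (tt (-1) + C α)) * e 0 = C m * e 1)
    (h2 : (tt (-1) + C α - κ) * e 1 = C n * e 0) {F G : Ser k}
    (h : ∀ f ∈ ({F, G} : Set (Ser k)), ∃ (p : ℕ →₀ k) (q : Idx →₀ k), p ≠ 0 ∧
      (∑ i ∈ p.support, C (p i) * κ ^ i) * f * e 0 =
        ∑ i ∈ q.support, C (q i) * κ ^ i.2 * e i.1) (h3 : G ^ 2 = F ^ 3 - 4 * F) : ∃ c, F = C c := by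
  let := (C : k →+* Ser k).toAlgebra
  have : CharZero (Ser k) := algebraRat.charZero _
  set τ := tt (-1) + C α - κ with hτ
  have h4 : Pole 2 τ := by
    rw [Pole, map_ofNat]
    convert (O_C α).sub hκ using 1
    rw [map_neg, map_one]
    ring
  have h5 : Transcendental k τ := fun ⟨p, hp, h0⟩ => h4.sum_ne two_ne_zero
    (p := ⟨p.support, p.coeff, fun _ => Polynomial.mem_support_iff⟩)
    (fun h => hp (Polynomial.ext fun i => DFunLike.congr_fun h i)) (by
      rw [Polynomial.aeval_def, Polynomial.eval₂_eq_sum] at h0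
      exact h0)
  have h6 : τ ≠ 0 := fun h => h5 (h ▸ isAlgebraic_zero)
  let M := IntermediateField.adjoin k {τ}
  have h7 : τ ∈ M := IntermediateField.mem_adjoin_simple_self k τ
  have h8 : ∀ c, C c ∈ M := M.algebraMap_mem
  have h9 : κ ∈ M := by
    convert div_mem (sub_mem (div_mem (mul_mem (h8 m) (h8 n)) h7) h7) (ofNat_mem M 2)
    field_simp
    refine mul_right_cancel₀ ha ?_
    linear_combination τ * h1 + C m * h2 + τ * e 0 * hτ
  have h10 : ∀ i, e i / e 0 ∈ M := Fin.forall_fin_two.2 ⟨div_self ha ▸ one_mem M, by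
    convert div_mem (h8 n) h7 using 1
    field_simp
    linear_combination h2⟩
  have h11 : ∀ f ∈ ({F, G} : Set (Ser k)), f ∈ M := fun f hf => by
    obtain ⟨p, q, a1, a2⟩ := h f hf
    have a3 := hκ.sum_ne (by simp) a1
    convert div_mem (sum_mem (t := q.support) fun i _ => mul_mem (mul_mem (h8 (q i))
      (pow_mem h9 i.2)) (h10 i.1)) (sum_mem (t := p.support) fun i _ => mul_mem (h8 (p i))
      (pow_mem h9 i))
    simp only [← mul_div_assoc, ← Finset.sum_div, ← a2]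
    field_simp
  exact elliptic_const h5 (h11 F (by simp)) (h11 G (by simp)) h3

end Pool.Agent.Lib.MP_dfc315_mp
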