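import Mathlib
import Pool.Agent.Lib.MP_dfc315_mp.Spec
import Pool.Agent.Lib.MP_dfc315_mp.H72Heat

set_option autoImplicit false

namespace Pool.Agent.Lib.MP_dfc315_mp

open Finset HahnSeries

attribute [-simp] HahnSeries.C_apply

section

variable {R R' : Type*} [CommRing R] [CommRing R'] {d : Der R} {k r : ℤ} {x y : Ser R}

/-- The total derivative acting on symbols. -/
noncomputable def DS (d : Der R) : Ser R →+ Ser R := cn d (tt (-1))

theorem DS_conn (d : Der R) : IsConn d (DS d) := cn_smul d _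

theorem O.DS (hx : O k x) : O (k - 1) (DS d x) := hx.cn (O_tt (-1)) zero_le_one

theorem DS_lead (hx : O k x) : (DS d x).coeff (k - 1) = x.coeff k := by
  rw [DS, cn_lead hx (O_tt (-1)) one_pos, coeff_tt, one_mul]

theorem O_of_DS (hx : O k (DS d x)) : O (k + 1) x :=
  O_of_lead' fun l hl h1 => by rw [← DS_lead (d := d) h1, hx (l - 1) (by omega)]

theorem DS_tt (k : ℤ) : DS d (tt (k + 1)) = tt k := by
  rw [DS, cn_apply, sder_tt, zero_add, tt_succ]

theorem DS_bij (d : Der R) : Function.Bijective (DS d) := by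
  refine ⟨(injective_iff_map_eq_zero _).2 fun x hx => ?_, fun y => ?_⟩
  · ext n
    exact O_of_DS (hx ▸ O.zero) n (lt_add_one n)
  obtain ⟨r, hr⟩ := exists_O y
  obtain ⟨x, -, hx⟩ := exists_fix' r (fun x => tt 1 * (y - sder d x))
    (fun x hx => (O_tt 1).mul' (hr.sub (hx.sder d)) (by omega)) fun k x y _ _ hx => by
      rw [← mul_sub, sub_sub_sub_cancel_left, ← map_sub]
      exact (O_tt 1).mul' (O.sder (by simpa using hx.neg) d) (by omega)
  refine ⟨x, ?_⟩
  rw [DS, cn_apply]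
  linear_combination (-tt (-1)) * hx + (y - sder d x) * tt_inv (R := R)

/-- The two-sided orbit. -/
noncomputable def orbS (d : Der R) (x : Ser R) (k : ℤ) : Ser R :=
  ((Equiv.ofBijective _ (DS_bij d) : Equiv.Perm (Ser R)) ^ (-k)) x

theorem DS_orb (x : Ser R) (k : ℤ) : DS d (orbS d x (k + 1)) = orbS d x k := by
  rw [orbS, orbS, show -k = 1 + -(k + 1) by ring, zpow_one_add]
  rfl

theorem orb_lead (hx : O r x) (k : ℤ) :
    O (k + r) (orbS d x k) ∧ (orbS d x k).coeff (k + r) = x.coeff r := by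
  induction k with
  | zero => rw [zero_add]; exact ⟨hx, rfl⟩
  | succ k ih =>
    rw [← DS_orb] at ih
    have := O_of_DS ih.1
    rw [add_right_comm] at this
    exact ⟨this, by rw [← DS_lead (d := d) this, ← ih.2]; congr 1; ring⟩
  | pred k ih =>
    rw [← DS_orb, sub_add_cancel, sub_add_eq_add_sub]
    exact ⟨ih.1.DS, (DS_lead ih.1).trans ih.2⟩

theorem cmp_aux (hy : O r y) (hx : O k x) (n : ℤ) :
    ∑ᶠ j, x.coeff j * (orbS d y j).coeff n = ∑ j ∈ Icc k (n - r), x.coeff j * (orbS d y j).coeff n :=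
  finsum_eq_sum_of_support_subset _ fun j hj => by
    by_contra h1
    rcases lt_or_ge j k with h2 | h2
    · simp [hx j h2] at hj
    · simp [(orb_lead (d := d) hy j).1 n (by simp at h1; omega)] at hj

/-- Composition of symbols. -/
noncomputable def cmp (d : Der R) (y : Ser R) : Ser R →ₗ[R] Ser R where
  toFun x := ofSuppBddBelow (fun n => ∑ᶠ j, x.coeff j * (orbS d y j).coeff n) (by
    obtain ⟨r, hr⟩ := exists_O y
    obtain ⟨k, hk⟩ := exists_O x
    exact ⟨k + r, fun n hn => not_lt.1 fun h1 => hn ((cmp_aux hr hk n).trans (by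
      rw [Icc_eq_empty (by omega), sum_empty]))⟩)
  map_add' x x' := by
    obtain ⟨r, hr⟩ := exists_O y
    obtain ⟨k, hk⟩ := exists_OV ![x, x']
    ext n
    simp only [coeff_ofSuppBddBelow, coeff_add]
    have h0 : O k x := hk 0
    have h1 : O k x' := hk 1
    rw [cmp_aux hr h0, cmp_aux hr h1, ← sum_add_distrib]
    simpa [add_mul] using cmp_aux (d := d) hr (h0.add h1) n
  map_smul' c x := by
    obtain ⟨r, hr⟩ := exists_O y
    obtain ⟨k, hk⟩ := exists_O x
    ext n
    simp only [coeff_ofSuppBddBelow, coeff_smul, RingHom.id_apply, smul_eq_mul]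
    rw [cmp_aux hr hk, mul_sum]
    simpa [mul_assoc] using cmp_aux (d := d) hr (hk.smul c) n

theorem coeff_cmp (hy : O r y) (hx : O k x) (n : ℤ) :
    (cmp d y x).coeff n = ∑ j ∈ Icc k (n - r), x.coeff j * (orbS d y j).coeff n :=
  cmp_aux hy hx n

theorem O.cmp (hy : O r y) (hx : O k x) : O (k + r) (cmp d y x) := fun n hn => by
  rw [coeff_cmp hy hx, Icc_eq_empty (by omega), sum_empty]

theorem cmp_lead (hy : O r y) (hx : O k x) : (cmp d y x).coeff (k + r) = x.coeff k * y.coeff r := by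
  simp [coeff_cmp hy hx, (orb_lead hy k).2]

theorem cmp_tt (y : Ser R) (k : ℤ) : cmp d y (tt k) = orbS d y k := by
  obtain ⟨r, hr⟩ := exists_O y
  ext n
  rw [coeff_cmp hr (O_tt k), sum_eq_single k]
  · simp
  · intro l _ hl
    simp [tt, coeff_single_of_ne hl]
  · intro hk
    simp [(orb_lead (d := d) hr k).1 n (by simp at hk; omega)]

theorem cmp_one (y : Ser R) : cmp d y 1 = y := cmp_tt y 0

theorem ext_tt {φ : R →+* R'} {G : Ser R →+ Ser R'} (h1 : ∀ a x, G (a • x) = φ a • G x)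
    (h2 : ∀ k x, O k x → O (k + r) (G x)) (h3 : ∀ k, G (tt k) = 0) (x : Ser R) : G x = 0 := by
  obtain ⟨k, hk⟩ := exists_O x
  ext n
  refine graded_ind O (AddMonoidHom.mk' (fun x => (G x).coeff n) (by simp)).ker
    (le_max_left k (n - r + 1)) (fun k _ x hx => ⟨_, ?_, hx.sub_single⟩) (fun x hx => ?_) x hk
  · simp [single_eq, h1, h3]
  · exact h2 _ _ hx n (by omega)

theorem cmp_DS (y x : Ser R) : cmp d y (DS d x) = DS d (cmp d y x) := by
  obtain ⟨r, hr⟩ := exists_O y
  refine sub_eq_zero.1 (ext_tt (φ := RingHom.id R) (r := r - 1) (G := (cmp d y).toAddMonoidHom.comp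
    (DS d) - (DS d).comp (cmp d y).toAddMonoidHom) (fun a x => ?_) (fun k x hx => ?_) (fun k => ?_) x)
  · simp [DS_conn d _, smul_sub]
  · exact ((hr.cmp hx.DS).mono (by omega)).sub ((hr.cmp hx).DS.mono (by omega))
  · obtain ⟨k, rfl⟩ : ∃ l, k = l + 1 := ⟨k - 1, by ring⟩
    simp [DS_tt, cmp_tt, DS_orb]

theorem ext_one {φ : R →+* R'} {e : Der R'} {G : Ser R →+ Ser R'}
    (h1 : ∀ a x, G (a • x) = φ a • G x) (h2 : ∀ k x, O k x → O (k + r) (G x))
    (h3 : ∀ x, G (DS d x) = DS e (G x)) (h4 : G 1 = 0) (x : Ser R) : G x = 0 := by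
  refine ext_tt h1 h2 (fun k => ?_) x
  have h5 : ∀ k, G (tt k) = 0 ↔ G (tt (k + 1)) = 0 := fun k => by
    rw [← DS_tt (d := d), h3, map_eq_zero_iff _ (DS_bij e).1]
  induction k with
  | zero => exact h4
  | succ k ih => exact (h5 _).1 ih
  | pred k ih => exact (h5 _).2 (by simpa using ih)

theorem cmp_sub (y z x : Ser R) : cmp d (y - z) x = cmp d y x - cmp d z x := by
  obtain ⟨r, hr⟩ := exists_OV ![y, z]
  refine sub_eq_zero.1 (ext_one (φ := RingHom.id R) (r := r) (d := d) (e := d)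
    (G := (cmp d (y - z) - (cmp d y - cmp d z)).toAddMonoidHom) (fun a x => by simp [smul_sub])
    (fun k x hx => ?_) (fun x => by simp [cmp_DS]) (by simp [cmp_one]) x)
  exact (((hr 0).sub (hr 1)).cmp hx).sub (((hr 0).cmp hx).sub ((hr 1).cmp hx))

theorem lmap_DS {e : Der R'} {φ : R →+* R'} (h : ∀ a, e (φ a) = φ (d a)) (x : Ser R) :
    lmap φ (DS d x) = DS e (lmap φ x) := by
  simp [DS, cn_apply, sder_lmap h]

theorem lmap_cmp {e : Der R'} {φ : R →+* R'} (h : ∀ a, e (φ a) = φ (d a)) (y x : Ser R) :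
    lmap φ (cmp d y x) = cmp e (lmap φ y) (lmap φ x) := by
  obtain ⟨r, hr⟩ := exists_O y
  refine sub_eq_zero.1 (ext_one (φ := φ) (r := r) (d := d) (e := e)
    (G := (lmap φ).toAddMonoidHom.comp (cmp d y).toAddMonoidHom -
      (cmp e (lmap φ y)).toAddMonoidHom.comp (lmap φ).toAddMonoidHom)
    (fun a x => by simp [smul_sub, lmap_smul]) (fun k x hx => ?_)
    (fun x => by simp [cmp_DS, lmap_DS h]) (by simp [cmp_one]) x)
  exact ((hr.cmp hx).lmap φ).sub ((hr.lmap φ).cmp (hx.lmap φ))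

theorem DS_zero (x : Ser R) : DS (Der.zero R) x = tt (-1) * x := by
  simpa [DS] using cn_zero (tt (-1)) x 1

theorem cmp_zero (y x : Ser R) : cmp (Der.zero R) y x = x * y := by
  obtain ⟨r, hr⟩ := exists_O y
  refine sub_eq_zero.1 (ext_one (φ := RingHom.id R) (r := r) (d := Der.zero R) (e := Der.zero R)
    (G := (cmp (Der.zero R) y).toAddMonoidHom - AddMonoidHom.mulRight y)
    (fun a x => ?_) (fun k x hx => ?_) (fun x => ?_) (by simp [cmp_one]) x)
  · simp only [AddMonoidHom.sub_apply, LinearMap.toAddMonoidHom_coe, map_smul,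
      AddMonoidHom.coe_mulRight, RingHom.id_apply, smul_sub]
    simp only [← C_mul, mul_assoc]
  · exact (hr.cmp hx).sub (hx.mul hr)
  · simp only [AddMonoidHom.sub_apply, LinearMap.toAddMonoidHom_coe, cmp_DS, map_sub,
      AddMonoidHom.coe_mulRight]
    simp [DS_zero, mul_assoc]

/-- The lower order terms of the linearisation. -/
noncomputable def lo (d : Der R) (l : Idx → R) (ρ : Ser R) : Ser R :=
  l (0, 1) • DS d ρ + l (0, 0) • ρ + l (1, 1) • tt (-1) + l (1, 0) • 1

/-- The symbol of the reduced evolution. -/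
noncomputable def lam (d : Der R) (l : Fin 2 → Idx → R) (ρ : Ser R) : Ser R :=
  -tt (-2) + lo d (l 1) ρ

/-- The Riccati equation. -/
noncomputable def ric (d t : Der R) (l : Fin 2 → Idx → R) (ρ : Ser R) : Ser R :=
  sder t ρ + cmp d (lam d l ρ) ρ - (DS d (DS d ρ) + lo d (l 0) ρ)

variable {t : Der R} {l : Fin 2 → Idx → R} {ρ σ : Ser R}

theorem O_lo (h : O 1 ρ) (l : Idx → R) : O (-1) (lo d l ρ) :=
  ((((h.DS.smul _).mono (by omega)).add ((h.smul _).mono (by omega))).add ((O_tt _).smul _)).add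
    (((O_tt 0).smul _).mono (by omega))

theorem O_lo_sub (h : O k (ρ - σ)) (l : Idx → R) : O (k - 1) (lo d l ρ - lo d l σ) := by
  convert ((h.DS (d := d)).smul (l (0, 1))).add ((h.smul (l (0, 0))).mono (by omega)) using 1
  simp only [lo, map_sub, smul_sub]
  abel

theorem O_lam (h : O 1 ρ) : O (-2) (lam d l ρ) ∧ (lam d l ρ).coeff (-2) = -1 :=
  ⟨(O_tt _).neg.add ((O_lo h _).mono (by omega)), by simp [lam, O_lo h _ (-2) (by omega)]⟩

theorem ric_sub (h1 : O 1 ρ) (h2 : O 1 σ) (h : O k (ρ - σ)) :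
    O (k - 2) (ric d t l ρ - ric d t l σ) ∧
      (ric d t l ρ - ric d t l σ).coeff (k - 2) = -2 * (ρ - σ).coeff k := by
  have a1 : ric d t l ρ - ric d t l σ = (cmp d (lam d l ρ) (ρ - σ) - DS d (DS d (ρ - σ))) +
      (sder t (ρ - σ) + cmp d (lo d (l 1) ρ - lo d (l 1) σ) σ - (lo d (l 0) ρ - lo d (l 0) σ)) := by
    rw [show lo d (l 1) ρ - lo d (l 1) σ = lam d l ρ - lam d l σ by simp [lam]]
    simp only [ric, cmp_sub, map_sub]
    abel
  have a2 : O (k - 1) (sder t (ρ - σ) + cmp d (lo d (l 1) ρ - lo d (l 1) σ) σ -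
      (lo d (l 0) ρ - lo d (l 0) σ)) := (((h.sder t).mono (by omega)).add
    (((O_lo_sub h _).cmp h2).mono (by omega))).sub (O_lo_sub h _)
  have a3 := DS_lead (d := d) (h.DS (d := d))
  have a4 := cmp_lead (d := d) (O_lam (d := d) (l := l) h1).1 h
  rw [DS_lead h, show k - 1 - 1 = k - 2 by ring] at a3
  rw [(O_lam h1).2, ← sub_eq_add_neg] at a4
  rw [a1]
  refine ⟨(((O_lam h1).1.cmp h).sub (h.DS.DS.mono (by omega))).add (a2.mono (by omega)), ?_⟩
  rw [coeff_add, a2 _ (by omega), coeff_sub, a3, a4]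
  ring

theorem exists_ric (d t : Der R) (l : Fin 2 → Idx → R) {h : R} (hh : 2 * h = 1) :
    ∃ ρ, O 1 ρ ∧ ric d t l ρ = 0 := by
  have key : ∀ k (ρ σ : Ser R), O 1 ρ → O 1 σ → O k (ρ - σ) → O (k + 1)
      ((ρ + h • (tt 2 * ric d t l ρ)) - (σ + h • (tt 2 * ric d t l σ))) := fun k ρ σ h1 h2 h3 => by
    have a1 := ric_sub (d := d) (t := t) (l := l) h1 h2 h3
    rw [add_sub_add_comm, ← smul_sub, ← mul_sub]
    refine O_succ.2 ⟨h3.add (((O_tt 2).mul' a1.1 (by omega)).smul _), ?_⟩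
    rw [coeff_add, coeff_smul, coeff_tt_mul, a1.2, smul_eq_mul]
    linear_combination -(ρ - σ).coeff k * hh
  have a0 : O 1 (0 + h • (tt 2 * ric d t l 0)) := by
    have := (((O_tt 2).mul (O_lo (d := d) O.zero (l 0))).smul h).neg
    simpa [ric] using this
  obtain ⟨ρ, h1, h2⟩ := exists_fix' 1 (fun ρ => ρ + h • (tt 2 * ric d t l ρ))
    (fun ρ h1 => by
      simpa using ((key 1 ρ 0 h1 O.zero (by simpa using h1)).mono one_le_two).add a0) key
  refine ⟨ρ, h1, ?_⟩
  ext n
  have := congrArg (fun z => z.coeff (n + 2)) h2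
  simp only [coeff_add, add_eq_left, coeff_smul, coeff_tt_mul, add_sub_cancel_right,
    smul_eq_mul] at this
  rw [coeff_zero]
  linear_combination 2 * this - (ric d t l ρ).coeff n * hh

theorem ric_unique {h : R} (hh : 2 * h = 1) (h1 : O 1 ρ) (h2 : O 1 σ) (h3 : ric d t l ρ = 0)
    (h4 : ric d t l σ = 0) : ρ = σ :=
  sub_eq_zero.1 (eq_zero_of_O' fun k hk => by
    have := (ric_sub (d := d) (t := t) (l := l) h1 h2 hk).2
    rw [h3, h4, sub_self, coeff_zero] at this
    linear_combination h * this - (ρ - σ).coeff k * hh)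

theorem lmap_ric {e s : Der R'} {φ : R →+* R'} (h : ∀ a, e (φ a) = φ (d a))
    (h' : ∀ a, s (φ a) = φ (t a)) (h0 : ric d t l ρ = 0) :
    ric e s (fun a j => φ (l a j)) (lmap φ ρ) = 0 := by
  have := congrArg (lmap φ) h0
  simpa [ric, lam, lo, lmap_smul, lmap_cmp h, lmap_DS h, sder_lmap h'] using this

end

theorem not_heat {L : DF} {T : PP L.L →+ PP L.L} (hT : IsConn L.t T)
    (hD : ∀ x, T (DP L.d x) = DP L.d (T x)) {ε : L.L} (hε : ε ≠ 0) (h1 : L.d ε = 0)
    (h2 : L.t ε = 0) {d t : Der L.L} (hd : ∀ a, d a = ε * L.d a) (ht : ∀ a, t a = ε ^ 2 * L.t a)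
    {l : Fin 2 → Idx → L.L} (h3 : ∀ a, ε ^ 2 • T (bs (a, 0)) = (![1, -1] a * ε ^ 2) • bs (a, 2) +
      ((l a (0, 1) * ε) • bs (0, 1) + l a (0, 0) • bs (0, 0) + (l a (1, 1) * ε) • bs (1, 1) +
        l a (1, 0) • bs (1, 0))) {ρ : Ser L.L} (h4 : O 1 ρ) (h5 : ric d t l ρ = 0)
    (h6 : LinearIndependent L.L fun i : Idx => (DS d)^[i.2] (![ρ, 1] i.1)) : ¬ Heat L T := by
  rintro ⟨z, hz, q, p, h⟩
  let π := Finsupp.linearCombination L.L fun i : Idx => ε⁻¹ ^ i.2 • (DS d)^[i.2] (![ρ, 1] i.1)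
  have a0 : ∀ a i, π (bs (a, i)) = ε⁻¹ ^ i • (DS d)^[i] (![ρ, 1] a) := fun a i => by simp [π]
  have a1 : ∀ (e : Der L.L) n, e ε = 0 → e (ε⁻¹ ^ n) = 0 := fun e n h =>
    e.ker.pow_mem (e.ker.inv_mem h) n
  have a2 : ∀ x, ε • π (DP L.d x) = DS d (π x) := fun x => by
    rw [← map_smul]
    refine conn_ext (D := ε • DP L.d) (fun f x => ?_) (DS_conn d) (fun ⟨a, i⟩ => ?_) x
    · simp [DP_conn _ f, hd, smul_smul, mul_comm]
    · rw [AddMonoidHom.smul_apply, DP_bs, map_smul, a0, a0, DS_conn, a1 _ _ (by simp [hd, h1]),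
        Function.iterate_succ_apply', smul_smul, pow_succ', mul_inv_cancel_left₀ hε]
      simp
  let U : Ser L.L →+ Ser L.L := (sder t).toAddMonoidHom + (cmp d (lam d l ρ)).toAddMonoidHom
  have a3 : ∀ x, U x = sder t x + cmp d (lam d l ρ) x := fun _ => rfl
  have a4 : IsConn t U := fun f x => by
    simp only [a3, sder_smul, map_smul, smul_add]
    abel
  have a5 : ∀ x, U (DS d x) = DS d (U x) := fun x => by
    have : ∀ a, d (t a) = t (d a) := fun a => by
      simp only [hd, ht, DerM.mul', pow_two, h1, h2, L.comm]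
      ring
    rw [a3, a3, cmp_DS, map_add, add_left_inj]
    simp [DS, cn_apply, DerM.mul', sder_comm this]
  have a6 : ∀ x, ε ^ 2 • π (T x) = U (π x) := fun x => by
    rw [← map_smul]
    refine conn_ext (D := ε ^ 2 • T) (fun f x => ?_) a4 (fun ⟨a, i⟩ => ?_) x
    · simp [hT f, ht, smul_smul, mul_comm]
    rw [AddMonoidHom.smul_apply]
    induction i with
    | zero =>
      have b1 : DS d 1 = tt (-1) := DS_tt (-1)
      have b2 : DS d (tt (-1)) = tt (-2) := DS_tt (-2)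
      rw [h3]
      simp only [map_add, map_smul, a0, smul_smul, pow_one, mul_inv_cancel_right₀ hε, pow_zero,
        mul_assoc, ← mul_pow, mul_inv_cancel₀ hε, one_pow, mul_one, one_smul]
      fin_cases a
      · rw [ric, sub_eq_zero] at h5
        simp [a3, h5, lo, b1]
      · simp [a3, cmp_one, lam, lo, b1, b2]
    | succ i ih =>
      refine smul_right_injective _ hε ?_
      have b1 := a4 ε (π (DP L.d (bs (a, i))))
      rw [a2, a5, ← ih, ← a2, ht, h2, DP_conn, pow_two ε, DerM.mul', h1] at b1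
      simpa [← DP_bs L.d a i, hD, pow_two, -DP_bs] using b1
  have a7 : π z = 0 := eq_zero_of_O' fun k hk => by
    have b1 : U (π z) = DS d (DS d (π z)) + (q * ε) • DS d (π z) + (p * ε ^ 2) • π z := by
      rw [← a6, h, ← a2, DS_conn, hd, h1, ← a2]
      simp [smul_smul, pow_two, mul_comm, mul_left_comm]
    have b2 := congrArg (fun y => y.coeff (k - 2)) b1
    have b3 := DS_lead (d := d) (hk.DS (d := d))
    have b4 := cmp_lead (d := d) (O_lam (d := d) (l := l) h4).1 hk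
    rw [DS_lead hk, show k - 1 - 1 = k - 2 by ring] at b3
    rw [(O_lam h4).2, ← sub_eq_add_neg] at b4
    simp only [a3, coeff_add, b3, b4, coeff_smul, hk.sder t (k - 2) (by omega),
      hk.DS (d := d) (k - 2) (by omega), hk (k - 2) (by omega)] at b2
    linear_combination (exp := 1) (-1 / 2) * b2
  refine hz (linearIndependent_iff.1 (h6.units_smul fun i => Units.mk0 (ε⁻¹ ^ i.2)
    (pow_ne_zero _ (inv_ne_zero hε))) z a7)

end Pool.Agent.Lib.MP_dfc315_mp
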