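import Mathlib
import Pool.Agent.Lib.MP_dfc315_mp.H72Psi

set_option autoImplicit false

namespace Pool.Agent.Lib.MP_dfc315_mp

open Finset HahnSeries

attribute [-simp] HahnSeries.C_apply

open Polynomial in
theorem quad_poly {k : Type*} [Field k] {p q : k[X]} (h : q ^ 2 - (X ^ 2 + 2) * p * q + p ^ 2 = 0) :
    p = 0 := by
  classical
  by_contra hp
  let := EuclideanDomain.gcdMonoid k[X]
  obtain ⟨a, b, h1, h2, h3⟩ := extract_gcd p q
  have h4 : gcd p q ≠ 0 := fun h0 => hp (by rw [h1, h0, zero_mul])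
  generalize gcd p q = g at h1 h2 h4
  subst h1 h2
  have h5 : b ^ 2 - (X ^ 2 + 2) * a * b + a ^ 2 = 0 :=
    mul_left_cancel₀ (pow_ne_zero 2 h4) (by linear_combination h)
  have h6 : IsRelPrime a b := gcd_isUnit_iff_isRelPrime.1 h3
  have h7 : IsUnit a := h6 dvd_rfl (h6.dvd_of_dvd_mul_left
    ⟨(X ^ 2 + 2) * b - a, by linear_combination h5⟩)
  have h8 : IsUnit b := h6 (h6.symm.dvd_of_dvd_mul_left
    ⟨(X ^ 2 + 2) * a - b, by linear_combination h5⟩) dvd_rfl
  obtain ⟨r, hr, rfl⟩ := Polynomial.isUnit_iff.1 h7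
  obtain ⟨s, hs, rfl⟩ := Polynomial.isUnit_iff.1 h8
  have h9 : Polynomial.C (r * s) * X ^ 2 = Polynomial.C (s ^ 2 + r ^ 2 - 2 * r * s) := by
    simp only [map_mul, map_sub, map_add, map_pow, map_ofNat]
    linear_combination -h5
  have := congrArg (Polynomial.coeff · 2) h9
  rw [coeff_C_mul_X_pow, if_pos rfl, Polynomial.coeff_C, if_neg (by omega)] at this
  exact mul_ne_zero hr.ne_zero hs.ne_zero this

theorem quad_indep {k : Type*} [Field k] {ρ : Ser k}
    (h : ρ ^ 2 + (tt (-1) ^ 2 + 2) * ρ + 1 = 0) :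
    LinearIndependent k fun i : Idx => tt (-1) ^ i.2 * ![ρ, 1] i.1 := by
  classical
  let ev := Polynomial.eval₂RingHom (C : k →+* Ser k) (tt (-1))
  have h1 : ∀ p, ev p = 0 → p = 0 := fun p h0 => by
    by_contra hp
    exact Pole.sum_ne (c := (1 : k)) (τ := tt (-1)) (by simpa [Pole] using O.zero) one_ne_zero
      (p := ⟨p.support, p.coeff, fun _ => Polynomial.mem_support_iff⟩)
      (fun h => hp (Polynomial.ext fun i => DFunLike.congr_fun h i)) (by
        rw [Polynomial.coe_eval₂RingHom, Polynomial.eval₂_eq_sum] at h0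
        exact h0)
  rw [linearIndependent_iff']
  intro s g hg
  let P : Fin 2 → Polynomial k := fun a =>
    ∑ j ∈ s, if j.1 = a then Polynomial.monomial j.2 (g j) else 0
  have h2 : ev (P 0) * ρ + ev (P 1) = 0 := by
    simp only [P, map_sum, sum_mul, ← sum_add_distrib, ← hg]
    refine sum_congr rfl fun ⟨a, i⟩ _ => ?_
    fin_cases a <;> simp [ev, ← C_mul, mul_assoc]
  have h3 : P 0 = 0 := quad_poly (q := P 1) (h1 _ (by
    simp only [map_add, map_sub, map_mul, map_pow, map_ofNat, eq_neg_of_add_eq_zero_right h2]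
    simp only [ev, Polynomial.coe_eval₂RingHom, Polynomial.eval₂_X]
    linear_combination Polynomial.eval₂ C (tt (-1)) (P 0) ^ 2 * h))
  have h4 : P 1 = 0 := h1 _ (by simpa [h3] using h2)
  rintro ⟨a, i⟩ hi
  have h5 : (P a).coeff i = g (a, i) := by
    simp only [P, Polynomial.finsetSum_coeff]
    rw [sum_eq_single (a, i)]
    · simp
    · rintro ⟨b, j⟩ _ hj
      split_ifs with hb
      · exact Polynomial.coeff_monomial_of_ne _ fun e => hj (Prod.ext hb e.symm)
      · simp
    · exact fun h => absurd hi h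
  rw [← h5]
  fin_cases a
  · simp [h3]
  · simp [h4]

theorem indep_ser {B L k ι : Type*} [CommRing B] [Field L] [Field k] {φ : B →+* L}
    (hφ : Function.Injective φ) (ε : B →+* k) {w : ι → Ser B}
    (h : LinearIndependent k fun i => lmap ε (w i)) : LinearIndependent L fun i => lmap φ (w i) :=
  .of_comp (LinearMap.pi fun n => coeff.linearMap n) (indep_of_spec hφ ε (w := fun i n =>
    (w i).coeff n) (h.map' (LinearMap.pi fun n => coeff.linearMap n) (LinearMap.ker_eq_bot'.2
      fun _ hx => HahnSeries.ext hx)))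

open MvPolynomial in
theorem exists_trans (L : DF) : ∃ (L' : DF) (ι : DHom L L') (ε : L'.L), L'.d ε = 0 ∧ L'.t ε = 0 ∧
    Function.Injective (eval₂Hom ι.f fun _ : Unit => ε) := by
  let R := MvPolynomial Unit L.L
  let F := FractionRing R
  have key : ∀ e : Der L.L, ∃ e' : Der F, (∀ a, e' (algebraMap R F (MvPolynomial.C a)) =
      algebraMap R F (MvPolynomial.C (e a))) ∧ e' (algebraMap R F (X ())) = 0 := fun e => by
    obtain ⟨e₀, h1, h2⟩ := exists_der_mvPoly e fun _ : Unit => 0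
    obtain ⟨e', h3⟩ := exists_der_frac (R := R) (F := F) (e₀.map (algebraMap R F))
    exact ⟨e', fun a => by simp [h3, h1], by simp [h3, h2]⟩
  obtain ⟨d, h1, h2⟩ := key L.d
  obtain ⟨t, h3, h4⟩ := key L.t
  refine ⟨⟨F, d, t, fun a => sub_eq_zero.1 (der_frac_zero (R := R) (d.lie t) (der_mvPoly_zero
    ((d.lie t).comap (algebraMap R F)) (fun c => ?_) fun i => ?_) a)⟩,
    ⟨(algebraMap R F).comp MvPolynomial.C, h1, h3⟩, algebraMap R F (X ()), h2, h4, ?_⟩
  · simp [h1, h3, L.comm]
  · simp [h2, h4]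
  · convert IsFractionRing.injective R F using 2
    exact ringHom_ext (fun a => by simp) fun i => by simp

open MvPolynomial in
theorem exists_univ (A : Type) [CommRing A] :
    ∃ (Γ : Type) (_ : CommRing Γ) (ι : A →+* Γ) (y : Idx → Γ) (g : Γ),
      g * (y (0, 0) + y (1, 0)) = 1 ∧
      (∀ (S : Type) [CommRing S] (α : A →+* S) (z : Idx → S), IsUnit (z (0, 0) + z (1, 0)) →
        ∃ φ : Γ →+* S, (∀ a, φ (ι a) = α a) ∧ (∀ i, φ (y i) = z i) ∧
          (Function.Injective (eval₂Hom α z) → Function.Injective φ)) ∧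
      ∀ P : Fin 2 → Γ, ∃ d t : Der Γ, ∀ (S : Type) [CommRing S] (φ : Γ →+* S) (e s : Der S),
        (∀ a, e (s a) = s (e a)) → (∀ a, e (φ (ι a)) = 0) → (∀ a, s (φ (ι a)) = 0) →
        (∀ a i, e (φ (y (a, i))) = φ (y (a, i + 1))) → (∀ a, s (φ (y (a, 0))) = φ (P a)) →
        (∀ a, e (φ a) = φ (d a)) ∧ ∀ a, s (φ a) = φ (t a) := by
  let R := MvPolynomial Idx A
  let r : R := X (0, 0) + X (1, 0)
  let Γ := Localization.Away r
  have k1 : ∀ ξ : Idx → Γ, ∃ e : Der Γ, (∀ a, e (algebraMap R Γ (MvPolynomial.C a)) = 0) ∧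
      ∀ i, e (algebraMap R Γ (X i)) = ξ i := fun ξ => by
    obtain ⟨e, he⟩ := exists_der_loc (S := Γ) (.powers r)
      { toFun := mkDerivation A ξ
        map_zero' := by simp
        map_add' := by simp
        leib := fun a b => by simp [R, Algebra.smul_def] }
    replace he : ∀ a, e (algebraMap R Γ a) = mkDerivation A ξ a := he
    exact ⟨e, fun a => by rw [he, derivation_C], fun i => by rw [he, mkDerivation_X]⟩
  have k2 : ∀ (S : Type) [CommRing S] (φ : Γ →+* S) (e : Der S) (d : Der Γ),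
      (∀ a, e (φ (algebraMap R Γ (MvPolynomial.C a))) = φ (d (algebraMap R Γ (MvPolynomial.C a)))) →
      (∀ i, e (φ (algebraMap R Γ (X i))) = φ (d (algebraMap R Γ (X i)))) →
      ∀ a, e (φ a) = φ (d a) := fun S _ φ e d h1 h2 a =>
    sub_eq_zero.1 (der_loc_zero (.powers r) ((e.comap φ).sub (d.map φ)) (der_mvPoly_zero
      (((e.comap φ).sub (d.map φ)).comap (algebraMap R Γ)) (fun c => sub_eq_zero.2 (h1 c))
        fun i => sub_eq_zero.2 (h2 i)) a)
  refine ⟨Γ, inferInstance, (algebraMap R Γ).comp MvPolynomial.C, fun i => algebraMap R Γ (X i),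
    IsLocalization.Away.invSelf r, ?_, fun S _ α z hz => ?_, fun P => ?_⟩
  · rw [← map_add, mul_comm]
    exact IsLocalization.Away.mul_invSelf r
  · have h1 : IsUnit (eval₂Hom α z r) := by
      rwa [show eval₂Hom α z r = z (0, 0) + z (1, 0) by
        rw [← eval₂Hom_X' α z, ← eval₂Hom_X' α z (1, 0), ← map_add]]
    have h2 : ∀ a, IsLocalization.Away.lift (S := Γ) r h1 (algebraMap R Γ a) = eval₂Hom α z a :=
      IsLocalization.Away.lift_eq r h1
    refine ⟨IsLocalization.Away.lift r h1, fun a => (h2 _).trans (eval₂Hom_C α z a),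
      fun i => (h2 _).trans (eval₂Hom_X' α z i), fun h => IsLocalization.injective_of_map_algebraMap_zero
        (M := .powers r) Γ _ fun a ha => ?_⟩
    rw [h ((h2 a).symm.trans ha |>.trans (map_zero _).symm), map_zero]
  · obtain ⟨d, h1, h2⟩ := k1 fun i => algebraMap R Γ (X (i.1, i.2 + 1))
    obtain ⟨t, h3, h4⟩ := k1 fun i => d^[i.2] (P i.1)
    refine ⟨d, t, fun S _ φ e s a1 a2 a3 a4 a5 => ?_⟩
    have b1 := k2 S φ e d (fun a => by rw [h1, map_zero]; exact a2 a) fun i => by
      rw [h2]; exact a4 i.1 i.2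
    refine ⟨b1, k2 S φ s t (fun a => by rw [h3, map_zero]; exact a3 a) fun ⟨a, i⟩ => ?_⟩
    rw [h4]
    induction i with
    | zero => exact a5 a
    | succ i ih => rw [Function.iterate_succ_apply', ← b1, ← ih, a1]; exact congrArg s (a4 a i).symm

open MvPolynomial in
theorem scale_inj {K L A : Type} [Field K] [CharZero K] [Field L] [CommRing A] (J : Jets K)
    {e : Der L} {φ : K →+* L} (h : ∀ a, e (φ a) = φ (J.DD a)) {α : A →+* L}
    (h1 : Function.Injective α) (h2 : ∀ a, e (α a) = 0) {ε : L} (h3 : ε ≠ 0) (h4 : e ε = 0) :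
    Function.Injective (eval₂Hom α fun i : Idx => ε ^ i.2 * φ (J.x i)) := by
  let α' : A →+* e.ker := α.codRestrict e.ker h2
  let σ : e.ker → MvPolynomial Idx e.ker →ₐ[e.ker] MvPolynomial Idx e.ker := fun c =>
    aeval fun i => MvPolynomial.C (c ^ i.2) * X i
  let ε' : e.ker := ⟨ε, h4⟩
  have a1 : (σ ε'⁻¹).comp (σ ε') = AlgHom.id _ _ := algHom_ext fun i => by
    have : ε' ≠ 0 := fun h0 => h3 (congrArg Subtype.val h0)
    simp only [σ, AlgHom.comp_apply, aeval_X, map_mul, aeval_C, algebraMap_eq, ← mul_assoc,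
      AlgHom.id_apply]
    rw [← map_mul, ← mul_pow, mul_inv_cancel₀ this, one_pow, map_one, one_mul]
  have a2 : Function.Injective (σ ε') :=
    Function.LeftInverse.injective (g := σ ε'⁻¹) fun p => AlgHom.congr_fun a1 p
  have a3 := ((J.aeval_injective h).comp a2).comp (map_injective α' fun a b hab =>
    h1 (congrArg Subtype.val hab))
  have a4 : (eval₂Hom α fun i : Idx => ε ^ i.2 * φ (J.x i)) =
      (((aeval (fun i => φ (J.x i)) : MvPolynomial Idx e.ker →ₐ[_] L).comp
        (σ ε')).toRingHom).comp (map α') :=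
    ringHom_ext (fun a => by simp [σ]; rfl) fun i => by simp [σ]; exact Or.inl rfl
  rw [a4]
  exact a3

end Pool.Agent.Lib.MP_dfc315_mp
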