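import Mathlib
import Pool.Agent.Lib.MP_dfc315_mp.H41Defs
import Pool.Agent.Lib.MP_dfc315_mp.H72Spec

set_option autoImplicit false

namespace Pool.Agent.Lib.MP_dfc315_mp

open Finset

/-- The system with a drift term added. -/
abbrev Evol.boost (S : Evol) (c : ℤ) : Evol := ⟨S.K, S.J, fun a => S.P a + c * S.J.x (a, 1)⟩

theorem Jets.evD_boost {K : Type} [Field K] [CharZero K] (J : Jets K) (P : Fin 2 → K) (c : ℤ)
    (f : K) : J.evD (fun a => P a + c * J.x (a, 1)) f = J.evD P f + c * J.DD f := by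
  have h : ∀ a i, J.D^[i] (P a + c * J.x (a, 1)) = J.D^[i] (P a) + c * J.x (a, i + 1) :=
    fun a i => by
      rw [J.D_eq]
      induction i with
      | zero => rfl
      | succ i ih => simp [Function.iterate_succ_apply', ih, DerM.mul']
  simp only [Jets.evD, Jets.DD, J.dif_eq _ _ Subset.rfl, h, smul_eq_mul, mul_sum,
    ← sum_add_distrib]
  exact sum_congr rfl fun i _ => by ring

theorem Evol.Dt_boost (S : Evol) (c : ℤ) (f : S.K) :
    (S.boost c).Dt f = S.Dt f + c * S.J.D f := by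
  rw [Evol.Dt, Evol.Dt, Jets.ev_eq, Jets.ev_eq, Jets.D_eq]
  exact S.J.evD_boost S.P c f

theorem Evol.boost_boost (S : Evol) (c e : ℤ) : (S.boost c).boost e = S.boost (c + e) :=
  congrArg (fun P => (⟨S.K, S.J, P⟩ : Evol)) (funext fun a => by push_cast; ring)

theorem Evol.boost_zero (S : Evol) : S.boost 0 = S :=
  congrArg (fun P => (⟨S.K, S.J, P⟩ : Evol)) (funext fun a => by simp)

theorem Linked.boost {S T : Evol} (h : Linked S T) (c : ℤ) : Linked (S.boost c) (T.boost c) := by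
  induction h with
  | rel B A h =>
    obtain ⟨σ, h1, h2, h3, h4⟩ := h
    refine .rel _ _ ⟨σ, h1, h2, h3, fun a => ?_⟩
    rw [Evol.Dt_boost, h4, map_add, map_mul, map_intCast, h1 a 1]
    rfl
  | refl S => exact .refl _
  | symm S T _ ih => exact .symm _ _ ih
  | trans S T U _ _ ih ih' => exact .trans _ _ _ ih ih'

theorem Evol.IsNLSType.boost {S : Evol} (h : S.IsNLSType) (c : ℤ) : (S.boost c).IsNLSType := by
  obtain ⟨⟨h1, h2⟩, ⟨h3, h4, ρ, h5, h6⟩, g, h7, h8⟩ := h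
  have a1 : ∀ i, S.J.p i (c : S.K) = 0 := fun i => (S.J.pD i).intCast c
  have a2 : ∀ g, S.IsSymmetry g → (S.boost c).IsSymmetry g := fun g hg a => by
    rw [Evol.Dt_boost, hg a, Jets.ev_eq, Jets.D_eq]
    simp [DerM.mul', Jets.evD_x]
  refine ⟨⟨fun ⟨b, i⟩ hi => ?_, fun ⟨b, i⟩ hi => ?_⟩, ⟨?_, fun n => ?_, ρ, fun n => ?_, h6⟩, g,
    a2 g h7, h8⟩
  · have := h1 (b, i) hi
    have a3 : i ≠ 1 := by simp at hi; omega
    rw [add_sub_right_comm, map_add, this]
    simp [a1, S.J.p_x, a3]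
  · have := h2 (b, i) hi
    have a3 : i ≠ 1 := by simp at hi; omega
    rw [add_right_comm, map_add, this]
    simp [a1, S.J.p_x, a3]
  · rintro ⟨Φ, Ψ, a, b, b1, b2, b3, b4, b5, b6, b7⟩
    rw [Evol.Dt_boost] at b6 b7
    refine h3 ⟨Φ, Ψ, a - Pi.single 3 (c : S.K), b - Pi.single 4 (c : S.K), b1, b2, b3, b4,
      fun k => ⟨fun i => ?_, fun i => ?_⟩, ?_, ?_⟩
    · simp [(b5 k).1 i, Pi.single_apply, apply_ite (S.J.p i), a1]
    · simp [(b5 k).2 i, Pi.single_apply, apply_ite (S.J.p i), a1]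
    · simp
      linear_combination b6
    · simp
      linear_combination b7
  · obtain ⟨m, g, b1, b2, b3⟩ := h4 n
    exact ⟨m, g, b1, a2 g b2, b3⟩
  · obtain ⟨σ, hσ⟩ := h5 n
    refine ⟨σ + c * ρ n, ?_⟩
    rw [Evol.Dt_boost, hσ, Jets.D_eq]
    simp [DerM.mul']

namespace Jets

variable {K : Type} [Field K] [CharZero K] (J : Jets K)

/-- The reflected coordinates. -/
def mirror : Jets K where
  x i := (-1 : ℤ) ^ i.2 • J.x i
  p i := (-1 : ℤ) ^ i.2 • J.p i
  p_x i j := by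
    simp only [Derivation.smul_apply, map_zsmul, J.p_x, smul_smul]
    split_ifs with h
    · simp [h, ← mul_pow]
    · simp
  comm i j f := by
    simp only [Derivation.smul_apply, map_zsmul, J.comm i j]
    exact smul_comm _ _ _
  fin f := (J.fin f).subset fun i hi h => hi (by simp [h])

theorem mirror_x (i : Idx) : J.mirror.x i = (-1) ^ i.2 * J.x i := by simp [mirror]

theorem mirror_p (i : Idx) (f : K) : J.mirror.p i f = (-1) ^ i.2 * J.p i f := by simp [mirror]

theorem sign_sq (n : ℕ) : ((-1) ^ n * (-1) ^ n : K) = 1 := by simp [← mul_pow]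

theorem mirror_D (f : K) : J.mirror.D f = -J.D f := by
  rw [D, D, vf, vf, ← finsum_neg_distrib]
  refine finsum_congr fun i => ?_
  rw [mirror_x, mirror_p]
  linear_combination (-J.x (i.1, i.2 + 1) * J.p i f) * sign_sq (K := K) i.2

theorem mirror_iter (n : ℕ) (f : K) : J.mirror.D^[n] f = (-1) ^ n * J.D^[n] f := by
  induction n with
  | zero => simp
  | succ n ih =>
    rw [Function.iterate_succ_apply', Function.iterate_succ_apply', ih, mirror_D, J.D_eq,
      DerM.mul', show J.DD ((-1) ^ n) = 0 from J.DD.ker.pow_mem (neg_mem (one_mem _)) n]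
    ring

theorem mirror_ev (g : Fin 2 → K) (f : K) : J.mirror.ev g f = J.ev g f := by
  rw [ev, ev, vf, vf]
  refine finsum_congr fun i => ?_
  rw [mirror_iter, mirror_p]
  linear_combination (J.D^[i.2] (g i.1) * J.p i f) * sign_sq (K := K) i.2

end Jets

/-- The reflected system. -/
abbrev Evol.mirror (S : Evol) : Evol := ⟨S.K, S.J.mirror, S.P⟩

theorem Linked.mirror {S T : Evol} (h : Linked S T) : Linked S.mirror T.mirror := by
  induction h with
  | rel B A h =>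
    obtain ⟨σ, h1, h2, h3, h4⟩ := h
    have a1 : ∀ j (n : ℕ) f, B.J.p j ((-1) ^ n * f) = (-1) ^ n * B.J.p j f := fun j n f => by
      rw [← Jets.pD_apply, DerM.mul',
        show B.J.pD j ((-1) ^ n) = 0 from (B.J.pD j).ker.pow_mem (neg_mem (one_mem _)) n]
      simp
    refine .rel _ _ ⟨σ, fun a i => ?_, fun j f => ?_, ?_, fun a => ?_⟩
    · simp [Jets.mirror_x, Jets.mirror_iter, h1 a i]
    · simp only [Jets.mirror_x, Jets.mirror_p, map_mul, map_pow, map_neg, map_one, a1]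
      rw [h2, mul_finsum]
      refine finsum_congr fun i => ?_
      linear_combination (-(-1) ^ j.2 * σ (A.J.p i f) * B.J.p j (σ (A.J.x i))) *
        Jets.sign_sq (K := B.K) i.2
    · let M : (Idx → B.K) →ₗ[B.K] Idx → B.K :=
        LinearMap.pi fun j => ((-1 : B.K) ^ j.2) • LinearMap.proj j
      have a2 := (h3.units_smul fun i => (-1) ^ i.2).map' M (LinearMap.ker_eq_bot'.2 fun x hx =>
        funext fun j => by simpa [M] using congrFun hx j)
      have a3 : (fun i j => B.J.mirror.p j (σ (A.J.mirror.x i))) =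
          M ∘ ((fun i : Idx => (-1 : B.Kˣ) ^ i.2) • fun i j => B.J.p j (σ (A.J.x i))) := by
        funext i j
        simp [M, Jets.mirror_x, Jets.mirror_p, a1, Units.smul_def]
      exact a3 ▸ a2
    · simpa [Evol.Dt, Jets.mirror_ev, Jets.mirror_x] using h4 a
  | refl S => exact .refl _
  | symm S T _ ih => exact .symm _ _ ih
  | trans S T U _ _ ih ih' => exact .trans _ _ _ ih ih'

open MvPolynomial in
theorem exists_incl {k K : Type} [Field k] [CharZero k] [Field K] [CharZero K]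
    {J₀ : Jets (FractionRing (MvPolynomial Idx k))}
    (h1 : ∀ i, J₀.x i = algebraMap (MvPolynomial Idx k) _ (X i))
    (h2 : ∀ c, J₀.IsConst (algebraMap (MvPolynomial Idx k) _ (MvPolynomial.C c))) (J : Jets K)
    (α : k →+* K) (hα : ∀ c, J.IsConst (α c)) :
    ∃ φ : FractionRing (MvPolynomial Idx k) →+* K, (∀ i, φ (J₀.x i) = J.x i) ∧
      (∀ c, φ (algebraMap (MvPolynomial Idx k) _ (MvPolynomial.C c)) = α c) ∧
      ∀ P₀ P, (∀ a, φ (P₀ a) = P a) → Subst ⟨K, J, P⟩ ⟨_, J₀, P₀⟩ := by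
  classical
  have hi : Function.Injective (eval₂Hom α J.x) := by
    simpa using scale_inj J (e := J.DD) (φ := RingHom.id K) (fun _ => rfl) α.injective
      (fun c => J.DD_const (hα c)) one_ne_zero J.DD.one
  let φ : FractionRing (MvPolynomial Idx k) →+* K := IsFractionRing.lift hi
  have h3 : ∀ a, φ (algebraMap (MvPolynomial Idx k) _ a) = eval₂Hom α J.x a :=
    IsFractionRing.lift_algebraMap hi
  have h4 : ∀ i, φ (J₀.x i) = J.x i := fun i => by rw [h1, h3, eval₂Hom_X']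
  have h5 : ∀ c, φ (algebraMap (MvPolynomial Idx k) _ (MvPolynomial.C c)) = α c := fun c => by
    rw [h3, eval₂Hom_C]
  refine ⟨φ, h4, h5, fun P₀ P hP => ⟨φ, fun a i => ?_, fun j f => ?_, ?_, fun a => ?_⟩⟩
  · simp only [h4, J.D_eq]
    induction i with
    | zero => rfl
    | succ i ih => rw [Function.iterate_succ_apply', ← ih, J.DD_x]
  · simp only [h4, J.p_x]
    rw [finsum_eq_single _ j fun i hi => by simp [hi.symm], if_pos rfl, mul_one]
    refine sub_eq_zero.1 (der_frac_zero (R := MvPolynomial Idx k)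
      (((J.pD j).comap φ).sub ((J₀.pD j).map φ)) (der_mvPoly_zero
        ((((J.pD j).comap φ).sub ((J₀.pD j).map φ)).comap (algebraMap _ _)) (fun c => ?_)
        fun i => ?_) f)
    · simp [h5, hα c j, h2 c j]
    · simp [← h1, h4, J.p_x, J₀.p_x, apply_ite φ]
  · convert Pi.linearIndependent_single_one Idx K using 1
    funext i j
    simp [h4, J.p_x, Pi.single_apply]
  · simp [Evol.Dt, Jets.ev_eq, h4, Jets.evD_x, hP]

theorem spin_mirror {T : Evol} (hT : T.IsSpin) : Linked T T.mirror := by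
  obtain ⟨c, hc, h0, h1⟩ := hT
  let k := T.J.DD.ker
  obtain ⟨J₀, a1, a2⟩ := exists_ratJets k (FractionRing (MvPolynomial Idx k))
  let c₀ : Fin 5 → FractionRing (MvPolynomial Idx k) := fun i =>
    algebraMap (MvPolynomial Idx k) _ (MvPolynomial.C ⟨c i, T.J.DD_const (hc i)⟩)
  let P₀ : Fin 2 → FractionRing (MvPolynomial Idx k) :=
    ![J₀.x (0, 2) - 2 * (J₀.x (0, 1) ^ 2 + rr c₀ (J₀.x (0, 0))) / (J₀.x (0, 0) + J₀.x (1, 0)) +
      (c₀ 1 + 2 * c₀ 2 * J₀.x (0, 0) + 3 * c₀ 3 * J₀.x (0, 0) ^ 2 + 4 * c₀ 4 * J₀.x (0, 0) ^ 3) / 2,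
    -J₀.x (1, 2) + 2 * (J₀.x (1, 1) ^ 2 + rr c₀ (-J₀.x (1, 0))) / (J₀.x (0, 0) + J₀.x (1, 0)) +
      (c₀ 1 + 2 * c₀ 2 * (-J₀.x (1, 0)) + 3 * c₀ 3 * (-J₀.x (1, 0)) ^ 2 +
        4 * c₀ 4 * (-J₀.x (1, 0)) ^ 3) / 2]
  obtain ⟨φ, b1, b2, b3⟩ := exists_incl a1 a2 T.J k.subtype fun c => T.J.isConst_iff.2 c.2
  obtain ⟨ψ, b4, b5, b6⟩ := exists_incl a1 a2 T.J.mirror k.subtype fun c i => by
    rw [Jets.mirror_p]
    exact mul_eq_zero_of_right _ (T.J.isConst_iff.2 c.2 i)
  refine .trans _ _ _ (.rel _ _ (b3 P₀ T.P fun a => ?_)) (.symm _ _ (.rel _ _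
    (b6 P₀ T.P fun a => ?_)))
  · fin_cases a
    · simp [P₀, c₀, rr, b1, b2, h0, map_ofNat]
    · simp [P₀, c₀, rr, b1, b2, h1, map_ofNat]
  · fin_cases a
    · simp [P₀, c₀, rr, b4, b5, h0, map_ofNat, Jets.mirror_x]
    · simp [P₀, c₀, rr, b4, b5, h1, map_ofNat, Jets.mirror_x]

theorem drift_xyz {S : Evol} (hS : S.IsDrift) :
    (S.boost (-1)).IsXYZ ∧ (S.mirror.boost 1).IsXYZ := by
  refine ⟨⟨?_, ?_⟩, ?_, ?_⟩
  · simp [hS.1]
    ring
  · simp [hS.2]
    ring
  · simp [hS.1, Evol.u, Evol.v, Jets.mirror_x]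
    ring
  · simp [hS.2, Evol.u, Evol.v, Jets.mirror_x]
    ring

end Pool.Agent.Lib.MP_dfc315_mp
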