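import Mathlib
import Pool.Agent.Lib.MP_dfc315_mp.Spec

set_option autoImplicit false

namespace Pool.Agent.Lib.MP_dfc315_mp

open HahnSeries Submodule

attribute [-simp] HahnSeries.C_apply

attribute [local irreducible] lax br Bm ev cn

section

variable {R R' : Type*} [CommRing R] [CommRing R']

/-- The first Lax operator. -/
noncomputable def N1 (d : Der R) (c : Fin 5 → R) (x : Idx → R) (g : R) :
    Q (Ser R) →+ Q (Ser R) := lax (sder d) (tt (-1)) (C ∘ c) (SS (C ∘ x) (C g))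

/-- The time part of the first Lax pair. -/
noncomputable def M1 (d : Der R) (c : Fin 5 → R) (x : Idx → R) (g : R) :
    Q (Ser R) →+ Q (Ser R) := lax (sder d) (tt (-1)) (C ∘ c) (V1 (tt (-1)) (C ∘ c) (C ∘ x) (C g))

theorem O_Cv {ι : Type*} (f : ι → R) (i : ι) : O 0 ((C ∘ f) i : Ser R) := O_C _

theorem tt_sq : (tt (-1) * tt (-1) : Ser R) = tt (-2) := tt_mul _ _

theorem reg1 (d : Der R) (c : Fin 5 → R) (x : Idx → R) (g : R) :
    Reg fun y => N1 d c x g y + (tt (-1) : Ser R) • br (SS (C ∘ x) (C g)) y := fun k y hy i => by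
  have := O_Bm (O.zero (k := 0)) (O_Cv c) (O_br (O_Cv (SS x g)) hy) i
  rw [zero_add, zero_add, map_SS] at this
  convert ((hy i).sder d).sub this using 1
  simp only [N1, lax_apply, Pi.add_apply, Bm_split (tt (-1) : Ser R)]
  ring

theorem reg1' (d : Der R) (c : Fin 5 → R) (x : Idx → R) (g : R) (k : ℤ) (y : Q (Ser R))
    (hy : ∀ i, O k (y i)) (i : Fin 3) :
    O (k - 1) ((M1 d c x g y - (tt (-2) : Ser R) • br (SS (C ∘ x) (C g)) y) i) := by
  have h1 := O_Bm (O_tt (-1)) (fun i => (O_Cv c i).mono (by omega))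
    (O_br (O_Cv (V1 0 c x g)) hy) i
  have h2 := (O_tt (-1)).mul (O_Bm (O.zero (k := 0)) (O_Cv c) (O_br (O_Cv (SS x g)) hy) i)
  have h3 : br (V1 (tt (-1)) (C ∘ c) (C ∘ x) (C g)) y =
      br (C ∘ V1 0 c x g) y - (tt (-1) : Ser R) • br (C ∘ SS x g) y := by
    apply vext <;> simp [V1, SS, SS', qq, map_ofNat] <;> ring
  convert ((((hy i).sder d).mono (l := k - 1) (by omega)).sub (h1.mono (by omega))).add
    (h2.mono (by omega)) using 1
  simp only [M1, lax_apply, Pi.add_apply, Pi.sub_apply, h3, map_sub, map_smul, Pi.smul_apply,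
    Bm_split (tt (-1) : Ser R) _ (br (C ∘ SS x g) y), ← map_SS, smul_eq_mul]
  rw [← tt_sq]
  ring

theorem map_N1 {d : Der R} {e : Der R'} {φ : R →+* R'} (h : ∀ a, e (φ a) = φ (d a))
    (c : Fin 5 → R) (x : Idx → R) (g : R) (y : Q (Ser R)) :
    lmap φ ∘ N1 d c x g y = N1 e (φ ∘ c) (φ ∘ x) (φ g) (lmap φ ∘ y) := by
  rw [N1, map_lax _ (sder_lmap h), map_SS, lmap_comp_C, lmap_comp_C, lmap_tt, lmap_C, N1]

theorem Eig.cn_eq {η U : Q (Ser R)} {κ s : Ser R} {d : Der R} {c : Fin 5 → Ser R}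
    (h : lax (sder d) s c U η + κ • η = 0) (i : Fin 3) : cn d κ (η i) = Bm s c (br U η) i := by
  have := congrFun h i
  simp only [lax_apply, Pi.add_apply, Pi.smul_apply, smul_eq_mul, Pi.zero_apply] at this
  rw [cn_apply]
  linear_combination this

theorem cn_conn (d : Der R) (κ : Ser R) : IsConn (sder d) (cn d κ) := cn_mul d κ

theorem data1 {K : Type*} [CommRing K] {f : K →+* R} {d t : Der R} (hdt : ∀ a, d (t a) = t (d a))
    {x : Idx → K} {g : K} {c : Fin 5 → K} (hg : g * (x (0, 0) + x (1, 0)) = 1) {h : R}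
    (hh : 2 * h = 1) (hx : ∀ a i, d (f (x (a, i))) = f (x (a, i + 1)))
    (ht : ∀ a, t (f (x (a, 0))) = f (P1 c x g a)) (hc : ∀ i, d (f (c i)) = 0)
    (hc' : ∀ i, t (f (c i)) = 0) {η : Fin 2 → Q (Ser R)} {κ : Fin 2 → Ser R}
    (H : Eigs (N1 d (f ∘ c) (f ∘ x) (f g)) (f ∘ x) (f g) η κ) :
    ∃ ω : Fin 2 → Ser R, ∀ j, O (-2) (ω j) ∧ sder d (ω j) = sder t (κ j) ∧
      ∀ δ : DerM ((C : R →+* Ser R).comp f) (Ser R), (∀ i, δ (c i) = 0) →
        (∀ a i, δ (x (a, i)) = (cn d (κ j))^[i] (ee (C ∘ f ∘ x) (η j) a)) →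
        ∀ a, cn t (ω j) (ee (C ∘ f ∘ x) (η j) a) = δ (P1 c x g a) := by
  let φ := (C : R →+* Ser R).comp f
  have h2 : ∀ a i, sder d (φ (x (a, i))) = φ (x (a, i + 1)) := fun a i => by simp [φ, hx]
  have h3 : ∀ a, sder t (φ (x (a, 0))) = φ (P1 c x g a) := fun a => by simp [φ, ht]
  have h4 : ∀ i, sder d (φ (c i)) = 0 := fun i => by simp [φ, hc]
  have h5 : ∀ i, sder t (φ (c i)) = 0 := fun i => by simp [φ, hc']
  have hz := ZC1 (A := Ser R) (x := C ∘ f ∘ x) (g := C (f g)) (c := C ∘ f ∘ c)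
    (by simpa [φ] using congrArg φ hg) h2 (fun a => (h3 a).trans (map_P1 φ _ _ _ a))
    (sder_tt _ (-1)) h4
  obtain ⟨ω, h6⟩ := H.compat (by simpa using congrArg f hg) hh (reg1 _ _ _ _) (lax_conn _ _ _ _)
    (lax_conn _ _ _ _) (lax_comm (sder_comm hdt) (sder_tt _ _) (sder_tt _ _) h4 h5 hz)
    (reg1' _ _ _ _)
  exact ⟨ω, fun j => ⟨by
    simpa using ((h6 j).2.2.mono (by omega)).add ((O_C (sg j)).zmul (O_tt (-2))), (h6 j).2.1,
    fun δ a1 a2 => LIN1 (A := Ser R) hg h2 h3 (sder_tt _ _) h4 (cn_conn _ _) (cn_conn _ _) (Eig.cn_eq (H j).eq)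
      (Eig.cn_eq (h6 j).1) a2 a1 rfl rfl rfl⟩⟩

end

/-- Constants as pairs of series. -/
noncomputable def CV (L : Type) [Field L] : L →+* GG L := RingHom.pi fun _ => C

theorem CV_mul {L : Type} [Field L] (a : L) (y : GG L) : CV L a * y = a • y :=
  funext fun j => C_mul a (y j)

@[simp] theorem CV_apply {L : Type} [Field L] (a : L) (j : Fin 2) : CV L a j = C a := rfl

theorem ee_GG {L : Type} [Field L] (x : Idx → L) (η : Fin 2 → Q (Ser L)) (a j : Fin 2) :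
    ee (CV L ∘ x) (fun i j => η j i) a j = ee (C ∘ x) (η j) a := by
  fin_cases a <;> simp [ee, ev_apply]

theorem mor1 {L : DF} (X : Diag L) {x : Idx → L.L} {g : L.L} {c : Fin 5 → L.L}
    (hg : g * (x (0, 0) + x (1, 0)) = 1) {η : Fin 2 → Q (Ser L.L)}
    (he : ∀ a j, X.e a j = ee (C ∘ x) (η j) a) (h : ∀ j i, cn L.d (X.κ j) (η j i) =
      Bm (tt (-1)) (C ∘ c) (br (SS (C ∘ x) (C g)) (η j)) i) :
    X.Mor X (mulV fun _ => tt (-1)) := by
  let W := LinearMap.range X.ι ⊔ span L.L (Set.range fun i j => η j i)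
  have h7 : ∀ a, ee (CV L.L ∘ x) (fun i j => η j i) a = X.e a := fun a =>
    funext fun j => by rw [ee_GG, he]
  obtain ⟨h8, h9⟩ := rat1 (W := W) CV_mul hg (cnV_conn L.d X.κ) (y := fun i j => η j i)
    (s := fun _ => tt (-1)) (c := c) (fun i => mem_sup_right (subset_span ⟨i, rfl⟩))
    (fun a => by rw [h7]; exact mem_sup_left (X.range_D (X.e_mem a)))
    (funext fun i => funext fun j => (h j i).trans (by fin_cases i <;> simp [SS]))
  refine X.mor_mul (fun _ => sder_tt _ _) (fun _ => sder_tt _ _) (W := W) (fun y hy => ?_)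
    ⟨_, fg_span (Set.finite_range _), le_rfl⟩ fun a => h7 a ▸ h8 a
  refine ((?_ : W ≤ (cnV_conn L.d X.κ).core W) hy).2
  exact sup_le (fun y hy => ⟨mem_sup_left hy, mem_sup_left (X.range_D hy)⟩) (span_le.2 (by
    rintro _ ⟨i, rfl⟩
    exact ⟨mem_sup_right (subset_span ⟨i, rfl⟩), h9 i⟩))

theorem model1 {T : Evol} {L : DF} (f : DHom T.df L) {c : Fin 5 → T.K} {g : T.K}
    (hg : g * (T.J.x (0, 0) + T.J.x (1, 0)) = 1) (hc : ∀ i, T.J.IsConst (c i))
    (hP : T.P = P1 c T.J.x g) {η : Fin 2 → Q (Ser L.L)} {κ : Fin 2 → Ser L.L}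
    (h : Eigs (N1 L.d (f.f ∘ c) (f.f ∘ T.J.x) (f.f g)) (f.f ∘ T.J.x) (f.f g) η κ) :
    ∃ X : Diag L, X.κ = κ ∧ (∀ a j, X.e a j = ee (C ∘ f.f ∘ T.J.x) (η j) a) ∧
      (∀ j, X.c j = -sg j) ∧ (∀ y, X.ι (TP T f.f y) = X.T (X.ι y)) ∧
      X.Mor X (mulV fun _ => tt (-1)) := by
  have h1 : f.f g * ((f.f ∘ T.J.x) (0, 0) + (f.f ∘ T.J.x) (1, 0)) = 1 := by
    simpa using congrArg f.f hg
  obtain ⟨ω, h6⟩ := data1 (t := L.t) L.comm hg (mul_inv_cancel₀ two_ne_zero)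
    (fun a i => by simp [f.hd]) (fun a => by simp [f.ht, Jets.evD_x, hP])
    (fun i => by simp [f.hd, T.J.DD_const (hc i)])
    (fun i => by simp [f.ht, Jets.evD, T.J.dif_const _ _ (hc i)]) h
  let X := h.diag h1 η (fun j i => by simpa using O.zero) ω (fun j => (h6 j).1)
    fun j => (h6 j).2.1
  refine ⟨X, rfl, fun _ _ => rfl, fun _ => rfl, X.intertwine f fun a j => ?_,
    mor1 X h1 (fun _ _ => rfl) fun j => Eig.cn_eq (h j).eq⟩
  rw [hP]
  exact (h6 j).2.2 (X.δ f.f j) (fun i => by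
    rw [X.δ_apply, dP, T.J.dif_const _ _ (hc i), map_zero, Pi.zero_apply]) (X.δ_x f.f j) a

/-- A field with zero derivations. -/
abbrev DF.triv (k : Type) [Field k] [CharZero k] : DF := ⟨k, Der.zero _, Der.zero _, fun _ => rfl⟩

theorem triv_dep {k : Type} [Field k] [CharZero k] (Y : Diag (DF.triv k)) {F : GG k} {p : ℕ →₀ k}
    {q : Idx →₀ k} (h : p ≠ 0 ∨ q ≠ 0)
    (h' : Finsupp.linearCombination k (fun n j => F j * Y.D^[n] (Y.e 0) j) p =
      Finsupp.linearCombination k (fun (i : Idx) j => Y.D^[i.2] (Y.e i.1) j) q) :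
    p ≠ 0 ∧ (∑ i ∈ p.support, C (p i) * Y.κ 0 ^ i) * F 0 * Y.e 0 0 =
      ∑ i ∈ q.support, C (q i) * Y.κ 0 ^ i.2 * Y.e i.1 0 := by
  refine ⟨fun h0 => h.elim (· h0) (· (Y.ι_eq_zero (h'.symm.trans (by simp [h0])))), ?_⟩
  have := congrFun h' 0
  simp only [Finsupp.linearCombination_apply, Finsupp.sum, Finset.sum_apply, Pi.smul_apply,
    Y.D_iter, cn_zero, ← C_mul] at this
  simp only [Finset.sum_mul, mul_assoc, ← this]
  exact Finset.sum_congr rfl fun i _ => by ring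

theorem sys1 {T : Evol} (hT : T.IsLL) {L : DF} (f : DHom T.df L) :
    ∃ X : Diag L, (∀ y, X.ι (TP T f.f y) = X.T (X.ι y)) ∧ X.Mor X (mulV fun _ => tt (-1)) ∧
      (∀ j, X.c j = -sg j) ∧ ∀ F G : GG L.L, (∀ j, sder L.d (F j) = 0) →
        (∀ j, sder L.d (G j) = 0) → X.Mor X (mulV F) → X.Mor X (mulV G) →
        G 0 ^ 2 = F 0 ^ 3 - 4 * F 0 → ∃ c, F 0 = C c := by
  obtain ⟨c, hc, h0, h1⟩ := hT
  have hg := inv_mul_cancel₀ T.J.uv_ne
  have hP : T.P = P1 c T.J.x (T.J.x (0, 0) + T.J.x (1, 0))⁻¹ := funext fun a => by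
    fin_cases a
    · exact h0.trans (by simp [P1, qq, rr, div_eq_mul_inv])
    · exact h1.trans (by simp [P1, qq, rr, div_eq_mul_inv])
  obtain ⟨Γ, _, φ, ε, ι, e, y, g, a1, a2, a3, a4, a5, a6, a7⟩ := exists_spec L.d
    (x := f.f ∘ T.J.x) (fun a i => by simp [f.hd]) 
    (by simpa only [map_add, Function.comp_apply] using (map_ne_zero f.f).2 T.J.uv_ne) (T.J.aeval_injective f.hd)
  let c' : Fin 5 → L.d.ker := fun i => ⟨f.f (c i), by simp [f.hd, T.J.DD_const (hc i)]⟩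
  have a8 : φ g = f.f (T.J.x (0, 0) + T.J.x (1, 0))⁻¹ := by
    rw [map_inv₀, map_add]
    exact eq_inv_of_mul_eq_one_left (by
      simpa [(funext_iff.1 a4 : ∀ i, φ (y i) = f.f (T.J.x i))] using congrArg φ a7)
  have a9 : φ ∘ ι ∘ c' = f.f ∘ c := funext fun i => a5 _
  have a10 : (2 : Γ) * ι 2⁻¹ = 1 := by
    rw [← map_ofNat ι, ← map_mul, mul_inv_cancel₀ two_ne_zero, map_one]
  obtain ⟨η, κ, h⟩ := exists_eigs a7 a10 (reg1 e (ι ∘ c') y g)
  have b1 := h.map φ (map_N1 a2 _ _ _)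
  rw [a4, a8, a9] at b1
  obtain ⟨X, b2, b3, b4, b5, b6⟩ := model1 f hg hc hP b1
  refine ⟨X, b5, b6, b4, fun F G hF hG mF mG hFG => ?_⟩
  have c1 := h.map ε (map_N1 (e := Der.zero _) (fun a => (a3 a).symm) _ _ _)
  have c2 : ε g * ((ε ∘ y) (0, 0) + (ε ∘ y) (1, 0)) = 1 := by simpa using congrArg ε a7
  let Y := Eigs.diag (L := DF.triv L.d.ker) c1 c2
    (fun j => lmap ε ∘ η j)
    (fun j i => by simpa using O.zero) 0 (fun _ => O.zero) fun _ => rfl
  obtain ⟨α, m, n, c3⟩ := spec_id (C : L.d.ker →+* Ser L.d.ker) c2 (ε ∘ ι ∘ c')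
  obtain ⟨c4, c5⟩ := c3 (tt (-1)) (lmap ε (κ 0)) (lmap ε ∘ η 0) (funext fun i => by
    simpa [cn_zero] using (cn_zero _ _ 1).symm.trans (Eig.cn_eq (c1 0).eq i))
  choose F' hF' using fun j => exists_lift (E := L.d.ker) (x := F j) fun n =>
    congrArg (HahnSeries.coeff · n) (hF j)
  choose G' hG' using fun j => exists_lift (E := L.d.ker) (x := G j) fun n =>
    congrArg (HahnSeries.coeff · n) (hG j)
  have key : ∀ (F : GG L.L) (F' : GG L.d.ker), (∀ j, lmap L.d.ker.subtype (F' j) = F j) →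
      (∀ j, sder L.d (F j) = 0) → X.Mor X (mulV F) →
      ∃ (p : ℕ →₀ L.d.ker) (q : Idx →₀ L.d.ker), p ≠ 0 ∧
      (∑ i ∈ p.support, C (p i) * Y.κ 0 ^ i) * F' 0 * Y.e 0 0 =
        ∑ i ∈ q.support, C (q i) * Y.κ 0 ^ i.2 * Y.e i.1 0 := fun F F' hF' hF mF => by
    let v : Idx → Fin 2 → Ser Γ := fun i j => (cn e (κ j))^[i.2] (ee (C ∘ y) (η j) i.1)
    have d1 : ∀ i, (fun j => lmap φ (v i j)) = X.D^[i.2] (X.e i.1) := fun i => funext fun j => by
      rw [lmap_cn a2, X.D_iter, b2, b3, map_ee, lmap_comp_C, a4]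
    have d2 : ∀ i, (fun j => lmap ε (v i j)) = Y.D^[i.2] (Y.e i.1) := fun i => funext fun j => by
      rw [lmap_cn (e := Der.zero _) (fun a => (a3 a).symm), Y.D_iter, map_ee, lmap_comp_C]
      rfl
    have d3 : ∀ j, lmap φ (lmap ι (F' j)) = F j := fun j =>
      (HahnSeries.ext (funext fun n => a5 _)).trans (hF' j)
    have d4 : ∀ j, lmap ε (lmap ι (F' j)) = F' j := fun j => HahnSeries.ext (funext fun n => a6 _)
    obtain ⟨p, q, d5, d6⟩ := spec_dep a1 ε (fun k j => lmap ι (F' j) * v (0, k) j) v (by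
      convert mF.dep 0
      · rw [map_mul, d3, congrFun (d1 _), mulV_apply,
          (Function.Commute.iterate_left (g := (F * ·)) (X.D_mul hF) _).eq, Pi.mul_apply]
      · exact congrFun (d1 _) _)
    simp only [map_mul, d4, fun i => congrFun (d2 i)] at d6
    exact ⟨p, q, triv_dep Y d5 d6⟩
  obtain ⟨k, hk⟩ := elliptic_ser (e := fun a => Y.e a 0) (c1 0).pole (fun h0 => by simpa [h0] using ((Y.he 0).2 0).1)
    c4 c5 (F := F' 0) (G := G' 0) (by
      rintro _ (rfl | rfl)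
      exacts [key F F' hF' hF mF, key G G' hG' hG mG]) (by
      ext n
      have := congrArg (·.coeff n) hFG
      rw [← hF', ← hG', ← map_pow, ← map_pow, ← map_ofNat (lmap L.d.ker.subtype), ← map_mul,
        ← map_sub] at this
      exact this)
  exact ⟨k, by rw [← hF', hk, lmap_C]; rfl⟩

end Pool.Agent.Lib.MP_dfc315_mp
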