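import Mathlib
import Pool.Agent.Lib.MP_dfc315_mp.Sys1

set_option autoImplicit false

namespace Pool.Agent.Lib.MP_dfc315_mp

open HahnSeries Submodule

attribute [-simp] HahnSeries.C_apply

attribute [local irreducible] lax br Bm ev cn WW

theorem exists_w : ∃ w : Ser ℚ, w ^ 2 = tt (-1) ^ 2 + tt 1 ^ 2 ∧ O 1 (w - tt (-1)) := by
  obtain ⟨ρ, h1, h2⟩ := exists_fix' 1 (fun ρ : Ser ℚ => C 2⁻¹ * (tt 1 * (tt 1 * tt 1 - ρ * ρ)))
    (fun x hx => (O_C _).zmul ((O_tt 1).mul' (((O_tt 1).mul (O_tt 1)).sub (hx.mul hx)) (by omega)))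
    fun k x y hx hy h => by
      convert (O_C 2⁻¹).zmul ((O_tt 1).mul' (h.neg.mul (hx.add hy)) (m := k + 1) (by omega))
        using 1
      ring
  refine ⟨tt (-1) + ρ, ?_, by simpa using h1⟩
  linear_combination (-2 * tt (-1)) * h2 + (tt 1 * tt 1 - ρ * ρ) * tt_inv (R := ℚ) +
    tt (-1) * tt 1 * (tt 1 * tt 1 - ρ * ρ) * C_hh (h := (2⁻¹ : ℚ)) (by norm_num)

/-- The third coordinate of the elliptic curve. -/
noncomputable def ww (R : Type*) [Field R] [CharZero R] : Ser R :=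
  lmap (Rat.castHom R) exists_w.choose

/-- The properties of the third coordinate. -/
structure IsW {R : Type*} [CommRing R] (w : Ser R) : Prop where
  sq : w ^ 2 = tt (-1) ^ 2 + tt 1 ^ 2
  lead : O 1 (w - tt (-1))
  cst : ∀ d : Der R, sder d w = 0

theorem isW (R : Type*) [Field R] [CharZero R] : IsW (ww R) :=
  ⟨by simpa [ww] using congrArg (lmap (Rat.castHom R)) exists_w.choose_spec.1,
    by simpa [ww] using exists_w.choose_spec.2.lmap (Rat.castHom R), fun d => HahnSeries.ext <|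
      funext fun n => d.mem_ker.1 (SubfieldClass.ratCast_mem d.ker _)⟩

theorem lmap_ww {R R' : Type*} [Field R] [CharZero R] [Field R'] [CharZero R'] (φ : R →+* R') :
    lmap φ (ww R) = ww R' := HahnSeries.ext <| funext fun _ => map_ratCast φ _

section

variable {R R' : Type*} [CommRing R] [CommRing R']

/-- The second Lax matrix. -/
noncomputable def U2 (w : Ser R) (x : Idx → R) (g : R) : Q (Ser R) :=
  WW (tt (-1)) (tt 1) w (SS (C ∘ x) (C g))

/-- The second Lax operator. -/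
noncomputable def N2 (d : Der R) (w : Ser R) (x : Idx → R) (g : R) : Q (Ser R) →+ Q (Ser R) :=
  lax (sder d) 1 0 (U2 w x g)

/-- The time part of the second Lax pair. -/
noncomputable def M2 (d : Der R) (w : Ser R) (x : Idx → R) (g : R) : Q (Ser R) →+ Q (Ser R) :=
  lax (sder d) 1 0 (V2 (tt (-1)) (tt 1) w (C ∘ x) (C g))

/-- The normalised anisotropy operator. -/
noncomputable def E2 (w : Ser R) (y : Q (Ser R)) : Q (Ser R) :=
  (tt 1 : Ser R) • WW (tt (-1)) (tt 1) w y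

variable {w : Ser R} (hw : IsW w)

include hw

theorem E2_lead {k : ℤ} {y : Q (Ser R)} (hy : ∀ i, O k (y i)) (i : Fin 3) :
    O (k + 1) (E2 w y i - y i) := by
  have h : E2 w y - y = WW 0 (tt 1 * tt 1) (tt 1 * (w - tt (-1))) y := by
    have := tt_inv (R := R)
    apply vext <;> simp [E2] <;> grind
  rw [← Pi.sub_apply, h]
  exact (O_WW O.zero ((O_tt 1).mul (O_tt 1)) ((O_tt 1).mul hw.lead) hy i).mono (by omega)

theorem reg2 (d : Der R) (x : Idx → R) (g : R) :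
    Reg fun y => N2 d w x g y + (tt (-1) : Ser R) • br (SS (C ∘ x) (C g)) y := fun k y hy i => by
  have h : br (U2 w x g) y = br (WW 0 (tt 1) (w - tt (-1)) (C ∘ SS x g)) y +
      (tt (-1) : Ser R) • br (SS (C ∘ x) (C g)) y := by
    apply vext <;> simp [U2, ← map_SS] <;> ring
  convert ((hy i).sder d).sub ((O_br (O_WW O.zero (O_tt 1) hw.lead (O_Cv (SS x g))) hy i).mono
    (by omega)) using 1
  simp only [N2, lax_apply, Pi.add_apply, Bm_one, h]
  ring

theorem reg2' (d : Der R) (x : Idx → R) (g : R) (k : ℤ) (y : Q (Ser R)) (hy : ∀ i, O k (y i))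
    (i : Fin 3) :
    O (k - 1) ((M2 d w x g y - (tt (-2) : Ser R) • br (SS (C ∘ x) (C g)) y) i) := by
  have h1 : O (-1) w := by simpa using (hw.lead.mono (by omega)).add (O_tt (-1))
  have h : br (V2 (tt (-1)) (tt 1) w (C ∘ x) (C g)) y =
      -br (WW (tt (-1)) (tt 1) w (C ∘ br (SS x g) (SS' x g))) y -
      br (WW ((w - tt (-1)) * tt (-1)) (-(tt 1 * w)) (-(tt 1 * tt 1)) (C ∘ SS x g)) y -
      (tt (-2) : Ser R) • br (SS (C ∘ x) (C g)) y := by
    rw [V2, ← tt_sq, map_br, map_SS', map_SS]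
    apply vext <;> simp <;> ring
  convert ((((hy i).sder d).mono (l := k - 1) (by omega)).add ((O_br (O_WW (O_tt (-1))
    ((O_tt 1).mono (by omega)) h1 (O_Cv (br (SS x g) (SS' x g)))) hy i).mono (by omega))).add
    ((O_br (O_WW (hw.lead.mul (O_tt (-1))) ((O_tt 1).mul h1).neg
      (((O_tt 1).mul' (O_tt 1) (by omega)).neg) (O_Cv (SS x g))) hy i).mono (by omega)) using 1
  simp only [M2, lax_apply, Pi.sub_apply, Pi.neg_apply, Bm_one, h]
  ring

theorem data2 {d t : Der R} (hdt : ∀ a, d (t a) = t (d a)) {x : Idx → R} {g : R}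
    (hg : g * (x (0, 0) + x (1, 0)) = 1) {h : R} (hh : 2 * h = 1)
    (hx : ∀ a i, d (x (a, i)) = x (a, i + 1)) (ht : ∀ a, t (x (a, 0)) = P2 x g a)
    {η : Fin 2 → Q (Ser R)} {κ : Fin 2 → Ser R} (H : Eigs (N2 d w x g) x g η κ) :
    ∃ ω : Fin 2 → Ser R, ∀ j, M2 t w x g (η j) + ω j • η j = 0 ∧ sder d (ω j) = sder t (κ j) ∧
      O (-1) (ω j - C (sg j) * tt (-2)) :=
  H.compat hg hh (reg2 hw _ _ _) (lax_conn _ _ _ _) (lax_conn _ _ _ _)
    (lax_comm (sder_comm hdt) (DerM.one _) (DerM.one _) (fun _ => map_zero _) (fun _ => map_zero _)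
      (ZC2 (A := Ser R) (by simpa using congrArg (C : R →+* Ser R) hg) (fun a i => by simp [hx])
        (fun a => by simp [ht, map_P2]) tt_inv hw.sq (sder_tt _ _) (sder_tt _ _) (hw.cst _)
        (sder_tt _ _) (sder_tt _ _) (hw.cst _))) (reg2' hw _ _ _)

theorem lin2 {K : Type*} [CommRing K] {f : K →+* R} {d t : Der R} {x : Idx → K} {g : K}
    (hg : g * (x (0, 0) + x (1, 0)) = 1) (hx : ∀ a i, d (f (x (a, i))) = f (x (a, i + 1)))
    (ht : ∀ a, t (f (x (a, 0))) = f (P2 x g a)) {ψ : Q (Ser R)} {κ ω : Ser R}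
    (h1 : N2 d w (f ∘ x) (f g) ψ + κ • ψ = 0) (h2 : M2 t w (f ∘ x) (f g) ψ + ω • ψ = 0)
    (δ : DerM ((C : R →+* Ser R).comp f) (Ser R))
    (h3 : ∀ a i, δ (x (a, i)) = (cn d κ)^[i] (ee (C ∘ f ∘ x) (E2 w ψ) a)) (a : Fin 2) :
    cn t ω (ee (C ∘ f ∘ x) (E2 w ψ) a) = δ (P2 x g a) :=
  LIN2 (A := Ser R) (g' := C (f g)) hg (fun a i => by simp [hx]) (fun a => by simp [ht]) tt_inv hw.sq (sder_tt _ _)
    (sder_tt _ _) (hw.cst _) (sder_tt _ _) (sder_tt _ _) (hw.cst _) (cn_conn _ _) (cn_conn _ _)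
    (fun i => by rw [Eig.cn_eq h1, Bm_one, U2]) (fun i => by rw [Eig.cn_eq h2, Bm_one]) h3 rfl rfl a

omit hw

theorem map_N2 {d : Der R} {e : Der R'} {φ : R →+* R'} (h : ∀ a, e (φ a) = φ (d a))
    (w : Ser R) (x : Idx → R) (g : R) (y : Q (Ser R)) :
    lmap φ ∘ N2 d w x g y = N2 e (lmap φ w) (φ ∘ x) (φ g) (lmap φ ∘ y) := by
  rw [N2, map_lax _ (sder_lmap h), U2, map_WW, map_SS, lmap_comp_C, lmap_tt, lmap_tt, lmap_C,
    map_one, N2, U2]
  congr 2
  exact funext fun _ => map_zero _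

theorem map_E2 (φ : R →+* R') (w : Ser R) (y : Q (Ser R)) :
    lmap φ ∘ E2 w y = E2 (lmap φ w) (lmap φ ∘ y) := by
  apply vext <;> simp [E2]

end

theorem mor2 {L : DF} (X : Diag L) {x : Idx → L.L} {g : L.L} {w : Ser L.L} (hw : IsW w)
    (hg : g * (x (0, 0) + x (1, 0)) = 1) {η : Fin 2 → Q (Ser L.L)}
    (he : ∀ a j, X.e a j = ee (C ∘ x) (E2 w (η j)) a)
    (h : ∀ j, N2 L.d w x g (η j) + X.κ j • η j = 0) :
    X.Mor X (mulV fun _ => tt (-1) ^ 2 + tt 1 ^ 2) ∧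
      X.Mor X (mulV fun _ => w * (tt (-1) ^ 2 - tt 1 ^ 2)) := by
  let y : Q (GG L.L) := fun i j => E2 w (η j) i
  let z : Q (GG L.L) := fun i j => tt 1 * WA (tt (-1)) (tt 1) w (η j) i
  let W := LinearMap.range X.ι ⊔ span L.L (Set.range (Sum.elim y z))
  have h1 : ∀ j i, cn L.d (X.κ j) (η j i) = br (U2 w x g) (η j) i := fun j i => by
    rw [Eig.cn_eq (h j), Bm_one]
  have h2 : ∀ j (p q r : Ser L.L), sder L.d p = 0 → sder L.d q = 0 → sder L.d r = 0 → ∀ i,
      cn L.d (X.κ j) (tt 1 * WW p q r (η j) i) = tt 1 * WW p q r (br (U2 w x g) (η j)) i :=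
    fun j p q r a1 a2 a3 i => by fin_cases i <;> simp [cn_mul, a1, a2, a3, h1]
  have h7 : ∀ a, ee (CV L.L ∘ x) y a = X.e a := fun a => funext fun j => by rw [ee_GG, he]
  have hy : ∀ i, y i ∈ W := fun i => mem_sup_right (subset_span ⟨.inl i, rfl⟩)
  have hz : ∀ i, z i ∈ W := fun i => mem_sup_right (subset_span ⟨.inr i, rfl⟩)
  obtain ⟨h8, h9, h10⟩ := rat2 (W := W) CV_mul hg (cnV_conn L.d X.κ)
    (s := fun _ => tt (-1) ^ 2 + tt 1 ^ 2) hy hz
    (fun a => by rw [h7]; exact mem_sup_left (X.range_D (X.e_mem a)))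
    (fun a => by rw [h7]; exact mem_sup_left (X.range_D (X.range_D (X.e_mem a))))
    (funext fun i => funext fun j => (h2 j _ _ _ (sder_tt _ _) (sder_tt _ _) (hw.cst _) i).trans (by
      rw [U2, WW_br]
      fin_cases i <;> simp [SS, z] <;> ring))
    (funext fun i => funext fun j => (h2 j _ _ _ (by simp [DerM.mul', hw.cst])
      (by simp [DerM.mul', hw.cst]) (by simp [DerM.pow]) i).trans (by
      rw [U2, WA_br tt_inv hw.sq]
      fin_cases i <;> simp [SS, y, E2] <;> ring))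
  have h11 : ∀ y ∈ W, X.D y ∈ W := fun y hy' => by
    refine ((?_ : W ≤ (cnV_conn L.d X.κ).core W) hy').2
    exact sup_le (fun y hy => ⟨mem_sup_left hy, mem_sup_left (X.range_D hy)⟩) (span_le.2 (by
      rintro _ ⟨i | i, rfl⟩
      exacts [⟨hy i, h9 i⟩, ⟨hz i, h10 i⟩]))
  have h12 : Alm W (LinearMap.range X.ι) := ⟨_, fg_span (Set.finite_range _), le_rfl⟩
  have h13 : ∀ d : Der L.L, sder d (tt (-1) ^ 2 + tt 1 ^ 2) = 0 := fun d => by simp [DerM.pow]
  have h14 := X.mor_mul (F := fun _ => tt (-1) ^ 2 + tt 1 ^ 2) (fun _ => h13 _) (fun _ => h13 _)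
    h11 h12 fun a => h7 a ▸ h8 a
  refine ⟨h14, X.mor_mul (fun _ => by simp [DerM.pow, DerM.mul', hw.cst])
    (fun _ => by simp [DerM.pow, DerM.mul', hw.cst])
    (W := W.map (mulV fun _ => tt (-1) ^ 2 + tt 1 ^ 2) ⊔ W) (fun v hv => ?_)
    (((h12.map _).trans h14.rat).sup h12) fun a => ?_⟩
  · obtain ⟨_, ⟨v, a1, rfl⟩, v', a2, rfl⟩ := mem_sup.1 hv
    rw [map_add, ← h14.hD]
    exact add_mem_sup (mem_map_of_mem (h11 v a1)) (h11 v' a2)
  · convert add_mem_sup (mem_map_of_mem (ee_mem (x := x) CV_mul hz a))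
      (ee_mem (x := x) CV_mul (WW_mem hz) a) using 1
    rw [← h7, mulV_apply, ← ee_smul, ← ee_smul, ← ee_add]
    congr 1
    funext i j
    have := congrFun (WW_WA tt_inv hw.sq (η j)) i
    fin_cases i <;> simp [y, z, E2] at this ⊢ <;> linear_combination tt 1 * this

theorem xyz_P {S : Evol} (hS : S.IsXYZ) : S.P = P2 S.J.x (S.J.x (0, 0) + S.J.x (1, 0))⁻¹ :=
  funext fun a => by
    fin_cases a
    · exact hS.1.trans (by simp [P2, div_eq_mul_inv])
    · exact hS.2.trans (by simp [P2, div_eq_mul_inv])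

end Pool.Agent.Lib.MP_dfc315_mp
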