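import Mathlib
import Pool.Agent.Lib.MP_dfc315_mp.Sys2

set_option autoImplicit false

namespace Pool.Agent.Lib.MP_dfc315_mp

open Finset HahnSeries

attribute [-simp] HahnSeries.C_apply

/-- The reflection of the variable. -/
noncomputable def rf (k : Type*) [Field k] : Ser k →+* Ser k where
  toFun := cw fun n => AddMonoidHom.mulLeft ((-1 : k) ^ n)
  map_zero' := map_zero _
  map_add' := map_add _
  map_one' := by
    ext n
    rcases eq_or_ne n 0 with rfl | h
    · simp
    · simp [h]
  map_mul' x y := by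
    ext n
    obtain ⟨a, ha⟩ := exists_O x
    obtain ⟨b, hb⟩ := exists_O y
    rw [(ha.cw _).coeff_mul (hb.cw _), coeff_cw, ha.coeff_mul hb, map_sum]
    refine sum_congr rfl fun i _ => ?_
    simp only [coeff_cw, AddMonoidHom.coe_mulLeft]
    rw [mul_mul_mul_comm, ← zpow_add₀ (by simp), add_sub_cancel]

section

variable {k : Type*} [Field k]

theorem coeff_rf (x : Ser k) (n : ℤ) : (rf k x).coeff n = (-1) ^ n * x.coeff n := rfl

theorem O.rf {m : ℤ} {x : Ser k} (h : O m x) : O m (rf k x) := h.cw _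

theorem rf_C (c : k) : rf k (C c) = C c := by
  ext n
  rw [coeff_rf, C_apply, coeff_single]
  split_ifs with h <;> simp [h]

theorem rf_tt (n : ℤ) (h : Odd n) : rf k (tt n) = -tt n := by
  ext m
  rw [coeff_rf, coeff_neg, tt, coeff_single]
  split_ifs with h1
  · simp [h1, h.neg_one_zpow]
  · simp

theorem rf_w [CharZero k] {w : Ser k} (hw : IsW w) : rf k w = -w := by
  have h1 : rf k w ^ 2 = w ^ 2 := by
    rw [← map_pow, hw.sq, map_add, map_pow, map_pow, rf_tt _ (by decide), rf_tt _ (by decide)]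
    ring
  refine (sq_eq_sq_iff_eq_or_eq_neg.1 h1).resolve_left fun h => ?_
  have h2 := hw.lead (-1) (by omega)
  have h3 := congrArg (HahnSeries.coeff · (-1)) h
  simp only [coeff_rf, coeff_sub, coeff_tt, sub_eq_zero] at h2 h3
  rw [h2] at h3
  norm_num at h3

theorem chord {A : Type*} [Field A] {F G F' G' l : A} (h : G ^ 2 = F ^ 3 - 4 * F)
    (h' : G' ^ 2 = F' ^ 3 - 4 * F') (h0 : F' - F ≠ 0) (hl : l * (F' - F) = G' - G) :
    (l * (F - (l ^ 2 - F - F')) - G) ^ 2 = (l ^ 2 - F - F') ^ 3 - 4 * (l ^ 2 - F - F') := by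
  have h1 : 2 * l * G + l ^ 2 * (F' - F) = F' ^ 2 + F' * F + F ^ 2 - 4 :=
    mul_left_cancel₀ h0 (by linear_combination h' - h + (G' + G + l * (F' - F)) * hl)
  linear_combination h - (F - (l ^ 2 - F - F')) * h1

theorem parity [CharZero k] {κ τ : Ser k} (hκ : Pole (-1) κ) (h1 : rf k κ = -κ) (h2 : rf k τ = τ)
    (h3 : τ ^ 2 + (2 * κ ^ 2 + 6) * τ + 1 = 0) {F G : Ser k}
    (h : ∀ N : Subfield (Ser k), (∀ c, C c ∈ N) → κ ∈ N → τ ∈ N → F ∈ N ∧ G ∈ N)
    (h4 : G ^ 2 = F ^ 3 - 4 * F) (h5 : O (-2) F) (h6 : F.coeff (-2) ≠ 0) (h7 : F.coeff (-1) ≠ 0) :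
    False := by
  let := (C : k →+* Ser k).toAlgebra
  have : CharZero (Ser k) := algebraRat.charZero _
  let M := IntermediateField.adjoin k {τ}
  have a1 : τ ∈ M := IntermediateField.mem_adjoin_simple_self k τ
  have a2 : ∀ c, C c ∈ M := M.algebraMap_mem
  have a3 : τ ≠ 0 := fun h0 => by simp [h0] at h3
  have a4 : κ ^ 2 ∈ M := by
    convert neg_mem (div_mem (add_mem (add_mem (pow_mem a1 2) (mul_mem (ofNat_mem M 6) a1))
      (one_mem M)) (mul_mem (ofNat_mem M 2) a1)) using 1
    field_simp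
    linear_combination h3
  have a5 : Transcendental k κ := fun ⟨p, hp, h0⟩ => hκ.sum_ne (by simp)
    (p := ⟨p.support, p.coeff, fun _ => Polynomial.mem_support_iff⟩)
    (fun h => hp (Polynomial.ext fun i => DFunLike.congr_fun h i)) (by
      rw [Polynomial.aeval_def, Polynomial.eval₂_eq_sum] at h0
      exact h0)
  have a6 : κ ≠ 0 := fun h => a5 (h ▸ isAlgebraic_zero)
  have a7 : Transcendental k τ := fun ht => a5 (IsAlgebraic.of_pow two_pos (by
    have := IntermediateField.isAlgebraic_adjoin_simple ht.isIntegral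
    exact IntermediateField.isAlgebraic_iff.1 (this.isAlgebraic (⟨κ ^ 2, a4⟩ : M))))
  have a8 : ∀ {x y}, κ * x ∈ M → κ * y ∈ M → x * y ∈ M := fun hx hy => by
    convert div_mem (mul_mem hx hy) a4 using 1
    field_simp
  have a9 := ofNat_mem M 2
  let N : Subfield (Ser k) :=
    { carrier := {x | x + rf k x ∈ M ∧ κ * (x - rf k x) ∈ M}
      mul_mem' := fun {x y} hx hy => ⟨by
        convert div_mem (add_mem (mul_mem hx.1 hy.1) (a8 hx.2 hy.2)) a9 using 1
        rw [map_mul]
        ring, by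
        convert div_mem (add_mem (mul_mem hx.2 hy.1) (mul_mem hx.1 hy.2)) a9 using 1
        rw [map_mul]
        ring⟩
      one_mem' := ⟨by simpa using add_mem (one_mem M) (one_mem M), by simpa using zero_mem M⟩
      add_mem' := fun {x y} hx hy => ⟨by
        convert add_mem hx.1 hy.1 using 1
        rw [map_add]
        ring, by
        convert add_mem hx.2 hy.2 using 1
        rw [map_add]
        ring⟩
      zero_mem' := ⟨by simpa using zero_mem M, by simpa using zero_mem M⟩
      neg_mem' := fun {x} hx => ⟨by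
        convert neg_mem hx.1 using 1
        rw [map_neg]
        ring, by
        convert neg_mem hx.2 using 1
        rw [map_neg]
        ring⟩
      inv_mem' := fun x hx => by
        rcases eq_or_ne x 0 with rfl | h0
        · exact ⟨by simpa using zero_mem M, by simpa using zero_mem M⟩
        have b1 : rf k x ≠ 0 := (map_ne_zero _).2 h0
        have b2 : x * rf k x ∈ M := by
          convert div_mem (sub_mem (mul_mem hx.1 hx.1) (a8 hx.2 hx.2)) (ofNat_mem M 4) using 1
          ring
        refine ⟨?_, ?_⟩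
        · convert div_mem hx.1 b2 using 1
          rw [map_inv₀]
          field_simp
          ring
        · convert neg_mem (div_mem hx.2 b2) using 1
          rw [map_inv₀]
          field_simp
          ring }
  obtain ⟨⟨b1, b2⟩, b3, b4⟩ := h N (fun c => ⟨by rw [rf_C]; exact add_mem (a2 c) (a2 c),
      by rw [rf_C, sub_self, mul_zero]; exact zero_mem M⟩)
    ⟨by rw [h1, add_neg_cancel]; exact zero_mem M, by
      convert mul_mem a9 a4 using 1
      rw [h1]
      ring⟩
    ⟨by rw [h2]; exact add_mem a1 a1, by rw [h2, sub_self, mul_zero]; exact zero_mem M⟩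
  have c1 : O (-1) (rf k F - F) := by
    refine (O_succ (k := -2)).2 ⟨h5.rf.sub h5, ?_⟩
    rw [coeff_sub, coeff_rf, Even.neg_one_zpow (by decide), one_mul, sub_self]
  have c2 : rf k F - F ≠ 0 := fun h0 => h7 (by
    have := congrArg (HahnSeries.coeff · (-1)) h0
    simp only [coeff_sub, coeff_rf, coeff_zero, Odd.neg_one_zpow (show Odd (-1 : ℤ) by decide)]
      at this
    linear_combination (-2⁻¹ : k) * this)
  have c3 : rf k G ^ 2 = rf k F ^ 3 - 4 * rf k F := by
    simpa only [map_pow, map_sub, map_mul, map_ofNat] using congrArg (rf k) h4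
  obtain ⟨l, c4⟩ : ∃ l, l * (rf k F - F) = rf k G - G := ⟨_, div_mul_cancel₀ _ c2⟩
  have c5 : l ∈ M := by
    convert div_mem b4 b2 using 1
    rw [eq_div_iff (mul_ne_zero a6 (by rwa [← neg_sub, neg_ne_zero]))]
    linear_combination (-κ) * c4
  have c6 : l ^ 2 - F - rf k F ∈ M := sub_sub (l ^ 2) _ _ ▸ sub_mem (pow_mem c5 2) b1
  obtain ⟨c, c7⟩ := elliptic_const a7 c6 (g := l * (F - (l ^ 2 - F - rf k F)) - G) (by
    convert div_mem (sub_mem (mul_mem c5 (sub_mem b1 (mul_mem a9 c6))) b3) a9 using 1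
    linear_combination (-2⁻¹ : Ser k) * c4) (chord h4 c3 c2 c4)
  have d1 : O (-6) (G * G) ∧ (G * G).coeff (-6) ≠ 0 := by
    have e1 : O (-5) (4 * F) := ((O.ofNat 4).zmul h5).mono (by omega)
    rw [← _root_.sq, h4, pow_three]
    refine ⟨(h5.mul (h5.mul h5)).sub (e1.mono (by omega)), ?_⟩
    rw [coeff_sub, e1 _ (by omega), h5.lead' (h5.mul h5) (by omega), h5.lead h5]
    simpa using h6
  obtain ⟨m, d2, d3⟩ := exists_lead (x := G) fun h0 => by simp [h0] at d1
  obtain rfl : m = -3 := by
    have e1 := mt (d2.mul d2 (-6)) d1.2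
    have e2 := mt (d1.1 (m + m)) (by rw [d2.lead d2]; exact mul_ne_zero d3 d3)
    omega
  have d4 : O (-2) (l * l) := by
    convert ((O_C c).mono (l := -2) (by omega)).add (h5.add h5.rf) using 1
    change _ = algebraMap k (Ser k) c + _
    linear_combination c7
  have d5 := (d2.rf.sub d2).lead' (d2.rf.sub d2) (m := -6) (by omega)
  rw [← c4, mul_mul_mul_comm, d4.mul (c1.mul c1) _ (by omega), c4, coeff_sub, coeff_rf,
    Odd.neg_one_zpow (by decide)] at d5
  exact mul_ne_zero d3 d3 (by linear_combination (-4⁻¹ : k) * d5)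

end

end Pool.Agent.Lib.MP_dfc315_mp
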