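import Mathlib
import Pool.Agent.Lib.MP_dfc315_mp.Sys2

set_option autoImplicit false

namespace Pool.Agent.Lib.MP_dfc315_mp

open HahnSeries

attribute [-simp] HahnSeries.C_apply

attribute [local irreducible] lax br Bm ev cn WW fm

theorem Q_lead {A : Type*} [CommRing A] {x : Idx → A} {g : A} (hg : g * (x (0, 0) + x (1, 0)) = 1)
    (f h : Q A) : br f h + fm f h • SS x g =
      br (f - sq (bb x 0)) h + fm (f - sq (bb x 0)) h • SS x g +
      (br (sq (bb x 0)) (h - sq (bb x 1)) + fm (sq (bb x 0)) (h - sq (bb x 1)) • SS x g) := by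
  apply vext <;> simp [SS, bb, fm_apply] <;> grind

theorem fm_lead {A : Type*} [CommRing A] (x : Idx → A) (f h : Q A) :
    fm f h + 2 * (x (0, 0) + x (1, 0)) ^ 2 =
      fm (f - sq (bb x 0)) h + fm (sq (bb x 0)) (h - sq (bb x 1)) := by
  simp [bb, fm_apply]
  ring

section

variable {R : Type*} [CommRing R] {x : Idx → R} {g : R} {w : Ser R}

theorem lax_one {η U : Q (Ser R)} {κ : Ser R} {d : Der R} :
    lax (sder d) 1 0 U η + κ • η = 0 ↔ sder d ∘ η = br U η - κ • η := by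
  simp only [funext_iff, lax_apply, Bm_one, Pi.add_apply, Pi.sub_apply, Pi.zero_apply,
    Function.comp_apply]
  exact forall_congr' fun i => ⟨fun h => by linear_combination h, fun h => by linear_combination h⟩

theorem ord_step (hg : g * (x (0, 0) + x (1, 0)) = 1) {N : Q (Ser R) →+ Q (Ser R)}
    (hN : Reg fun y => N y + (tt (-1) : Ser R) • br (SS (C ∘ x) (C g)) y) {q y : Q (Ser R)}
    (hq : ∀ i, O 1 (q i + SS (C ∘ x) (C g) i)) (hy : fm q y = 0) {k : ℤ} (hz : ∀ i, O k (N y i)) :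
    (∀ i, O (k + 1) (y i)) ∧ O (k + 2) (ee (C ∘ x) y 0 - tt 1 * ee (C ∘ x) (N y) 0) := by
  have hg' : (C g : Ser R) * ((C ∘ x) (0, 0) + (C ∘ x) (1, 0)) = 1 := by
    simpa using congrArg (C : R →+* Ser R) hg
  have hS : ∀ i, O 0 (SS (C ∘ x) (C g : Ser R) i) := map_SS (C : R →+* Ser R) x g ▸ O_Cv (SS x g)
  have h1 : y + (tt 1 : Ser R) • br (SS (C ∘ x) (C g)) (N y) = (tt 1 : Ser R) •
      br (SS (C ∘ x) (C g)) (N y + (tt (-1) : Ser R) • br (SS (C ∘ x) (C g)) y) +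
      fm (q + SS (C ∘ x) (C g)) y • SS (C ∘ x) (C g) := by
    rw [map_add, map_smul, smul_add, smul_smul, tt_inv, one_smul, fm_swap, map_add, fm_swap, hy,
      zero_add, fm_swap, add_assoc, add_comm y, SS, br_br (by simpa using hg')]
  have h2 : ∀ l, (∀ i, O l (y i)) →
      ∀ i, O (l + 1) ((y + (tt 1 : Ser R) • br (SS (C ∘ x) (C g)) (N y)) i) := fun l hl i => by
    rw [h1]
    exact ((O_tt 1).mul' (O_br hS (hN l y hl) i) (by omega)).add
      ((O_fm hq hl).mul' (hS i) (by omega))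
  have h3 : ∀ i, O (k + 1) (y i) := O_of_lead fun l hl h i => by
    simpa using (h2 l h i).sub ((O_tt 1).mul' (O_br hS hz i) (by omega)) l (by omega)
  refine ⟨h3, ?_⟩
  convert O_ee x (h2 _ h3) 0 using 1
  · ring
  · rw [ee_add, ee_smul, ← ee_br hg' (N y)]
    simp [sg]

theorem der_ee (hw : IsW w) {δ : Der R} (h : ∀ a, δ (x (a, 0)) = 0) (y : Q (Ser R)) (a : Fin 2) :
    sder δ (ee (C ∘ x) (E2 w y) a) = ee (C ∘ x) (E2 w (sder δ ∘ y)) a := by
  fin_cases a <;> simp [ee, E2, ev_apply, DerM.mul', DerM.pow, h, hw.cst]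

theorem der_U (hw : IsW w) (hg : g * (x (0, 0) + x (1, 0)) = 1) {δ : Der R}
    (h : ∀ a, δ (x (a, 0)) = 0) : sder δ ∘ U2 w x g = 0 := by
  apply vext <;> simp [U2, SS, DerM.mul', h, hw.cst, der_g δ hg]

end

/-- A hierarchy of symmetries and conservation laws. -/
structure Hier (S : Evol) (κ G : Fin 2 → Ser S.K) : Prop where
  sym : ∀ k, S.IsSymmetry fun a => (G a).coeff k
  low : ∀ b (i : ℕ) a, O (i + 1) (sder (S.J.pD (b, i + 1)) (G a))
  top : ∀ i : ℕ, S.J.p (0, i + 1) ((G 0).coeff (i + 1)) ≠ 0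
  var : ∀ γ j n, ∃ f, S.J.evD ![0, γ] ((κ j).coeff n) =
    sg j * (2 * (S.J.x (0, 0) + S.J.x (1, 0))⁻¹ ^ 2 * γ * (G 0).coeff (n + 1)) + S.J.DD f
  cons : ∀ j n, S.IsConserved ((κ j).coeff n)

theorem exists_hier {S : Evol} (hS : S.IsXYZ) {η : Fin 2 → Q (Ser S.K)} {κ : Fin 2 → Ser S.K}
    (H : Eigs (N2 S.J.DD (ww S.K) S.J.x (S.J.x (0, 0) + S.J.x (1, 0))⁻¹) S.J.x
      (S.J.x (0, 0) + S.J.x (1, 0))⁻¹ η κ) : ∃ G, Hier S κ G := by
  have hP := xyz_P hS
  have hg := inv_mul_cancel₀ S.J.uv_ne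
  have hw := isW S.K
  generalize hg0 : (S.J.x (0, 0) + S.J.x (1, 0))⁻¹ = g at *
  generalize ww S.K = w at *
  have hg' : (C g : Ser S.K) * ((C ∘ S.J.x) (0, 0) + (C ∘ S.J.x) (1, 0)) = 1 := by
    simpa using congrArg (C : S.K →+* Ser S.K) hg
  have hS : ∀ i, O 0 (SS (C ∘ S.J.x) (C g : Ser S.K) i) :=
    map_SS (C : S.K →+* Ser S.K) S.J.x g ▸ O_Cv (SS S.J.x g)
  have ht : ∀ a, S.J.evD S.P (S.J.x (a, 0)) = P2 S.J.x g a := fun a => by simp [Jets.evD_x, hP]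
  obtain ⟨ω, h1⟩ := data2 hw (S.J.DD_evD S.P) hg (mul_inv_cancel₀ two_ne_zero) S.J.DD_x ht H
  have h2 := fun j => lax_one.1 (H j).eq
  have h3 := fun j => lax_one.1 (h1 j).1
  have l0 : ∀ i, O 1 ((η 0 - sq (bb (C ∘ S.J.x) 0) : Q _) i) := by simpa using (H 0).lead
  have l1 : ∀ i, O 1 ((η 1 - sq (bb (C ∘ S.J.x) 1) : Q _) i) := by simpa using (H 1).lead
  have l2 : ∀ i, O 0 (sq (bb (C ∘ S.J.x) 0) i : Ser S.K) := by simpa using O_sq (bb S.J.x 0)
  have h4 : (fm (η 0) (η 1)).coeff 0 ≠ 0 := by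
    have := (O_fm l0 (H 1).O_zero).add ((O_fm l2 l1).mono (by omega)) 0 one_pos
    rw [← fm_lead, Function.comp_apply, Function.comp_apply, ← map_add, ← map_pow,
      ← map_ofNat (C : S.K →+* Ser S.K), ← map_mul, coeff_add, C_apply, coeff_single_same] at this
    rw [eq_neg_of_add_eq_zero_left this]
    simpa using S.J.uv_ne
  have hn : (fm (η 0) (η 1))⁻¹ * fm (η 0) (η 1) = 1 := inv_mul_cancel₀ fun h => by simp [h] at h4
  generalize (fm (η 0) (η 1))⁻¹ = n at hn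
  have h5 : ∀ i, O 1 ((n • br (η 0) (η 1)) i + SS (C ∘ S.J.x) (C g) i) := fun i =>
    O_of_mul (O_fm (H 0).O_zero (H 1).O_zero) h4 (by
      convert ((O_br l0 (H 1).O_zero i).add ((O_fm l0 (H 1).O_zero).mul (hS i))).add
        ((O_br l2 l1 i).add ((O_fm l2 l1).mul (hS i))) using 1
      · rfl
      refine Eq.trans ?_ (congrFun (Q_lead hg' (η 0) (η 1)) i)
      simp only [Pi.smul_apply, Pi.add_apply, smul_eq_mul]
      linear_combination br (η 0) (η 1) i * hn)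
  have h6 := der_Q (h2 0) (h2 1) hn
  have h7 := der_Q (h3 0) (h3 1) hn
  have h8 := fun γ => var_kappa (h2 0) (h2 1) hn (sder_comm (S.J.DD_evD ![0, γ]))
  have h9 := fun γ => var_kappa (h2 1) (h2 0) (fm_swap (η 0) _ ▸ hn)
    (sder_comm (S.J.DD_evD ![0, γ]))
  rw [br_swap, smul_neg] at h9
  generalize n • br (η 0) (η 1) = q at *
  have h10 : ∀ i, fm q (sder (S.J.pD i) ∘ q) = 0 := fun i => by
    have a1 := der_fm (sder S.J.DD) q q
    rw [h6, fm_br] at a1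
    have a2 := der_fm (sder (S.J.pD i)) q q
    rw [fm_swap (_ ∘ q) q, ← two_mul, show sder (S.J.pD i) (fm q q) = 0 from HahnSeries.ext
      (funext fun n => S.J.isConst_iff.2 (congrArg (HahnSeries.coeff · n) a1) i)] at a2
    exact (mul_eq_zero.1 a2.symm).resolve_left (left_ne_zero_of_mul_eq_one
      (C_hh (mul_inv_cancel₀ two_ne_zero)))
  have h11 : ∀ b (i : ℕ) a, S.J.pD (b, i + 1) (S.J.x (a, 0)) = 0 := fun b i a => by
    simp [S.J.p_x]
  have h12 : ∀ b (i : ℕ), N2 S.J.DD w S.J.x g (sder (S.J.pD (b, i + 1)) ∘ q) =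
      -(sder (S.J.pD (b, i)) ∘ q) := fun b i => funext fun k => by
    have a1 := congrFun (der_br (sder (S.J.pD (b, i + 1))) (U2 w S.J.x g) q) k
    rw [der_U hw hg (h11 b i), br_swap 0, map_zero, neg_zero, zero_add, ← h6] at a1
    rw [N2, lax_apply, Bm_one, ← a1]
    ext n
    simp [S.J.p_DD]
  have h13 : ∀ b (i : ℕ), (∀ k, O i ((sder (S.J.pD (b, i)) ∘ q) k)) ∧ (b = 0 →
      (ee (C ∘ S.J.x) (sder (S.J.pD (b, i)) ∘ q) 0).coeff i = (-1) ^ i) := fun b i => by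
    induction i with
    | zero =>
      refine ⟨fun k => O.sder (by simpa using ((h5 k).mono zero_le_one).sub (hS k)) _, ?_⟩
      rintro rfl
      have a1 := O_ee S.J.x (f := sder (S.J.pD (0, 0)) ∘ q + C ∘ S.J.pD (0, 0) ∘ SS S.J.x g)
        (fun k => by simpa [← map_SS] using (h5 k).sder (S.J.pD (0, 0))) 0 0 one_pos
      rw [ee_add, ← map_ee, coeff_add, C_apply, coeff_single_same] at a1
      rw [Nat.cast_zero, eq_neg_of_add_eq_zero_left a1]
      have a2 := der_g (S.J.pD (0, 0)) hg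
      simp [ee, ev_apply, SS, S.J.p_x] at a2 ⊢
      grind
    | succ i ih =>
      obtain ⟨a1, a2⟩ := ord_step hg (reg2 hw S.J.DD S.J.x g) h5 (h10 (b, i + 1))
        (k := i) (fun k => h12 b i ▸ (ih.1 k).neg)
      refine ⟨a1, fun hb => ?_⟩
      have a3 := a2 (i + 1) (by omega)
      rw [h12, ← neg_one_smul (Ser S.K), ee_smul, coeff_sub, coeff_tt_mul, neg_one_mul, coeff_neg,
        add_sub_cancel_right, ih.2 hb] at a3
      push_cast
      linear_combination a3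
  refine ⟨ee (C ∘ S.J.x) (E2 w q), fun k a => ?_, fun b i a => ?_, fun i => ?_, fun γ j m => ?_,
    fun j m => ⟨(ω j).coeff m, ?_⟩⟩
  · have a1 := lin2 hw (f := RingHom.id _) hg S.J.DD_x ht (ψ := q) (κ := 0) (ω := 0)
      (lax_one.2 (by simpa using h6)) (lax_one.2 (by simpa using h7))
      (S.J.dif _ fun i => (cn S.J.DD 0)^[i.2] (ee (C ∘ S.J.x) (E2 w q) i.1))
      (fun a i => S.J.dif_x _ _ _) a
    have a2 : ∀ (n : ℕ) y, ((cn S.J.DD 0)^[n] y).coeff k = S.J.DD^[n] (y.coeff k) := fun n y =>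
      (Function.Semiconj.iterate_right (f := fun y : Ser S.K => y.coeff k)
        (fun y => by simp [cn_apply]) n).eq y
    have a3 := congrArg (HahnSeries.coeff · k) a1
    rw [Evol.Dt, Jets.ev_eq, Jets.ev_eq, hP]
    refine Eq.trans ?_ (S.J.dif_eq _ _ Finset.Subset.rfl).symm
    rw [S.J.dif_eq _ _ Finset.Subset.rfl] at a3
    simpa [cn_apply, coeff_sum, coeff_C_mul, a2, S.J.D_eq, hP] using a3
  · rw [der_ee hw (h11 b i)]
    exact O_ee _ (fun k => by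
      simpa using ((E2_lead hw (h13 b (i + 1)).1 k).mono (by omega)).add ((h13 b (i + 1)).1 k)) a
  · have a1 := O_ee S.J.x (f := E2 w (sder (S.J.pD (0, i + 1)) ∘ q) +
      (-1 : Ser S.K) • (sder (S.J.pD (0, i + 1)) ∘ q)) (fun k => by
        simpa [sub_eq_add_neg] using E2_lead hw (h13 0 (i + 1)).1 k) 0 (i + 1 : ℕ) (by omega)
    rw [ee_add, ee_smul, ← der_ee hw (h11 0 i), neg_one_mul, coeff_add, coeff_neg,
      (h13 0 _).2 rfl, add_neg_eq_zero] at a1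
    exact a1.trans_ne (by simp)
  · have a1 := fm_var (δ := sder (S.J.evD ![0, γ])) hg' tt_inv (sder_tt _ _) (sder_tt _ _)
      (hw.cst _) q
    simp only [Function.comp_apply, sder_C, Jets.evD_x, Function.iterate_zero_apply,
      Matrix.cons_val_zero, Matrix.cons_val_one, map_zero, zero_mul, sub_zero,
      ← map_pow, ← map_ofNat (C : S.K →+* Ser S.K) 2, ← map_mul] at a1
    fin_cases j
    · have := congrArg (HahnSeries.coeff · m) (h8 γ)
      simp only [U2, a1, coeff_sub, coeff_sder, coeff_tt_mul, coeff_C_mul] at this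
      exact ⟨-_, by rw [map_neg]; simpa [sg, hg0, E2, sub_eq_add_neg, mul_assoc] using this⟩
    · have := congrArg (HahnSeries.coeff · m) (h9 γ)
      simp only [U2, map_neg, a1, coeff_sub, coeff_sder, coeff_neg, coeff_tt_mul, coeff_C_mul]
        at this
      exact ⟨-_, by rw [map_neg]; simpa [sg, hg0, E2, sub_eq_add_neg, mul_assoc] using this⟩
  · rw [Evol.Dt, Jets.ev_eq, Jets.D_eq]
    exact (congrArg (HahnSeries.coeff · m) (h1 j).2.1).symm

theorem Hier.indep {S : Evol} {κ G : Fin 2 → Ser S.K} (h : Hier S κ G) {ι : Type*}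
    {s : Finset ι} {c : ι → S.K} {j : ι → Fin 2} {n : ι → ℤ} {c₀ f : S.K}
    (hc : ∀ i, S.J.IsConst (c i)) (hc₀ : S.J.IsConst c₀)
    (he : ∑ i ∈ s, c i * (κ (j i)).coeff (n i) = c₀ + S.J.DD f) {i₀ : ι} (hi : i₀ ∈ s) {m : ℕ}
    (hm : n i₀ = m) (hlt : ∀ i ∈ s, i ≠ i₀ → c i = 0 ∨ n i < m) : c i₀ = 0 := by
  have h1 : ∑ i ∈ s, c i * (sg (j i) * (G 0).coeff (n i + 1)) = 0 := by
    by_contra h0
    have h2 := mul_inv_cancel₀ (mul_ne_zero (mul_ne_zero two_ne_zero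
      (pow_ne_zero 2 (inv_ne_zero S.J.uv_ne))) h0)
    generalize (_ * ∑ i ∈ s, _ : S.K)⁻¹ = γ at h2
    choose F hF using h.var γ
    have h3 := congrArg (S.J.evD ![0, γ]) he
    have h4 : ∀ {c}, S.J.IsConst c → S.J.evD ![0, γ] c = 0 := S.J.dif_const _ _
    simp only [map_sum, map_add, DerM.mul', hF, h4 (hc _), h4 hc₀, ← S.J.DD_evD, mul_add,
      Finset.sum_add_distrib, mul_zero, add_zero, zero_add] at h3
    refine S.J.DD_ne_one (S.J.evD ![0, γ] f - ∑ i ∈ s, c i * F (j i) (n i)) ?_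
    simp only [map_sub, map_sum, DerM.mul', S.J.DD_const (hc _), mul_zero, add_zero, ← h3, ← h2,
      add_sub_cancel_right, Finset.mul_sum, Finset.sum_mul]
    exact Finset.sum_congr rfl fun i _ => by ring
  have h2 := congrArg (S.J.pD (0, m + 1)) h1
  have h3 : ∀ j, S.J.p (0, m + 1) (sg j) = 0 := fun j => by fin_cases j <;> simp [sg]
  rw [map_sum, map_zero, Finset.sum_eq_single_of_mem i₀ hi fun i a1 a2 => by
    rcases hlt i a1 a2 with a3 | a3
    · simp [a3]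
    · simpa [hc i _, h3] using Or.inr (Or.inr (h.low 0 m 0 (n i + 1) (by omega)))] at h2
  simpa [hc i₀ _, h3, hm, h.top m, left_ne_zero_of_mul_eq_one (sg_mul (A := S.K) (j i₀))] using h2

theorem Jets.dif_dep {K : Type} [Field K] [CharZero K] (J : Jets K) {f : K} {i : Idx}
    (h : J.DependsOn f {i}) (m : Idx → K) : J.dif (RingHom.id K) m f = J.p i f * m i := by
  rw [J.dif_eq _ _ (s := {i}) fun j hj => by
    by_contra h0
    simp [Jets.supp, h j (by simpa using h0)] at hj]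
  simp

theorem xyz_nls {S : Evol} (hS : S.IsXYZ) : S.IsNLSType := by
  obtain ⟨η, κ, H⟩ := exists_eigs (inv_mul_cancel₀ S.J.uv_ne) (mul_inv_cancel₀ two_ne_zero)
    (reg2 (isW S.K) S.J.DD S.J.x _)
  obtain ⟨G, h⟩ := exists_hier hS H
  have h1 : ∀ k : ℕ, S.J.HasOrder (fun a => (G a).coeff (k + 1 : ℕ)) (k + 1) := fun k =>
    ⟨fun a ⟨b, i⟩ hi => by
      obtain ⟨i, rfl⟩ : ∃ l, i = l + 1 := ⟨i - 1, by simp at hi; omega⟩
      exact h.low b i a _ (by simp at hi; omega), 0, 0, h.top k⟩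
  have h2 : ∀ i, S.J.p i 2 = 0 := fun i => (S.J.pD i).ofNat 2
  have hP := xyz_P hS
  have hg := inv_mul_cancel₀ S.J.uv_ne
  generalize (S.J.x (0, 0) + S.J.x (1, 0))⁻¹ = g at hP hg
  have h3 : ∀ i, S.J.p i g = _ := fun i => der_g (S.J.pD i) hg
  refine ⟨⟨fun ⟨b, i⟩ hi => ?_, fun ⟨b, i⟩ hi => ?_⟩, ⟨?_,
    fun n => ⟨n + 1, _, n.le_succ, h.sym _, h1 n⟩, fun n => (κ 0).coeff n, fun n => h.cons 0 n, fun s c c₀ f a1 a2 a3 => ?_⟩, _, h.sym _, h1 2⟩
  · obtain ⟨i, rfl⟩ : ∃ l, i = l + 2 := ⟨i - 2, by simp at hi; omega⟩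
    simp [hP, P2, S.J.p_x, h2, h3]
  · obtain ⟨i, rfl⟩ : ∃ l, i = l + 2 := ⟨i - 2, by simp at hi; omega⟩
    simp [hP, P2, S.J.p_x, h2, h3]
  · rintro ⟨Φ, Ψ, a, b, a1, a2, a3, -, a4, a5, -⟩
    have b1 : S.J.DependsOn (S.J.p (0, 0) Φ) {(0, 0)} := fun i hi => by simp [S.J.comm i, a1 i hi]
    have b2 : ∀ i ≠ (0, 0), S.J.p i (S.J.p (0, 0) (S.J.p (0, 0) Φ)) = 0 := fun i hi => by
      simp [S.J.comm i, a1 i hi]
    have b3 : S.J.p (0, 1) (S.J.p (1, 0) Ψ) = 0 := by simp [S.J.comm (0, 1), a2 (0, 1)]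
    have b4 : S.J.DD Φ = S.J.p (0, 0) Φ * S.J.x (0, 1) := S.J.dif_dep a1 _
    have b5 : S.J.DD (S.J.p (0, 0) Φ) = _ * S.J.x (0, 1) := S.J.dif_dep b1 _
    have b6 : S.J.DD Ψ = S.J.p (1, 0) Ψ * S.J.x (1, 1) := S.J.dif_dep a2 _
    have b7 : S.J.evD S.P Φ = S.J.p (0, 0) Φ * S.P 0 := S.J.dif_dep a1 _
    rw [Evol.Dt, Jets.ev_eq, Jets.D_eq, b4, b6, b7, DerM.mul', b5, Jets.DD_x, hP] at a5
    have b8 := congrArg (fun y => S.J.p (1, 0) (S.J.p (0, 1) (S.J.p (0, 1) y))) a5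
    simp [P2, S.J.p_x, (a4 _).1 _, a1 (0, 1), a2 (0, 1), b1 (0, 1), b1 (1, 0), b2, b3, h2, h3]
      at b8
    exact b8.elim a3 (left_ne_zero_of_mul_eq_one hg)
  · by_contra h0
    push Not at h0
    classical
    obtain ⟨m, a4, a5⟩ := (s.filter fun n => c n ≠ 0).exists_max_image id
      (h0.imp fun n hn => by simpa using hn)
    rw [Finset.mem_filter] at a4
    exact a4.2 (h.indep (j := fun _ => 0) a1 a2 (S.J.D_eq ▸ a3) a4.1 rfl fun i hi hne =>
      or_iff_not_imp_left.2 fun a6 => by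
        exact_mod_cast lt_of_le_of_ne (a5 i (Finset.mem_filter.2 ⟨hi, a6⟩)) hne)

end Pool.Agent.Lib.MP_dfc315_mp
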