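import Mathlib
import Pool.Agent.Lib.MP_dfc315_mp.Int2

set_option autoImplicit false

namespace Pool.Agent.Lib.MP_dfc315_mp

open HahnSeries

attribute [-simp] HahnSeries.C_apply

attribute [local irreducible] lax br Bm ev cn WW fm

theorem eul_mem {R : Type*} [CommRing R] {E : Subring R} {x : Ser R} (h : x ∈ inS E) :
    eul x ∈ inS E := fun n => mul_mem (intCast_mem E n) (h n)

theorem sg_ne {K : Type*} [Field K] [CharZero K] {j a : Fin 2} (h : j ≠ a) :
    (-sg j : K) ≠ -sg a := by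
  fin_cases j <;> fin_cases a <;> simp [sg] at h ⊢ <;> norm_num

theorem exists_exp {L : Type*} [Field L] [CharZero L] {ϑ : Ser L} (h : O 1 ϑ) :
    ∃ y, O 1 (y - 1) ∧ eul y + ϑ * y = 0 ∧
      (∀ E : Subfield L, ϑ ∈ inS E.toSubring → y ∈ inS E.toSubring) ∧
      ∀ (d : Der L) (a : Ser L), O 1 a → eul a = sder d ϑ → sder d y + a * y = 0 := by
  have h0 : ∀ {ρ : Ser L}, O 1 ρ → O 0 (1 + ρ) := fun h => O.add (O_tt 0) (h.mono zero_le_one)
  obtain ⟨ρ, h1, h2⟩ := exists_fix' 1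
    (fun ρ => cw (fun n => AddMonoidHom.mulLeft (-(n : L)⁻¹)) (ϑ * (1 + ρ)))
    (fun x hx => (h.mul (h0 hx)).cw _) fun k x y _ _ hk => by
      rw [← map_sub, ← mul_sub, add_sub_add_left_eq_sub]
      exact (h.mul' hk (by omega)).cw _
  have h3 : eul (1 + ρ) + ϑ * (1 + ρ) = 0 := by
    ext n
    rw [map_add, DerM.one, zero_add, coeff_add, coeff_eul, ← congrArg (HahnSeries.coeff · n) h2]
    rcases eq_or_ne n 0 with rfl | hn
    · simpa using h.mul (h0 h1) 0 (by omega)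
    · simp [mul_inv_cancel_left₀ (Int.cast_ne_zero.2 hn : (n : L) ≠ 0)]
  have h4 : ∀ k (x : Ser L), O k x → (eul x + ϑ * x).coeff (k + 0) = k * x.coeff k := fun k x hx => by
    simp [h.mul hx k (by omega)]
  refine ⟨1 + ρ, by simpa using h1, h3, fun E hE => add_mem (one_mem _) (mem_of_tri
    (A := eul.toAddMonoidHom + AddMonoidHom.mulLeft ϑ) (α := fun k => (k : L))
    (fun k hk => ⟨intCast_mem E k, Int.cast_ne_zero.2 (by omega)⟩) (fun k _ => h4 k)
    (fun k _ a ha => add_mem (eul_mem (single_mem ha k)) (mul_mem hE (single_mem ha k))) h1 ?_), fun d a ha hd => eq_zero_of_O' fun k hk => ?_⟩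
  · convert neg_mem hE using 1
    change eul ρ + ϑ * ρ = _
    rw [map_add, DerM.one] at h3
    linear_combination h3
  · rcases lt_or_ge k 1 with h5 | h5
    · rw [map_add, DerM.one, zero_add]
      exact (h1.sder d).add (ha.mul (h0 h1)) k h5
    have h6 := congrArg (sder d) h3
    have h7 : sder d (eul (1 + ρ)) = eul (sder d (1 + ρ)) := by ext; simp [d.mul']
    have h8 := h4 k _ hk
    rw [map_add, h7, DerM.mul', map_zero] at h6
    rw [map_add, DerM.mul', hd, show _ + _ = (0 : Ser L) by linear_combination h6 + a * h3] at h8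
    exact (mul_eq_zero.1 h8.symm).resolve_left (Int.cast_ne_zero.2 (by omega))

theorem split_pos {R : Type*} [CommRing R] {x y : Ser R} (h : O (-2) x) (h1 : O 1 y)
    (h2 : ∀ n, 0 < n → y.coeff n = x.coeff n) :
    x = C (x.coeff (-2)) * tt (-2) + C (x.coeff (-1)) * tt (-1) + C (x.coeff 0) + y := by
  ext n
  simp only [coeff_add, coeff_C_mul]
  simp only [tt, C_apply, coeff_single]
  rcases lt_or_ge 0 n with h3 | h3
  · simp [h2 n h3, show n ≠ -2 by omega, show n ≠ -1 by omega, h3.ne']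
  rw [h1 n (by omega)]
  split_ifs <;> first | omega | simpa using h n (by omega) | simp_all

theorem map_M2 {R R' : Type*} [CommRing R] [CommRing R'] {d : Der R} {e : Der R'} {φ : R →+* R'}
    (h : ∀ a, e (φ a) = φ (d a)) (w : Ser R) (x : Idx → R) (g : R) (y : Q (Ser R)) :
    lmap φ ∘ M2 d w x g y = M2 e (lmap φ w) (φ ∘ x) (φ g) (lmap φ ∘ y) := by
  rw [M2, map_lax _ (sder_lmap h), map_one, M2]
  congr 2
  · exact funext fun _ => map_zero _
  · apply vext <;> simp [V2, SS, SS', map_ofNat]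

open MvPolynomial in
theorem exists_xyz {L : Type} [Field L] [CharZero L] (d : Der L) {x : Idx → L}
    (hx : ∀ a i, d (x (a, i)) = x (a, i + 1))
    (hi : Function.Injective (aeval x : MvPolynomial Idx d.ker →ₐ[_] L)) :
    ∃ (S : Evol) (φ : S.K →+* L), S.IsXYZ ∧ φ ∘ S.J.x = x ∧ (∀ a, d (φ a) = φ (S.J.DD a)) ∧
      ∀ c, d c = 0 → ∃ a, S.J.IsConst a ∧ φ a = c := by
  obtain ⟨J, h1, h2⟩ := exists_ratJets d.ker (FractionRing (MvPolynomial Idx d.ker))
  let φ : FractionRing (MvPolynomial Idx d.ker) →+* L :=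
    IsFractionRing.lift (g := (aeval x : MvPolynomial Idx d.ker →ₐ[_] L).toRingHom) hi
  have h3 : ∀ a, φ (algebraMap (MvPolynomial Idx d.ker) _ a) = aeval x a :=
    IsFractionRing.lift_algebraMap hi
  have h4 : ∀ i, φ (J.x i) = x i := fun i => by rw [h1, h3, aeval_X]
  refine ⟨⟨_, J, P2 J.x (J.x (0, 0) + J.x (1, 0))⁻¹⟩, φ, ⟨by simp [P2, div_eq_mul_inv],
    by simp [P2, div_eq_mul_inv]⟩, funext h4, fun a => sub_eq_zero.1 (der_frac_zero
      (R := MvPolynomial Idx d.ker) ((d.comap φ).sub (J.DD.map φ)) (der_mvPoly_zero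
        (((d.comap φ).sub (J.DD.map φ)).comap (algebraMap _ _)) (fun c => ?_) fun i => ?_) a),
    fun c hc => ⟨_, h2 ⟨c, hc⟩, (h3 _).trans (aeval_C _ _)⟩⟩
  · simpa [h3, J.DD_const (h2 c)] using (d.mem_ker.1 c.2 : d (algebraMap _ L c) = 0)
  · obtain ⟨a, i⟩ := i
    simp [← h1, h4, hx]

theorem sys2 {S : Evol} (hS : S.IsXYZ) {L : DF} (f : DHom S.df L) :
    ∃ (L' : DF) (ι : DHom L L') (X : Diag L') (s y : Ser L'.L),
      (∀ y, X.ι (TP S (ι.comp f).f y) = X.T (X.ι y)) ∧ X.Mor X (mulV fun _ => s) ∧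
      X.Mor X (mulV fun _ => y) ∧ y ^ 2 = s ^ 3 - 4 * s ∧ (∀ c, s ≠ C c) ∧
      ∀ Z, X.Mor X Z → ∃ χ : GG L'.L, ∀ y, Z y = χ * y := by
  classical
  have hP := xyz_P hS
  have hg := inv_mul_cancel₀ S.J.uv_ne
  generalize (S.J.x (0, 0) + S.J.x (1, 0))⁻¹ = g at hP hg
  have a1 : ∀ {L : DF} (f : DHom S.df L), f.f g * ((f.f ∘ S.J.x) (0, 0) + (f.f ∘ S.J.x) (1, 0)) = 1
      ∧ (∀ a i, L.d (f.f (S.J.x (a, i))) = f.f (S.J.x (a, i + 1))) ∧
      ∀ a, L.t (f.f (S.J.x (a, 0))) = f.f (P2 S.J.x g a) := fun f =>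
    ⟨by simpa using congrArg f.f hg, fun a i => by simp [f.hd],
      fun a => by simp [f.ht, Jets.evD_x, hP]⟩
  obtain ⟨η, κ, H⟩ := exists_eigs (a1 f).1 (mul_inv_cancel₀ two_ne_zero)
    (reg2 (isW L.L) L.d _ _)
  obtain ⟨ω, a2⟩ := data2 (isW L.L) L.comm (a1 f).1 (mul_inv_cancel₀ two_ne_zero) (a1 f).2.1
    (fun a => ((a1 f).2.2 a).trans (map_P2 _ _ _ a)) H
  obtain ⟨L', ι, θ, a3, a4⟩ := exists_potentials L (σ := Option (Fin 2 × ℤ))
    (fun o => o.elim 1 fun p => (κ p.1).coeff p.2) (fun o => o.elim 0 fun p => (ω p.1).coeff p.2)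
    (by
      rintro (_ | ⟨j, n⟩)
      · simp
      · exact congrArg (HahnSeries.coeff · n) (a2 j).2.1)
  obtain ⟨b1, b2, b3⟩ := a1 (ι.comp f)
  have b4 := H.map ι.f (map_N2 ι.hd _ _ _)
  have b5 : ∀ j, M2 L'.t (ww L'.L) ((ι.comp f).f ∘ S.J.x) ((ι.comp f).f g) (lmap ι.f ∘ η j) +
      lmap ι.f (ω j) • lmap ι.f ∘ η j = 0 := fun j => funext fun i => by
    have := congrArg (lmap ι.f) (congrFun (a2 j).1 i)
    rw [Pi.add_apply, map_add, ← Function.comp_apply (f := lmap ι.f), map_M2 ι.ht, lmap_ww] at this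
    rw [Pi.smul_apply, smul_eq_mul, map_mul, Pi.zero_apply, map_zero] at this
    exact this
  have b6 : ∀ j, O (-1) (lmap ι.f (ω j) - C (sg j) * tt (-2)) := fun j => by
    simpa using (a2 j).2.2.lmap ι.f
  have b8 : ∀ j, (lmap ι.f (ω j)).coeff (-2) = - -sg j := fun j => by
    have := b6 j (-2) (by omega)
    rwa [coeff_sub, coeff_C_mul, coeff_tt, mul_one, sub_eq_zero, ← neg_neg (sg j)] at this
  have b7 : ∀ j, O (-2) (lmap ι.f (ω j)) := fun j => by
    simpa using ((b6 j).mono (by omega)).add ((O_C (sg j)).zmul (O_tt (-2)))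
  rw [lmap_ww] at b4
  change Eigs (N2 _ _ ((ι.comp f).f ∘ S.J.x) ((ι.comp f).f g)) ((ι.comp f).f ∘ S.J.x)
    ((ι.comp f).f g) _ _ at b4
  have hw := isW L'.L
  let X := b4.diag b1 (fun j => E2 (ww L'.L) (lmap ι.f ∘ η j))
    (fun j => E2_lead hw (b4 j).O_zero) (fun j => lmap ι.f (ω j)) b7
    fun j => by rw [sder_lmap ι.hd, sder_lmap ι.ht, (a2 j).2.1]
  obtain ⟨c1, c2⟩ := mor2 X hw b1 (fun _ _ => rfl) fun j => (b4 j).eq
  refine ⟨L', ι, X, _, _, X.intertwine _ fun a j => ?_, c1, c2, ?_, fun c hc => ?_, fun Z hZ => ?_⟩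
  · rw [hP]
    exact lin2 hw hg b2 b3 (b4 j).eq (b5 j) (X.δ _ j) (X.δ_x _ j) a
  · have := tt_inv (R := L'.L)
    have := hw.sq
    grind
  · have := congrArg (HahnSeries.coeff · (-2)) hc
    simp [tt, C_apply] at this
  obtain ⟨S', φ, d1, d2, d3, d4⟩ := exists_xyz L'.d (x := (ι.comp f).f ∘ S.J.x) b2
    (S.J.aeval_injective (ι.comp f).hd)
  have hg' := inv_mul_cancel₀ S'.J.uv_ne
  obtain ⟨η', κ', H'⟩ := exists_eigs hg' (mul_inv_cancel₀ two_ne_zero)
    (reg2 (isW S'.K) S'.J.DD S'.J.x _)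
  obtain ⟨G, hG⟩ := exists_hier d1 H'
  have d5 := H'.map φ (map_N2 d3 _ _ _)
  have d6 : φ (S'.J.x (0, 0) + S'.J.x (1, 0))⁻¹ = (ι.comp f).f g := by
    rw [map_inv₀, map_add]
    exact (eq_inv_of_mul_eq_one_left (by rw [← d2] at b1; exact b1)).symm
  rw [lmap_ww, d2, d6] at d5
  obtain ⟨d7, d8⟩ := b4.unique b1 (mul_inv_cancel₀ two_ne_zero) (reg2 hw _ _ _) d5
  have d9 : ∀ j n, ι.f ((κ j).coeff n) = φ ((κ' j).coeff n) := fun j n =>
    congrArg (HahnSeries.coeff · n) (congrFun d8 j)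
  let s : ℕ → Finset (Option (Fin 2 × ℤ)) := fun n => (Finset.univ ×ˢ Finset.Icc 1 (n : ℤ)).insertNone
  let E : ℕ → Subfield L'.L := fun n => Subfield.closure (φ.fieldRange ∪ θ '' s n)
  have e1 : ∀ n a, φ a ∈ E n := fun n a => Subfield.subset_closure (Or.inl ⟨a, rfl⟩)
  have e2 : ∀ n i, i ∈ s n → θ i ∈ E n := fun n i hi => Subfield.subset_closure (Or.inr ⟨i, hi, rfl⟩)
  have e3 : ∀ i, L'.d (θ i) ∈ φ.fieldRange := by
    rintro (_ | ⟨j, n⟩)
    · simp [a3]
    · exact ⟨_, (d9 j n).symm.trans (a3 (some (j, n))).symm⟩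
  have e4 : ∀ a ∈ φ.fieldRange, L'.d a ∈ φ.fieldRange := by
    rintro _ ⟨a, rfl⟩
    exact ⟨_, (d3 a).symm⟩
  have e5 : ∀ a, L'.d a = 0 → a ∈ φ.fieldRange := fun a ha => (d4 a ha).imp fun _ h => h.2
  let Θ : GG L'.L := fun j => ofSuppBddBelow (fun n => if 0 < n then θ (some (j, n)) else 0)
    ⟨1, fun n hn => by by_contra h; exact hn (if_neg (by omega))⟩
  have e6 : ∀ j n, (Θ j).coeff n = if 0 < n then θ (some (j, n)) else 0 := fun _ _ => rfl
  have e7 : ∀ j, O 1 (Θ j) := fun j n hn => (e6 j n).trans (if_neg (by omega))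
  choose h e8 e9 e10 e11 using fun j => exists_exp (ϑ := eul (Θ j)) ((e7 j).cw _)
  have e12 := fun j (d : Der L'.L) => e11 j d _ ((e7 j).sder d) (by ext; simp [d.mul'])
  refine hZ.rigid (E := E) (fun m n hmn => Subfield.closure_mono (Set.union_subset_union_right _
      (Set.image_mono (Finset.coe_subset.2 (Finset.insertNone.monotone (Finset.product_subset_product_right
        (Finset.Icc_subset_Icc_right (by omega))))))))
    (fun n a => closure_stable L'.d (by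
      rintro _ (h | ⟨i, -, rfl⟩)
      exacts [Subfield.subset_closure (Or.inl (e4 _ h)), Subfield.subset_closure (Or.inl (e3 i))]))
    (fun a ha => Subfield.subset_closure (Or.inl (e5 a ha))) (x := θ none) (by simp [a3])
    (by simp [a4]) (e2 0 _ Finset.none_mem_insertNone) (fun j n => Set.mem_of_eq_of_mem (d9 j n) (e1 0 _))
    (fun a j n => ?_) (fun j => by simp [X, Eigs.diag, sg_mul]) b8 (fun j a => sg_ne) e8
    (fun j => e10 j _ fun n => mul_mem (intCast_mem _ n) ?_)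
    (k := fun j => (X.κ j).coeff 0) (l := fun j => (X.ω j).coeff (-1))
    (o := fun j => (X.ω j).coeff 0) (fun j => ?_) (fun j => ?_) (fun j => ?_) fun n j hn => ?_
  · change (ee _ (E2 _ (lmap ι.f ∘ η j)) a).coeff n ∈ _
    rw [congrFun d7 j, ← lmap_ww φ, ← map_E2, ← d2, ← lmap_comp_C, ← map_ee]
    exact e1 0 _
  · rw [e6]
    split_ifs with hn
    · exact le_iSup E n.toNat (e2 _ _ (by simp [s]; omega))
    · exact zero_mem _
  · rw [← coeff_sder, X.comm, coeff_sder, (X.hκ j).coeff]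
    fin_cases j <;> simp [X, Eigs.diag, sg]
  · have := split_pos ((X.hκ j).O_neg.mono (by omega)) ((e7 j).sder L'.d) fun n hn => by
      simp [e6, hn, a3, X, Eigs.diag]
    rw [(X.hκ j).O_neg (-2) (by omega), (X.hκ j).coeff, map_zero] at this
    rw [cn_apply]
    linear_combination e12 j L'.d + h j * this
  · have := split_pos (X.hω j) ((e7 j).sder L'.t) fun n hn => by simp [e6, hn, a4, X, Eigs.diag]
    rw [show (X.ω j).coeff (-2) = -X.c j from b8 j] at this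
    rw [cn_apply]
    linear_combination e12 j L'.t + h j * this
  have f1 : h j ≠ 0 := fun h0 => by simpa [h0] using e8 j 0 one_pos
  have f2 := mem_of_mul hn f1 (x := eul (Θ j)) (by
    rw [mul_comm, eq_neg_of_add_eq_zero_right (e9 j)]
    exact neg_mem (eul_mem hn)) (n + 1)
  have f3 : θ (some (j, n + 1)) ∈ E n := by
    have := mul_mem (inv_mem (intCast_mem (E n) (n + 1))) f2
    rwa [coeff_eul, inv_mul_cancel_left₀ (Int.cast_ne_zero.2 (by omega)), e6, if_pos (by omega)]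
      at this
  obtain ⟨c, f4, a, f5⟩ := ostro L'.d e4 e5 e3 (s n) f3 (e3 _)
  choose c' f6 f7 using fun i => d4 _ (f4 i)
  refine one_ne_zero (hG.indep (s := s n) (c := fun o => o.elim 1 fun p => -c' (some p))
    (j := fun o => o.elim j Prod.fst) (n := fun o => o.elim (n + 1) Prod.snd) (c₀ := c' none)
    (f := a) ?_ (f6 _) (φ.injective ?_) Finset.none_mem_insertNone (m := n + 1) (by simp) ?_)
  · rintro (_ | p) i <;> simp [f6 _ i]
  · have := congrArg L'.d f5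
    simp only [map_sub, map_sum, DerM.mul', f4, a3, s, Finset.sum_insertNone, d3, map_add,
      Option.elim, d9, map_one, map_mul, map_neg, f7, neg_mul, Finset.sum_neg_distrib, mul_zero,
      add_zero] at this ⊢
    linear_combination -this
  · rintro (_ | p) hp hp'
    · exact absurd rfl hp'
    · simp [s] at hp ⊢
      omega

theorem not_linked {S T : Evol} (hS : S.IsXYZ) (hT : T.IsLL) : ¬ Linked S T := fun h => by
  obtain ⟨L, f, g, h⟩ := h.comm
  obtain ⟨L', ι, X, s, y, a1, a2, a3, a4, a5, a6⟩ := sys2 hS f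
  obtain ⟨Y, b1, b2, b3, b4⟩ := sys1 hT (ι.comp g)
  obtain ⟨Φ, Ψ, c1, c2, c3, c4⟩ := Diag.exists_iso a1 b1 (h L' ι)
  obtain ⟨χ, hχ⟩ := a6 _ (c2.comp (b2.comp c1))
  have key : ∀ z, X.Mor X (mulV z) → ∃ F : GG L'.L, (∀ j, sder L'.d (F j) = 0) ∧
      Y.Mor Y (mulV F) ∧ ∀ v, Φ (z * v) = F * Φ v := fun z hz => by
    have d1 := c1.comp (hz.comp c2)
    obtain ⟨F, d2, d3⟩ := Y.mul_of_comm d1.bdd d1.hD (fun j a hj => by
      rw [b3, b3]; exact sg_ne hj) fun v => by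
      have d2 := hχ (Ψ v)
      have d3 := congrArg Φ (hχ (z * Ψ v))
      simp only [LinearMap.comp_apply, mulV_apply, c4] at d2 d3 ⊢
      rw [d2, d3, mul_left_comm]
    exact ⟨F, d2, (LinearMap.ext d3 : _ = mulV F) ▸ d1, fun v => by simpa [c3] using d3 (Φ v)⟩
  obtain ⟨F, d1, d2, d3⟩ := key _ a2
  obtain ⟨G, d4, d5, d6⟩ := key _ a3
  obtain ⟨c, hc⟩ := b4 F G d1 d4 d2 d5 (by
    have e1 : (fun _ => y) * ((fun _ => y) * Ψ 1) = (fun _ => s) * ((fun _ => s) *
        ((fun _ => s) * Ψ 1)) - (4 : L'.L) • ((fun _ => s) * Ψ 1) := funext fun j => by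
      simp only [Pi.mul_apply, Pi.sub_apply, Pi.smul_apply, ← C_mul, map_ofNat]
      linear_combination Ψ 1 j * a4
    have e2 := congrFun (congrArg Φ e1) 0
    simp only [map_sub, map_smul, d3, d6, c4, Pi.mul_apply, Pi.sub_apply, Pi.smul_apply, ← C_mul,
      map_ofNat, Pi.one_apply] at e2
    linear_combination e2)
  have e1 : (fun _ => s) * Ψ (Pi.single 0 1) = c • Ψ (Pi.single 0 1) := by
    rw [← c3 (_ * _), d3, c4, ← map_smul]
    congr 1
    funext j
    fin_cases j <;> simp [hc, ← C_mul]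
  have e2 : Ψ (Pi.single 0 1) = 0 := funext fun j => by
    have := congrFun e1 j
    rw [Pi.mul_apply, Pi.smul_apply, ← C_mul, ← sub_eq_zero, ← sub_mul] at this
    exact (mul_eq_zero.1 this).resolve_left (sub_ne_zero.2 (a5 c))
  simpa [e2] using congrFun (c4 (Pi.single 0 1)) 0

end Pool.Agent.Lib.MP_dfc315_mp
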