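import Mathlib
import Pool.Agent.Lib.MP_dfc315_mp.Main

set_option autoImplicit false

namespace Pool.Agent.Lib.MP_dfc315_mp

open HahnSeries

attribute [-simp] HahnSeries.C_apply

attribute [local irreducible] lax br Bm ev cn WW fm

/-- The model comes from the formal eigenvectors of the second Lax pair. -/
structure Diag.Data {L : DF} (X : Diag L) (x : Idx → L.L) (g : L.L) (η : Fin 2 → Q (Ser L.L)) :
    Prop where
  hg : g * (x (0, 0) + x (1, 0)) = 1
  eig : Eigs (N2 L.d (ww L.L) x g) x g η X.κ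
  tim : ∀ j, M2 L.t (ww L.L) x g (η j) + X.ω j • η j = 0
  he : ∀ a j, X.e a j = ee (C ∘ x) (E2 (ww L.L) (η j)) a

theorem sys3 {S : Evol} (hS : S.IsXYZ) {L : DF} (f : DHom S.df L) :
    ∃ (L' : DF) (ι : DHom L L') (X : Diag L'), (∀ y, X.ι (TP S (ι.comp f).f y) = X.T (X.ι y)) ∧
      (∃ g η, X.Data ((ι.comp f).f ∘ S.J.x) g η) ∧
      ∀ Z, X.Mor X Z → ∃ χ : GG L'.L, ∀ y, Z y = χ * y := by
  classical
  have hP := xyz_P hS
  have hg := inv_mul_cancel₀ S.J.uv_ne
  generalize (S.J.x (0, 0) + S.J.x (1, 0))⁻¹ = g at hP hg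
  have a1 : ∀ {L : DF} (f : DHom S.df L), f.f g * ((f.f ∘ S.J.x) (0, 0) + (f.f ∘ S.J.x) (1, 0)) = 1
      ∧ (∀ a i, L.d (f.f (S.J.x (a, i))) = f.f (S.J.x (a, i + 1))) ∧
      ∀ a, L.t (f.f (S.J.x (a, 0))) = f.f (P2 S.J.x g a) := fun f =>
    ⟨by simpa using congrArg f.f hg, fun a i => by simp [f.hd],
      fun a => by simp [f.ht, Jets.evD_x, hP]⟩
  obtain ⟨η, κ, H⟩ := exists_eigs (a1 f).1 (mul_inv_cancel₀ two_ne_zero)
    (reg2 (isW L.L) L.d _ _)
  obtain ⟨ω, a2⟩ := data2 (isW L.L) L.comm (a1 f).1 (mul_inv_cancel₀ two_ne_zero) (a1 f).2.1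
    (fun a => ((a1 f).2.2 a).trans (map_P2 _ _ _ a)) H
  obtain ⟨L', ι, θ, a3, a4⟩ := exists_potentials L (σ := Option (Fin 2 × ℤ))
    (fun o => o.elim 1 fun p => (κ p.1).coeff p.2) (fun o => o.elim 0 fun p => (ω p.1).coeff p.2)
    (by
      rintro (_ | ⟨j, n⟩)
      · simp
      · exact congrArg (HahnSeries.coeff · n) (a2 j).2.1)
  obtain ⟨b1, b2, b3⟩ := a1 (ι.comp f)
  have b4 := H.map ι.f (map_N2 ι.hd _ _ _)
  have b5 : ∀ j, M2 L'.t (ww L'.L) ((ι.comp f).f ∘ S.J.x) ((ι.comp f).f g) (lmap ι.f ∘ η j) +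
      lmap ι.f (ω j) • lmap ι.f ∘ η j = 0 := fun j => funext fun i => by
    have := congrArg (lmap ι.f) (congrFun (a2 j).1 i)
    rw [Pi.add_apply, map_add, ← Function.comp_apply (f := lmap ι.f), map_M2 ι.ht, lmap_ww] at this
    rw [Pi.smul_apply, smul_eq_mul, map_mul, Pi.zero_apply, map_zero] at this
    exact this
  have b6 : ∀ j, O (-1) (lmap ι.f (ω j) - C (sg j) * tt (-2)) := fun j => by
    simpa using (a2 j).2.2.lmap ι.f
  have b8 : ∀ j, (lmap ι.f (ω j)).coeff (-2) = - -sg j := fun j => by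
    have := b6 j (-2) (by omega)
    rwa [coeff_sub, coeff_C_mul, coeff_tt, mul_one, sub_eq_zero, ← neg_neg (sg j)] at this
  have b7 : ∀ j, O (-2) (lmap ι.f (ω j)) := fun j => by
    simpa using ((b6 j).mono (by omega)).add ((O_C (sg j)).zmul (O_tt (-2)))
  rw [lmap_ww] at b4
  change Eigs (N2 _ _ ((ι.comp f).f ∘ S.J.x) ((ι.comp f).f g)) ((ι.comp f).f ∘ S.J.x)
    ((ι.comp f).f g) _ _ at b4
  have hw := isW L'.L
  let X := b4.diag b1 (fun j => E2 (ww L'.L) (lmap ι.f ∘ η j))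
    (fun j => E2_lead hw (b4 j).O_zero) (fun j => lmap ι.f (ω j)) b7
    fun j => by rw [sder_lmap ι.hd, sder_lmap ι.ht, (a2 j).2.1]
  refine ⟨L', ι, X, X.intertwine _ fun a j => ?_, ⟨_, _, b1, b4, b5, fun _ _ => rfl⟩,
    fun Z hZ => ?_⟩
  · rw [hP]
    exact lin2 hw hg b2 b3 (b4 j).eq (b5 j) (X.δ _ j) (X.δ_x _ j) a
  obtain ⟨S', φ, d1, d2, d3, d4⟩ := exists_xyz L'.d (x := (ι.comp f).f ∘ S.J.x) b2
    (S.J.aeval_injective (ι.comp f).hd)
  have hg' := inv_mul_cancel₀ S'.J.uv_ne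
  obtain ⟨η', κ', H'⟩ := exists_eigs hg' (mul_inv_cancel₀ two_ne_zero)
    (reg2 (isW S'.K) S'.J.DD S'.J.x _)
  obtain ⟨G, hG⟩ := exists_hier d1 H'
  have d5 := H'.map φ (map_N2 d3 _ _ _)
  have d6 : φ (S'.J.x (0, 0) + S'.J.x (1, 0))⁻¹ = (ι.comp f).f g := by
    rw [map_inv₀, map_add]
    exact (eq_inv_of_mul_eq_one_left (by rw [← d2] at b1; exact b1)).symm
  rw [lmap_ww, d2, d6] at d5
  obtain ⟨d7, d8⟩ := b4.unique b1 (mul_inv_cancel₀ two_ne_zero) (reg2 hw _ _ _) d5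
  have d9 : ∀ j n, ι.f ((κ j).coeff n) = φ ((κ' j).coeff n) := fun j n =>
    congrArg (HahnSeries.coeff · n) (congrFun d8 j)
  let s : ℕ → Finset (Option (Fin 2 × ℤ)) := fun n => (Finset.univ ×ˢ Finset.Icc 1 (n : ℤ)).insertNone
  let E : ℕ → Subfield L'.L := fun n => Subfield.closure (φ.fieldRange ∪ θ '' s n)
  have e1 : ∀ n a, φ a ∈ E n := fun n a => Subfield.subset_closure (Or.inl ⟨a, rfl⟩)
  have e2 : ∀ n i, i ∈ s n → θ i ∈ E n := fun n i hi => Subfield.subset_closure (Or.inr ⟨i, hi, rfl⟩)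
  have e3 : ∀ i, L'.d (θ i) ∈ φ.fieldRange := by
    rintro (_ | ⟨j, n⟩)
    · simp [a3]
    · exact ⟨_, (d9 j n).symm.trans (a3 (some (j, n))).symm⟩
  have e4 : ∀ a ∈ φ.fieldRange, L'.d a ∈ φ.fieldRange := by
    rintro _ ⟨a, rfl⟩
    exact ⟨_, (d3 a).symm⟩
  have e5 : ∀ a, L'.d a = 0 → a ∈ φ.fieldRange := fun a ha => (d4 a ha).imp fun _ h => h.2
  let Θ : GG L'.L := fun j => ofSuppBddBelow (fun n => if 0 < n then θ (some (j, n)) else 0)
    ⟨1, fun n hn => by by_contra h; exact hn (if_neg (by omega))⟩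
  have e6 : ∀ j n, (Θ j).coeff n = if 0 < n then θ (some (j, n)) else 0 := fun _ _ => rfl
  have e7 : ∀ j, O 1 (Θ j) := fun j n hn => (e6 j n).trans (if_neg (by omega))
  choose h e8 e9 e10 e11 using fun j => exists_exp (ϑ := eul (Θ j)) ((e7 j).cw _)
  have e12 := fun j (d : Der L'.L) => e11 j d _ ((e7 j).sder d) (by ext; simp [d.mul'])
  refine hZ.rigid (E := E) (fun m n hmn => Subfield.closure_mono (Set.union_subset_union_right _
      (Set.image_mono (Finset.coe_subset.2 (Finset.insertNone.monotone (Finset.product_subset_product_right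
        (Finset.Icc_subset_Icc_right (by omega))))))))
    (fun n a => closure_stable L'.d (by
      rintro _ (h | ⟨i, -, rfl⟩)
      exacts [Subfield.subset_closure (Or.inl (e4 _ h)), Subfield.subset_closure (Or.inl (e3 i))]))
    (fun a ha => Subfield.subset_closure (Or.inl (e5 a ha))) (x := θ none) (by simp [a3])
    (by simp [a4]) (e2 0 _ Finset.none_mem_insertNone) (fun j n => Set.mem_of_eq_of_mem (d9 j n) (e1 0 _))
    (fun a j n => ?_) (fun j => by simp [X, Eigs.diag, sg_mul]) b8 (fun j a => sg_ne) e8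
    (fun j => e10 j _ fun n => mul_mem (intCast_mem _ n) ?_)
    (k := fun j => (X.κ j).coeff 0) (l := fun j => (X.ω j).coeff (-1))
    (o := fun j => (X.ω j).coeff 0) (fun j => ?_) (fun j => ?_) (fun j => ?_) fun n j hn => ?_
  · change (ee _ (E2 _ (lmap ι.f ∘ η j)) a).coeff n ∈ _
    rw [congrFun d7 j, ← lmap_ww φ, ← map_E2, ← d2, ← lmap_comp_C, ← map_ee]
    exact e1 0 _
  · rw [e6]
    split_ifs with hn
    · exact le_iSup E n.toNat (e2 _ _ (by simp [s]; omega))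
    · exact zero_mem _
  · rw [← coeff_sder, X.comm, coeff_sder, (X.hκ j).coeff]
    fin_cases j <;> simp [X, Eigs.diag, sg]
  · have := split_pos ((X.hκ j).O_neg.mono (by omega)) ((e7 j).sder L'.d) fun n hn => by
      simp [e6, hn, a3, X, Eigs.diag]
    rw [(X.hκ j).O_neg (-2) (by omega), (X.hκ j).coeff, map_zero] at this
    rw [cn_apply]
    linear_combination e12 j L'.d + h j * this
  · have := split_pos (X.hω j) ((e7 j).sder L'.t) fun n hn => by simp [e6, hn, a4, X, Eigs.diag]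
    rw [show (X.ω j).coeff (-2) = -X.c j from b8 j] at this
    rw [cn_apply]
    linear_combination e12 j L'.t + h j * this
  have f1 : h j ≠ 0 := fun h0 => by simpa [h0] using e8 j 0 one_pos
  have f2 := mem_of_mul hn f1 (x := eul (Θ j)) (by
    rw [mul_comm, eq_neg_of_add_eq_zero_right (e9 j)]
    exact neg_mem (eul_mem hn)) (n + 1)
  have f3 : θ (some (j, n + 1)) ∈ E n := by
    have := mul_mem (inv_mem (intCast_mem (E n) (n + 1))) f2
    rwa [coeff_eul, inv_mul_cancel_left₀ (Int.cast_ne_zero.2 (by omega)), e6, if_pos (by omega)]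
      at this
  obtain ⟨c, f4, a, f5⟩ := ostro L'.d e4 e5 e3 (s n) f3 (e3 _)
  choose c' f6 f7 using fun i => d4 _ (f4 i)
  refine one_ne_zero (hG.indep (s := s n) (c := fun o => o.elim 1 fun p => -c' (some p))
    (j := fun o => o.elim j Prod.fst) (n := fun o => o.elim (n + 1) Prod.snd) (c₀ := c' none)
    (f := a) ?_ (f6 _) (φ.injective ?_) Finset.none_mem_insertNone (m := n + 1) (by simp) ?_)
  · rintro (_ | p) i <;> simp [f6 _ i]
  · have := congrArg L'.d f5
    simp only [map_sub, map_sum, DerM.mul', f4, a3, s, Finset.sum_insertNone, d3, map_add,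
      Option.elim, d9, map_one, map_mul, map_neg, f7, neg_mul, Finset.sum_neg_distrib, mul_zero,
      add_zero] at this ⊢
    linear_combination -this
  · rintro (_ | p) hp hp'
    · exact absurd rfl hp'
    · simp [s] at hp ⊢
      omega

end Pool.Agent.Lib.MP_dfc315_mp
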