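import Mathlib
import Pool.Agent.Lib.MP_dfc315_mp.H41Rig
import Pool.Agent.Lib.MP_dfc315_mp.H41Mir
import Pool.Agent.Lib.MP_dfc315_mp.H41Par

set_option autoImplicit false

namespace Pool.Agent.Lib.MP_dfc315_mp

open HahnSeries

attribute [-simp] HahnSeries.C_apply

attribute [local irreducible] lax br Bm ev cn WW fm

theorem nf_spin {A : Type*} [CommRing A] {x : Idx → A} {g : A}
    (hg : g * (x (0, 0) + x (1, 0)) = 1) (j : Fin 2) :
    nf (aa x j) (sg j * g) (br (br (SS x g) (SS' x g)) (sq (bb x j))) = 0 := by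
  fin_cases j <;> simp [nf, ev_apply, SS, SS', aa, bb, sg] <;> grind

theorem Diag.Data.omega {L : DF} {X : Diag L} {x : Idx → L.L} {g : L.L}
    {η : Fin 2 → Q (Ser L.L)} (h : X.Data x g η) (j : Fin 2) :
    O 0 (X.ω j - C (sg j) * tt (-2)) := by
  have hw := isW L.L
  have h0 := h.tim j
  have h1 := h.eig j
  generalize ww L.L = w at hw h0 h1
  have h2 : O (-1) w := by simpa using (hw.lead.mono (by omega)).add (O_tt (-1))
  have h3 : br (V2 (tt (-1)) (tt 1) w (C ∘ x) (C g)) (η j) =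
      -br (WW 0 (tt 1) (w - tt (-1)) (C ∘ br (SS x g) (SS' x g))) (η j) -
      (tt (-1) : Ser L.L) • br (C ∘ br (SS x g) (SS' x g)) (η j - sq (C (bb x j))) -
      br (WW ((w - tt (-1)) * tt (-1)) (-(tt 1 * w)) (-(tt 1 * tt 1)) (C ∘ SS x g)) (η j) -
      (tt (-1) : Ser L.L) • br (C ∘ br (SS x g) (SS' x g)) (sq (C (bb x j))) -
      (tt (-2) : Ser L.L) • br (SS (C ∘ x) (C g)) (η j) := by
    rw [V2, ← tt_sq, map_br, map_SS', map_SS]
    apply vext <;> simp <;> ring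
  have h4 : nf (C (aa x j)) (C (sg j * g))
      (br (C ∘ br (SS x g) (SS' x g)) (sq (C (bb x j) : Ser L.L))) = 0 := by
    have := congrArg (C : L.L →+* Ser L.L) (nf_spin h.hg j)
    rw [← map_sq, ← map_br]
    simpa only [nf, LinearMap.smul_apply, smul_eq_mul, map_mul, map_pow, map_ev, map_zero]
      using this
  have h5 := nf_br (C_hg (hg_j h.hg j)) (η j)
  have h6 := congrArg (nf (C (aa x j)) (C (sg j * g))) h0
  have h7 : M2 L.t w x g (η j) =
      sder L.t ∘ η j - br (V2 (tt (-1)) (tt 1) w (C ∘ x) (C g)) (η j) := funext fun i => by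
    simp only [M2, lax_apply, Bm_one, Pi.sub_apply, Function.comp_apply]
  rw [h7, h3, ← Sv_j _ _ _ j] at h6
  have h8 := O_nf (aa x j) (sg j * g) (x := sder L.t ∘ η j) fun i => (h1.O_zero i).sder L.t
  have h9 := O_nf (aa x j) (sg j * g) (O_br (O_WW O.zero (O_tt 1) hw.lead
    (O_Cv (br (SS x g) (SS' x g)))) h1.O_zero)
  have h10 := (O_tt (-1)).mul (O_nf (aa x j) (sg j * g) (O_br (O_Cv (br (SS x g) (SS' x g)))
    (x := η j - sq (C (bb x j))) h1.lead))
  have h11 := O_nf (aa x j) (sg j * g) (O_br (O_WW (hw.lead.mul (O_tt (-1))) ((O_tt 1).mul h2).neg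
    (((O_tt 1).mul' (O_tt 1) (by omega)).neg) (O_Cv (SS x g))) h1.O_zero)
  have h12 := h1.norm
  convert (((h8.add (h9.mono (by omega))).add h10).add h11).neg using 1
  simp only [map_add, map_sub, map_neg, map_smul, smul_eq_mul, map_zero, map_mul, map_sg,
    map_aa, map_bb] at h4 h5 h6 h12 ⊢
  linear_combination h6 - sg j * tt (-2) * h5 - (X.ω j - sg j * tt (-2)) * h12 - tt (-1) * h4

theorem model2 {S : Evol} (hS : S.IsXYZ) {L : DF} (f : DHom S.df L) :
    ∃ X : Diag L, (∀ y, X.ι (TP S f.f y) = X.T (X.ι y)) ∧ ∃ g η, X.Data (f.f ∘ S.J.x) g η := by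
  have hP := xyz_P hS
  have hg := inv_mul_cancel₀ S.J.uv_ne
  generalize (S.J.x (0, 0) + S.J.x (1, 0))⁻¹ = g at hP hg
  have b1 : f.f g * ((f.f ∘ S.J.x) (0, 0) + (f.f ∘ S.J.x) (1, 0)) = 1 := by
    simpa using congrArg f.f hg
  have b2 : ∀ a i, L.d (f.f (S.J.x (a, i))) = f.f (S.J.x (a, i + 1)) := fun a i => by simp [f.hd]
  have b3 : ∀ a, L.t (f.f (S.J.x (a, 0))) = f.f (P2 S.J.x g a) := fun a => by
    simp [f.ht, Jets.evD_x, hP]
  have hw := isW L.L
  obtain ⟨η, κ, H⟩ := exists_eigs b1 (mul_inv_cancel₀ two_ne_zero) (reg2 hw L.d _ _)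
  obtain ⟨ω, a2⟩ := data2 hw L.comm b1 (mul_inv_cancel₀ two_ne_zero) b2
    (fun a => (b3 a).trans (map_P2 _ _ _ a)) H
  let X := H.diag b1 (fun j => E2 (ww L.L) (η j)) (fun j => E2_lead hw (H j).O_zero) ω
    (fun j => by simpa using ((a2 j).2.2.mono (by omega)).add ((O_C (sg j)).zmul (O_tt (-2))))
    fun j => (a2 j).2.1
  refine ⟨X, X.intertwine _ fun a j => ?_, _, _, b1, H, fun j => (a2 j).1, fun _ _ => rfl⟩
  rw [hP]
  exact lin2 hw hg b2 b3 (H j).eq (a2 j).1 (X.δ _ j) (X.δ_x _ j) a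

/-- The differential field with shifted time derivative. -/
abbrev DF.boost (L : DF) (c : ℤ) : DF :=
  ⟨L.L, L.d, L.t.sub (L.d.lin (LinearMap.mulLeft _ (c : L.L))), fun a => by
    simp [DerM.mul', L.comm]⟩

theorem boost_model {S : Evol} {c : ℤ} {L : DF} (f : DHom (S.boost c).df L) :
    ∃ f' : DHom S.df (L.boost c), f'.f = f.f ∧ ∀ X : Diag (L.boost c),
      (∀ y, X.ι (TP S f'.f y) = X.T (X.ι y)) → ∃ Y : Diag L,
        (∀ y, Y.ι (TP (S.boost c) f.f y) = Y.T (Y.ι y)) ∧ Y.κ = X.κ ∧ Y.c = X.c ∧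
        (∀ j, Y.ω j = X.ω j + c * X.κ j) ∧ ∀ Z, Y.Mor Y Z ↔ X.Mor X Z := by
  refine ⟨⟨f.f, f.hd, fun a => ?_⟩, rfl, fun X hX => ?_⟩
  · have := f.ht a
    rw [Jets.evD_boost] at this
    simp [this, f.hd]
  have a1 : ∀ x : Ser L.L, sder (L.boost c).t x = sder L.t x - c * sder L.d x := fun x => by
    ext n
    rw [← map_intCast (C : L.L →+* Ser L.L), coeff_sub, coeff_C_mul]
    rfl
  have a2 : O 0 (c : Ser L.L) := map_intCast (C : L.L →+* Ser L.L) c ▸ O_C _
  let Y : Diag L := ⟨X.κ, fun j => X.ω j + c * X.κ j, X.e, X.c, X.hc, X.hκ,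
    fun j => (X.hω j).add ((a2.zmul (X.hκ j).O_neg).mono (by omega)), fun j => by
      have := X.comm j
      rw [a1] at this
      rw [map_add, DerM.mul', DerM.intCast, this]
      ring, X.he⟩
  have a3 : ∀ y, Y.T y = X.T y + (c : L.L) • X.D y := fun y => funext fun j => by
    simp only [Diag.T_apply, Diag.D_apply, cn_apply, a1, Pi.add_apply, Pi.smul_apply, ← C_mul,
      map_intCast, Y]
    ring
  refine ⟨Y, Y.intertwine f fun a j => ?_, rfl, rfl, fun _ => rfl, fun Z => ⟨fun h =>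
    ⟨h.bdd, h.hD, fun y => ?_, h.rat⟩, fun h => ⟨h.bdd, h.hD, fun y => ?_, h.rat⟩⟩⟩
  · have b1 := hX (bs (a, 0))
    rw [TP, lieP_bs, X.ι_bs] at b1
    have b2 : ∀ y : Ser L.L, ((C : L.L →+* Ser L.L).comp f.f) (c : S.K) • y = (c : L.L) • y :=
      fun y => by rw [map_intCast, smul_eq_mul, ← C_mul, map_intCast]
    rw [a3, map_add, DerM.mul, DerM.intCast, Y.δ_x, Pi.add_apply, b2, smul_zero, add_zero,
      ← show _ = X.T (Y.e a) from b1]
    rfl
  · have := h.hT y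
    rw [a3, a3, map_add, map_smul, show Z (X.D y) = X.D (Z y) from h.hD y] at this
    exact add_right_cancel this
  · rw [a3, a3, map_add, map_smul, h.hD, h.hT]

theorem exists_exact {L : Type*} [Field L] {Ψ : Ser L → Ser L} {N : ℤ}
    (h : ∀ k f, O k f → O (k - N) (Ψ f)) {f : Ser L} (h0 : Ψ f ≠ 0) :
    ∃ N, (∀ k f, O k f → O (k - N) (Ψ f)) ∧ ∃ k f, O k f ∧ (Ψ f).coeff (k - N) ≠ 0 := by
  by_contra h1
  push Not at h1
  have h2 : ∀ n : ℕ, ∀ k f, O k f → O (k - (N - n)) (Ψ f) := fun n => by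
    induction n with
    | zero => simpa using h
    | succ n ih =>
      intro k f hf
      exact (O_succ.2 ⟨ih k f hf, h1 _ ih k f hf⟩).mono (by omega)
  obtain ⟨k, hk⟩ := exists_O f
  refine h0 (HahnSeries.ext (funext fun n => ?_))
  exact h2 (n + N - k + 1).toNat k f hk n (by omega)

theorem Diag.Mor.shift {L : DF} {X Y : Diag L} {Φ : GG L.L →ₗ[L.L] GG L.L} (h : X.Mor Y Φ)
    (h1 : Function.Surjective Φ) {s : Ser L.L} {F : GG L.L}
    (h2 : ∀ v, Φ ((fun _ => s) * v) = F * Φ v) {c : L.L}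
    (h3 : ∀ a, O 0 (X.ω a - C (sg a) * s - C c * X.κ a)) :
    ∃ a, O 0 (Y.ω 0 - C (sg a) * F 0 - C c * Y.κ 0) := by
  obtain ⟨a, f, h0⟩ : ∃ a f, Φ (Pi.single a f) 0 ≠ 0 := by
    by_contra h0
    push Not at h0
    obtain ⟨v, hv⟩ := h1 1
    have := congrFun hv 0
    rw [← Finset.univ_sum_single v, map_sum, Finset.sum_apply] at this
    simp [h0] at this
  obtain ⟨N, hN⟩ := h.bdd
  obtain ⟨N, a1, k, f, a2, a3⟩ := exists_exact (Ψ := fun f => Φ (Pi.single a f) 0) (N := N)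
    (fun k f hf => hN k _ (fun j => by
      rcases eq_or_ne j a with rfl | hj
      · simpa using hf
      · simpa [hj] using O.zero) 0) h0
  have a4 : (Pi.single a (sder L.t f - C c * sder L.d f +
      (X.ω a - C (sg a) * s - C c * X.κ a) * f) : GG L.L) = X.T (Pi.single a f) - (sg a : L.L) • ((fun _ => s) * Pi.single a f) -
        c • X.D (Pi.single a f) := funext fun j => by
    rcases eq_or_ne j a with rfl | hj
    · simp only [Pi.single_eq_same, Pi.sub_apply, Pi.smul_apply, Pi.mul_apply, T_apply, D_apply,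
        cn_apply, ← C_mul]
      ring
    · simp [hj, T_apply, D_apply]
  have a5 := a1 k _ (((a2.sder L.t).sub ((O_C c).zmul (a2.sder L.d))).add ((h3 a).zmul a2))
  have a6 := a1 k f a2
  simp only [a4, map_sub, map_smul, h.hT, h.hD, h2, Pi.sub_apply, Pi.smul_apply, Pi.mul_apply,
    T_apply, D_apply, cn_apply, ← C_mul] at a5
  refine ⟨a, O_of_mul a6 a3 ?_⟩
  convert (a5.sub (a6.sder L.t)).add ((O_C c).zmul (a6.sder L.d)) using 1
  · ring
  · ring

end Pool.Agent.Lib.MP_dfc315_mp
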