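import Mathlib
import Pool.Agent.Lib.MP_dfc315_mp.H41Sys

set_option autoImplicit false

namespace Pool.Agent.Lib.MP_dfc315_mp

open HahnSeries

attribute [-simp] HahnSeries.C_apply

attribute [local irreducible] lax br Bm ev cn WW fm

theorem eig_const {k : Type} [Field k] [CharZero k] {w : Ser k} {z : Idx → k} {g : k}
    (h0 : z (0, 0) = 1) (h1 : z (1, 0) = 1) (hg : g * (z (0, 0) + z (1, 0)) = 1) :
    Eig (N2 (Der.zero k) w z g) (aa z 0) (bb z 0) (sg 0 * g) (sg 0) (sq (C (bb z 0)))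
      (tt 1 - tt (-1)) := by
  have h2 := C_hg (hg_j hg 0)
  refine ⟨fun i => by simpa using O.zero, ?_, ?_, nf_sq h2⟩
  · simpa [Pole, sg] using (O_tt (R := k) 1).mono zero_le_one
  · have h3 : ∀ y : Ser k, sder (Der.zero k) y = 0 := fun _ => rfl
    simp only [aa, bb, sg, h0, h1, Matrix.cons_val_zero, one_mul, map_one, map_neg] at h2
    apply vext <;> simp [N2, U2, lax_apply, Bm_one, h3, SS, bb, h0, h1] <;> grind

theorem mem_of_dep {k : Type} [Field k] {κ F : Ser k} {e : Fin 2 → Ser k} (hκ : Pole (-1) κ)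
    (ha : e 0 ≠ 0) {p : ℕ →₀ k} {q : Idx →₀ k} (hp : p ≠ 0)
    (h : (∑ i ∈ p.support, C (p i) * κ ^ i) * F * e 0 = ∑ i ∈ q.support, C (q i) * κ ^ i.2 * e i.1)
    {N : Subfield (Ser k)} (h1 : ∀ c, C c ∈ N) (h2 : κ ∈ N) (h3 : e 1 / e 0 ∈ N) : F ∈ N := by
  have h4 : ∀ i, e i / e 0 ∈ N := Fin.forall_fin_two.2 ⟨div_self ha ▸ one_mem N, h3⟩
  have a3 := hκ.sum_ne (by simp) hp
  convert div_mem (sum_mem (t := q.support) fun i _ => mul_mem (mul_mem (h1 (q i))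
    (pow_mem h2 i.2)) (h4 i.1)) (sum_mem (t := p.support) fun i _ => mul_mem (h1 (p i))
    (pow_mem h2 i))
  simp only [← mul_div_assoc, ← Finset.sum_div, ← h]
  field_simp

open MvPolynomial in
theorem Diag.Data.spec {L : DF} {X : Diag L} {x : Idx → L.L} {g : L.L} {η : Fin 2 → Q (Ser L.L)}
    (h : X.Data x g η) (hx : ∀ a i, L.d (x (a, i)) = x (a, i + 1))
    (hi : Function.Injective (aeval x : MvPolynomial Idx L.d.ker →ₐ[_] L.L)) {F G : GG L.L}
    (hF : ∀ j, sder L.d (F j) = 0) (hG : ∀ j, sder L.d (G j) = 0) (mF : X.Mor X (mulV F))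
    (mG : X.Mor X (mulV G)) (hFG : G 0 ^ 2 = F 0 ^ 3 - 4 * F 0) (h5 : O (-2) (F 0))
    (h6 : (F 0).coeff (-2) ≠ 0) (h7 : (F 0).coeff (-1) ≠ 0) : False := by
  obtain ⟨Γ, _, ι, y, g', a7, c2, c3⟩ := exists_univ L.d.ker
  obtain ⟨φ, a5, a4, a1⟩ := c2 L.L L.d.ker.subtype x (IsUnit.of_mul_eq_one_right _ h.hg)
  replace a1 := a1 hi
  obtain ⟨ε, a6, a11, -⟩ := c2 L.d.ker (RingHom.id _) (fun i => if i.2 = 0 then 1 else 0)
    (by simpa using (by norm_num : (1 + 1 : L.d.ker) ≠ 0))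
  obtain ⟨e, t, c4⟩ := c3 0
  have a2 := (c4 L.L φ L.d (Der.zero _) (fun a => map_zero L.d) (fun a => by rw [a5]; exact a.2)
    (fun _ => rfl) (fun a i => by rw [a4, a4, hx]) fun a => (map_zero φ).symm).1
  have a3 := (c4 _ ε (Der.zero _) (Der.zero _) (fun a => rfl) (fun a => rfl)
    (fun _ => rfl) (fun a i => by rw [a11, a11]; rfl) fun a => (map_zero ε).symm).1
  replace a4 : φ ∘ y = x := funext a4
  have a8 : φ g' = g := by
    have := congrArg φ a7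
    rw [map_mul, map_add, map_one, ← Function.comp_apply (f := φ) (g := y),
      ← Function.comp_apply (f := φ) (g := y), a4] at this
    linear_combination g * this - φ g' * h.hg
  have a10 : (2 : Γ) * ι 2⁻¹ = 1 := by
    rw [← map_ofNat ι, ← map_mul, mul_inv_cancel₀ two_ne_zero, map_one]
  have hw := isW L.d.ker
  have hw' : IsW (lmap ι (ww L.d.ker)) := ⟨by simpa using congrArg (lmap ι) hw.sq,
    by simpa using hw.lead.lmap ι, fun d => HahnSeries.ext <| funext fun n =>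
      (d.comap ι).mem_ker.1 (SubfieldClass.ratCast_mem (d.comap ι).ker _)⟩
  have a12 : lmap φ (lmap ι (ww L.d.ker)) = ww L.L :=
    (HahnSeries.ext (funext fun n => a5 _)).trans (lmap_ww L.d.ker.subtype)
  have a13 : lmap ε (lmap ι (ww L.d.ker)) = ww L.d.ker := HahnSeries.ext (funext fun n => a6 _)
  obtain ⟨η', κ, H⟩ := exists_eigs a7 a10 (reg2 hw' e y g')
  have b1 := H.map φ (map_N2 a2 _ _ _)
  rw [a4, a8, a12] at b1
  obtain ⟨b3, b2⟩ := h.eig.unique h.hg (mul_inv_cancel₀ two_ne_zero) (reg2 (isW L.L) _ _ _) b1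
  have c1 := H.map ε (map_N2 a3 _ _ _)
  rw [a13] at c1
  have c2 : ε g' * ((ε ∘ y) (0, 0) + (ε ∘ y) (1, 0)) = 1 := by simpa using congrArg ε a7
  let Y := Eigs.diag (L := DF.triv L.d.ker) c1 c2 (fun j => E2 (ww L.d.ker) (lmap ε ∘ η' j))
    (fun j => E2_lead hw (c1 j).O_zero) 0 (fun _ => O.zero) fun _ => rfl
  have c5 : (ε ∘ y) (0, 0) = 1 := a11 _
  have c6 : (ε ∘ y) (1, 0) = 1 := a11 _
  obtain ⟨c7, c8⟩ := (c1 0).unique (hg_j c2 0) (sg_mul 0) (mul_inv_cancel₀ two_ne_zero)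
    (reg_j (reg2 hw _ _ _) 0) (eig_const c5 c6 c2)
  choose F' hF' using fun j => exists_lift (E := L.d.ker) (x := F j) fun n =>
    congrArg (HahnSeries.coeff · n) (hF j)
  choose G' hG' using fun j => exists_lift (E := L.d.ker) (x := G j) fun n =>
    congrArg (HahnSeries.coeff · n) (hG j)
  have key : ∀ (F : GG L.L) (F' : GG L.d.ker), (∀ j, lmap L.d.ker.subtype (F' j) = F j) →
      (∀ j, sder L.d (F j) = 0) → X.Mor X (mulV F) →
      ∃ (p : ℕ →₀ L.d.ker) (q : Idx →₀ L.d.ker), p ≠ 0 ∧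
      (∑ i ∈ p.support, HahnSeries.C (p i) * Y.κ 0 ^ i) * F' 0 * Y.e 0 0 =
        ∑ i ∈ q.support, HahnSeries.C (q i) * Y.κ 0 ^ i.2 * Y.e i.1 0 := fun F F' hF' hF mF => by
    let v : Idx → Fin 2 → Ser Γ := fun i j =>
      (cn e (κ j))^[i.2] (ee (HahnSeries.C ∘ y) (E2 (lmap ι (ww L.d.ker)) (η' j)) i.1)
    have d1 : ∀ i, (fun j => lmap φ (v i j)) = X.D^[i.2] (X.e i.1) := fun i => funext fun j => by
      rw [lmap_cn a2, X.D_iter, b2, h.he, b3, map_ee, lmap_comp_C, a4, map_E2, a12]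
    have d2 : ∀ i, (fun j => lmap ε (v i j)) = Y.D^[i.2] (Y.e i.1) := fun i => funext fun j => by
      rw [lmap_cn a3, Y.D_iter, map_ee, lmap_comp_C, map_E2, a13]
      rfl
    have d3 : ∀ j, lmap φ (lmap ι (F' j)) = F j := fun j =>
      (HahnSeries.ext (funext fun n => a5 _)).trans (hF' j)
    have d4 : ∀ j, lmap ε (lmap ι (F' j)) = F' j := fun j => HahnSeries.ext (funext fun n => a6 _)
    obtain ⟨p, q, d5, d6⟩ := spec_dep a1 ε (fun k j => lmap ι (F' j) * v (0, k) j) v (by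
      convert mF.dep 0
      · rw [map_mul, d3, congrFun (d1 _), mulV_apply,
          (Function.Commute.iterate_left (g := (F * ·)) (X.D_mul hF) _).eq, Pi.mul_apply]
      · exact congrFun (d1 _) _)
    simp only [map_mul, d4, fun i => congrFun (d2 i)] at d6
    exact ⟨p, q, triv_dep Y d5 d6⟩
  have d0 : Y.e 0 0 ≠ 0 := fun h0 => by simpa [h0] using ((Y.he 0).2 0).1
  have d1 : Y.κ 0 = tt 1 - tt (-1) := c8
  have d2 : ∀ a, Y.e a 0 = 2 * tt 1 * (ww L.d.ker + sg a * (tt (-1) + tt 1)) := fun a => by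
    change ee _ (E2 _ (lmap ε ∘ η' 0)) a = _
    rw [show lmap ε ∘ η' 0 = _ from c7]
    have e1 : ε (y (0, 0)) = 1 := c5
    have e2 : ε (y (1, 0)) = 1 := c6
    fin_cases a <;> simp [ee, E2, ev_apply, bb, sg, e1, e2] <;> ring
  have d3 : ∀ a, rf _ (Y.e a 0) = Y.e a 0 := fun a => by
    simp only [d2, map_mul, map_add, map_ofNat, map_sg, rf_w hw, rf_tt _ (by decide : Odd (1 : ℤ)),
      rf_tt _ (by decide : Odd (-1 : ℤ))]
    ring
  obtain ⟨p, q, e1, e2⟩ := key F F' hF' hF mF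
  obtain ⟨p', q', e3, e4⟩ := key G G' hG' hG mG
  refine parity (κ := Y.κ 0) (τ := Y.e 1 0 / Y.e 0 0) (F := F' 0) (G := G' 0) (c1 0).pole ?_
    (by rw [map_div₀, d3, d3]) ?_ (fun N n1 n2 n3 => ⟨mem_of_dep (e := fun a => Y.e a 0)
      (c1 0).pole d0 e1 e2 n1 n2 n3, mem_of_dep (e := fun a => Y.e a 0) (c1 0).pole d0 e3 e4 n1 n2
        n3⟩) ?_ (fun n hn => Subtype.ext ((congrArg (HahnSeries.coeff · n) (hF' 0)).trans (h5 n hn)))
       (fun h0 => h6 ?_) fun h0 => h7 ?_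
  · rw [d1, map_sub, rf_tt _ (by decide), rf_tt _ (by decide)]
    ring
  · field_simp
    have e5 := hw.sq
    have e6 := tt_inv (R := L.d.ker)
    simp only [d1, d2, sg, Matrix.cons_val_zero, Matrix.cons_val_one]
    grind
  · ext n
    have := congrArg (·.coeff n) hFG
    rw [← hF', ← hG', ← map_pow, ← map_pow, ← map_ofNat (lmap L.d.ker.subtype), ← map_mul,
      ← map_sub] at this
    exact this
  · rw [← hF', coeff_lmap, h0, map_zero]
  · rw [← hF', coeff_lmap, h0, map_zero]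

theorem cubic_rel {L : Type} [Field L] {Φ Ψ : GG L →ₗ[L] GG L} (c4 : ∀ x, Φ (Ψ x) = x)
    {s y : Ser L} (a4 : y ^ 2 = s ^ 3 - 4 * s) {F G : GG L}
    (d3 : ∀ v, Φ ((fun _ => s) * v) = F * Φ v) (d6 : ∀ v, Φ ((fun _ => y) * v) = G * Φ v) :
    G 0 ^ 2 = F 0 ^ 3 - 4 * F 0 := by
  have e1 : (fun _ => y) * ((fun _ => y) * Ψ 1) = (fun _ => s) * ((fun _ => s) *
      ((fun _ => s) * Ψ 1)) - (4 : L) • ((fun _ => s) * Ψ 1) := funext fun j => by
    simp only [Pi.mul_apply, Pi.sub_apply, Pi.smul_apply, ← C_mul, map_ofNat]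
    linear_combination Ψ 1 j * a4
  have e2 := congrFun (congrArg Φ e1) 0
  simp only [map_sub, map_smul, d3, d6, c4, Pi.mul_apply, Pi.sub_apply, Pi.smul_apply, ← C_mul,
    map_ofNat, Pi.one_apply] at e2
  linear_combination e2

theorem boost_not_linked {S T : Evol} (hS : S.IsXYZ) (hT : T.IsXYZ) {c : ℤ} (hc : c ≠ 0) :
    ¬ Linked (S.boost c) T := fun h => by
  obtain ⟨L, f, g, h⟩ := h.comm
  obtain ⟨L', ι, Y, b1, ⟨g', η', b2⟩, b3⟩ := sys3 hT g
  obtain ⟨f', a0, a1⟩ := boost_model (ι.comp f)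
  obtain ⟨X₀, a2, g₀, η₀, a3⟩ := model2 hS f'
  obtain ⟨X, a4, a5, -, a6, a7⟩ := a1 X₀ a2
  have hw := isW L'.L
  obtain ⟨a8, a9⟩ := mor2 X₀ hw a3.hg a3.he fun j => (a3.eig j).eq
  rw [← a7] at a8 a9
  obtain ⟨Φ, Ψ, c1, c2, c3, c4⟩ := Diag.exists_iso a4 b1 (h L' ι)
  have key : ∀ z, X.Mor X (mulV z) → ∃ F : GG L'.L, (∀ j, sder L'.d (F j) = 0) ∧
      Y.Mor Y (mulV F) ∧ ∀ v, Φ (z * v) = F * Φ v := fun z hz => by
    have d1 := c1.comp (hz.comp c2)
    obtain ⟨F, d2⟩ := b3 _ d1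
    refine ⟨F, fun j => ?_, (LinearMap.ext d2 : _ = mulV F) ▸ d1,
      fun v => by simpa [c3] using d2 (Φ v)⟩
    have d3 := congrFun (d1.hD 1) j
    rw [d2, d2] at d3
    simpa [Diag.D_apply, cn_apply, mul_comm] using d3
  obtain ⟨F, d1, d2, d3⟩ := key _ a8
  obtain ⟨G, d4, d5, d6⟩ := key _ a9
  obtain ⟨a, e1⟩ := c1.shift (fun x => ⟨_, c4 x⟩) d3 (c := c) fun a => by
    convert (a3.omega a).sub ((O_C (sg a)).zmul (((O_tt 1).mul (O_tt 1)).mono (by omega))) using 1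
    rw [a6, a5, map_intCast, ← tt_sq]
    ring
  have e2 : O 0 (F 0 - (C (sg a) * tt (-2) + C (sg a * (c : L'.L)) * tt (-1))) := by
    convert (O_C (sg a)).zmul (((b2.omega 0).sub e1).sub ((O_C (c : L'.L)).zmul (b2.eig 0).pole))
      using 1
    have := C_hc (sg_mul (A := L'.L) a)
    simp only [map_mul, map_neg, show (sg 0 : L'.L) = 1 from rfl, map_one]
    linear_combination (-F 0) * this
  have e3 : (sg a : L'.L) ≠ 0 := left_ne_zero_of_mul_eq_one (sg_mul a)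
  refine b2.spec (fun a i => by simp [(ι.comp g).hd]) (T.J.aeval_injective (ι.comp g).hd) d1 d4 d2
    d5 (cubic_rel c4 ?_ d3 d6) ?_ ?_ ?_
  · have := tt_inv (R := L'.L)
    have := hw.sq
    grind
  · simpa using (e2.mono (by omega)).add (((O_C (sg a)).zmul (O_tt (-2))).add
      (((O_C (sg a * (c : L'.L))).zmul (O_tt (-1))).mono (by omega)))
  · have := e2 (-2) (by omega)
    rw [coeff_sub, coeff_add, coeff_C_mul, coeff_C_mul, O_tt (-1) _ (by omega), coeff_tt,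
      sub_eq_zero] at this
    simpa [this] using e3
  · have := e2 (-1) (by omega)
    rw [coeff_sub, coeff_add, coeff_C_mul, coeff_C_mul, coeff_tt, sub_eq_zero, tt,
      coeff_single_of_ne (by omega)] at this
    simpa [this, hc] using e3

theorem not_linked_boost {S T : Evol} (hS : S.IsXYZ) (hT : T.IsLL) (c : ℤ) :
    ¬ Linked S (T.boost c) := fun h => by
  obtain ⟨L, f, g, h⟩ := h.comm
  obtain ⟨L', ι, X, s, y, a1, a2, a3, a4, a5, a6⟩ := sys2 hS f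
  obtain ⟨g', -, b0⟩ := boost_model (ι.comp g)
  obtain ⟨Y₀, b1, b2, b3, b4⟩ := sys1 hT g'
  obtain ⟨Y, b1, -, b5, -, b6⟩ := b0 Y₀ b1
  simp only [← b6, ← b5] at b2 b3 b4
  obtain ⟨Φ, Ψ, c1, c2, c3, c4⟩ := Diag.exists_iso a1 b1 (h L' ι)
  obtain ⟨χ, hχ⟩ := a6 _ (c2.comp (b2.comp c1))
  have key : ∀ z, X.Mor X (mulV z) → ∃ F : GG L'.L, (∀ j, sder L'.d (F j) = 0) ∧
      Y.Mor Y (mulV F) ∧ ∀ v, Φ (z * v) = F * Φ v := fun z hz => by
    have d1 := c1.comp (hz.comp c2)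
    obtain ⟨F, d2, d3⟩ := Y.mul_of_comm d1.bdd d1.hD (fun j a hj => by
      rw [b3, b3]; exact sg_ne hj) fun v => by
      have d2 := hχ (Ψ v)
      have d3 := congrArg Φ (hχ (z * Ψ v))
      simp only [LinearMap.comp_apply, mulV_apply, c4] at d2 d3 ⊢
      rw [d2, d3, mul_left_comm]
    exact ⟨F, d2, (LinearMap.ext d3 : _ = mulV F) ▸ d1, fun v => by simpa [c3] using d3 (Φ v)⟩
  obtain ⟨F, d1, d2, d3⟩ := key _ a2
  obtain ⟨G, d4, d5, d6⟩ := key _ a3
  obtain ⟨c, hc⟩ := b4 F G d1 d4 d2 d5 (cubic_rel c4 a4 d3 d6)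
  have e1 : (fun _ => s) * Ψ (Pi.single 0 1) = c • Ψ (Pi.single 0 1) := by
    rw [← c3 (_ * _), d3, c4, ← map_smul]
    congr 1
    funext j
    fin_cases j <;> simp [hc, ← C_mul]
  have e2 : Ψ (Pi.single 0 1) = 0 := funext fun j => by
    have := congrFun e1 j
    rw [Pi.mul_apply, Pi.smul_apply, ← C_mul, ← sub_eq_zero, ← sub_mul] at this
    exact (mul_eq_zero.1 this).resolve_left (sub_ne_zero.2 (a5 c))
  simpa [e2] using congrFun (c4 (Pi.single 0 1)) 0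

theorem drift_nls {S : Evol} (hS : S.IsDrift) : S.IsNLSType := by
  have := (xyz_nls (drift_xyz hS).1).boost 1
  rwa [Evol.boost_boost, neg_add_cancel, Evol.boost_zero] at this

theorem drift_not_linked {S T : Evol} (hS : S.IsDrift) (hT : T.IsLL ∨ T.IsSpin) :
    ¬ Linked S T := fun h => by
  obtain ⟨h1, h2⟩ := drift_xyz hS
  rcases hT with hT | hT
  · exact not_linked_boost h1 hT _ (h.boost (-1))
  · have h3 : Linked S S.mirror :=
      .trans _ _ _ h (.trans _ _ _ (spin_mirror hT) (.symm _ _ h.mirror))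
    refine boost_not_linked h1 h2 (c := 2) two_ne_zero ?_
    rw [Evol.boost_boost]
    exact h3.boost 1

end Pool.Agent.Lib.MP_dfc315_mp
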