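import Mathlib
import Pool.Agent.Lib.MP_dfc315_mp.H72Defs
import Pool.Agent.Lib.MP_dfc315_mp.H72Heat

set_option autoImplicit false

namespace Pool.Agent.Lib.MP_dfc315_mp

open Finset

section

variable {R : Type*} [CommRing R] (D : Der R)

/-- Iterates of a twisted derivation. -/
def tw (ρ y : R) : ℕ → R
  | 0 => y
  | k + 1 => D (tw ρ y k) + ρ * tw ρ y k

/-- The gauged derivatives of `u`. -/
def UU (u v : R) : ℕ → R := tw D (u * v) u

/-- The gauged derivatives of `v`. -/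
def VV (u v : R) : ℕ → R := tw D (-(u * v)) v

/-- The fluxes. -/
def fl (u v : R) : ℕ → ℕ → R
  | 0, _ => 0
  | n + 1, j => UU D u v n * VV D u v j - fl u v n (j + 1)

variable {D}

theorem D_tw (ρ y : R) (k : ℕ) : D (tw D ρ y k) = tw D ρ y (k + 1) - ρ * tw D ρ y k := by
  simp [tw]

theorem tw_flow {E : Der R} (h : ∀ a, D (E a) = E (D a)) {ρ y τ s : R} (hs : D s = 0) {m : ℕ}
    (h1 : E ρ = D τ) (h2 : E y = s * tw D ρ y m - τ * y) (k : ℕ) :
    E (tw D ρ y k) = s * tw D ρ y (k + m) - τ * tw D ρ y k := by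
  induction k with
  | zero => simpa [tw] using h2
  | succ k ih =>
    rw [show k + 1 + m = k + m + 1 by ring]
    simp only [tw, map_add, map_sub, ← h, ih, DerM.mul', h1, hs]
    ring

variable {u v : R}

theorem D_UV (i j : ℕ) : D (UU D u v i * VV D u v j) =
    UU D u v (i + 1) * VV D u v j + UU D u v i * VV D u v (j + 1) := by
  simp only [UU, VV, DerM.mul', D_tw]
  ring

theorem D_fl (n j : ℕ) : D (fl D u v n j) =
    UU D u v n * VV D u v j - (-1) ^ n * (u * VV D u v (n + j)) := by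
  induction n generalizing j with
  | zero => simp [fl, UU, tw]
  | succ n ih =>
    rw [fl, map_sub, ih, D_UV, show n + (j + 1) = n + 1 + j by ring]
    ring

theorem D_sign (n : ℕ) : D (-(-1) ^ n) = 0 := by
  rw [map_neg, neg_eq_zero]
  exact_mod_cast D.intCast ((-1) ^ n)

/-- The flows of the hierarchy. -/
def hier (D : Der R) (u v : R) (m : ℕ) : Fin 2 → R :=
  ![UU D u v m - fl D u v m 0 * u, -(-1) ^ m * VV D u v m + fl D u v m 0 * v]

variable {E : Der R} (h : ∀ a, D (E a) = E (D a)) {m : ℕ} (h1 : E u = hier D u v m 0)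
  (h2 : E v = hier D u v m 1)

include h h1 h2

theorem flow_U (k : ℕ) : E (UU D u v k) = UU D u v (k + m) - fl D u v m 0 * UU D u v k := by
  have := tw_flow h (s := 1) (ρ := u * v) (y := u) (τ := fl D u v m 0) (m := m) D.one (by
    rw [D_fl, E.mul', h1, h2]
    simp [hier, VV, tw]
    ring) (by simpa [hier, UU] using h1) k
  simpa [UU] using this

theorem flow_V (k : ℕ) :
    E (VV D u v k) = -(-1) ^ m * VV D u v (k + m) + fl D u v m 0 * VV D u v k := by
  have := tw_flow h (s := -(-1) ^ m) (ρ := -(u * v)) (y := v) (τ := -fl D u v m 0) (m := m)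
    (D_sign m) (by
    rw [map_neg, map_neg, D_fl, E.mul', h1, h2]
    simp [hier, VV, tw]
    ring) (by simpa [hier, VV] using h2) k
  simpa [VV] using this

theorem flow_UV (i j : ℕ) : E (UU D u v i * VV D u v j) =
    UU D u v (i + m) * VV D u v j - (-1) ^ m * (UU D u v i * VV D u v (j + m)) := by
  rw [E.mul', flow_U h h1 h2, flow_V h h1 h2]
  ring

end

section

variable {R : Type*} [CommRing R] {D E F : Der R} {u v : R} (h : ∀ a, D (E a) = E (D a))
  (h1 : E u = hier D u v 2 0) (h2 : E v = hier D u v 2 1)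

include h h1 h2

theorem flow_fl (n j : ℕ) : E (fl D u v n j) =
    UU D u v (n + 1) * VV D u v j - UU D u v n * VV D u v (j + 1) -
      (-1) ^ n * (UU D u v 1 * VV D u v (n + j) - UU D u v 0 * VV D u v (n + j + 1)) := by
  induction n generalizing j with
  | zero => simp [fl]
  | succ n ih =>
    rw [fl, map_sub, ih, flow_UV h h1 h2, show n + (j + 1) = n + 1 + j by ring]
    ring

theorem hier_comm (h' : ∀ a, D (F a) = F (D a)) {m : ℕ} (h3 : F u = hier D u v m 0)
    (h4 : F v = hier D u v m 1) (a : Fin 2) : E (hier D u v m a) = F (hier D u v 2 a) := by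
  have a1 : E (fl D u v m 0) = F (fl D u v 2 0) := by
    rw [flow_fl h h1 h2]
    simp only [fl, map_sub, flow_UV h' h3 h4, map_zero, zero_add, add_zero, add_comm 1 m]
    ring
  have a2 : E (-(-1) ^ m) = 0 := D_sign m
  have a3 : F (-(-1) ^ 2) = 0 := D_sign 2
  fin_cases a
  · change E (_ - _) = F (_ - _)
    simp only [map_sub, DerM.mul', flow_U h h1 h2, flow_U h' h3 h4, a1, h1, h3, add_comm 2 m]
    simp only [hier, Matrix.cons_val_zero]
    ring
  · change E (_ + _) = F (_ + _)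
    simp only [map_add, DerM.mul', flow_V h h1 h2, flow_V h' h3 h4, a1, a2, a3, h2, h4,
      add_comm 2 m]
    simp only [hier, Matrix.cons_val_one, Matrix.cons_val_zero]
    ring

theorem dens_cons (n : ℕ) : E (UU D u v n * VV D u v n) =
    D (UU D u v (n + 1) * VV D u v n - UU D u v n * VV D u v (n + 1)) := by
  rw [flow_UV h h1 h2, map_sub, D_UV, D_UV]
  ring

end

namespace Jets

variable {K : Type} [Field K] [CharZero K] {J : Jets K}

/-- The function depends only on derivatives of order less than `n`. -/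
def Lt (J : Jets K) (n : ℕ) (f : K) : Prop := ∀ a i, n ≤ i → J.p (a, i) f = 0

namespace Lt

variable {m n : ℕ} {f g : K}

theorem mono (h : J.Lt m f) (hn : m ≤ n) : J.Lt n f := fun a i hi => h a i (hn.trans hi)

theorem add (h : J.Lt n f) (h' : J.Lt n g) : J.Lt n (f + g) := fun a i hi => by
  simp [h a i hi, h' a i hi]

theorem sub (h : J.Lt n f) (h' : J.Lt n g) : J.Lt n (f - g) := fun a i hi => by
  simp [h a i hi, h' a i hi]

theorem neg (h : J.Lt n f) : J.Lt n (-f) := fun a i hi => by simp [h a i hi]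

theorem mul (h : J.Lt n f) (h' : J.Lt n g) : J.Lt n (f * g) := fun a i hi => by
  simp [h a i hi, h' a i hi]

theorem x (a : Fin 2) {i : ℕ} (h : i < n) : J.Lt n (J.x (a, i)) := fun b k hk => by
  rw [J.p_x, if_neg]
  simp only [Prod.mk.injEq]
  omega

theorem p (h : J.Lt n f) (j : Idx) : J.Lt n (J.p j f) := fun a i hi => by
  rw [J.comm, h a i hi, map_zero]

theorem D (h : J.Lt n f) : J.Lt (n + 1) (J.DD f) := fun a i hi => by
  rw [J.p_DD, h a i (by omega), if_neg (by simp; omega), h a _ (by simp; omega)]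
  simp

theorem of_D (h : J.Lt (n + 1) (J.DD f)) : J.Lt n f := by
  obtain ⟨N, hN⟩ : ∃ N, ∀ j ∈ J.supp f, j.2 < N :=
    ⟨(J.supp f).sup Prod.snd + 1, fun j hj => Nat.lt_succ_of_le (le_sup hj)⟩
  have key : ∀ k a i, n ≤ i → N ≤ i + k → J.p (a, i) f = 0 := fun k => by
    induction k with
    | zero => exact fun a i _ hi => J.p_eq_zero fun h => by simpa using (hN _ h).trans_le hi
    | succ k ih =>
      intro a i h1 hi
      simpa [h a (i + 1) (by omega), ih a (i + 1) (by omega) (by omega), eq_comm] using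
        J.p_DD (a, i + 1) f
  exact fun a i hi => key N a i hi (by omega)

end Lt

theorem tw_lt {ρ : K} (hρ : J.Lt 1 ρ) (a : Fin 2) (k : ℕ) :
    J.Lt k (tw J.DD ρ (J.x (a, 0)) k - J.x (a, k)) := by
  induction k with
  | zero => intro b i _; simp [tw]
  | succ k ih =>
    have := ih.D.add ((hρ.mono (by omega)).mul ((ih.mono k.le_succ).add (Lt.x a k.lt_succ_self)))
    convert this using 1
    simp only [tw, map_sub, DD_x]
    ring

theorem tw_lt' {ρ : K} (hρ : J.Lt 1 ρ) (a : Fin 2) {k n : ℕ} (h : k < n) :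
    J.Lt n (tw J.DD ρ (J.x (a, 0)) k) := by
  simpa using ((tw_lt hρ a k).mono h.le).add (Lt.x a h)

theorem tw_top {ρ : K} (hρ : J.Lt 1 ρ) (a b : Fin 2) (k : ℕ) :
    J.p (b, k) (tw J.DD ρ (J.x (a, 0)) k) = if b = a then 1 else 0 := by
  have := tw_lt hρ a k b k le_rfl
  rw [map_sub, sub_eq_zero] at this
  simp [this, J.p_x]

theorem rho_lt : J.Lt 1 (J.x (0, 0) * J.x (1, 0)) := (Lt.x 0 one_pos).mul (Lt.x 1 one_pos)

theorem fl_lt (n j : ℕ) : J.Lt (n + j) (fl J.DD (J.x (0, 0)) (J.x (1, 0)) n j) := by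
  induction n generalizing j with
  | zero => intro b i _; simp [fl]
  | succ n ih =>
    exact ((tw_lt' rho_lt 0 (by omega)).mul (tw_lt' rho_lt.neg 1 (by omega))).sub
      ((ih (j + 1)).mono (by omega))

theorem hier_order {m : ℕ} (hm : 0 < m) :
    J.HasOrder (hier J.DD (J.x (0, 0)) (J.x (1, 0)) m) m := by
  have a1 := fl_lt (J := J) m 0
  refine ⟨fun a ⟨b, i⟩ hi => ?_, 0, 0, ?_⟩
  · refine (?_ : J.Lt (m + 1) _) b i (by simpa using hi)
    fin_cases a
    · exact (tw_lt' rho_lt 0 (by omega)).sub ((a1.mono (by omega)).mul (Lt.x 0 (by omega)))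
    · refine Lt.add (Lt.mul (fun b i _ => ?_) (tw_lt' rho_lt.neg 1 (by omega)))
        ((a1.mono (by omega)).mul (Lt.x 1 (by omega)))
      exact D_sign (D := J.pD (b, i)) m
  · change J.p _ (_ - _) ≠ 0
    rw [map_sub, (a1.mul (Lt.x 0 hm)) 0 m le_rfl, UU, tw_top rho_lt]
    simp

theorem dif_one {L M : Type*} [CommRing L] [AddCommGroup M] [Module L M] (φ : K →+* L)
    (m : Idx → M) {f : K} {j : Idx} (h : J.DependsOn f {j}) :
    J.dif φ m f = φ (J.p j f) • m j := by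
  rw [J.dif_eq φ m (s := {j}) fun i hi => by
    by_contra h1
    simp [supp, h i (by simpa using h1)] at hi]
  simp

theorem p_two (j : Idx) : J.p j 2 = 0 := (J.pD j).ofNat 2

theorem DependsOn.p {f : K} {s : Set Idx} (h : J.DependsOn f s) (j : Idx) :
    J.DependsOn (J.p j f) s := fun i hi => by rw [J.comm, h i hi, map_zero]

end Jets

theorem gauge_P {S : Evol} (hS : S.IsGauge) : S.P = hier S.J.DD (S.u 0) (S.v 0) 2 := by
  funext a
  fin_cases a
  · refine hS.1.trans ?_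
    simp [hier, fl, UU, VV, tw, DerM.mul']
    ring
  · refine hS.2.trans ?_
    simp [hier, fl, UU, VV, tw, DerM.mul']
    ring

theorem gauge_symm {S : Evol} (hS : S.IsGauge) (m : ℕ) :
    S.IsSymmetry (hier S.J.DD (S.u 0) (S.v 0) m) := fun a => by
  rw [Evol.Dt, Jets.ev_eq, Jets.ev_eq, gauge_P hS]
  exact hier_comm (S.J.DD_evD _) (S.J.evD_x _ 0 0) (S.J.evD_x _ 1 0) (S.J.DD_evD _)
    (S.J.evD_x _ 0 0) (S.J.evD_x _ 1 0) a

theorem gauge_nonlin {S : Evol} (hS : S.IsGauge) : ¬ S.IsPointLinear := by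
  rintro ⟨Φ, Ψ, a, b, h1, h2, h3, -, h5, h6, -⟩
  have a1 := h1.p (0, 0)
  have a2 := a1.p (0, 0)
  have a3 := h2.p (1, 0)
  have a4 : ∀ {f : S.K} {j : Idx}, S.J.DependsOn f {j} →
      S.J.DD f = S.J.p j f * S.J.x (j.1, j.2 + 1) := fun h => Jets.dif_one _ _ h
  have a5 : S.Dt Φ = S.J.p (0, 0) Φ * S.P 0 := by
    rw [Evol.Dt, Jets.ev_eq]
    exact Jets.dif_one _ _ h1
  rw [a5, S.J.D_eq, a4 h1, a4 h2, DerM.mul', a4 a1, hS.1] at h6
  have a6 := congrArg (fun f => S.J.p (1, 0) (S.J.p (0, 1) f)) h6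
  have a7 : S.u 0 ≠ 0 := fun h => by simpa [S.J.p_x] using congrArg (S.J.p (0, 0)) h
  simp [S.J.p_x, (h5 _).1 _, h1 (0, 1), h2 (0, 1), a1 (0, 1), a1 (1, 0), a2 (0, 1),
    a2 (1, 0), a3 (0, 1), h3, a7, Jets.p_two] at a6

theorem gauge_nls {S : Evol} (hS : S.IsGauge) : S.IsNLSType := by
  have hP := gauge_P hS
  refine ⟨⟨fun ⟨b, i⟩ hi => ?_, fun ⟨b, i⟩ hi => ?_⟩, ⟨gauge_nonlin hS, fun n =>
    ⟨n + 1, _, n.le_succ, gauge_symm hS _, Jets.hier_order n.succ_pos⟩,
    fun n => UU S.J.DD (S.u 0) (S.v 0) n * VV S.J.DD (S.u 0) (S.v 0) n, fun n => ?_, ?_⟩,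
    _, gauge_symm hS 3, Jets.hier_order (by omega)⟩
  · have : 1 < i := by simpa using hi
    simp [hS.1, S.J.p_x, show i ≠ 0 by omega, show i ≠ 1 by omega, Jets.p_two]
  · have : 1 < i := by simpa using hi
    simp [hS.2, S.J.p_x, show i ≠ 0 by omega, show i ≠ 1 by omega, Jets.p_two]
  · rw [Evol.IsConserved, Evol.Dt, Jets.ev_eq, Jets.D_eq, hP]
    exact ⟨_, dens_cons (S.J.DD_evD _) (S.J.evD_x _ 0 0) (S.J.evD_x _ 1 0) n⟩
  intro s c c₀ f hc hc₀
  rw [Jets.D_eq]
  have b1 : ∀ {k n}, k < n → S.J.Lt n (c k * (UU S.J.DD (S.u 0) (S.v 0) k *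
      VV S.J.DD (S.u 0) (S.v 0) k)) := fun h => Jets.Lt.mul (fun _ _ _ => hc _ _)
    ((Jets.tw_lt' Jets.rho_lt 0 h).mul (Jets.tw_lt' Jets.rho_lt.neg 1 h))
  induction s using Finset.induction_on_max with
  | empty => simp
  | insert N s hN ih =>
    intro h
    rw [sum_insert fun h => lt_irrefl _ (hN _ h)] at h
    have b2 : ∀ a, S.J.p (a, N) (∑ n ∈ s, c n * (UU S.J.DD (S.u 0) (S.v 0) n *
        VV S.J.DD (S.u 0) (S.v 0) n)) = 0 := fun a => by
      rw [map_sum]
      exact sum_eq_zero fun n hn => b1 (hN n hn) a N le_rfl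
    have b3 : S.J.Lt N f := Jets.Lt.of_D fun a i hi => by
      have := congrArg (S.J.p (a, i)) h
      rw [map_add, map_add, map_sum, b1 N.lt_succ_self a i hi, hc₀, sum_eq_zero fun n hn =>
        b1 ((hN n hn).trans N.lt_succ_self) a i hi] at this
      simpa using this.symm
    have b4 : c N = 0 := by
      have := congrArg (fun y => S.J.p (0, N) (S.J.p (1, N) y)) h
      simp only [map_add, b2, hc₀ _, S.J.p_DD, b3 1 N le_rfl, map_zero, apply_ite (S.J.p _),
        (b3.p _) 0 N le_rfl, ite_self] at this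
      simpa [hc _ _, UU, VV, Jets.tw_top Jets.rho_lt, Jets.tw_top Jets.rho_lt.neg] using this
    rw [b4, zero_mul, zero_add] at h
    simpa [b4] using ih h

theorem gauge_heat {S : Evol} (hS : S.IsGauge) {L : DF} (ι : DHom S.df L) :
    Heat L (TP S ι.f) := by
  have hP := gauge_P hS
  have a0 : S.u 0 ≠ 0 := fun h => by simpa [S.J.p_x] using congrArg (S.J.p (0, 0)) h
  have a1 := flow_U (E := S.J.evD S.P) (S.J.DD_evD _)
    ((S.J.evD_x _ 0 0).trans (congrFun hP 0)) ((S.J.evD_x _ 1 0).trans (congrFun hP 1))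
  have a2 := D_tw (D := S.J.DD) (S.u 0 * S.v 0) (S.u 0)
  change ∀ k, S.J.DD (UU S.J.DD (S.u 0) (S.v 0) k) = UU S.J.DD (S.u 0) (S.v 0) (k + 1) -
    _ * UU S.J.DD (S.u 0) (S.v 0) k at a2
  have a3 : S.J.p (0, 1) (UU S.J.DD (S.u 0) (S.v 0) 1) = 1 := Jets.tw_top Jets.rho_lt 0 0 1
  have a4 : UU S.J.DD (S.u 0) (S.v 0) 0 = S.u 0 := rfl
  generalize UU S.J.DD (S.u 0) (S.v 0) = U at a1 a2 a3 a4
  rw [← a4] at a0
  obtain ⟨β, b1⟩ : ∃ β, U 1 = β * U 0 := ⟨U 1 / U 0, by field_simp⟩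
  obtain ⟨γ, b2⟩ : ∃ γ, U 2 = γ * U 0 := ⟨U 2 / U 0, by field_simp⟩
  have b3 : S.J.DD β = γ - β * β := mul_right_cancel₀ a0 (by
    have := a2 1
    rw [b1, DerM.mul', a2, b1, b2] at this
    linear_combination this)
  have b4 : S.J.evD S.P β = S.J.DD γ := mul_right_cancel₀ a0 (by
    have c1 := a2 2
    have c2 := a1 1
    rw [b2, DerM.mul', a2, b1] at c1
    rw [b1, DerM.mul', a1, b2] at c2
    linear_combination c2 - c1)
  refine ⟨dP S ι.f β, fun h0 => ?_, ι.f (2 * β), ι.f (2 * S.J.DD β), ?_⟩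
  · have c1 := DFunLike.congr_fun h0 (0, 1)
    rw [dP_apply, Finsupp.zero_apply, map_eq_zero] at c1
    rw [b1] at a3
    simp [c1, a4, S.J.p_x] at a3
  · rw [TP_dP, DP_dP, DP_dP, b4, show γ = S.J.DD β + β * β by rw [b3]; ring, map_add, DerM.mul']
    simp only [map_add, (dP S ι.f).mul, two_mul, add_smul]
    abel

end Pool.Agent.Lib.MP_dfc315_mp
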