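import Mathlib
import Pool.Agent.Lib.MP_dfc315_mp.H72Spec
import Pool.Agent.Lib.MP_dfc315_mp.H72Sys

set_option autoImplicit false

namespace Pool.Agent.Lib.MP_dfc315_mp

open HahnSeries

attribute [-simp] HahnSeries.C_apply

namespace Jets

variable {K : Type} [Field K] [CharZero K] (J : Jets K)

/-- Polynomials in `u`, `v`, `1 / (u + v)` with constant coefficients. -/
def base : Subring K :=
  Subring.closure ({c | J.IsConst c} ∪ {J.x (0, 0), J.x (1, 0), (J.x (0, 0) + J.x (1, 0))⁻¹})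

/-- Perturbations of lower weight. -/
def Pert (w : K) : Prop :=
  ∃ A ∈ J.base, ∃ B ∈ J.base, ∃ E ∈ J.base, w = A * J.x (0, 1) + B * J.x (1, 1) + E

/-- The isotropic system. -/
noncomputable def heis (a : Fin 2) : K :=
  ![1, -1] a * (J.x (a, 2) - 2 * (J.x (0, 0) + J.x (1, 0))⁻¹ * J.x (a, 1) ^ 2)

variable {J}

theorem const_base {c : K} (h : J.IsConst c) : c ∈ J.base := Subring.subset_closure (Or.inl h)

theorem u_base : J.x (0, 0) ∈ J.base := Subring.subset_closure (Or.inr (by simp))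

theorem v_base : J.x (1, 0) ∈ J.base := Subring.subset_closure (Or.inr (by simp))

theorem g_base : (J.x (0, 0) + J.x (1, 0))⁻¹ ∈ J.base := Subring.subset_closure (Or.inr (by simp))

theorem p_g (b : Fin 2) (i : ℕ) : J.p (b, i) (J.x (0, 0) + J.x (1, 0))⁻¹ =
    if i = 0 then -(J.x (0, 0) + J.x (1, 0))⁻¹ ^ 2 else 0 := by
  rw [← pD_apply, DerM.inv]
  fin_cases b <;> simp [J.p_x]

theorem base_p {w : K} (h : w ∈ J.base) : J.Lt 1 w ∧ ∀ j, J.p j w ∈ J.base := by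
  induction h using Subring.closure_induction with
  | mem x hx =>
    have h1 : ∀ a, J.Lt 1 (J.x (a, 0)) ∧ ∀ j, J.p j (J.x (a, 0)) ∈ J.base := fun a =>
      ⟨Lt.x a one_pos, fun j => by rw [J.p_x]; split_ifs <;> simp⟩
    rcases hx with hx | rfl | rfl | rfl
    · exact ⟨fun a i _ => hx _, fun j => by simp [hx j]⟩
    · exact h1 0
    · exact h1 1
    · refine ⟨fun a i hi => by rw [p_g, if_neg (by omega)], fun ⟨b, i⟩ => ?_⟩
      rw [p_g]
      split_ifs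
      exacts [neg_mem (pow_mem g_base 2), zero_mem _]
  | zero => exact ⟨fun _ _ _ => by simp, by simp⟩
  | one => exact ⟨fun _ _ _ => by simp, by simp⟩
  | add x y _ _ hx hy => exact ⟨hx.1.add hy.1, fun j => by simpa using add_mem (hx.2 j) (hy.2 j)⟩
  | neg x _ hx => exact ⟨hx.1.neg, fun j => by simpa using hx.2 j⟩
  | mul x y h1 h2 hx hy =>
    exact ⟨hx.1.mul hy.1, fun j => by
      rw [Derivation.leibniz]
      exact add_mem (mul_mem h1 (hy.2 j)) (mul_mem h2 (hx.2 j))⟩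

theorem Pert.lt {w : K} (h : J.Pert w) : J.Lt 2 w := by
  obtain ⟨A, h1, B, h2, E, h3, rfl⟩ := h
  exact ((((base_p h1).1.mono one_le_two).mul (Lt.x 0 one_lt_two)).add
    (((base_p h2).1.mono one_le_two).mul (Lt.x 1 one_lt_two))).add ((base_p h3).1.mono one_le_two)

theorem Pert.p0 {w : K} (h : J.Pert w) (b : Fin 2) : J.Pert (J.p (b, 0) w) := by
  obtain ⟨A, h1, B, h2, E, h3, rfl⟩ := h
  refine ⟨_, (base_p h1).2 (b, 0), _, (base_p h2).2 (b, 0), _, (base_p h3).2 (b, 0), ?_⟩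
  simp [J.p_x, mul_comm]

theorem Pert.p1 {w : K} (h : J.Pert w) (b : Fin 2) : J.p (b, 1) w ∈ J.base := by
  obtain ⟨A, h1, B, h2, E, h3, rfl⟩ := h
  fin_cases b <;>
    simp [J.p_x, (base_p h1).1 _ 1 le_rfl, (base_p h2).1 _ 1 le_rfl, (base_p h3).1 _ 1 le_rfl, h1, h2]

theorem p_heis (a b : Fin 2) (i : ℕ) : J.p (b, i) (J.heis a) = ![1, -1] a *
    if i = 0 then 2 * (J.x (0, 0) + J.x (1, 0))⁻¹ ^ 2 * J.x (a, 1) ^ 2 else
    if b ≠ a then 0 else if i = 1 then -4 * (J.x (0, 0) + J.x (1, 0))⁻¹ * J.x (a, 1) else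
    if i = 2 then 1 else 0 := by
  have h1 : J.p (b, i) (![1, -1] a) = 0 := by fin_cases a <;> simp
  have h2 := p_g (J := J) b i
  rw [heis]
  generalize (J.x (0, 0) + J.x (1, 0))⁻¹ = g at h2 ⊢
  simp only [Derivation.leibniz, h1, h2, map_sub, p_two, J.p_x, pow_two, smul_eq_mul, mul_zero,
    add_zero, Prod.mk.injEq]
  congr 1
  rcases eq_or_ne b a with rfl | hb
  · rcases i with _ | _ | _ | i <;> simp <;> ring
  · rcases i with _ | i <;> simp [hb]
    ring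

end Jets

/-- The linearisation of the isotropic system at a travelling solution. -/
def lh (k : Type*) [CommRing k] (a : Fin 2) (j : Idx) : k :=
  if j.2 = 0 then ![1, -1] a * 2 else if j = (a, 1) then -4 else 0

theorem lh_quad {k : Type*} [Field k] [CharZero k] {ρ : Ser k}
    (h : ric (Der.zero k) (Der.zero k) (lh k) ρ = 0) :
    ρ ^ 2 + (tt (-1) ^ 2 + 2) * ρ + 1 = 0 := by
  have h1 : sder (Der.zero k) ρ = 0 := by ext; rfl
  have h2 : (tt (-2) : Ser k) = tt (-1) * tt (-1) := by rw [tt_mul]; rfl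
  have h3 : (2 : Ser k) ≠ 0 := by
    rw [← map_ofNat (C : k →+* Ser k)]
    exact (map_ne_zero _).2 two_ne_zero
  simp [ric, lam, lo, lh, cmp_zero, DS_zero, h1, h2, ← C_mul, map_ofNat] at h
  exact mul_left_cancel₀ h3 (by linear_combination -h)

theorem pert_lin {T : Evol} {a : Fin 2} (hT : T.J.Pert (T.P a - T.J.heis a)) {L : Type} [Field L]
    (φ : T.K →+* L) : dP T φ (T.P a) = (![1, -1] a : L) • bs (a, 2) +
      (φ (T.J.p (0, 1) (T.P a)) • bs (0, 1) + φ (T.J.p (0, 0) (T.P a)) • bs (0, 0) +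
        φ (T.J.p (1, 1) (T.P a)) • bs (1, 1) + φ (T.J.p (1, 0) (T.P a)) • bs (1, 0)) := by
  ext ⟨b, i⟩
  have h1 := hT.lt b i
  rw [map_sub, Jets.p_heis, sub_eq_zero] at h1
  rw [dP_apply]
  rcases i with _ | _ | _ | i
  · fin_cases b <;> simp
  · fin_cases b <;> simp
  · rw [h1 le_rfl]
    fin_cases a <;> fin_cases b <;> simp
  · simp [h1]

open MvPolynomial in
theorem pert_not_heat {T : Evol} (hT : ∀ a, T.J.Pert (T.P a - T.J.heis a)) {L : DF}
    (g : DHom T.df L) : ∃ (L' : DF) (ι : DHom L L'), ¬ Heat L' (TP T (ι.comp g).f) := by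
  obtain ⟨L', ι, ε, e1, e2, e3⟩ := exists_trans L
  refine ⟨L', ι, ?_⟩
  let k := T.J.DD.ker
  let f := ι.comp g
  let α : MvPolynomial Unit k →+* L'.L := eval₂Hom (f.f.comp k.subtype) fun _ => ε
  have a1 : ∀ c : k, α (MvPolynomial.C c) = f.f c := fun c => eval₂Hom_C _ _ c
  have a2 : α (X ()) = ε := eval₂Hom_X' _ _ ()
  have a3 : Function.Injective α := by
    have : α = (eval₂Hom ι.f fun _ : Unit => ε).comp (map (g.f.comp k.subtype)) :=
      ringHom_ext (fun c => by simp [a1]; rfl) fun i => by simp [a2]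
    rw [this]
    exact e3.comp (map_injective _ (g.f.comp k.subtype).injective)
  have a4 : ε ≠ 0 := fun h => X_ne_zero () (a3 (by rw [a2, h, map_zero]))
  have a5 : ∀ a, L'.d (α a) = 0 := der_mvPoly_zero (L'.d.comap α)
    (fun c => by rw [DerM.comap_apply, a1, f.hd, c.2, map_zero]) fun _ => (congrArg _ a2).trans e1
  have a6 : ∀ a, L'.t (α a) = 0 := der_mvPoly_zero (L'.t.comap α)
    (fun c => by
      rw [DerM.comap_apply, a1, f.ht, ← map_zero f.f]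
      exact congrArg _ (T.J.dif_const _ _ (T.J.isConst_iff.2 c.2))) fun _ => (congrArg _ a2).trans e2
  obtain ⟨e, b1, b2⟩ := exists_der_mvPoly (Der.zero k) fun _ : Unit => 1
  obtain ⟨s, b3, b4⟩ := exists_der_mvPoly (Der.zero k) fun _ : Unit => -2
  have b5 : ∀ c, e (MvPolynomial.C c) = 0 := fun c => (b1 c).trans (map_zero _)
  have b6 : ∀ c, s (MvPolynomial.C c) = 0 := fun c => (b3 c).trans (map_zero _)
  have b7 : ∀ a, e (s a) = s (e a) := fun a => sub_eq_zero.1 (der_mvPoly_zero (e.lie s)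
    (fun c => by simp [b5, b6]) (fun i => by simp [b2, b4]) a)
  let w : Idx → MvPolynomial Unit k := fun i => e^[i.2] (![X (), 1 - X ()] i.1)
  have b8 : ∀ a, w (a, 1) = ![1, -1] a := fun a => by fin_cases a <;> simp [w, b2]
  have b9 : ∀ a, w (a, 2) = 0 := fun a => by fin_cases a <;> simp [w, b2]
  obtain ⟨Γ, _, j, y, γ, c1, c2, c3⟩ := exists_univ (MvPolynomial Unit k)
  obtain ⟨Φ, c4, c5, c6⟩ := c2 L'.L α (fun i => ε ^ i.2 * f.f (T.J.x i)) (by
    simpa only [pow_zero, one_mul, ← map_add, isUnit_iff_ne_zero, map_ne_zero] using T.J.uv_ne)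
  obtain ⟨ψ, c7, c8, -⟩ := c2 _ (MvPolynomial.C.comp constantCoeff) w (by simp [w])
  replace c6 := c6 (scale_inj T.J f.hd a3 a5 a4 e1)
  have c9 : Φ γ = f.f (T.u 0 + T.v 0)⁻¹ := by
    rw [map_inv₀, map_add]
    exact eq_inv_of_mul_eq_one_left (by simpa [c5] using congrArg Φ c1)
  have c10 : ψ γ = 1 := by simpa [c8, w] using congrArg ψ c1
  have c11 : Φ (j (X ())) = ε := (c4 _).trans a2
  have c12 : ψ (j (X ())) = 0 := by simp [c7]
  have d1 : ∀ v ∈ T.J.base, ∃ v', Φ v' = f.f v := fun v hv => by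
    refine (Subring.closure_le (t := Φ.range.comap f.f)).2 ?_ hv
    rintro _ (hx | rfl | rfl | rfl)
    · exact ⟨j (MvPolynomial.C ⟨_, T.J.DD_const hx⟩), (c4 _).trans (a1 _)⟩
    · exact ⟨y (0, 0), by simp [c5]⟩
    · exact ⟨y (1, 0), by simp [c5]⟩
    · exact ⟨γ, c9⟩
  have d2 : ∀ v, T.J.Pert v → ∃ v', Φ v' = ε ^ 2 * f.f v ∧ ψ v' = 0 := by
    rintro _ ⟨A, h1, B, h2, E, h3, rfl⟩
    obtain ⟨A', h1⟩ := d1 A h1
    obtain ⟨B', h2⟩ := d1 B h2
    obtain ⟨E', h3⟩ := d1 E h3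
    refine ⟨j (X ()) * (A' * y (0, 1) + B' * y (1, 1) + j (X ()) * E'), ?_, by simp [c12]⟩
    simp only [map_mul, map_add, h1, h2, h3, c5, c11]
    ring
  have d3 : ∀ a, ∃ P, Φ P = ε ^ 2 * f.f (T.P a) ∧ ψ P = -2 * ![1, -1] a := fun a => by
    obtain ⟨v, h1, h2⟩ := d2 _ (hT a)
    refine ⟨v + ![1, -1] a * (y (a, 2) - 2 * γ * y (a, 1) ^ 2), ?_, ?_⟩
    · fin_cases a <;> simp [h1, c5, c9, Jets.heis, map_ofNat] <;> ring
    · fin_cases a <;> norm_num [h2, c8, c10, b8, b9, map_ofNat]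
  have d4 : ∀ a (i : Idx), ∃ l, (i.2 ≤ 1 → Φ l = ε ^ (2 - i.2) * f.f (T.J.p i (T.P a))) ∧
      ψ l = MvPolynomial.C (lh k a i) := by
    rintro a ⟨b, _ | _ | i⟩
    · obtain ⟨v, h1, h2⟩ := d2 _ ((hT a).p0 b)
      rw [map_sub, Jets.p_heis] at h1
      refine ⟨v + ![1, -1] a * (2 * γ ^ 2 * y (a, 1) ^ 2), fun _ => ?_, ?_⟩
      · fin_cases a <;> simp [h1, c5, c9, map_ofNat] <;> ring
      · fin_cases a <;> simp [h2, c8, c10, b8, map_ofNat, lh]
    · obtain ⟨v, h1⟩ := d1 _ ((hT a).p1 b)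
      rw [map_sub, Jets.p_heis] at h1
      refine ⟨j (X ()) * v + ![1, -1] a * (if b = a then -4 * γ * y (a, 1) else 0), fun _ => ?_, ?_⟩
      · fin_cases a <;> fin_cases b <;> simp [h1, c5, c9, c11, map_ofNat] <;> ring
      · fin_cases a <;> fin_cases b <;> norm_num [c8, c10, c12, b8, map_ofNat, lh]
    · exact ⟨0, fun h => by omega, by simp [lh]⟩
  choose P d5 d6 using d3
  choose l d7 d8 using d4
  obtain ⟨d, t, f1⟩ := c3 P
  let d' : Der L'.L := L'.d.lin (LinearMap.mulLeft _ ε)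
  let t' : Der L'.L := L'.t.lin (LinearMap.mulLeft _ (ε ^ 2))
  have f2 : ∀ a, d' a = ε * L'.d a := fun _ => rfl
  have f3 : ∀ a, t' a = ε ^ 2 * L'.t a := fun _ => rfl
  have f4 : ∀ n, L'.d (ε ^ n) = 0 := fun n => L'.d.ker.pow_mem e1 n
  obtain ⟨f5, f6⟩ := f1 L'.L Φ d' t' (fun a => by
      simp only [f2, f3, DerM.mul', f4, e2, L'.comm]; ring) (fun a => by simp [f2, c4, a5])
    (fun a => by simp [f3, c4, a6]) (fun a i => by
      simp only [f2, c5, DerM.mul', f4, f.hd, Jets.DD_x]; ring) fun a => by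
      simp [f3, c5, d5, f.ht, Jets.evD_x]
  obtain ⟨f7, f8⟩ := f1 _ ψ e s b7 (fun a => by simp [c7, b5]) (fun a => by simp [c7, b6])
    (fun a i => by simp only [c8, w, Function.iterate_succ_apply']) fun a => by
      fin_cases a <;> norm_num [c8, d6, w, b4]
  obtain ⟨ρ, g1, g2⟩ := exists_ric d t l (h := j (MvPolynomial.C 2⁻¹)) (by
    rw [← map_ofNat (j.comp MvPolynomial.C), ← RingHom.comp_apply, ← map_mul,
      mul_inv_cancel₀ two_ne_zero, map_one])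
  obtain ⟨σ, g3, g4⟩ := exists_ric (Der.zero k) (Der.zero k) (lh k) (mul_inv_cancel₀ two_ne_zero)
  have g5 : lmap ψ ρ = lmap MvPolynomial.C σ := ric_unique (h := MvPolynomial.C 2⁻¹) (by
      rw [← map_ofNat (MvPolynomial.C : k →+* MvPolynomial Unit k), ← map_mul, mul_inv_cancel₀ two_ne_zero, map_one])
    (g1.lmap _) (g3.lmap _) (by simpa only [d8] using lmap_ric f7 f8 g2) (lmap_ric b1 b3 g4)
  refine not_heat (lieP_conn _ _) (TP_DP f) a4 e1 e2 f2 f3 (l := fun a i => Φ (l a i))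
    (fun a => ?_) (g1.lmap Φ) (lmap_ric f5 f6 g2) ?_
  · rw [TP, lieP_bs]
    change _ • dP T f.f (T.P a) = _
    rw [pert_lin (hT a), d7 a (0, 1) le_rfl, d7 a (1, 1) le_rfl, d7 a (0, 0) zero_le_one,
      d7 a (1, 0) zero_le_one]
    module
  · have h1 : ∀ {S : Type} [CommRing S] {φ : Γ →+* S} {e : Der S}, (∀ a, e (φ a) = φ (d a)) →
        ∀ i : Idx, lmap φ ((DS d)^[i.2] (![ρ, 1] i.1)) = (DS e)^[i.2] (![lmap φ ρ, 1] i.1) :=
      fun h ⟨a, i⟩ => by
        rw [(Function.Semiconj.iterate_right (lmap_DS h) i).eq]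
        fin_cases a <;> simp
    have h2 := indep_ser c6 (constantCoeff.comp ψ) (w := fun i : Idx => (DS d)^[i.2] (![ρ, 1] i.1))
      (by
        convert quad_indep (lh_quad g4) using 2 with i
        change lmap constantCoeff (lmap ψ _) = _
        rw [h1 f7, g5, show ![lmap MvPolynomial.C σ, 1] i.1 = lmap MvPolynomial.C (![σ, 1] i.1) by
          obtain ⟨a, i⟩ := i; fin_cases a <;> simp,
          ← (Function.Semiconj.iterate_right (lmap_DS b1) i.2).eq, DS, cn_zero]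
        generalize tt (-1) ^ i.2 * ![σ, 1] i.1 = z
        ext n
        simp)
    simpa only [h1 f5] using h2

theorem quart_mem {K : Type*} [CommRing K] {B : Subring K} {c : Fin 5 → K} (h : ∀ i, c i ∈ B)
    {y : K} (hy : y ∈ B) : c 0 + c 1 * y + c 2 * y ^ 2 + c 3 * y ^ 3 + c 4 * y ^ 4 ∈ B :=
  add_mem (add_mem (add_mem (add_mem (h 0) (mul_mem (h 1) hy)) (mul_mem (h 2) (pow_mem hy 2)))
    (mul_mem (h 3) (pow_mem hy 3))) (mul_mem (h 4) (pow_mem hy 4))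

theorem ll_pert {T : Evol} (hT : T.IsLL) (a : Fin 2) : T.J.Pert (T.P a - T.J.heis a) := by
  obtain ⟨c, hc, h0, h1⟩ := hT
  have h2 := fun i => Jets.const_base (hc i)
  have h3 := Jets.u_base (J := T.J)
  have h4 := Jets.v_base (J := T.J)
  have h5 := Jets.g_base (J := T.J)
  have h6 : ∀ y ∈ T.J.base, -4 * y * (T.u 0 + T.v 0)⁻¹ ^ 2 ∈ T.J.base := fun y hy =>
    mul_mem (mul_mem (neg_mem (ofNat_mem _ 4)) hy) (pow_mem h5 2)
  have h7 : ∀ y ∈ T.J.base, c 0 + c 1 * y + c 2 * y ^ 2 + c 3 * y ^ 3 + c 4 * y ^ 4 ∈ T.J.base :=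
    fun y hy => quart_mem h2 hy
  have h8 : 2 * c 4 * T.u 0 ^ 2 * T.v 0 ^ 2 + c 3 * T.u 0 * T.v 0 * (T.v 0 - T.u 0)
      - 2 * c 2 * T.u 0 * T.v 0 + c 1 * (T.u 0 - T.v 0) + 2 * c 0 ∈ T.J.base := by
    have := fun i => mul_mem (ofNat_mem T.J.base 2) (h2 i)
    exact add_mem (add_mem (sub_mem (add_mem (mul_mem (mul_mem (this 4) (pow_mem h3 2))
      (pow_mem h4 2)) (mul_mem (mul_mem (mul_mem (h2 3) h3) h4) (sub_mem h4 h3)))
      (mul_mem (mul_mem (this 2) h3) h4)) (mul_mem (h2 1) (sub_mem h3 h4))) (this 0)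
  fin_cases a
  · refine ⟨_, h6 _ h8, _, h6 _ (h7 _ h3), 0, zero_mem _, ?_⟩
    simp [h0, Jets.heis, div_eq_mul_inv]
    ring
  · refine ⟨_, h6 _ (h7 _ (neg_mem h4)), _, h6 _ h8, 0, zero_mem _, ?_⟩
    simp [h1, Jets.heis, div_eq_mul_inv]
    ring

theorem spin_pert {T : Evol} (hT : T.IsSpin) (a : Fin 2) : T.J.Pert (T.P a - T.J.heis a) := by
  obtain ⟨c, hc, h0, h1⟩ := hT
  have h2 := fun i => Jets.const_base (hc i)
  have h3 := Jets.u_base (J := T.J)
  have h4 := Jets.v_base (J := T.J)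
  have h5 := Jets.g_base (J := T.J)
  have h6 : (2⁻¹ : T.K) ∈ T.J.base := Jets.const_base fun i => by
    rw [← Jets.pD_apply, DerM.inv]
    simp
  have h7 : ∀ y ∈ T.J.base, 2 * (c 0 + c 1 * y + c 2 * y ^ 2 + c 3 * y ^ 3 + c 4 * y ^ 4) *
      (T.u 0 + T.v 0)⁻¹ ∈ T.J.base := fun y hy =>
    mul_mem (mul_mem (ofNat_mem _ 2) (quart_mem h2 hy)) h5
  have h8 : ∀ y ∈ T.J.base, (c 1 + 2 * c 2 * y + 3 * c 3 * y ^ 2 + 4 * c 4 * y ^ 3) * 2⁻¹ ∈
      T.J.base := fun y hy => mul_mem (add_mem (add_mem (add_mem (h2 1)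
    (mul_mem (mul_mem (ofNat_mem _ 2) (h2 2)) hy)) (mul_mem (mul_mem (ofNat_mem _ 3) (h2 3))
    (pow_mem hy 2))) (mul_mem (mul_mem (ofNat_mem _ 4) (h2 4)) (pow_mem hy 3))) h6
  fin_cases a
  · refine ⟨0, zero_mem _, 0, zero_mem _, _, sub_mem (h8 _ h3) (h7 _ h3), ?_⟩
    simp [h0, Jets.heis, div_eq_mul_inv]
    ring
  · refine ⟨0, zero_mem _, 0, zero_mem _, _, add_mem (h8 _ (neg_mem h4)) (h7 _ (neg_mem h4)), ?_⟩
    simp [h1, Jets.heis, div_eq_mul_inv]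
    ring

theorem gauge_not_linked {S T : Evol} (hS : S.IsGauge) (hT : T.IsLL ∨ T.IsSpin) :
    ¬ Linked S T := fun h => by
  obtain ⟨L, f, g, h⟩ := h.comm
  obtain ⟨L', ι, h1⟩ := pert_not_heat (hT.elim ll_pert spin_pert) g
  exact h1 ((gauge_heat hS (ι.comp f)).comm (h L' ι) (lieP_conn _ _) (TP_DP _))

end Pool.Agent.Lib.MP_dfc315_mp
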